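import Pool.Agent.GA.Stmts

/-!
# MP_585e9a_al, project GAUGE, row ALG: rank, primitive minors, weights; the Euler identity
-/

set_option autoImplicit false

namespace Pool.GA

open MvPolynomial

/-! ### Euler identity -/

/-- the Euler field -/
noncomputable def al_D {E : Type} (w : E →₀ ℤ) : MvPolynomial E ℂ →ₗ[ℂ] MvPolynomial E ℂ :=
  ∑ e ∈ w.support, (w e : ℂ) • (LinearMap.mulLeft ℂ (X e) ∘ₗ (pderiv e).toLinearMap)

theorem al_D_apply {E : Type} (w : E →₀ ℤ) (s : MvPolynomial E ℂ) :
    al_D w s = w.sum fun e k => (k : MvPolynomial E ℂ) * (X e * pderiv e s) := by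
  unfold al_D Finsupp.sum
  rw [LinearMap.sum_apply]
  refine Finset.sum_congr rfl fun e _ => ?_
  rw [LinearMap.smul_apply, LinearMap.comp_apply, LinearMap.mulLeft_apply]
  have h : (w e : MvPolynomial E ℂ) = C (w e : ℂ) := by simp
  show (w e : ℂ) • (X e * pderiv e s) = (w e : MvPolynomial E ℂ) * (X e * pderiv e s)
  rw [h, smul_eq_C_mul]

theorem al_D_monomial {E : Type} (w : E →₀ ℤ) (d : E →₀ ℕ) (a : ℂ) :
    al_D w (monomial d a) = (Finsupp.weight (w : E → ℤ) d : ℂ) • monomial d a := by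
  classical
  rw [al_D_apply]
  unfold Finsupp.sum
  have h1 : ∀ e, (w e : MvPolynomial E ℂ) * (X e * pderiv e (monomial d a)) =
      ((w e * d e : ℤ) : ℂ) • monomial d a := by
    intro e
    rw [X_mul_pderiv_monomial, smul_eq_C_mul, nsmul_eq_mul, ← mul_assoc]
    congr 1
    simp
  rw [Finset.sum_congr rfl fun e _ => h1 e, ← Finset.sum_smul]
  congr 1
  rw [← Int.cast_sum]
  congr 1
  rw [Finsupp.weight_apply, Finsupp.sum]
  have h2 : ∑ e ∈ w.support, w e * (d e : ℤ) = ∑ e ∈ w.support ∪ d.support, w e * (d e : ℤ) := by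
    refine Finset.sum_subset Finset.subset_union_left fun e _ he => ?_
    rw [Finsupp.notMem_support_iff.1 he, zero_mul]
  have h3 : ∑ e ∈ d.support, d e • w e = ∑ e ∈ w.support ∪ d.support, w e * (d e : ℤ) := by
    rw [← Finset.sum_subset Finset.subset_union_right fun e _ he => ?_]
    · refine Finset.sum_congr rfl fun e _ => ?_
      rw [nsmul_eq_mul, mul_comm]
    · rw [Finsupp.notMem_support_iff.1 he]
      simp
  rw [h2, h3]

theorem stmtEul : StmtEul := by
  intro E w m s hs
  rw [← al_D_apply]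
  have h1 : (m : MvPolynomial E ℂ) * s = (m : ℂ) • s := by
    rw [smul_eq_C_mul]
    congr 1
  rw [h1]
  conv_lhs => rw [s.as_sum]
  conv_rhs => rw [s.as_sum]
  rw [map_sum, Finset.smul_sum]
  refine Finset.sum_congr rfl fun d hd => ?_
  rw [al_D_monomial, hs (mem_support_iff.1 hd)]

/-! ### Factors of weighted homogeneous polynomials -/

section fac

variable {E : Type}

/-- The top component of a product. -/
theorem al_comp_mul (w : E → ℤ) {p q : MvPolynomial E ℂ} {a b : ℤ}
    (hp : ∀ d, coeff d p ≠ 0 → Finsupp.weight w d ≤ a)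
    (hq : ∀ d, coeff d q ≠ 0 → Finsupp.weight w d ≤ b) :
    weightedHomogeneousComponent w (a + b) (p * q) =
      weightedHomogeneousComponent w a p * weightedHomogeneousComponent w b q := by
  classical
  ext d
  rw [coeff_weightedHomogeneousComponent, coeff_mul, coeff_mul]
  split_ifs with h
  · refine Finset.sum_congr rfl fun x hx => ?_
    rw [Finset.HasAntidiagonal.mem_antidiagonal] at hx
    rw [coeff_weightedHomogeneousComponent, coeff_weightedHomogeneousComponent]
    have h1 : Finsupp.weight w x.1 + Finsupp.weight w x.2 = a + b := by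
      rw [← map_add, hx, h]
    by_cases h2 : coeff x.1 p = 0
    · rw [h2]
      simp
    by_cases h3 : coeff x.2 q = 0
    · rw [h3]
      simp
    have h4 := hp _ h2
    have h5 := hq _ h3
    rw [if_pos (by omega), if_pos (by omega)]
  · symm
    refine Finset.sum_eq_zero fun x hx => ?_
    rw [Finset.HasAntidiagonal.mem_antidiagonal] at hx
    rw [coeff_weightedHomogeneousComponent, coeff_weightedHomogeneousComponent]
    by_cases h1 : Finsupp.weight w x.1 = a
    · by_cases h2 : Finsupp.weight w x.2 = b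
      · exact absurd (by rw [← hx, map_add, h1, h2]) h
      · rw [if_neg h2, mul_zero]
    · rw [if_neg h1, zero_mul]

/-- The largest weight. -/
theorem al_top (w : E → ℤ) {p : MvPolynomial E ℂ} (hp : p ≠ 0) :
    ∃ a : ℤ, (∀ d, coeff d p ≠ 0 → Finsupp.weight w d ≤ a) ∧
      ∃ d, coeff d p ≠ 0 ∧ Finsupp.weight w d = a := by
  classical
  have hne : p.support.Nonempty := by
    rw [Finset.nonempty_iff_ne_empty]
    intro h
    exact hp (support_eq_empty.1 h)
  obtain ⟨d, hd, hmax⟩ := Finset.exists_max_image p.support (fun d => Finsupp.weight w d) hne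
  exact ⟨Finsupp.weight w d, fun d' hd' => hmax d' (mem_support_iff.2 hd'), d,
    mem_support_iff.1 hd, rfl⟩

/-- The largest weights of the factors of a weighted homogeneous polynomial. -/
theorem al_top_mul (w : E → ℤ) {p q : MvPolynomial E ℂ} {n : ℤ}
    (h : (p * q).IsWeightedHomogeneous w n) {a b : ℤ}
    (hp : ∀ d, coeff d p ≠ 0 → Finsupp.weight w d ≤ a)
    (hp' : ∃ d, coeff d p ≠ 0 ∧ Finsupp.weight w d = a)
    (hq : ∀ d, coeff d q ≠ 0 → Finsupp.weight w d ≤ b)
    (hq' : ∃ d, coeff d q ≠ 0 ∧ Finsupp.weight w d = b) : a + b = n := by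
  classical
  have h1 := al_comp_mul w hp hq
  have h2 : ∀ {r : MvPolynomial E ℂ} {c : ℤ}, (∃ d, coeff d r ≠ 0 ∧ Finsupp.weight w d = c) →
      weightedHomogeneousComponent w c r ≠ 0 := by
    rintro r c ⟨d, hd, hc⟩ h3
    have h4 := coeff_weightedHomogeneousComponent (w := w) c r d
    rw [h3, if_pos hc, coeff_zero] at h4
    exact hd h4.symm
  have h3 : weightedHomogeneousComponent w (a + b) (p * q) ≠ 0 := by
    rw [h1]
    exact mul_ne_zero (h2 hp') (h2 hq')
  by_contra hne
  exact h3 (h.weightedHomogeneousComponent_ne (a + b) fun h5 => hne h5)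

theorem al_weight_neg (w : E → ℤ) (d : E →₀ ℕ) :
    Finsupp.weight (fun e => -w e) d = -Finsupp.weight w d := by
  rw [Finsupp.weight_apply, Finsupp.weight_apply, Finsupp.sum, Finsupp.sum,
    ← Finset.sum_neg_distrib]
  exact Finset.sum_congr rfl fun e _ => by rw [smul_neg]

/-- A factor of a weighted homogeneous polynomial is weighted homogeneous. -/
theorem al_factor (w : E → ℤ) {p q : MvPolynomial E ℂ} {n : ℤ}
    (h : (p * q).IsWeightedHomogeneous w n) (hp : p ≠ 0) (hq : q ≠ 0) :
    ∃ a, p.IsWeightedHomogeneous w a := by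
  obtain ⟨a, ha, ha'⟩ := al_top w hp
  obtain ⟨b, hb, hb'⟩ := al_top w hq
  have hn : (p * q).IsWeightedHomogeneous (fun e => -w e) (-n) := by
    intro d hd
    rw [al_weight_neg, h hd]
  obtain ⟨a', hA, hA'⟩ := al_top (fun e => -w e) hp
  obtain ⟨b', hB, hB'⟩ := al_top (fun e => -w e) hq
  have h1 := al_top_mul w h ha ha' hb hb'
  have h2 := al_top_mul (fun e => -w e) hn hA hA' hB hB'
  refine ⟨a, fun d hd => ?_⟩
  have h3 := ha d hd
  have h4 := hA d hd
  rw [al_weight_neg] at h4
  obtain ⟨d2, hd2, hd3⟩ := hb'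
  have h5 := hB d2 hd2
  rw [al_weight_neg] at h5
  omega

/-- The cofactor. -/
theorem al_cofactor (w : E → ℤ) {p q : MvPolynomial E ℂ} {n a : ℤ}
    (h : (p * q).IsWeightedHomogeneous w n) (hp : p ≠ 0) (ha : p.IsWeightedHomogeneous w a) :
    q.IsWeightedHomogeneous w (n - a) := by
  by_cases hq : q = 0
  · rw [hq]
    exact isWeightedHomogeneous_zero _ _ _
  · rw [mul_comm] at h
    obtain ⟨b, hb⟩ := al_factor w h hq hp
    have h1 := hb.mul ha
    have h2 : b + a = n := IsWeightedHomogeneous.inj_right (mul_ne_zero hq hp) h1 h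
    have h3 : n - a = b := by omega
    rw [h3]
    exact hb

end fac

/-! ### Minors -/

theorem al_det {E ι κ : Type} (w : E → ℤ) (α : ι → ℤ) (o : κ → ℤ)
    (T : Matrix ι κ (MvPolynomial E ℂ))
    (hT : ∀ i j, (T i j).IsWeightedHomogeneous w (α i - o j)) {ρ : ℕ} (I : Fin ρ → ι)
    (f : Fin ρ → κ) :
    ((T.submatrix I f).det).IsWeightedHomogeneous w (∑ i, α (I i) - ∑ i, o (f i)) := by
  rw [Matrix.det_apply]
  refine IsWeightedHomogeneous.sum _ _ _ fun σ _ => ?_
  have h1 : (∏ i, (T.submatrix I f) (σ i) i).IsWeightedHomogeneous w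
      (∑ i, (α (I (σ i)) - o (f i))) :=
    IsWeightedHomogeneous.prod _ _ _ fun i _ => hT _ _
  have h2 : ∑ i, (α (I (σ i)) - o (f i)) = ∑ i, α (I i) - ∑ i, o (f i) := by
    rw [Finset.sum_sub_distrib, Equiv.sum_comp σ fun i => α (I i)]
  rw [h2] at h1
  rcases Int.units_eq_one_or (Equiv.Perm.sign σ) with h3 | h3
  · rw [h3, one_smul]
    exact h1
  · rw [h3, Units.neg_smul, one_smul]
    exact h1.neg

theorem stmtAlg : StmtAlg := by
  classical
  intro E ι κ _ _ w α o T hT
  -- the rank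
  let P : ℕ → Prop := fun ρ => ∃ (I : Fin ρ → ι) (f : Fin ρ → κ), (T.submatrix I f).det ≠ 0
  have hinj : ∀ {ρ : ℕ} {I : Fin ρ → ι} {f : Fin ρ → κ}, (T.submatrix I f).det ≠ 0 →
      Function.Injective I := by
    intro ρ I f hdet i j hij
    by_contra hne
    apply hdet
    refine Matrix.det_zero_of_row_eq hne ?_
    funext c
    rw [Matrix.submatrix_apply, Matrix.submatrix_apply, hij]
  have hb : ∀ ρ, P ρ → ρ ≤ Fintype.card ι := by
    rintro ρ ⟨I, f, hdet⟩
    have := Fintype.card_le_of_injective I (hinj hdet)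
    rwa [Fintype.card_fin] at this
  have h0 : P 0 := ⟨fun i => i.elim0, fun i => i.elim0, by
    rw [Matrix.det_fin_zero]
    exact one_ne_zero⟩
  obtain ⟨ρ, hρ, hmax⟩ : ∃ ρ, P ρ ∧ ¬ P (ρ + 1) := by
    by_contra hcon
    push Not at hcon
    have : ∀ n, P n := by
      intro n
      induction n with
      | zero => exact h0
      | succ n ih => exact hcon n ih
    have h1 := hb _ (this (Fintype.card ι + 1))
    omega
  obtain ⟨I, f0, hdet⟩ := hρ
  let nm : NormalizationMonoid (MvPolynomial E ℂ) :=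
    (UniqueFactorizationMonoid.strongNormalizationMonoid).toNormalizationMonoid
  let gm : NormalizedGCDMonoid (MvPolynomial E ℂ) :=
    UniqueFactorizationMonoid.toNormalizedGCDMonoid _
  obtain ⟨s, hs, hgcd⟩ := Finset.extract_gcd (s := (Finset.univ : Finset (Fin ρ → κ)))
    (fun f => (T.submatrix I f).det) ⟨f0, Finset.mem_univ _⟩
  set p : MvPolynomial E ℂ := (Finset.univ : Finset (Fin ρ → κ)).gcd
    fun f => (T.submatrix I f).det with hp
  have hs' : ∀ f, (T.submatrix I f).det = p * s f := fun f => hs f (Finset.mem_univ _)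
  have hp0 : p ≠ 0 := by
    intro h
    apply hdet
    rw [hs' f0, h, zero_mul]
  have hs0 : s f0 ≠ 0 := by
    intro h
    apply hdet
    rw [hs' f0, h, mul_zero]
  have hw0 : (p * s f0).IsWeightedHomogeneous w (∑ i, α (I i) - ∑ i, o (f0 i)) := by
    rw [← hs' f0]
    exact al_det w α o T hT I f0
  obtain ⟨a, ha⟩ := al_factor w hw0 hp0 hs0
  refine ⟨ρ, I, ∑ i, α (I i) - a, p, s, hinj hdet, hp0, ⟨f0, hs0⟩, hs', ?_, ?_, ?_⟩
  · intro f
    have h1 : (p * s f).IsWeightedHomogeneous w (∑ i, α (I i) - ∑ i, o (f i)) := by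
      rw [← hs' f]
      exact al_det w α o T hT I f
    have h2 := al_cofactor w h1 hp0 ha
    have h3 : ∑ i, α (I i) - a - ∑ i, o (f i) = ∑ i, α (I i) - ∑ i, o (f i) - a := by ring
    rw [h3]
    exact h2
  · intro d hd
    rw [isUnit_iff_dvd_one, ← hgcd]
    exact Finset.dvd_gcd fun f _ => hd f
  · intro I' f'
    by_contra h
    exact hmax ⟨I', f', h⟩

end Pool.GA
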