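import Pool.Agent.GA.Ang0

/-!
# MP_585e9a_al, project GAUGE: the angle does not depend on the presentation
-/

set_option autoImplicit false

open MeasureTheory Complex Filter
open scoped ENNReal Topology InnerProductSpace

namespace Pool.GA

namespace Sys
variable {X Y E : Type} (S : Sys X Y E)

/-- the part of the row space which comes from the rows in `J`, not in `B` -/
noncomputable def CC (B J : Finset Y) (z : E → ℂ) : Submodule ℂ (L2 X) :=
  Submodule.span ℂ (S.b J z '' {i | i ∈ J ∧ i ∉ B})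

instance (B J : Finset Y) (z : E → ℂ) : FiniteDimensional ℂ (S.CC B J z) :=
  FiniteDimensional.span_of_finite ℂ ((J.finite_toSet.subset fun _ hi => hi.1).image _)

lemma CC_le (B J : Finset Y) (h : B ⊆ J) (z : E → ℂ) : S.CC B J z ≤ S.W B z := by
  rw [S.W_eq_sup h z]
  exact le_sup_right

lemma span_b_sup {B J : Finset Y} (h : B ⊆ J) (z : E → ℂ) :
    Submodule.span ℂ (S.b J z '' (J : Set Y)) =
      S.CC B J z ⊔ Submodule.span ℂ (S.b B z '' (B : Set Y)) := by
  apply eq_of_sup_eq (A := S.W J z)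
  · intro a ha b hb
    exact S.inner_span_b ha hb
  · intro a ha c hc
    obtain ⟨u, hu, v, hv, rfl⟩ := Submodule.mem_sup.1 hc
    rw [inner_add_right, S.inner_span_b ha hu, S.inner_span_b (S.W_anti h z ha) hv, add_zero]
  · rw [← S.N_eq_sup J z, ← sup_assoc]
    unfold CC
    rw [← S.W_eq_sup h z, ← S.N_eq_sup B z]

/-- an orthonormal basis of `CC` -/
noncomputable def cb (B J : Finset Y) (z : E → ℂ) :
    Fin (Module.finrank ℂ (S.CC B J z)) → L2 X :=
  fun k => ((stdOrthonormalBasis ℂ (S.CC B J z)) k : L2 X)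

lemma cb_li (B J : Finset Y) (z : E → ℂ) : LinearIndependent ℂ (S.cb B J z) := by
  have h := (stdOrthonormalBasis ℂ (S.CC B J z)).orthonormal.linearIndependent
  exact h.map' (S.CC B J z).subtype (Submodule.ker_subtype _)

lemma cb_span (B J : Finset Y) (z : E → ℂ) :
    Submodule.span ℂ (Set.range (S.cb B J z)) = S.CC B J z := by
  have h1 : Set.range (S.cb B J z) =
      (S.CC B J z).subtype '' (Set.range (stdOrthonormalBasis ℂ (S.CC B J z))) := by
    rw [← Set.range_comp]
    rfl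
  rw [h1, ← Submodule.map_span]
  have h2 : Submodule.span ℂ (Set.range (stdOrthonormalBasis ℂ (S.CC B J z))) = ⊤ := by
    have := (stdOrthonormalBasis ℂ (S.CC B J z)).toBasis.span_eq
    rwa [OrthonormalBasis.coe_toBasis] at this
  rw [h2, Submodule.map_top, Submodule.range_subtype]

lemma cb_mem (B J : Finset Y) (z : E → ℂ) (k) : S.cb B J z k ∈ S.CC B J z :=
  ((stdOrthonormalBasis ℂ (S.CC B J z)) k).2

lemma bas_span {J K : Finset Y} (z : E → ℂ) (hK : K ⊆ J)
    (h1 : LinearIndependent ℂ fun k : K => S.b J z k)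
    (h2 : ∀ K' ⊆ J, K.card < K'.card → ¬ LinearIndependent ℂ fun k : K' => S.b J z k) :
    Submodule.span ℂ (Set.range fun k : K => S.b J z k) =
      Submodule.span ℂ (S.b J z '' (J : Set Y)) :=
  span_of_max J K (S.b J z) hK h1 h2

/-- the family of `cb` and of a basis for `B` is a basis of the span of the `b J z i`, `i ∈ J` -/
lemma sum_bas {B J K : Finset Y} (h : B ⊆ J) (z : E → ℂ) (hK : K ⊆ B)
    (h1 : LinearIndependent ℂ fun k : K => S.b B z k)
    (h2 : ∀ K' ⊆ B, K.card < K'.card → ¬ LinearIndependent ℂ fun k : K' => S.b B z k) :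
    LinearIndependent ℂ (Sum.elim (S.cb B J z) fun k : K => S.b B z k) ∧
    Submodule.span ℂ (Set.range (Sum.elim (S.cb B J z) fun k : K => S.b B z k)) =
      Submodule.span ℂ (S.b J z '' (J : Set Y)) := by
  classical
  constructor
  · rw [← gd_self_ne, gd_sumElim]
    · exact mul_ne_zero ((gd_self_ne _).2 (S.cb_li B J z)) ((gd_self_ne _).2 h1)
    · intro k i
      exact S.inner_b (S.CC_le B J h z (S.cb_mem B J z k))
    · intro k i
      rw [← inner_conj_symm, S.inner_b (S.CC_le B J h z (S.cb_mem B J z k)), map_zero]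
  · rw [Set.Sum.elim_range, Submodule.span_union, cb_span, S.bas_span z hK h1 h2, S.span_b_sup h z]

lemma exists_bas (J : Finset Y) (z : E → ℂ) : ∃ K : Finset Y, K ⊆ J ∧
    LinearIndependent ℂ (fun k : K => S.b J z k) ∧
    ∀ K' ⊆ J, K.card < K'.card → ¬ LinearIndependent ℂ fun k : K' => S.b J z k := by
  classical
  have hne : (J.powerset.filter fun K : Finset Y => LinearIndependent ℂ fun k : K => S.b J z k).Nonempty := by
    refine ⟨∅, ?_⟩
    rw [Finset.mem_filter]
    exact ⟨Finset.mem_powerset.2 (Finset.empty_subset _), linearIndependent_empty_type⟩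
  obtain ⟨K, hK, hmax⟩ := Finset.exists_max_image _ (fun K : Finset Y => K.card) hne
  rw [Finset.mem_filter, Finset.mem_powerset] at hK
  refine ⟨K, hK.1, hK.2, ?_⟩
  intro K' hK' hc hli
  have := hmax K' (Finset.mem_filter.2 ⟨Finset.mem_powerset.2 hK', hli⟩)
  omega

lemma card_bas {B J K L : Finset Y} (h : B ⊆ J) (z : E → ℂ) (hK : K ⊆ B) (hL : L ⊆ J)
    (h1 : LinearIndependent ℂ fun k : K => S.b B z k)
    (h2 : ∀ K' ⊆ B, K.card < K'.card → ¬ LinearIndependent ℂ fun k : K' => S.b B z k)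
    (h3 : LinearIndependent ℂ fun k : L => S.b J z k)
    (h4 : ∀ L' ⊆ J, L.card < L'.card → ¬ LinearIndependent ℂ fun k : L' => S.b J z k) :
    Module.finrank ℂ (S.CC B J z) + K.card = L.card := by
  obtain ⟨s1, s2⟩ := S.sum_bas h z hK h1 h2
  have s3 := S.bas_span z hL h3 h4
  have := card_eq_of_span_eq _ _ s1 h3 (s2.trans s3.symm)
  simpa using this

lemma b_congr {J : Finset Y} {z z' : E → ℂ} {i : Y} (hv : S.vec z i = S.vec z' i)
    (hW : S.W J z = S.W J z') : S.b J z i = S.b J z' i := by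
  unfold b
  rw [hv]
  have : ∀ (A A' : Submodule ℂ (L2 X)) [A.HasOrthogonalProjection] [A'.HasOrthogonalProjection],
      A = A' → A.starProjection (S.vec z' i) = A'.starProjection (S.vec z' i) := by
    intro A A' _ _ hA
    subst hA
    rfl
  rw [this _ _ hW]

lemma CC_congr {e : E} {J : Finset Y} {z z' : E → ℂ} (hJ : S.B e ⊆ J)
    (hz : ∀ e' ≠ e, z e' = z' e') : S.CC (S.B e) J z = S.CC (S.B e) J z' := by
  have hc : ∀ e', z e' ≠ z' e' → S.B e' ⊆ S.B e := by
    intro e' h
    have : e' = e := by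
      by_contra h'
      exact h (hz e' h')
    rw [this]
  have hW : S.W J z = S.W J z' := S.W_congr fun e' h => (hc e' h).trans hJ
  unfold CC
  congr 1
  ext v
  constructor
  · rintro ⟨i, hi, rfl⟩
    exact ⟨i, hi, (S.b_congr (S.vec_congr' hc hi.2) hW).symm⟩
  · rintro ⟨i, hi, rfl⟩
    exact ⟨i, hi, S.b_congr (S.vec_congr' hc hi.2) hW⟩

lemma gram_li {J : Finset Y} (K : Finset Y) (z : E → ℂ) :
    S.gram J K z z = 0 ↔ ¬ LinearIndependent ℂ fun k : K => S.b J z k := by
  classical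
  rw [← S.gram_ne J K z, not_not]

end Sys

theorem ang : StmtAng := by
  classical
  intro X Y E S e J K L z z' hJ hK hL hz g1 g2 m1 m2 g3 g4 m3 m4
  simp only [S.gram_li] at m1 m2 m3 m4
  rw [S.gram_ne] at g1 g2 g3 g4
  rw [S.ang_eq, S.ang_eq]
  obtain ⟨s1, s2⟩ := S.sum_bas hJ z hK g1 m1
  obtain ⟨s1', s2'⟩ := S.sum_bas hJ z' hK g2 m2
  have hCC := S.CC_congr hJ hz
  -- the basis of `CC` at `z'` may be replaced by the one at `z`
  have t1 : ∀ k, S.cb (S.B e) J z k ∈ S.W (S.B e) z' := by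
    intro k
    apply S.CC_le (S.B e) J hJ z'
    rw [← hCC]
    exact S.cb_mem _ _ _ k
  have t2 : ∀ k (i : K), inner ℂ (S.cb (S.B e) J z k) (S.b (S.B e) z' i) = 0 := fun k i =>
    S.inner_b (t1 k)
  have t3 : ∀ k (i : K), inner ℂ (S.cb (S.B e) J z k) (S.b (S.B e) z i) = 0 := fun k i =>
    S.inner_b (S.CC_le (S.B e) J hJ z (S.cb_mem _ _ _ k))
  have t4 : LinearIndependent ℂ (Sum.elim (S.cb (S.B e) J z) fun k : K => S.b (S.B e) z' k) := by
    rw [← gd_self_ne, gd_sumElim]
    · exact mul_ne_zero ((gd_self_ne _).2 (S.cb_li _ J z)) ((gd_self_ne _).2 g2)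
    · exact t2
    · intro k i
      rw [← inner_conj_symm, t2, map_zero]
  have t5 : Submodule.span ℂ (Set.range (Sum.elim (S.cb (S.B e) J z) fun k : K => S.b (S.B e) z' k)) =
      Submodule.span ℂ (S.b J z' '' (J : Set Y)) := by
    rw [Set.Sum.elim_range, Submodule.span_union, S.cb_span, S.bas_span z' hK g2 m2,
      S.span_b_sup hJ z', hCC]
  rw [← an_sumElim (S.cb (S.B e) J z) (S.cb_li _ _ _) _ _ t3 t2]
  exact an_span _ _ _ _ s1 t4 g3 g4 (s2.trans (S.bas_span z hL g3 m3).symm)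
    (t5.trans (S.bas_span z' hL g4 m4).symm)

theorem angGen : StmtAngGen := by
  classical
  intro X Y E S e J L z hJ hL g m
  simp only [S.gram_li] at m
  rw [S.gram_ne] at g
  obtain ⟨K, hK, h1, h2⟩ := S.exists_bas (S.B e) z
  refine ⟨K, hK, ⟨(S.gram_ne _ _ _).2 h1, fun K' hK' hc => (S.gram_li K' z).2
    (h2 K' (Finset.mem_powerset.1 hK') hc)⟩, ?_⟩
  intro z' hz g' m' K' hK' hc
  simp only [S.gram_li] at m'
  rw [S.gram_ne] at g'
  obtain ⟨K1, hK1, h1', h2'⟩ := S.exists_bas (S.B e) z'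
  have c1 := S.card_bas hJ z hK hL h1 h2 g m
  have c2 := S.card_bas hJ z' hK1 hL h1' h2' g' m'
  rw [S.CC_congr hJ hz] at c1
  rw [S.gram_li]
  exact h2' K' hK' (by omega)

end Pool.GA
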