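import Pool.Agent.GA.Stmts

/-!
# MP_585e9a_al, project GAUGE, row CB: Cauchy-Binet and traces of projections
-/

set_option autoImplicit false

open MeasureTheory Complex Filter
open scoped ENNReal Topology

namespace Pool.GA

section
variable {R κ : Type} [CommRing R] [Fintype κ] {ρ : ℕ}

theorem det_mul_exp (M : Matrix (Fin ρ) κ R) (N : Matrix κ (Fin ρ) R) :
    (M * N).det = ∑ f : Fin ρ → κ, (M.submatrix id f).det * ∏ i, N (f i) i := by
  simp only [Matrix.det_apply', Matrix.mul_apply, Finset.prod_univ_sum, Finset.mul_sum,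
    Fintype.piFinset_univ, Finset.sum_mul, Matrix.submatrix_apply, id]
  rw [Finset.sum_comm]
  refine Finset.sum_congr rfl fun f _ => Finset.sum_congr rfl fun σ _ => ?_
  rw [Finset.prod_mul_distrib, mul_assoc]

theorem cauchyBinet (M : Matrix (Fin ρ) κ R) (N : Matrix κ (Fin ρ) R) :
    ∑ f : Fin ρ → κ, (M.submatrix id f).det * (N.submatrix f id).det =
      (ρ.factorial : R) * (M * N).det := by
  have h : ∀ τ : Equiv.Perm (Fin ρ), (M * N).det =
      ∑ f : Fin ρ → κ, (M.submatrix id f).det * ((Equiv.Perm.sign τ : ℤ) * ∏ i, N (f (τ i)) i) := by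
    intro τ
    rw [det_mul_exp]
    rw [← Equiv.sum_comp (Equiv.arrowCongr τ.symm (Equiv.refl κ))]
    refine Finset.sum_congr rfl fun f _ => ?_
    have e1 : (M.submatrix id ((Equiv.arrowCongr τ.symm (Equiv.refl κ)) f)) =
        (M.submatrix id f).submatrix id τ := by
      ext i j
      simp [Equiv.arrowCongr]
    rw [e1, Matrix.det_permute']
    simp only [Equiv.arrowCongr, Equiv.coe_fn_mk, Equiv.coe_refl, Function.comp, id, Equiv.symm_symm]
    ring
  have h2 : ∑ _τ : Equiv.Perm (Fin ρ), (M * N).det = (ρ.factorial : R) * (M * N).det := by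
    rw [Finset.sum_const, Finset.card_univ, Fintype.card_perm, Fintype.card_fin, nsmul_eq_mul]
  rw [← h2, Finset.sum_congr rfl fun τ _ => h τ, Finset.sum_comm]
  refine Finset.sum_congr rfl fun f _ => ?_
  rw [← Finset.mul_sum]
  congr 1
  rw [Matrix.det_apply']
  rfl

end

theorem stmtCB : StmtCB := by
  intro κ _ ρ A B
  have h := cauchyBinet A B.conjTranspose
  rw [← h]
  refine Finset.sum_congr rfl fun f _ => ?_
  congr 1
  rw [show B.conjTranspose.submatrix f id = (B.submatrix id f).conjTranspose from rfl,
    Matrix.det_conjTranspose]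
  rfl

section
variable {κ : Type} [Fintype κ] {ρ : ℕ}

/-- Cauchy-Binet for a matrix and itself -/
theorem sum_norm_det (A : Matrix (Fin ρ) κ ℂ) :
    ((∑ f : Fin ρ → κ, ‖(A.submatrix id f).det‖ ^ 2 : ℝ) : ℂ) =
      (ρ.factorial : ℂ) * (A * A.conjTranspose).det := by
  rw [← stmtCB κ ρ A A]
  push_cast
  refine Finset.sum_congr rfl fun f _ => ?_
  rw [Complex.mul_conj, Complex.normSq_eq_norm_sq]
  push_cast
  rfl

open Classical in
/-- the case of one column -/
theorem sum_norm_det_col (A : Matrix (Fin ρ) κ ℂ) (j : κ) (hG : IsUnit (A * A.conjTranspose).det) :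
    ((∑ f : Fin ρ → κ, (∑ i, if f i = j then (1 : ℝ) else 0) * ‖(A.submatrix id f).det‖ ^ 2 : ℝ) : ℂ) =
      (ρ.factorial : ℂ) * (A * A.conjTranspose).det *
        ((fun i => (starRingEnd ℂ) (A i j)) ⬝ᵥ ((A * A.conjTranspose)⁻¹.mulVec fun i => A i j)) := by
  set G := A * A.conjTranspose with hGd
  set d : κ → ℂ := fun k => if k = j then 2 else 1 with hd
  have h1 := stmtCB κ ρ (A * Matrix.diagonal d) A
  have h2 : (A * Matrix.diagonal d) * A.conjTranspose =
      G + Matrix.replicateCol Unit (fun i => A i j) *
        Matrix.replicateRow Unit (fun i => (starRingEnd ℂ) (A i j)) := by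
    ext a b
    rw [Matrix.mul_apply, Matrix.add_apply, hGd, Matrix.mul_apply, Matrix.mul_apply]
    simp only [Matrix.mul_diagonal, Matrix.replicateCol_apply,
      Matrix.replicateRow_apply, Finset.univ_unique, Finset.sum_const, Finset.card_singleton,
      one_smul, Matrix.conjTranspose_apply]
    have : ∀ x, A a x * d x * star (A b x) =
        A a x * star (A b x) + if x = j then A a x * star (A b x) else 0 := by
      intro x
      rw [hd]
      by_cases hx : x = j
      · simp only [hx, if_true]; ring
      · simp only [hx, if_false]; ring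
    rw [Finset.sum_congr rfl fun x _ => this x, Finset.sum_add_distrib]
    simp
  rw [h2, Matrix.det_add_replicateCol_mul_replicateRow hG] at h1
  have h3 : (1 + Matrix.replicateRow Unit (fun i => (starRingEnd ℂ) (A i j)) * G⁻¹ *
      Matrix.replicateCol Unit (fun i => A i j)).det =
      1 + (fun i => (starRingEnd ℂ) (A i j)) ⬝ᵥ (G⁻¹.mulVec fun i => A i j) := by
    rw [Matrix.det_unique, Matrix.add_apply, Matrix.one_apply_eq, Matrix.mul_assoc]
    congr 1
  rw [h3] at h1
  have h4 : ∀ f : Fin ρ → κ, ((A * Matrix.diagonal d).submatrix id f).det *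
      (starRingEnd ℂ) ((A.submatrix id f).det) =
      (((1 + ∑ i, if f i = j then (1 : ℝ) else 0) * ‖(A.submatrix id f).det‖ ^ 2 : ℝ) : ℂ) := by
    intro f
    have e1 : (A * Matrix.diagonal d).submatrix id f =
        Matrix.of fun a b => d (f b) * (A.submatrix id f) a b := by
      ext a b
      simp [Matrix.mul_diagonal, mul_comm]
    rw [e1, Matrix.det_mul_row]
    by_cases hf : Function.Injective f
    · have e2 : ∏ i, d (f i) = ((1 + ∑ i, if f i = j then (1 : ℝ) else 0 : ℝ) : ℂ) := by
        by_cases hj : ∃ i, f i = j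
        · obtain ⟨i, hi⟩ := hj
          have : ∀ i', f i' = j ↔ i' = i := fun i' => ⟨fun h => hf (h.trans hi.symm), fun h => h ▸ hi⟩
          simp only [hd, this]
          rw [Finset.prod_ite_eq' , Finset.sum_ite_eq']
          simp
          norm_num
        · push Not at hj
          simp [hd, hj]
      rw [e2, mul_assoc, Complex.mul_conj, Complex.normSq_eq_norm_sq]
      push_cast
      ring
    · have : (A.submatrix id f).det = 0 := by
        simp only [Function.Injective, not_forall] at hf
        obtain ⟨a, b, hab, hne⟩ := hf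
        exact Matrix.det_zero_of_column_eq hne fun i => by simp [hab]
      simp [this]
  rw [Finset.sum_congr rfl fun f _ => h4 f] at h1
  have h5 := sum_norm_det A
  rw [← hGd] at h5
  have h6 : (∑ f : Fin ρ → κ,
      (((1 + ∑ i, if f i = j then (1 : ℝ) else 0) * ‖(A.submatrix id f).det‖ ^ 2 : ℝ) : ℂ)) =
      ((∑ f : Fin ρ → κ, ‖(A.submatrix id f).det‖ ^ 2 : ℝ) : ℂ) +
      ((∑ f : Fin ρ → κ, (∑ i, if f i = j then (1 : ℝ) else 0) * ‖(A.submatrix id f).det‖ ^ 2 : ℝ) : ℂ) := by
    push_cast
    rw [← Finset.sum_add_distrib]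
    refine Finset.sum_congr rfl fun f _ => ?_
    ring
  rw [h6, h5] at h1
  linear_combination h1

end

theorem stmtProj : StmtProj := by
  classical
  intro H κ _ _ _ _ u ρ A o V _ hu hV hdet
  set G := A * A.conjTranspose with hGd
  have hS : 0 < ∑ f : Fin ρ → κ, ‖(A.submatrix id f).det‖ ^ 2 := by
    obtain ⟨f, hf⟩ := hdet
    exact Finset.sum_pos' (fun _ _ => by positivity)
      ⟨f, Finset.mem_univ _, by positivity⟩
  have hG : IsUnit G.det := by
    rw [isUnit_iff_ne_zero]
    intro h0
    have := sum_norm_det A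
    rw [← hGd, h0, mul_zero] at this
    exact hS.ne' (by exact_mod_cast this)
  set v : Fin ρ → H := fun i => ∑ k, A i k • u k with hv
  have hvu : ∀ i j, inner ℂ (v i) (u j) = (starRingEnd ℂ) (A i j) := by
    intro i j
    simp only [hv, sum_inner, inner_smul_left]
    rw [Finset.sum_eq_single j]
    · rw [orthonormal_iff_ite.1 hu]; simp
    · intro b _ hb
      rw [orthonormal_iff_ite.1 hu]; simp [hb]
    · intro h; exact absurd (Finset.mem_univ _) h
  have huv : ∀ i j, inner ℂ (u j) (v i) = A i j := by
    intro i j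
    rw [← inner_conj_symm, hvu]; simp
  have hvv : ∀ i i', inner ℂ (v i) (v i') = G i' i := by
    intro i i'
    conv_lhs => rw [hv]
    simp only [sum_inner, inner_smul_left, hGd, Matrix.mul_apply, Matrix.conjTranspose_apply]
    refine Finset.sum_congr rfl fun k _ => ?_
    rw [show (∑ k, A i' k • u k) = v i' from rfl, huv]
    simp [mul_comm]
  -- the projection of `u j`
  have hproj : ∀ j, inner ℂ (u j) (V.starProjection (u j)) =
      (fun i => (starRingEnd ℂ) (A i j)) ⬝ᵥ (G⁻¹.mulVec fun i => A i j) := by
    intro j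
    set c : Fin ρ → ℂ := Matrix.vecMul (fun i => (starRingEnd ℂ) (A i j)) G⁻¹ with hc
    have hcG : Matrix.vecMul c G = fun i => (starRingEnd ℂ) (A i j) := by
      rw [hc, Matrix.vecMul_vecMul, Matrix.nonsing_inv_mul _ hG, Matrix.vecMul_one]
    have hp : V.starProjection (u j) = ∑ i, c i • v i := by
      refine (Submodule.eq_starProjection_of_mem_of_inner_eq_zero ?_ ?_)
      · rw [hV]
        exact Submodule.sum_mem _ fun i _ => Submodule.smul_mem _ _ (Submodule.subset_span ⟨i, rfl⟩)
      · intro w hw
        rw [hV] at hw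
        induction hw using Submodule.span_induction with
        | mem x hx =>
          obtain ⟨i, rfl⟩ := hx
          change inner ℂ (u j - ∑ i, c i • v i) (v i) = 0
          rw [inner_sub_left, huv, sum_inner]
          simp only [inner_smul_left, hvv]
          have := congrFun hcG i
          simp only [Matrix.vecMul, dotProduct] at this
          have h2 : A i j = ∑ x, (starRingEnd ℂ) (c x) * G i x := by
            have h3 : (starRingEnd ℂ) (∑ x, c x * G x i) = A i j := by rw [this]; simp
            rw [← h3, map_sum]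
            refine Finset.sum_congr rfl fun x _ => ?_
            rw [map_mul]
            congr 1
            simp only [hGd, Matrix.mul_apply, map_sum, map_mul, Matrix.conjTranspose_apply]
            refine Finset.sum_congr rfl fun k _ => ?_
            simp [mul_comm]
          rw [h2, sub_self]
        | zero => simp
        | add x y _ _ hx hy => rw [inner_add_right, hx, hy, add_zero]
        | smul a x _ hx => rw [inner_smul_right, hx, mul_zero]
    rw [hp, inner_sum]
    simp only [inner_smul_right, huv]
    rw [Matrix.dotProduct_mulVec]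
    rfl
  have key : ∀ j, (∑ f : Fin ρ → κ, ‖(A.submatrix id f).det‖ ^ 2) *
      (inner ℂ (u j) (V.starProjection (u j)) : ℂ).re =
      ∑ f : Fin ρ → κ, (∑ i, if f i = j then (1 : ℝ) else 0) * ‖(A.submatrix id f).det‖ ^ 2 := by
    intro j
    have h1 := sum_norm_det_col A j hG
    rw [← hGd, ← hproj j] at h1
    have h2 := sum_norm_det A
    rw [← hGd] at h2
    rw [← h2] at h1
    have h3 := congrArg Complex.re h1
    rw [Complex.ofReal_re, Complex.re_ofReal_mul] at h3
    exact h3.symm
  rw [eq_div_iff hS.ne', Finset.sum_mul]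
  have : ∀ j, (o j : ℝ) * (inner ℂ (u j) (V.starProjection (u j)) : ℂ).re *
      (∑ f : Fin ρ → κ, ‖(A.submatrix id f).det‖ ^ 2) =
      ∑ f : Fin ρ → κ, (∑ i, if f i = j then (o j : ℝ) else 0) * ‖(A.submatrix id f).det‖ ^ 2 := by
    intro j
    rw [mul_assoc, mul_comm (inner ℂ (u j) (V.starProjection (u j)) : ℂ).re, key j, Finset.mul_sum]
    refine Finset.sum_congr rfl fun f _ => ?_
    rw [← mul_assoc, Finset.mul_sum]
    simp
  rw [Finset.sum_congr rfl fun j _ => this j, Finset.sum_comm]
  refine Finset.sum_congr rfl fun f _ => ?_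
  rw [← Finset.sum_mul, Finset.sum_comm]
  congr 1
  push_cast
  refine Finset.sum_congr rfl fun i _ => ?_
  simp

end Pool.GA
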