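import Pool.Agent.GA.Loc5

/-!
# MP_585e9a_FRR, row CORE
-/

set_option autoImplicit false

open MeasureTheory Complex Filter
open scoped ENNReal Topology

namespace Pool.GA

theorem gam_le {X Y E : Type} {S : Sys X Y E} {e : E} {N : ℕ} (hN : ∀ ω, S.gamE e ω ≤ N) (ω : E → ℝ) :
    0 ≤ S.gam e ω ∧ S.gam e ω ≤ N := by
  unfold Sys.gam
  exact ⟨ENNReal.toReal_nonneg,
    ENNReal.toReal_le_of_le_ofReal (Nat.cast_nonneg N) (by rw [ENNReal.ofReal_natCast]; exact hN _)⟩

theorem integrable_gam (hMg : StmtMGam) (hBd : StmtBd) {X Y E : Type} [Countable X] [Countable Y] [Countable E]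
    (S : Sys X Y E) (e : E) : Integrable (S.gam e) (mu E) := by
  obtain ⟨N, hN⟩ := hBd X Y E S e
  refine Integrable.of_bound ((hMg X Y E S e).ennreal_toReal).aestronglyMeasurable N
    (Eventually.of_forall fun ω => ?_)
  rw [Real.norm_eq_abs, abs_of_nonneg (gam_le hN ω).1]
  exact (gam_le hN ω).2

theorem integrable_nu (hMn : StmtMNu) {X Y E : Type} [Countable X] [Countable Y] [Countable E]
    (S : Sys X Y E) (x : X) : Integrable (fun ω => S.nu (ph ω) x) (mu E) :=
  Integrable.of_bound (hMn X Y E S x).aestronglyMeasurable 1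
    (Eventually.of_forall fun ω => by rw [Real.norm_eq_abs]; exact abs_nu_le S _ x)

theorem core_of (hLoc : StmtLocal) (hGl : StmtGlob) (hMn : StmtMNu) (hMg : StmtMGam) (hBd : StmtBd) :
    StmtCore := by
  classical
  intro X Y E _ _ _ S w o hg
  choose N hN using hBd X Y E S
  have hmeas : Measurable (S.Phi w o) := by
    unfold Sys.Phi Finsupp.sum
    refine Measurable.add ?_ ?_
    · exact Finset.measurable_sum _ fun x _ => (hMn X Y E S x).const_mul _
    · exact Finset.measurable_sum _ fun e _ => ((hMg X Y E S e).ennreal_toReal).const_mul _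
  have hb : ∀ ω, |S.Phi w o ω| ≤ ∑ x ∈ o.support, |(o x : ℝ)| * 1 + ∑ e ∈ w.support, |(w e : ℝ)| * N e := by
    intro ω
    unfold Sys.Phi Finsupp.sum
    refine (abs_add_le _ _).trans (add_le_add ?_ ?_)
    · refine (Finset.abs_sum_le_sum_abs _ _).trans (Finset.sum_le_sum fun x _ => ?_)
      rw [abs_mul]
      exact mul_le_mul_of_nonneg_left (abs_nu_le S _ x) (abs_nonneg _)
    · refine (Finset.abs_sum_le_sum_abs _ _).trans (Finset.sum_le_sum fun e _ => ?_)
      rw [abs_mul]
      refine mul_le_mul_of_nonneg_left ?_ (abs_nonneg _)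
      rw [abs_of_nonneg (gam_le (hN e) ω).1]
      exact (gam_le (hN e) ω).2
  obtain ⟨m, hm⟩ := hGl E (S.Phi w o) _ w.support hmeas hb (fun F hF ω' => hLoc X Y E S w o hg F hF ω')
  refine ⟨m, ?_⟩
  rw [← hm]
  unfold Sys.Phi Finsupp.sum
  rw [integral_add (integrable_finsetSum _ fun x _ => (integrable_nu hMn S x).const_mul _)
    (integrable_finsetSum _ fun e _ => (integrable_gam hMg hBd S e).const_mul _),
    integral_finsetSum _ fun x _ => (integrable_nu hMn S x).const_mul _,
    integral_finsetSum _ fun e _ => (integrable_gam hMg hBd S e).const_mul _]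
  simp only [integral_const_mul]

end Pool.GA
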