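import Pool.Agent.GA.Stmts

/-!
# MP_585e9a_al, project GAUGE: row EQUI (equivariance)
-/

set_option autoImplicit false

open MeasureTheory Complex Filter
open scoped ENNReal Topology

namespace Pool.GA

namespace Equi

variable {X Y E : Type}

theorem mem_perm (g : Equiv.Perm X) (f : L2 X) :
    Memℓp (E := fun _ : X => ℂ) (fun x : X => f (g.symm x)) 2 := by
  have h : Memℓp (E := fun _ : X => ℂ) (fun x : X => f x) 2 := lp.memℓp f
  rw [memℓp_gen_iff (by norm_num)] at h ⊢
  exact (Equiv.summable_iff (f := fun x : X => ‖f x‖ ^ (2 : ENNReal).toReal) g.symm).mpr h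

/-- permutation of the coordinates -/
noncomputable def tr (g : Equiv.Perm X) (f : L2 X) : L2 X := ⟨fun x => f (g.symm x), mem_perm g f⟩

theorem tr_apply (g : Equiv.Perm X) (f : L2 X) (x : X) : tr g f x = f (g.symm x) := rfl

theorem norm_tr (g : Equiv.Perm X) (f : L2 X) : ‖tr g f‖ = ‖f‖ := by
  have h1 := lp.norm_rpow_eq_tsum (p := 2) (by norm_num) (tr g f)
  have h2 := lp.norm_rpow_eq_tsum (p := 2) (by norm_num) f
  have h3 : ∑' x, ‖tr g f x‖ ^ (2 : ENNReal).toReal = ∑' x, ‖f x‖ ^ (2 : ENNReal).toReal :=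
    Equiv.tsum_eq g.symm (fun x => ‖f x‖ ^ (2 : ENNReal).toReal)
  rw [h3, ← h2] at h1
  exact (Real.rpow_left_inj (norm_nonneg _) (norm_nonneg _) (by norm_num)).mp h1

/-- the unitary of a permutation -/
noncomputable def U (g : Equiv.Perm X) : L2 X ≃ₗᵢ[ℂ] L2 X where
  toFun := tr g
  invFun := tr g.symm
  map_add' := fun a b => rfl
  map_smul' := fun c a => rfl
  left_inv := fun f => by
    ext x
    rw [tr_apply, tr_apply, Equiv.symm_symm, Equiv.symm_apply_apply]
  right_inv := fun f => by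
    ext x
    rw [tr_apply, tr_apply, Equiv.symm_symm, Equiv.apply_symm_apply]
  norm_map' := norm_tr g

theorem U_apply (g : Equiv.Perm X) (f : L2 X) (x : X) : U g f x = f (g.symm x) := rfl

open Classical in
theorem del_apply (x y : X) : (del x : L2 X) y = if y = x then 1 else 0 := by
  unfold del
  rw [lp.single_apply, Pi.single_apply]

theorem U_del (g : Equiv.Perm X) (x : X) : U g (del x) = del (g x) := by
  ext y
  rw [U_apply, del_apply, del_apply]
  by_cases hy : y = g x
  · rw [if_pos hy, if_pos (by rw [hy]; simp)]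
  · rw [if_neg hy, if_neg (fun h' => hy ((Equiv.symm_apply_eq _).mp h'))]

theorem star_map {H : Type} [NormedAddCommGroup H] [InnerProductSpace ℂ H] {V V' : Submodule ℂ H}
    [V.HasOrthogonalProjection] [V'.HasOrthogonalProjection] (T : H ≃ₗᵢ[ℂ] H)
    (h : V' = V.map (T.toLinearEquiv : H →ₗ[ℂ] H)) (v : H) :
    V'.starProjection (T v) = T (V.starProjection v) := by
  subst h
  have h' := Submodule.starProjection_map_apply T V (T v)
  rw [T.symm_apply_apply] at h'
  exact h'

theorem closure_map {H : Type} [NormedAddCommGroup H] [InnerProductSpace ℂ H] (T : H ≃ₗᵢ[ℂ] H) (s : Set H) :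
    (Submodule.span ℂ (T '' s)).topologicalClosure =
      ((Submodule.span ℂ s).topologicalClosure).map (T.toLinearEquiv : H →ₗ[ℂ] H) := by
  have e : Submodule.span ℂ (T '' s) = (Submodule.span ℂ s).map (T.toLinearEquiv : H →ₗ[ℂ] H) := by
    rw [Submodule.map_span]
    rfl
  rw [e]
  apply SetLike.coe_injective
  rw [Submodule.topologicalClosure_coe, Submodule.map_coe, Submodule.map_coe, Submodule.topologicalClosure_coe]
  exact (T.toHomeomorph.image_closure _).symm

variable (S : Sys X Y E)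

open Classical in
theorem vec_apply (z : E → ℂ) (i : Y) (x : X) : S.vec z i x = MvPolynomial.eval z (S.a i x) := by
  unfold Sys.vec
  rw [lp.coeFn_sum, Finset.sum_apply]
  have : ∀ x' ∈ (S.row i).toFinset, (MvPolynomial.eval z (S.a i x') • (del x' : L2 X) : L2 X) x =
      if x = x' then MvPolynomial.eval z (S.a i x') else 0 := by
    intro x' _
    rw [lp.coeFn_smul, Pi.smul_apply, del_apply]
    split_ifs <;> simp
  rw [Finset.sum_congr rfl this, Finset.sum_ite_eq]
  split_ifs with h
  · rfl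
  · have : S.a i x = 0 := by
      by_contra h'
      exact h ((S.row i).mem_toFinset.mpr h')
    rw [this, map_zero]

variable {S} {gx : Equiv.Perm X} {gy : Equiv.Perm Y} {ge : Equiv.Perm E}

/-- the hypothesis -/
def Inv (S : Sys X Y E) (gx : Equiv.Perm X) (gy : Equiv.Perm Y) (ge : Equiv.Perm E) : Prop :=
  ∀ i x, S.a (gy i) (gx x) = MvPolynomial.rename ge (S.a i x)

theorem vec_equi (h : Inv S gx gy ge) (z : E → ℂ) (i : Y) :
    S.vec z (gy i) = U gx (S.vec (z ∘ ge) i) := by
  ext y
  rw [U_apply, vec_apply, vec_apply, ← MvPolynomial.eval_rename, ← h, Equiv.apply_symm_apply]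

theorem N_equi (h : Inv S gx gy ge) (z : E → ℂ) :
    S.N z = (S.N (z ∘ ge)).map ((U gx).toLinearEquiv : L2 X →ₗ[ℂ] L2 X) := by
  unfold Sys.N
  rw [← closure_map]
  congr 2
  ext v
  constructor
  · rintro ⟨i, rfl⟩
    refine ⟨S.vec (z ∘ ge) (gy.symm i), ⟨_, rfl⟩, ?_⟩
    rw [← vec_equi h, Equiv.apply_symm_apply]
  · rintro ⟨_, ⟨i, rfl⟩, rfl⟩
    exact ⟨gy i, vec_equi h z i⟩

theorem W_equi (h : Inv S gx gy ge) (J : Finset Y) (z : E → ℂ) :
    S.W (J.map gy.toEmbedding) z = (S.W J (z ∘ ge)).map ((U gx).toLinearEquiv : L2 X →ₗ[ℂ] L2 X) := by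
  unfold Sys.W
  rw [← closure_map]
  congr 2
  ext v
  constructor
  · rintro ⟨i, hi, rfl⟩
    refine ⟨S.vec (z ∘ ge) (gy.symm i), ⟨_, ?_, rfl⟩, ?_⟩
    · intro h'
      exact hi (Finset.mem_map.mpr ⟨_, h', by simp⟩)
    · rw [← vec_equi h, Equiv.apply_symm_apply]
  · rintro ⟨_, ⟨i, hi, rfl⟩, rfl⟩
    refine ⟨gy i, ?_, vec_equi h z i⟩
    intro h'
    obtain ⟨j, hj, hji⟩ := Finset.mem_map.mp h'
    have : j = i := gy.injective hji
    exact hi (this ▸ hj)

theorem nu_equi (h : Inv S gx gy ge) (z : E → ℂ) (x : X) : S.nu z (gx x) = S.nu (z ∘ ge) x := by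
  unfold Sys.nu
  rw [← U_del, star_map (U gx) (N_equi h z), U_apply, Equiv.symm_apply_apply]

theorem b_equi (h : Inv S gx gy ge) (J : Finset Y) (z : E → ℂ) (i : Y) :
    S.b (J.map gy.toEmbedding) z (gy i) = U gx (S.b J (z ∘ ge) i) := by
  unfold Sys.b
  rw [vec_equi h, star_map (U gx) (W_equi h J z), map_sub]

theorem gram_equi (h : Inv S gx gy ge) (J K : Finset Y) (z z' : E → ℂ) :
    S.gram (J.map gy.toEmbedding) (K.map gy.toEmbedding) z z' = S.gram J K (z ∘ ge) (z' ∘ ge) := by
  classical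
  unfold Sys.gram
  rw [← Matrix.det_submatrix_equiv_self (gy.subtypeEquiv (fun a => by simp) :
    {a // a ∈ K} ≃ {a // a ∈ K.map gy.toEmbedding})]
  congr 1
  ext i j
  show inner ℂ (S.b (J.map gy.toEmbedding) z' (gy j)) (S.b (J.map gy.toEmbedding) z (gy i)) = _
  rw [b_equi h, b_equi h, LinearIsometryEquiv.inner_map_map]
  rfl

theorem ang_equi (h : Inv S gx gy ge) (J K : Finset Y) (z z' : E → ℂ) :
    S.ang (J.map gy.toEmbedding) (K.map gy.toEmbedding) z z' = S.ang J K (z ∘ ge) (z' ∘ ge) := by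
  unfold Sys.ang
  rw [gram_equi h, gram_equi h, gram_equi h]

theorem B_equi (h : Inv S gx gy ge) (e : E) : S.B (ge e) = (S.B e).map gy.toEmbedding := by
  classical
  ext i
  unfold Sys.B
  rw [Set.Finite.mem_toFinset, Finset.mem_map]
  have key : ∀ i x, ge e ∈ (S.a (gy i) (gx x)).vars ↔ e ∈ (S.a i x).vars := by
    intro i x
    rw [h]
    constructor
    · intro h'
      obtain ⟨e', he', h2⟩ := Finset.mem_image.mp (MvPolynomial.vars_rename ge _ h')
      rwa [← ge.injective h2]
    · intro h'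
      have h3 : MvPolynomial.rename ge.symm (MvPolynomial.rename ge (S.a i x)) = S.a i x := by
        rw [MvPolynomial.rename_rename]
        simp
      rw [← h3] at h'
      obtain ⟨e', he', h2⟩ := Finset.mem_image.mp (MvPolynomial.vars_rename ge.symm _ h')
      have : e' = ge e := by rw [← h2]; simp
      rwa [← this]
  constructor
  · rintro ⟨x, hx⟩
    refine ⟨gy.symm i, (S.loc e).mem_toFinset.mpr ⟨gx.symm x, ?_⟩, by simp⟩
    rw [← key]
    simpa using hx
  · rintro ⟨j, hj, rfl⟩
    obtain ⟨x, hx⟩ := (S.loc e).mem_toFinset.mp hj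
    exact ⟨gx x, (key j x).mpr hx⟩

theorem kapK_equi (h : Inv S gx gy ge) (K : Finset Y) (e : E) (z : E → ℂ) :
    S.kapK (K.map gy.toEmbedding) (ge e) z = S.kapK K e (z ∘ ge) := by
  classical
  unfold Sys.kapK
  congr 1
  funext n
  rw [B_equi h, ang_equi h, Function.update_comp_eq_of_injective _ ge.injective]
  rfl

theorem IsBas_equi (h : Inv S gx gy ge) (K : Finset Y) (e : E) (z : E → ℂ) :
    S.IsBas (ge e) (K.map gy.toEmbedding) z ↔ S.IsBas e K (z ∘ ge) := by
  unfold Sys.IsBas
  rw [B_equi h, gram_equi h, Finset.card_map]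
  refine and_congr Iff.rfl ⟨fun H K' hK' hc => ?_, fun H K' hK' hc => ?_⟩
  · rw [← gram_equi h]
    refine H _ ?_ (by rwa [Finset.card_map])
    rw [Finset.mem_powerset] at hK' ⊢
    exact Finset.map_subset_map.mpr hK'
  · obtain ⟨K'', rfl⟩ : ∃ K'' : Finset Y, K' = K''.map gy.toEmbedding :=
      ⟨K'.map gy.symm.toEmbedding, by
        rw [Finset.map_map]
        ext i
        simp⟩
    rw [gram_equi h]
    rw [Finset.card_map] at hc
    rw [Finset.mem_powerset, Finset.map_subset_map] at hK'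
    exact H _ (Finset.mem_powerset.mpr hK') hc

theorem kap_equi (h : Inv S gx gy ge) (e : E) (z : E → ℂ) : S.kap (ge e) z = S.kap e (z ∘ ge) := by
  classical
  unfold Sys.kap
  rw [B_equi h]
  have key : ∀ K : Finset Y, (if S.IsBas (ge e) (K.map gy.toEmbedding) z then
      S.kapK (K.map gy.toEmbedding) (ge e) z else 0) =
      if S.IsBas e K (z ∘ ge) then S.kapK K e (z ∘ ge) else 0 := by
    intro K
    simp only [IsBas_equi h, kapK_equi h]
  apply le_antisymm
  · refine Finset.sup_le fun K' hK' => ?_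
    obtain ⟨K, rfl⟩ : ∃ K : Finset Y, K' = K.map gy.toEmbedding :=
      ⟨K'.map gy.symm.toEmbedding, by
        rw [Finset.map_map]
        ext i
        simp⟩
    rw [key K]
    rw [Finset.mem_powerset, Finset.map_subset_map] at hK'
    exact Finset.le_sup (f := fun K => if S.IsBas e K (z ∘ ge) then S.kapK K e (z ∘ ge) else 0)
      (Finset.mem_powerset.mpr hK')
  · refine Finset.sup_le fun K hK => ?_
    rw [← key K]
    refine Finset.le_sup (f := fun K => if S.IsBas (ge e) K z then S.kapK K (ge e) z else 0) ?_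
    rw [Finset.mem_powerset] at hK ⊢
    exact Finset.map_subset_map.mpr hK

theorem gam_equi (h : Inv S gx gy ge) (e : E) (ω : E → ℝ) :
    S.gam (ge e) ω = S.gam e (fun e' => ω (ge e')) := by
  classical
  have hk : ∀ u : ℂ, S.kap (ge e) (Function.update (ph ω) (ge e) u) =
      S.kap e (Function.update (ph (fun e' => ω (ge e'))) e u) := by
    intro u
    have e1 : Function.update (ph ω) (ge e) u ∘ ge = Function.update (ph (fun e' => ω (ge e'))) e u :=
      Function.update_comp_eq_of_injective _ ge.injective _ _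
    rw [kap_equi h, e1]
  unfold Sys.gam Sys.gamE
  simp only [hk]

/-- permutation of the angles -/
def permE (g : Equiv.Perm E) : (E → ℝ) ≃ᵐ (E → ℝ) where
  toFun ω e := ω (g e)
  invFun ω e := ω (g.symm e)
  left_inv ω := by funext e; simp
  right_inv ω := by funext e; simp
  measurable_toFun := measurable_pi_lambda _ fun e => measurable_pi_apply _
  measurable_invFun := measurable_pi_lambda _ fun e => measurable_pi_apply _

theorem int_perm (hp : StmtPerm) (g : Equiv.Perm E) (f : (E → ℝ) → ℝ) :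
    ∫ ω, f (fun e => ω (g e)) ∂(mu E) = ∫ ω, f ω ∂(mu E) := by
  have h1 : (mu E).map (permE g) = mu E := hp E g
  conv_rhs => rw [← h1]
  rw [MeasureTheory.integral_map_equiv]
  rfl

end Equi

/-- row EQUI -/
theorem stmtEqui (hp : StmtPerm) : StmtEqui := by
  intro X Y E _ _ _ S gx gy ge h
  refine ⟨fun x => ?_, fun e => ?_⟩
  · have e1 : (fun ω : E → ℝ => S.nu (ph ω) (gx x)) =
        fun ω => (fun ω' : E → ℝ => S.nu (ph ω') x) (fun e' => ω (ge e')) :=
      funext fun ω => Equi.nu_equi h (ph ω) x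
    rw [e1]
    exact Equi.int_perm hp ge (fun ω' : E → ℝ => S.nu (ph ω') x)
  · have e1 : (fun ω : E → ℝ => S.gam (ge e) ω) =
        fun ω => (fun ω' : E → ℝ => S.gam e ω') (fun e' => ω (ge e')) :=
      funext fun ω => Equi.gam_equi h e ω
    rw [e1]
    exact Equi.int_perm hp ge (fun ω' : E → ℝ => S.gam e ω')

end Pool.GA
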