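import Pool.Agent.GA.GDefs

/-!
# MP_585e9a_al, project GAUGE, row GRP: the system of a matrix over `K[G]`
-/

set_option autoImplicit false

open MeasureTheory Complex Filter
open scoped ENNReal Topology

namespace Pool.GA

section
variable {Q A N : Type} [Group Q] [AddCommMonoid N]

theorem tr_apply (y : Q) (c : Q × A →₀ N) (p : Q × A) : tr y c p = c (y⁻¹ * p.1, p.2) := by
  classical
  have hinj : Function.Injective fun p : Q × A => (y * p.1, p.2) := by
    rintro ⟨a, b⟩ ⟨a', b'⟩ h
    simp only [Prod.mk.injEq, mul_right_inj] at h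
    rw [h.1, h.2]
  unfold tr
  have hp : p = (fun p : Q × A => (y * p.1, p.2)) (y⁻¹ * p.1, p.2) := by
    simp
  conv_lhs => rw [hp]
  exact Finsupp.mapDomain_apply hinj c _

theorem tr_tr (z y : Q) (c : Q × A →₀ N) : tr z (tr y c) = tr (z * y) c := by
  ext p
  rw [tr_apply, tr_apply, tr_apply, mul_inv_rev, mul_assoc]

end

section
variable {G Q A : Type} [Group G] [Group Q] {K : Subfield ℂ} {ι κ : Type} [Fintype ι] [Fintype κ]
  (D : GData G Q A) (M : Matrix ι κ (MonoidAlgebra K G))

theorem expo_apply (y : Q) (g : G) (p : Q × A) :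
    expo D M y g p = (D.c g (y⁻¹ * p.1, p.2) + (den D M (y⁻¹ * p.1, p.2) : ℤ)).toNat := by
  unfold expo
  rw [Finsupp.mapRange_apply, Finsupp.add_apply, Finsupp.mapRange_apply, tr_apply, tr_apply]

theorem expo_tr (z y : Q) (g : G) : expo D M (z * y) g = tr z (expo D M y g) := by
  ext p
  rw [tr_apply, expo_apply, expo_apply, mul_inv_rev, mul_assoc]

/-- the denominator clears all the negative exponents -/
theorem den_ge {i : ι} {j : κ} {g : G} (hg : g ∈ (M i j).coeff.support) (p : Q × A) :
    -(D.c g p) ≤ (den D M p : ℤ) := by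
  classical
  have h1 : (-(D.c g p)).toNat ≤ den D M p := by
    unfold den
    simp only [Finsupp.coe_finsetSum, Finset.sum_apply, Finsupp.mapRange_apply]
    refine le_trans ?_ (Finset.single_le_sum (f := fun i => ∑ j, ∑ g ∈ (M i j).coeff.support,
      (-(D.c g p)).toNat) (fun _ _ => Nat.zero_le _) (Finset.mem_univ i))
    refine le_trans ?_ (Finset.single_le_sum (f := fun j => ∑ g ∈ (M i j).coeff.support,
      (-(D.c g p)).toNat) (fun _ _ => Nat.zero_le _) (Finset.mem_univ j))
    exact Finset.single_le_sum (f := fun g => (-(D.c g p)).toNat) (fun _ _ => Nat.zero_le _) hg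
  have h2 := Int.self_le_toNat (-(D.c g p))
  omega

/-- the exponents as integers -/
theorem expo_cast {i : ι} {j : κ} {g : G} (hg : g ∈ (M i j).coeff.support) (y : Q) (p : Q × A) :
    ((expo D M y g p : ℕ) : ℤ) = tr y (D.c g) p + tr y (den D M) p := by
  rw [expo_apply, tr_apply, tr_apply]
  have := den_ge D M hg (y⁻¹ * p.1, p.2)
  rw [Int.toNat_of_nonneg (by linarith)]

theorem ent_ne {y : Q × ι} {x : Q × κ} (h : ent D M y x ≠ 0) :
    ∃ g ∈ (M y.2 x.2).coeff.support, y.1 * D.q g = x.1 := by
  classical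
  by_contra hc
  push Not at hc
  apply h
  unfold ent
  refine Finset.sum_eq_zero fun g hg => ?_
  rw [Finset.mem_filter] at hg
  exact absurd hg.2 (hc g hg.1)

end

theorem stmtGsys : StmtGsys := by
  classical
  intro G Q A _ _ K ι κ _ _ D M
  -- the finite set of group elements
  set Γ : Finset G := Finset.univ.biUnion fun i : ι => Finset.univ.biUnion fun j : κ =>
    (M i j).coeff.support with hΓ
  have hmem : ∀ (i : ι) (j : κ) (g : G), g ∈ (M i j).coeff.support → g ∈ Γ := by
    intro i j g hg
    rw [hΓ, Finset.mem_biUnion]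
    exact ⟨i, Finset.mem_univ _, Finset.mem_biUnion.2 ⟨j, Finset.mem_univ _, hg⟩⟩
  -- the finite set of variables
  set Δ : Finset (Q × A) := (Γ.biUnion fun g => (D.c g).support) ∪ (den D M).support with hΔ
  refine ⟨⟨ent D M, fun y => ?_, fun x => ?_, fun e => ?_⟩, rfl⟩
  · refine ((Γ ×ˢ (Finset.univ : Finset κ)).image fun p => (y.1 * D.q p.1, p.2)).finite_toSet.subset
      fun x hx => ?_
    obtain ⟨g, hg, he⟩ := ent_ne D M hx
    rw [Finset.mem_coe, Finset.mem_image]
    refine ⟨(g, x.2), Finset.mem_product.2 ⟨hmem _ _ _ hg, Finset.mem_univ _⟩, ?_⟩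
    exact Prod.ext he rfl
  · refine ((Γ ×ˢ (Finset.univ : Finset ι)).image fun p => (x.1 * (D.q p.1)⁻¹, p.2)).finite_toSet.subset
      fun y hy => ?_
    obtain ⟨g, hg, he⟩ := ent_ne D M hy
    rw [Finset.mem_coe, Finset.mem_image]
    refine ⟨(g, y.2), Finset.mem_product.2 ⟨hmem _ _ _ hg, Finset.mem_univ _⟩, ?_⟩
    refine Prod.ext ?_ rfl
    rw [← he]
    simp
  · refine ((Δ ×ˢ (Finset.univ : Finset ι)).image fun p => (e.1 * (p.1.1)⁻¹, p.2)).finite_toSet.subset
      fun y hy => ?_
    obtain ⟨x, hx⟩ := hy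
    -- the variable occurs in a monomial
    have h1 : ∃ g ∈ (M y.2 x.2).coeff.support, e ∈ (expo D M y.1 g).support := by
      by_contra hc
      push Not at hc
      rw [MvPolynomial.mem_vars_iff_mem_support] at hx
      obtain ⟨d, hd, hed⟩ := hx
      have h2 : ∀ d' ∈ (ent D M y x).support, e ∉ d'.support := by
        intro d' hd'
        rw [MvPolynomial.mem_support_iff] at hd'
        unfold ent at hd'
        rw [MvPolynomial.coeff_sum] at hd'
        obtain ⟨g, hg, hg'⟩ := Finset.exists_ne_zero_of_sum_ne_zero hd'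
        rw [Finset.mem_filter] at hg
        rw [MvPolynomial.coeff_monomial] at hg'
        split_ifs at hg' with h3
        · rw [← h3]
          exact hc g hg.1
        · exact absurd rfl hg'
      exact h2 d hd hed
    obtain ⟨g, hg, he⟩ := h1
    rw [Finset.mem_coe, Finset.mem_image]
    refine ⟨((y.1⁻¹ * e.1, e.2), y.2), Finset.mem_product.2 ⟨?_, Finset.mem_univ _⟩, ?_⟩
    · rw [Finsupp.mem_support_iff, expo_apply] at he
      rw [hΔ, Finset.mem_union, Finset.mem_biUnion, Finsupp.mem_support_iff]
      by_contra hc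
      push Not at hc
      have h3 := hc.1 g (hmem _ _ _ hg)
      rw [Finsupp.notMem_support_iff] at h3
      apply he
      rw [h3, hc.2]
      rfl
    · refine Prod.ext ?_ rfl
      show e.1 * (y.1⁻¹ * e.1)⁻¹ = y.1
      rw [mul_inv_rev, inv_inv, ← mul_assoc, mul_inv_cancel, one_mul]

section
variable {G Q A : Type} [Group G] [Group Q] {K : Subfield ℂ} {ι κ : Type} [Fintype ι] [Fintype κ]
  (D : GData G Q A) (M : Matrix ι κ (MonoidAlgebra K G))

theorem pair_eq {E : Type} [DecidableEq E] (w c : E →₀ ℤ) (F : Finset E) (hw : w.support ⊆ F) :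
    pair w c = ∑ e ∈ F, w e * c e := by
  have h1 : ∑ e ∈ c.support, w e * c e = ∑ e ∈ c.support ∪ F, w e * c e :=
    Finset.sum_subset Finset.subset_union_left
      (fun e _ he => by rw [Finsupp.notMem_support_iff.1 he, mul_zero])
  have h2 : ∑ e ∈ F, w e * c e = ∑ e ∈ c.support ∪ F, w e * c e :=
    Finset.sum_subset Finset.subset_union_right
      (fun e _ he => by rw [Finsupp.notMem_support_iff.1 (fun h => he (hw h)), zero_mul])
  exact h1.trans h2.symm

/-- the weight of the exponent of `g` -/
theorem weight_expo (w : Q × A →₀ ℤ) {i : ι} {j : κ} {g : G} (hg : g ∈ (M i j).coeff.support)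
    (y : Q) : Finsupp.weight (w : Q × A → ℤ) (expo D M y g) =
      pair w (tr y (D.c g)) +
        pair w ((tr y (den D M)).mapRange (fun k : ℕ => (k : ℤ)) (by simp)) := by
  classical
  rw [pair_eq w _ w.support subset_rfl, pair_eq w _ w.support subset_rfl,
    ← Finset.sum_add_distrib, Finsupp.weight_apply, Finsupp.sum]
  have h1 : ∑ e ∈ (expo D M y g).support, (expo D M y g) e • w e =
      ∑ e ∈ (expo D M y g).support ∪ w.support, (expo D M y g) e • w e :=
    Finset.sum_subset Finset.subset_union_left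
      (fun e _ he => by rw [Finsupp.notMem_support_iff.1 he, zero_smul])
  have h2 : ∑ e ∈ w.support, (expo D M y g) e • w e =
      ∑ e ∈ (expo D M y g).support ∪ w.support, (expo D M y g) e • w e :=
    Finset.sum_subset Finset.subset_union_right
      (fun e _ he => by rw [Finsupp.notMem_support_iff.1 he, smul_zero])
  rw [h1, ← h2]
  refine Finset.sum_congr rfl fun e _ => ?_
  rw [nsmul_eq_mul, expo_cast D M hg, Finsupp.mapRange_apply]
  ring

/-- entries are weighted homogeneous if all their monomials have the same weight -/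
theorem ent_homog (w : Q × A →₀ ℤ) (y : Q × ι) (x : Q × κ) (m : ℤ)
    (h : ∀ g ∈ (M y.2 x.2).coeff.support, y.1 * D.q g = x.1 →
      Finsupp.weight (w : Q × A → ℤ) (expo D M y.1 g) = m) :
    (ent D M y x).IsWeightedHomogeneous w m := by
  classical
  intro d hd
  unfold ent at hd
  rw [MvPolynomial.coeff_sum] at hd
  obtain ⟨g, hg, hg'⟩ := Finset.exists_ne_zero_of_sum_ne_zero hd
  rw [Finset.mem_filter] at hg
  rw [MvPolynomial.coeff_monomial] at hg'
  split_ifs at hg' with h3
  · rw [← h3]
    exact h g hg.1 hg.2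
  · exact absurd rfl hg'

end

theorem stmtGG : StmtGG := by
  classical
  intro G Q A _ _ K ι κ _ _ D M S hS
  constructor
  · intro w x h
    refine ⟨fun y => (if y.1 = x then 1 else 0) +
      pair w ((tr y.1 (den D M)).mapRange (fun k : ℕ => (k : ℤ)) (by simp)), fun y x' => ?_⟩
    rw [hS]
    refine ent_homog D M w y x' _ fun g hg he => ?_
    rw [weight_expo D M w hg, h y.1 y.2 x'.2 g hg, he]
    have h1 : (∑ j : κ, Finsupp.single (x, j) (1 : ℤ)) x' = if x'.1 = x then 1 else 0 := by
      rw [Finsupp.coe_finsetSum, Finset.sum_apply]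
      simp only [Finsupp.single_apply]
      rw [Finset.sum_eq_single x'.2]
      · by_cases h2 : x'.1 = x
        · have h3 : (x, x'.2) = x' := Prod.ext h2.symm rfl
          rw [if_pos h2, if_pos h3]
        · have h3 : (x, x'.2) ≠ x' := fun h4 => h2 (congrArg Prod.fst h4).symm
          rw [if_neg h2, if_neg h3]
      · intro j _ hj
        rw [if_neg]
        intro h3
        exact hj (congrArg Prod.snd h3)
      · intro h2
        exact absurd (Finset.mem_univ _) h2
    rw [h1]
    ring
  · intro w h
    refine ⟨fun y => pair w ((tr y.1 (den D M)).mapRange (fun k : ℕ => (k : ℤ)) (by simp)),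
      fun y x' => ?_⟩
    rw [hS]
    refine ent_homog D M w y x' _ fun g hg he => ?_
    rw [weight_expo D M w hg, h y.1 y.2 x'.2 g hg]
    simp

theorem stmtGeq : StmtGeq := by
  classical
  intro G Q A _ _ K ι κ _ _ D M z y x i j
  unfold ent
  rw [map_sum]
  have h1 : ((M i j).coeff.support.filter fun g => z * y * D.q g = z * x) =
      (M i j).coeff.support.filter fun g => y * D.q g = x := by
    refine Finset.filter_congr fun g _ => ?_
    rw [mul_assoc, mul_right_inj]
  simp only
  rw [h1]
  refine Finset.sum_congr rfl fun g _ => ?_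
  rw [MvPolynomial.rename_monomial, expo_tr]
  rfl

end Pool.GA
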