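import Pool.Agent.GA.GDefs

/-!
# The Magnus embedding of `P / [R, R]`

`P` is a free product of a free group and of groups `H i` which meet the normal subgroup `R` trivially. The
universal property gives the homomorphism of `P` to `ℤ[Q × A] ⋊ Q`, `Q = P / R`; its first coordinate `c` is a
crossed homomorphism which vanishes on `[R, R]`. For the converse let `s` be a section of `P → Q`. The function
`d p x = s x * p * (s (x * p))⁻¹` is a crossed homomorphism of `P` to the functions on `Q` with values in `R / [R, R]`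
(Kaloujnine and Krasner). On `H i` it is principal, because there is a section which is compatible with the right
multiplications by the elements of `H i`. So `d` is the composition of `c` and of a homomorphism of `Q`-modules, and
an element `r` of `R` with `c r = 0` satisfies `d r 1 = 0`, which says that `r` is in `[R, R]`.
-/

set_option autoImplicit false
set_option linter.unusedSectionVars false

namespace Pool.GA

namespace Mag

/-! ### Translations of chains -/

section tr

variable {Q A N : Type} [Group Q] [AddCommMonoid N]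

theorem tr_single (y : Q) (p : Q × A) (n : N) :
    tr y (Finsupp.single p n) = Finsupp.single (y * p.1, p.2) n := by
  unfold tr
  exact Finsupp.mapDomain_single

theorem tr_zero (y : Q) : tr y (0 : Q × A →₀ N) = 0 := Finsupp.mapDomain_zero

theorem tr_add (y : Q) (c d : Q × A →₀ N) : tr y (c + d) = tr y c + tr y d := Finsupp.mapDomain_add

theorem tr_one (c : Q × A →₀ N) : tr 1 c = c := by
  unfold tr
  have h : (fun p : Q × A => ((1 : Q) * p.1, p.2)) = id := by
    funext p
    simp
  rw [h, Finsupp.mapDomain_id]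

theorem tr_tr (y z : Q) (c : Q × A →₀ N) : tr y (tr z c) = tr (y * z) c := by
  unfold tr
  rw [← Finsupp.mapDomain_comp]
  congr 1
  funext p
  simp [mul_assoc]

end tr

/-- left translation as an automorphism -/
noncomputable def trEquiv {Q : Type} (A : Type) [Group Q] (y : Q) : (Q × A →₀ ℤ) ≃+ (Q × A →₀ ℤ) where
  toFun := tr y
  invFun := tr y⁻¹
  left_inv c := by rw [tr_tr, inv_mul_cancel, tr_one]
  right_inv c := by rw [tr_tr, mul_inv_cancel, tr_one]
  map_add' := tr_add y

/-- the action of `Q` on the chains -/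
noncomputable def act (Q A : Type) [Group Q] : Q →* MulAut (Multiplicative (Q × A →₀ ℤ)) where
  toFun y := AddEquiv.toMultiplicative (trEquiv A y)
  map_one' := MulEquiv.ext fun c => congrArg Multiplicative.ofAdd (tr_one (Multiplicative.toAdd c))
  map_mul' y z := MulEquiv.ext fun c => congrArg Multiplicative.ofAdd (tr_tr y z (Multiplicative.toAdd c)).symm

theorem act_apply {Q A : Type} [Group Q] (y : Q) (c : Multiplicative (Q × A →₀ ℤ)) :
    Multiplicative.toAdd (act Q A y c) = tr y (Multiplicative.toAdd c) := rfl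

/-! ### Sections -/

section sec

variable {P : Type} [Group P] (R : Subgroup P) [R.Normal]

open Classical in
/-- the class of an element of `R` in `R / [R, R]` -/
noncomputable def ab (p : P) : Additive (Abelianization R) :=
  if h : p ∈ R then Additive.ofMul (Abelianization.of ⟨p, h⟩) else 0

theorem ab_mul {p p' : P} (h : p ∈ R) (h' : p' ∈ R) : ab R (p * p') = ab R p + ab R p' := by
  unfold ab
  rw [dif_pos (R.mul_mem h h'), dif_pos h, dif_pos h', ← ofMul_mul, ← map_mul]
  rfl

theorem ab_one : ab R 1 = 0 := by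
  have h := ab_mul R R.one_mem R.one_mem
  rw [one_mul] at h
  exact left_eq_add.1 h

theorem ab_eq_zero {p : P} (h : p ∈ R) (h0 : ab R p = 0) : p ∈ ⁅R, R⁆ := by
  unfold ab at h0
  rw [dif_pos h, ofMul_eq_zero] at h0
  have h1 : (⟨p, h⟩ : R) ∈ commutator R := by
    rw [← Abelianization.ker_of]
    exact h0
  rw [← Subgroup.map_subtype_commutator]
  exact ⟨_, h1, rfl⟩

/-- a section of `P → P / R` -/
noncomputable def sec (x : P ⧸ R) : P := Quotient.out x

theorem mk_sec (x : P ⧸ R) : (QuotientGroup.mk (sec R x) : P ⧸ R) = x := Quotient.out_eq x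

theorem mem_of_mk {p : P} (h : (QuotientGroup.mk p : P ⧸ R) = 1) : p ∈ R := (QuotientGroup.eq_one_iff p).1 h

theorem exists_sec {H : Type} [Group H] (f : H →* P) (hf : ∀ g, f g ∈ R → g = 1) :
    ∃ t : P ⧸ R → P, (∀ x, (QuotientGroup.mk (t x) : P ⧸ R) = x) ∧
      ∀ x g, t (x * QuotientGroup.mk (f g)) = t x * f g := by
  classical
  set fb : H →* P ⧸ R := (QuotientGroup.mk' R).comp f with hfb
  have hinj : Function.Injective fb := by
    rw [injective_iff_map_eq_one]
    intro g hg
    exact hf g (mem_of_mk R hg)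
  set τ : P ⧸ R → P ⧸ R := fun x => Quotient.out (QuotientGroup.mk x : (P ⧸ R) ⧸ fb.range) with hτ
  have h1 : ∀ x, ∃ g, fb g = (τ x)⁻¹ * x := by
    intro x
    have h2 : (QuotientGroup.mk (τ x) : (P ⧸ R) ⧸ fb.range) = QuotientGroup.mk x := Quotient.out_eq _
    exact QuotientGroup.eq.1 h2
  choose h hh using h1
  have hτ2 : ∀ x g, τ (x * fb g) = τ x := by
    intro x g
    have h2 : (QuotientGroup.mk (x * fb g) : (P ⧸ R) ⧸ fb.range) = QuotientGroup.mk x := by
      rw [eq_comm, QuotientGroup.eq]
      exact ⟨g, by group⟩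
    simp only [hτ, h2]
  refine ⟨fun x => sec R (τ x) * f (h x), fun x => ?_, fun x g => ?_⟩
  · rw [QuotientGroup.mk_mul, mk_sec]
    have h2 : (QuotientGroup.mk (f (h x)) : P ⧸ R) = fb (h x) := rfl
    rw [h2, hh]
    group
  · have h2 : (QuotientGroup.mk (f g) : P ⧸ R) = fb g := rfl
    have h3 : h (x * fb g) = h x * g := by
      apply hinj
      rw [hh, hτ2, map_mul, hh]
      group
    simp only [h2, hτ2, h3, map_mul, mul_assoc]

/-- the crossed homomorphism of Kaloujnine and Krasner -/
noncomputable def kk (p : P) (x : P ⧸ R) : Additive (Abelianization R) :=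
  ab R (sec R x * p * (sec R (x * QuotientGroup.mk p))⁻¹)

theorem kk_mem (p : P) (x : P ⧸ R) : sec R x * p * (sec R (x * QuotientGroup.mk p))⁻¹ ∈ R := by
  apply mem_of_mk
  rw [QuotientGroup.mk_mul, QuotientGroup.mk_mul, QuotientGroup.mk_inv, mk_sec, mk_sec]
  group

theorem kk_mul (p p' : P) (x : P ⧸ R) : kk R (p * p') x = kk R p x + kk R p' (x * QuotientGroup.mk p) := by
  unfold kk
  rw [← ab_mul R (kk_mem R p x) (kk_mem R p' _)]
  congr 1
  rw [QuotientGroup.mk_mul, ← mul_assoc x]
  group

theorem kk_one (x : P ⧸ R) : kk R 1 x = 0 := by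
  unfold kk
  rw [QuotientGroup.mk_one, mul_one, mul_one, mul_inv_cancel, ab_one]

theorem mem_of_kk {r : P} (hr : r ∈ R) (h : kk R r 1 = 0) : r ∈ ⁅R, R⁆ := by
  have h1 : (QuotientGroup.mk r : P ⧸ R) = 1 := (QuotientGroup.eq_one_iff r).2 hr
  have hs : sec R 1 ∈ R := mem_of_mk R (mk_sec R 1)
  unfold kk at h
  rw [h1, mul_one, ab_mul R (R.mul_mem hs hr) (R.inv_mem hs), ab_mul R hs hr, add_right_comm,
    ← ab_mul R hs (R.inv_mem hs), mul_inv_cancel, ab_one, zero_add] at h
  exact ab_eq_zero R hr h

/-- on a subgroup which meets `R` trivially the crossed homomorphism is principal -/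
theorem exists_principal {H : Type} [Group H] (f : H →* P) (hf : ∀ g, f g ∈ R → g = 1) :
    ∃ m : P ⧸ R → Additive (Abelianization R), ∀ g x, kk R (f g) x = m x - m (x * QuotientGroup.mk (f g)) := by
  obtain ⟨t, h1, h2⟩ := exists_sec R f hf
  have hm : ∀ x, sec R x * (t x)⁻¹ ∈ R := by
    intro x
    apply mem_of_mk
    rw [QuotientGroup.mk_mul, QuotientGroup.mk_inv, mk_sec, h1, mul_inv_cancel]
  refine ⟨fun x => ab R (sec R x * (t x)⁻¹), fun g x => ?_⟩
  rw [eq_sub_iff_add_eq]
  unfold kk
  rw [← ab_mul R (kk_mem R (f g) x) (hm _), h2]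
  congr 1
  group

end sec

/-! ### The homomorphism to the semidirect product -/

section main

variable {P α I : Type} [Group P] {H : I → Type} [∀ i, Group (H i)] (F : IsFree P α I H) (R : Subgroup P) [R.Normal]

/-- the semidirect product -/
abbrev Sd (Q A : Type) [Group Q] : Type := Multiplicative (Q × A →₀ ℤ) ⋊[act Q A] Q

/-- the image of a free generator -/
noncomputable def imA (F : IsFree P α I H) (R : Subgroup P) [R.Normal] (s : α) : Sd (P ⧸ R) (α ⊕ I) :=
  ⟨Multiplicative.ofAdd (Finsupp.single (1, Sum.inl s) 1), QuotientGroup.mk (F.a s)⟩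

/-- the image of an element of `H i` -/
noncomputable def imH (F : IsFree P α I H) (R : Subgroup P) [R.Normal] (i : I) : H i →* Sd (P ⧸ R) (α ⊕ I) where
  toFun g := ⟨Multiplicative.ofAdd (Finsupp.single (1, Sum.inr i) 1 -
    Finsupp.single (QuotientGroup.mk (F.h i g), Sum.inr i) 1), QuotientGroup.mk (F.h i g)⟩
  map_one' := by
    rw [map_one, QuotientGroup.mk_one, sub_self]
    rfl
  map_mul' g g' := by
    refine SemidirectProduct.ext ?_ ?_
    · rw [SemidirectProduct.mul_left]
      apply Multiplicative.toAdd.injective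
      rw [toAdd_mul, act_apply]
      simp only [toAdd_ofAdd, map_mul, QuotientGroup.mk_mul]
      have h : ∀ (y : P ⧸ R) (c d : (P ⧸ R) × (α ⊕ I) →₀ ℤ), tr y (c - d) = tr y c - tr y d := fun y c d =>
        map_sub (trEquiv (α ⊕ I) y) c d
      rw [h, tr_single, tr_single, mul_one]
      abel
    · rw [SemidirectProduct.mul_right, map_mul, QuotientGroup.mk_mul]

theorem main : StmtMagnus := by
  intro P α I _ H _ _ F R _ hR
  classical
  obtain ⟨Φ, hΦa, hΦh⟩ := F.lift (Sd (P ⧸ R) (α ⊕ I)) (imA F R) (imH F R)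
  -- the second coordinate
  have hright : ∀ p, (Φ p).right = QuotientGroup.mk p := by
    have h1 : SemidirectProduct.rightHom.comp Φ = QuotientGroup.mk' R := by
      refine MonoidHom.eq_of_eqOn_dense F.gen ?_
      rintro p (⟨s, rfl⟩ | hp)
      · change (Φ (F.a s)).right = _
        rw [hΦa]; rfl
      · obtain ⟨i, g, rfl⟩ := Set.mem_iUnion.1 hp
        change (Φ (F.h i g)).right = _
        rw [hΦh]; rfl
    intro p
    exact DFunLike.congr_fun h1 p
  set cc : P → ((P ⧸ R) × (α ⊕ I) →₀ ℤ) := fun p => Multiplicative.toAdd (Φ p).left with hcc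
  have hmul : ∀ p p', cc (p * p') = cc p + tr (QuotientGroup.mk p) (cc p') := by
    intro p p'
    simp only [hcc]
    rw [map_mul, SemidirectProduct.mul_left, toAdd_mul, act_apply, hright]
  have hone : cc 1 = 0 := by
    simp only [hcc]
    rw [map_one]; rfl
  -- the homomorphism kills `[R, R]`
  have hker : ∀ k ∈ ⁅R, R⁆, Φ k = 1 := by
    have h1 : ⁅R, R⁆ ≤ Φ.ker := by
      rw [Subgroup.commutator_le]
      intro r hr r' hr'
      have e : ∀ r ∈ R, (Φ r).right = 1 := fun r hr => by
        rw [hright]; exact (QuotientGroup.eq_one_iff r).2 hr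
      have hcomm : Φ r * Φ r' = Φ r' * Φ r := by
        refine SemidirectProduct.ext ?_ ?_
        · rw [SemidirectProduct.mul_left, SemidirectProduct.mul_left, e r hr, e r' hr', map_one, MulAut.one_apply,
            MulAut.one_apply, mul_comm]
        · rw [SemidirectProduct.mul_right, SemidirectProduct.mul_right, e r hr, e r' hr']
      rw [MonoidHom.mem_ker, map_commutatorElement, commutatorElement_eq_one_iff_mul_comm]
      exact hcomm
    exact fun k hk => h1 hk
  -- the crossed homomorphism of Kaloujnine and Krasner factors through `cc`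
  have hprin : ∀ i, ∃ m : P ⧸ R → Additive (Abelianization R), ∀ g x,
      kk R (F.h i g) x = m x - m (x * QuotientGroup.mk (F.h i g)) :=
    fun i => exists_principal R (F.h i) (hR i)
  choose m hm using hprin
  set gen : (P ⧸ R) × (α ⊕ I) → (P ⧸ R → Additive (Abelianization R)) := fun p x =>
    Sum.elim (fun s => kk R (F.a s) (x * p.1)) (fun i => m i (x * p.1)) p.2 with hgen
  set ψ : ((P ⧸ R) × (α ⊕ I) →₀ ℤ) →+ (P ⧸ R → Additive (Abelianization R)) :=
    Finsupp.liftAddHom fun p => zmultiplesHom _ (gen p) with hψ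
  have hψs : ∀ p n, ψ (Finsupp.single p n) = n • gen p := by
    intro p n
    rw [hψ, Finsupp.liftAddHom_apply_single]
    rfl
  have hψtr : ∀ y c x, ψ (tr y c) x = ψ c (x * y) := by
    intro y c x
    induction c using Finsupp.induction_linear with
    | zero => rw [tr_zero, map_zero]; rfl
    | add a b ha hb => rw [tr_add, map_add, map_add, Pi.add_apply, Pi.add_apply, ha, hb]
    | single p n =>
      rw [tr_single, hψs, hψs, Pi.smul_apply, Pi.smul_apply]
      simp only [hgen, mul_assoc]
  have hd : ∀ p x, kk R p x = ψ (cc p) x := by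
    intro p
    have hp : p ∈ Subgroup.closure (Set.range F.a ∪ ⋃ i, Set.range (F.h i)) := by
      rw [F.gen]; trivial
    induction hp using Subgroup.closure_induction with
    | mem p hp =>
      intro x
      rcases hp with ⟨s, rfl⟩ | hp
      · have h1 : cc (F.a s) = Finsupp.single (1, Sum.inl s) 1 := by
          simp only [hcc]
          rw [hΦa]; rfl
        rw [h1, hψs, one_smul]
        simp only [hgen, mul_one, Sum.elim_inl]
      · obtain ⟨i, g, rfl⟩ := Set.mem_iUnion.1 hp
        have h1 : cc (F.h i g) = Finsupp.single (1, Sum.inr i) 1 -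
            Finsupp.single (QuotientGroup.mk (F.h i g), Sum.inr i) 1 := by
          simp only [hcc]
          rw [hΦh]; rfl
        rw [h1, map_sub, hψs, hψs, one_smul, one_smul, Pi.sub_apply, hm]
        simp only [hgen, mul_one, Sum.elim_inr]
    | one =>
      intro x
      rw [kk_one, hone, map_zero]; rfl
    | mul p p' _ _ h h' =>
      intro x
      rw [kk_mul, hmul, map_add, Pi.add_apply, hψtr, h, h']
    | inv p _ h =>
      intro x
      have e1 := kk_mul R p p⁻¹ (x * (QuotientGroup.mk p)⁻¹)
      have e2 := congrFun (congrArg ψ (hmul p p⁻¹)) (x * (QuotientGroup.mk p)⁻¹)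
      rw [mul_inv_cancel, kk_one, inv_mul_cancel_right] at e1
      rw [mul_inv_cancel, hone, map_zero, map_add, Pi.zero_apply, Pi.add_apply, hψtr,
        inv_mul_cancel_right, ← h] at e2
      exact add_left_cancel (e1.symm.trans e2)
  -- the data
  set Ψ : P ⧸ ⁅R, R⁆ →* Sd (P ⧸ R) (α ⊕ I) := QuotientGroup.lift ⁅R, R⁆ Φ hker with hΨ
  have hΨmk : ∀ p : P, Ψ (QuotientGroup.mk p) = Φ p := fun p => rfl
  refine ⟨⟨SemidirectProduct.rightHom.comp Ψ, fun g => Multiplicative.toAdd (Ψ g).left, ?_, ?_⟩, ?_, ?_, ?_⟩
  · intro g h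
    rw [map_mul, SemidirectProduct.mul_left, toAdd_mul, act_apply]
    rfl
  · intro g hq hc
    obtain ⟨p, rfl⟩ := QuotientGroup.mk_surjective g
    have hp : (QuotientGroup.mk p : P ⧸ R) = 1 := by
      rw [← hright]; exact hq
    have hpR : p ∈ R := (QuotientGroup.eq_one_iff p).1 hp
    have hcc0 : cc p = 0 := hc
    have hk : kk R p 1 = 0 := by
      rw [hd, hcc0, map_zero]; rfl
    exact (QuotientGroup.eq_one_iff p).2 (mem_of_kk R hpR hk)
  · intro p
    exact hright p
  · intro s
    change Multiplicative.toAdd (Φ (F.a s)).left = _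
    rw [hΦa]; rfl
  · intro i g
    change Multiplicative.toAdd (Φ (F.h i g)).left = _
    rw [hΦh]; rfl

end main

end Mag

/-- the Magnus embedding of `P / [R, R]` -/
theorem magnus : StmtMagnus := Mag.main

end Pool.GA
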