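import Pool.Agent.GA.GDefs

/-!
# MP_585e9a_FRR, row MAIN: StmtMain from the other rows
-/

set_option autoImplicit false

open MeasureTheory Complex Filter
open scoped ENNReal Topology

namespace Pool.GA

section Chains
variable {Q A : Type} [Group Q]

/-- pairing with a function -/
noncomputable def pairF {E : Type} (W : E → ℤ) : (E →₀ ℤ) →+ ℤ :=
  Finsupp.liftAddHom fun e => (AddMonoidHom.mulLeft (W e))

theorem pairF_single {E : Type} (W : E → ℤ) (e : E) (k : ℤ) : pairF W (Finsupp.single e k) = W e * k := by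
  simp [pairF]

theorem pairF_apply {E : Type} (W : E → ℤ) (c : E →₀ ℤ) : pairF W c = c.sum fun e k => W e * k := by
  simp [pairF, Finsupp.liftAddHom_apply]

theorem tr_single {N : Type} [AddCommMonoid N] (y x : Q) (a : A) (k : N) :
    tr y (Finsupp.single (x, a) k) = Finsupp.single (y * x, a) k := by
  simp [tr]

theorem tr_add {N : Type} [AddCommMonoid N] (y : Q) (c d : Q × A →₀ N) : tr y (c + d) = tr y c + tr y d :=
  Finsupp.mapDomain_add

theorem tr_zero {N : Type} [AddCommMonoid N] (y : Q) : tr y (0 : Q × A →₀ N) = 0 := Finsupp.mapDomain_zero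

theorem tr_mul {N : Type} [AddCommMonoid N] (y z : Q) (c : Q × A →₀ N) : tr (y * z) c = tr y (tr z c) := by
  unfold tr
  rw [← Finsupp.mapDomain_comp]
  congr 1
  ext p
  · simp [mul_assoc]
  · simp

theorem tr_sub (y : Q) (c d : Q × A →₀ ℤ) : tr y (c - d) = tr y c - tr y d := by
  have h := tr_add y (c - d) d
  rw [sub_add_cancel] at h
  exact (sub_eq_of_eq_add h).symm

theorem tr_labels (y : Q) (c : Q × A →₀ ℤ) (P : A → Prop) (h : ∀ e ∈ c.support, P e.2) :
    ∀ e ∈ (tr y c).support, P e.2 := by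
  classical
  intro e he
  have := Finsupp.mapDomain_support he
  obtain ⟨e', he', rfl⟩ := Finset.mem_image.1 this
  exact h e' he'

end Chains

section
variable {P α I : Type} [Group P] {H : I → Type} [∀ i, Group (H i)] (F : IsFree P α I H) (R : Subgroup P)
  [R.Normal] (D : GData (P ⧸ ⁅R, R⁆) (P ⧸ R) (α ⊕ I))

include F in
/-- induction principle for a weight function -/
theorem pair_all (hq : ∀ p : P, D.q (QuotientGroup.mk p) = QuotientGroup.mk p)
    (W : (P ⧸ R) × (α ⊕ I) → ℤ) (b : P ⧸ R → ℤ)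
    (ha : ∀ s y, pairF W (tr y (D.c (QuotientGroup.mk (F.a s)))) = b y - b (y * QuotientGroup.mk (F.a s)))
    (hh : ∀ i g y, pairF W (tr y (D.c (QuotientGroup.mk (F.h i g)))) = b y - b (y * QuotientGroup.mk (F.h i g)))
    (p : P) : ∀ y, pairF W (tr y (D.c (QuotientGroup.mk p))) = b y - b (y * QuotientGroup.mk p) := by
  have hp : p ∈ Subgroup.closure (Set.range F.a ∪ ⋃ i, Set.range (F.h i)) := by rw [F.gen]; trivial
  have hmul : ∀ (p r : P) y, tr y (D.c (QuotientGroup.mk (p * r))) =
      tr y (D.c (QuotientGroup.mk p)) + tr (y * QuotientGroup.mk p) (D.c (QuotientGroup.mk r)) := by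
    intro p r y
    rw [QuotientGroup.mk_mul, D.mul, tr_add, hq, ← tr_mul]
  have hone : D.c 1 = 0 := by
    have := D.mul 1 1
    rw [mul_one, map_one] at this
    have h1 : tr (1 : P ⧸ R) (D.c 1) = D.c 1 := by
      unfold tr
      simp only [one_mul, Prod.mk.eta]
      exact Finsupp.mapDomain_id
    rw [h1] at this
    simpa using this
  induction hp using Subgroup.closure_induction with
  | mem x hx =>
    rcases hx with ⟨s, rfl⟩ | hx
    · exact ha s
    · obtain ⟨i, g, rfl⟩ := Set.mem_iUnion.1 hx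
      exact hh i g
  | one =>
    intro y
    rw [QuotientGroup.mk_one, hone, tr_zero]; simp
  | mul x y _ _ hx hy =>
    intro z
    rw [hmul, map_add, hx, hy, QuotientGroup.mk_mul, mul_assoc]; ring
  | inv x _ hx =>
    intro y
    have h1 := hmul x⁻¹ x y
    rw [inv_mul_cancel, QuotientGroup.mk_one, hone, tr_zero] at h1
    have h2 := congrArg (pairF W) h1
    rw [map_zero, map_add, hx] at h2
    have h3 : y * (QuotientGroup.mk x⁻¹ : P ⧸ R) * (QuotientGroup.mk x : P ⧸ R) = y := by
      rw [QuotientGroup.mk_inv, inv_mul_cancel_right]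
    rw [h3] at h2
    linarith

end

open Classical in
theorem main_of (hCore : StmtCore) (hEq : StmtEqui) (hGs : StmtGsys) (hGG : StmtGG) (hGeq : StmtGeq)
    (hRk : StmtRank) (hMag : StmtMagnus) : StmtMain := by
  intro P α I _ _ _ _ H _ _ F R _ n hR0 hn hdiv K ι κ _ _ M
  obtain ⟨D, hq, ha, hh⟩ := hMag P α I H F R hR0
  obtain ⟨S, hS⟩ := hGs _ _ _ K ι κ D M
  have hcQ : Countable (P ⧸ R) := (QuotientGroup.mk_surjective (s := R)).countable
  -- labels
  set La : Finset (α ⊕ I) := Finset.univ.biUnion fun i : ι => Finset.univ.biUnion fun j : κ =>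
    (M i j).coeff.support.biUnion fun g => (D.c g).support.image Prod.snd with hLa
  have hlab : ∀ i j, ∀ g ∈ (M i j).coeff.support, ∀ e ∈ (D.c g).support, e.2 ∈ La := by
    intro i j g hg e he
    simp only [hLa, Finset.mem_biUnion, Finset.mem_univ, true_and, Finset.mem_image]
    exact ⟨i, j, g, hg, e, he, rfl⟩
  -- translation invariance
  set γ : α ⊕ I → ℝ := fun a => ∫ ω, S.gam ((1 : P ⧸ R), a) ω ∂(mu _) with hγ
  have hinv : ∀ (z : P ⧸ R) (a : α ⊕ I), ∫ ω, S.gam (z, a) ω ∂(mu _) = γ a := by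
    intro z a
    have h := (hEq _ _ _ S ((Equiv.mulLeft z).prodCongr (Equiv.refl κ)) ((Equiv.mulLeft z).prodCongr (Equiv.refl ι))
      ((Equiv.mulLeft z).prodCongr (Equiv.refl (α ⊕ I))) (fun i x => by
        obtain ⟨y, i⟩ := i
        obtain ⟨x, j⟩ := x
        rw [hS]
        exact hGeq _ _ _ K ι κ D M z y x i j)).2 (1, a)
    simpa using h
  -- the functional
  set φ : ((P ⧸ R) × (α ⊕ I) →₀ ℤ) →+ ℝ := Finsupp.liftAddHom fun e =>
    (AddMonoidHom.mulRight (∫ ω, S.gam e ω ∂(mu _))).comp (Int.castAddHom ℝ) with hφ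
  have hφs : ∀ (z : P ⧸ R) (a : α ⊕ I) (k : ℤ), φ (Finsupp.single (z, a) k) = k * γ a := by
    intro z a k
    rw [hφ, Finsupp.liftAddHom_apply_single]
    simp [hinv]
  have hφa : ∀ w, φ w = w.sum fun e k => (k : ℝ) * ∫ ω, S.gam e ω ∂(mu _) := by
    intro w
    rw [hφ, Finsupp.liftAddHom_apply]
    rfl
  have hexp : ∀ (W : (P ⧸ R) × (α ⊕ I) → ℤ) (w : (P ⧸ R) × (α ⊕ I) →₀ ℤ), (∀ e, e.2 ∈ La → w e = W e) →
      ∀ y i j, ∀ g ∈ (M i j).coeff.support, pair w (tr y (D.c g)) = pairF W (tr y (D.c g)) := by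
    intro W w hw y i j g hg
    rw [pairF_apply, pair, Finsupp.sum, Finsupp.sum]
    refine Finset.sum_congr rfl fun e he => ?_
    rw [hw e (tr_labels y (D.c g) (· ∈ La) (hlab i j g hg) e he)]
  -- gauge at a vertex of the finite group `H i`
  have hvert : ∀ i : I, ∃ m : ℤ, (Nat.card (H i) : ℝ) * γ (Sum.inr i) = m := by
    intro i
    haveI := Fintype.ofFinite (H i)
    have hinj : Function.Injective fun g : H i => (QuotientGroup.mk (F.h i g) : P ⧸ R) := by
      intro g g' hgg
      have h1 : (F.h i g)⁻¹ * F.h i g' ∈ R := QuotientGroup.eq.1 hgg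
      rw [← map_inv, ← map_mul] at h1
      exact inv_mul_eq_one.1 (hR0 i _ h1)
    set w : (P ⧸ R) × (α ⊕ I) →₀ ℤ := ∑ g : H i, Finsupp.single (QuotientGroup.mk (F.h i g), Sum.inr i) 1 with hw
    set b : P ⧸ R → ℤ := fun y => if ∃ g : H i, (QuotientGroup.mk (F.h i g) : P ⧸ R) = y then 1 else 0 with hb
    set W : (P ⧸ R) × (α ⊕ I) → ℤ := fun e => if e.2 = Sum.inr i then b e.1 else 0 with hW
    have hwW : ∀ e, w e = W e := by
      rintro ⟨y, a⟩
      rw [hw, Finsupp.finsetSum_apply]
      simp only [Finsupp.single_apply, Prod.mk.injEq, hW, hb]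
      by_cases h1 : a = Sum.inr i
      · subst h1
        simp only [and_true, if_true]
        by_cases h2 : ∃ g : H i, (QuotientGroup.mk (F.h i g) : P ⧸ R) = y
        · obtain ⟨g, rfl⟩ := h2
          rw [if_pos ⟨g, rfl⟩, Finset.sum_eq_single g]
          · simp
          · intro g' _ hg'
            rw [if_neg]
            intro h
            exact hg' (hinj h)
          · simp
        · rw [if_neg h2]
          refine Finset.sum_eq_zero fun g _ => ?_
          rw [if_neg]
          intro h; exact h2 ⟨g, h⟩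
      · rw [if_neg h1]
        refine Finset.sum_eq_zero fun g _ => ?_
        rw [if_neg]
        rintro ⟨_, h⟩; exact h1 h.symm
    have hzero : ∀ p y, pairF W (tr y (D.c (QuotientGroup.mk p))) = 0 := by
      intro p y
      have := pair_all F R D hq W (fun _ => 0) (fun s y => by
        rw [ha, tr_single, pairF_single]; simp [hW]) (fun j g y => by
        rw [hh, tr_sub, tr_single, tr_single, map_sub, pairF_single, pairF_single]
        by_cases hj : j = i
        · subst hj
          simp only [hW, hb, if_true, mul_one, sub_zero, sub_eq_zero]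
          have hiff : (∃ g' : H j, (QuotientGroup.mk (F.h j g') : P ⧸ R) = y) ↔
              ∃ g' : H j, (QuotientGroup.mk (F.h j g') : P ⧸ R) = y * QuotientGroup.mk (F.h j g) := by
            constructor
            · rintro ⟨g', rfl⟩
              exact ⟨g' * g, by rw [map_mul, QuotientGroup.mk_mul]⟩
            · rintro ⟨g', hg'⟩
              refine ⟨g' * g⁻¹, ?_⟩
              rw [map_mul, map_inv, QuotientGroup.mk_mul, hg', QuotientGroup.mk_inv, mul_inv_cancel_right]
          by_cases hx : ∃ g' : H j, (QuotientGroup.mk (F.h j g') : P ⧸ R) = y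
          · rw [if_pos hx, if_pos (hiff.1 hx)]
          · rw [if_neg hx, if_neg fun h => hx (hiff.2 h)]
        · simp [hW, hj]) p y
      simpa using this
    have hg : S.Gauge w 0 := (hGG _ _ _ K ι κ D M S hS).2 w fun y i' j g hg => by
      rw [hexp W w (fun e _ => hwW e) y i' j g hg]
      obtain ⟨p, rfl⟩ := QuotientGroup.mk_surjective g
      exact hzero p y
    obtain ⟨m, hm⟩ := hCore _ _ _ S w 0 hg
    refine ⟨m, ?_⟩
    rw [← hm, ← hφa, hw, map_sum]
    simp only [hφs]
    simp
  choose m hm using hvert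
  -- gauge at the base vertex
  set Lα : Finset α := La.preimage Sum.inl Sum.inl_injective.injOn with hLα
  set LI : Finset I := La.preimage Sum.inr Sum.inr_injective.injOn with hLI
  set w : (P ⧸ R) × (α ⊕ I) →₀ ℤ := ∑ s ∈ Lα, (Finsupp.single (1, Sum.inl s) 1 -
    Finsupp.single ((QuotientGroup.mk (F.a s))⁻¹, Sum.inl s) 1) + ∑ i ∈ LI, Finsupp.single (1, Sum.inr i) 1 with hw
  set b : P ⧸ R → ℤ := fun y => if y = 1 then 1 else 0 with hb
  set W : (P ⧸ R) × (α ⊕ I) → ℤ := fun e => Sum.elim (fun s => b e.1 - b (e.1 * QuotientGroup.mk (F.a s)))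
    (fun _ => b e.1) e.2 with hW
  have hwW : ∀ e, e.2 ∈ La → w e = W e := by
    rintro ⟨y, a⟩ hy
    rcases a with s | i
    · have hs : s ∈ Lα := by simpa [hLα] using hy
      rw [hw]
      simp only [Finsupp.add_apply, Finsupp.finsetSum_apply, Finsupp.sub_apply, Finsupp.single_apply,
        Prod.mk.injEq, reduceCtorEq, and_false, if_false, Finset.sum_const_zero, add_zero, Sum.inl.injEq]
      rw [Finset.sum_eq_single s]
      · simp only [and_true, hW, Sum.elim_inl, hb]
        congr 1
        · simp [eq_comm]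
        · congr 1
          rw [eq_iff_iff]
          constructor
          · rintro rfl; simp
          · intro h; exact (eq_inv_of_mul_eq_one_left h).symm
      · intro s' _ hs'
        simp [hs']
      · intro h; exact absurd hs h
    · have hi : i ∈ LI := by simpa [hLI] using hy
      rw [hw]
      simp only [Finsupp.add_apply, Finsupp.finsetSum_apply, Finsupp.sub_apply, Finsupp.single_apply,
        Prod.mk.injEq, reduceCtorEq, and_false, if_false, Finset.sum_const_zero, sub_zero, zero_add, Sum.inr.injEq]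
      rw [Finset.sum_eq_single i]
      · simp [hW, hb, eq_comm]
      · intro i' _ hi'
        simp [hi']
      · intro h; exact absurd hi h
  have hall : ∀ p y, pairF W (tr y (D.c (QuotientGroup.mk p))) = b y - b (y * QuotientGroup.mk p) := by
    intro p
    refine pair_all F R D hq W b (fun s y => ?_) (fun i g y => ?_) p
    · rw [ha, tr_single, pairF_single]; simp [hW]
    · rw [hh, tr_sub, tr_single, tr_single, map_sub, pairF_single, pairF_single]; simp [hW]
  have hg : S.Gauge w (∑ j : κ, Finsupp.single (1, j) 1) :=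
    (hGG _ _ _ K ι κ D M S hS).1 w 1 fun y i j g hg => by
      rw [hexp W w hwW y i j g hg]
      obtain ⟨p, rfl⟩ := QuotientGroup.mk_surjective g
      rw [hall p y, hq]
      simp only [hb]
      split_ifs <;> rfl
  obtain ⟨m0, hm0⟩ := hCore _ _ _ S w _ hg
  have hrank : ((∑ j : κ, Finsupp.single ((1 : P ⧸ R), j) (1 : ℤ)).sum fun x k => (k : ℝ) *
      ∫ ω, S.nu (ph ω) x ∂(mu _)) = WeakAtiyah.rank M := by
    rw [← hRk _ _ _ K ι κ D M S hS 1]
    set ψ : ((P ⧸ R) × κ →₀ ℤ) →+ ℝ := Finsupp.liftAddHom fun e =>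
      (AddMonoidHom.mulRight (∫ ω, S.nu (ph ω) e ∂(mu _))).comp (Int.castAddHom ℝ) with hψ
    have hψa : ∀ w, ψ w = w.sum fun e k => (k : ℝ) * ∫ ω, S.nu (ph ω) e ∂(mu _) := by
      intro w
      rw [hψ, Finsupp.liftAddHom_apply]
      rfl
    rw [← hψa, map_sum]
    refine Finset.sum_congr rfl fun j _ => ?_
    rw [hψ, Finsupp.liftAddHom_apply_single]
    simp
  rw [hrank, ← hφa, hw, map_add, map_sum, map_sum] at hm0
  simp only [map_sub, hφs, sub_self, Finset.sum_const_zero, zero_add, Int.cast_one, one_mul] at hm0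
  choose k hk using hdiv
  refine ⟨m0 * n - ∑ i ∈ LI, m i * k i, ?_⟩
  have hn' : (n : ℝ) ≠ 0 := by exact_mod_cast hn.ne'
  rw [eq_div_iff hn']
  push_cast
  rw [← hm0, add_mul, Finset.sum_mul]
  have : ∀ i ∈ LI, γ (Sum.inr i) * (n : ℝ) = (m i : ℝ) * (k i : ℝ) := by
    intro i _
    rw [← hm i, hk i]
    push_cast; ring
  rw [Finset.sum_congr rfl this]
  ring

end Pool.GA
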