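import Pool.Agent.GA.Ang0

/-!
# MP_585e9a_al, project GAUGE: presentation of the row space by a finite matrix
-/

set_option autoImplicit false

open MeasureTheory Complex Filter
open scoped ENNReal Topology InnerProductSpace

namespace Pool.GA

section Sub
variable {E : Type}

open Classical in
/-- substitution of constants for the variables outside of `F` -/
noncomputable def sub (F : Finset E) (c : E → ℂ) : MvPolynomial E ℂ →ₐ[ℂ] MvPolynomial E ℂ :=
  MvPolynomial.bind₁ fun e => if e ∈ F then MvPolynomial.X e else MvPolynomial.C (c e)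

lemma eval_sub (F : Finset E) (c z : E → ℂ) (hz : ∀ e ∉ F, z e = c e) (p : MvPolynomial E ℂ) :
    MvPolynomial.eval z (sub F c p) = MvPolynomial.eval z p := by
  unfold sub
  rw [MvPolynomial.eval, MvPolynomial.eval₂Hom_bind₁]
  congr 2
  funext e
  by_cases he : e ∈ F
  · simp [he]
  · simp [he, hz e he]

lemma sub_monomial (F : Finset E) (c : E → ℂ) (d : E →₀ ℕ) (r : ℂ) :
    sub F c (MvPolynomial.monomial d r) = MvPolynomial.C r * ∏ e ∈ d.support,
      (open Classical in if e ∈ F then MvPolynomial.X e else MvPolynomial.C (c e)) ^ d e := by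
  unfold sub
  rw [MvPolynomial.bind₁_monomial]

lemma sub_homog (F : Finset E) (c : E → ℂ) (w : E → ℤ) (hw : ∀ e ∉ F, w e = 0) (n : ℤ)
    (p : MvPolynomial E ℂ) (hp : p.IsWeightedHomogeneous w n) :
    (sub F c p).IsWeightedHomogeneous w n := by
  rw [p.as_sum, map_sum]
  apply MvPolynomial.IsWeightedHomogeneous.sum
  intro d hd
  rw [sub_monomial]
  apply MvPolynomial.IsWeightedHomogeneous.C_mul
  have h1 : Finsupp.weight w d = n := hp (MvPolynomial.mem_support_iff.1 hd)
  rw [← h1, Finsupp.weight_apply, Finsupp.sum]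
  apply MvPolynomial.IsWeightedHomogeneous.prod
  intro e _
  apply MvPolynomial.IsWeightedHomogeneous.pow
  by_cases he : e ∈ F
  · simp only [he, if_true]
    exact MvPolynomial.isWeightedHomogeneous_X ℂ w e
  · simp only [he, if_false]
    rw [hw e he]
    exact MvPolynomial.isWeightedHomogeneous_C w _

lemma sub_degreeOf (F : Finset E) (c : E → ℂ) (e : E) (p : MvPolynomial E ℂ) :
    (sub F c p).degreeOf e ≤ p.degreeOf e := by
  classical
  conv_lhs => rw [p.as_sum, map_sum]
  refine (MvPolynomial.degreeOf_sum_le _ _ _).trans ?_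
  apply Finset.sup_le
  intro d hd
  rw [sub_monomial]
  refine (MvPolynomial.degreeOf_C_mul_le _ _ _).trans ?_
  refine (MvPolynomial.degreeOf_prod_le _ _ _).trans ?_
  refine le_trans ?_ (MvPolynomial.monomial_le_degreeOf e hd)
  have h1 : ∀ e' ∈ d.support, MvPolynomial.degreeOf e
      ((if e' ∈ F then MvPolynomial.X e' else MvPolynomial.C (c e')) ^ d e' : MvPolynomial E ℂ) ≤
      if e' = e then d e else 0 := by
    intro e' _
    refine (MvPolynomial.degreeOf_pow_le _ _ _).trans ?_
    by_cases he' : e' = e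
    · rw [if_pos he', he']
      by_cases he : e ∈ F
      · simp [he]
      · simp [he]
    · rw [if_neg he']
      by_cases he : e' ∈ F
      · simp [he, MvPolynomial.degreeOf_X_of_ne (Ne.symm he')]
      · simp [he]
  refine (Finset.sum_le_sum h1).trans ?_
  rw [Finset.sum_ite_eq']
  split_ifs
  · exact le_rfl
  · exact Nat.zero_le _

lemma sub_vars (F : Finset E) (c : E → ℂ) (p : MvPolynomial E ℂ) : (sub F c p).vars ⊆ F := by
  classical
  intro e he
  obtain ⟨e', -, h⟩ := MvPolynomial.mem_vars_bind₁ _ _ he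
  by_cases he' : e' ∈ F
  · rw [if_pos he', MvPolynomial.vars_X, Finset.mem_singleton] at h
    rw [h]
    exact he'
  · rw [if_neg he', MvPolynomial.vars_C] at h
    exact absurd h (Finset.notMem_empty _)

end Sub

/-! ### basis vectors -/

section Del
variable {X : Type}

lemma inner_del (x : X) (v : L2 X) : inner ℂ (del x) v = v x := by
  classical
  unfold del
  rw [lp.inner_single_left]
  simp

lemma del_apply (x y : X) : (del x : L2 X) y = open Classical in if y = x then 1 else 0 := by
  classical
  unfold del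
  rw [lp.coeFn_single]
  by_cases h : y = x
  · subst h
    simp
  · simp [h]

lemma del_orthonormal (s : Finset X) : Orthonormal ℂ fun x : s => (del (x : X) : L2 X) := by
  classical
  rw [orthonormal_iff_ite]
  intro i j
  rw [inner_del, del_apply]
  by_cases h : i = j
  · subst h
    simp
  · have : (i : X) ≠ j := fun h' => h (Subtype.ext h')
    simp [h, this]

end Del

section Lin
variable {H : Type*} [NormedAddCommGroup H] [InnerProductSpace ℂ H] {κ : Type} [Fintype κ]

omit [Fintype κ] in
lemma gm_self_orthonormal [DecidableEq κ] {u : κ → H} (hu : Orthonormal ℂ u) : gm u u = 1 := by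
  ext i j
  rw [gm, Matrix.of_apply, orthonormal_iff_ite.1 hu, Matrix.one_apply]
  by_cases h : i = j
  · simp [h]
  · simp [h, Ne.symm h]

lemma li_iff_minor (hCB : StmtCB) {u : κ → H} (hu : Orthonormal ℂ u) (n : ℕ) (A : Matrix (Fin n) κ ℂ) :
    (LinearIndependent ℂ fun i => ∑ k, A i k • u k) ↔ ∃ f : Fin n → κ, (A.submatrix id f).det ≠ 0 := by
  classical
  rw [← gd_self_ne]
  have h1 : gd (fun i => ∑ k, A i k • u k) (fun i => ∑ k, A i k • u k) = (A * A.conjTranspose).det := by
    unfold gd
    rw [gm_mul, gm_self_orthonormal hu, Matrix.mul_one]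
  rw [h1]
  have h2 := hCB κ n A A
  have h3 : ∀ f : Fin n → κ, (A.submatrix id f).det * (starRingEnd ℂ) ((A.submatrix id f).det) =
      ((‖(A.submatrix id f).det‖ ^ 2 : ℝ) : ℂ) := by
    intro f
    rw [Complex.mul_conj, Complex.normSq_eq_norm_sq]
  simp only [h3] at h2
  have h4 : (n.factorial : ℂ) ≠ 0 := by exact_mod_cast n.factorial_ne_zero
  have h5 : (A * A.conjTranspose).det ≠ 0 ↔
      (∑ f : Fin n → κ, ‖(A.submatrix id f).det‖ ^ 2 : ℝ) ≠ 0 := by
    rw [not_iff_not]
    constructor
    · intro h
      rw [h, mul_zero] at h2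
      exact_mod_cast h2
    · intro h
      have h6 : (n.factorial : ℂ) * (A * A.conjTranspose).det = 0 := by
        rw [← h2]
        exact_mod_cast h
      exact (mul_eq_zero.1 h6).resolve_left h4
  rw [h5]
  constructor
  · intro h
    by_contra hn
    push Not at hn
    apply h
    apply Finset.sum_eq_zero
    intro f _
    rw [hn f]
    simp
  · rintro ⟨f, hf⟩ h
    rw [Finset.sum_eq_zero_iff_of_nonneg fun f _ => by positivity] at h
    have := h f (Finset.mem_univ f)
    apply hf
    simpa using this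

end Lin

lemma proj_congr {H : Type*} [NormedAddCommGroup H] [InnerProductSpace ℂ H] {A A' : Submodule ℂ H}
    [A.HasOrthogonalProjection] [A'.HasOrthogonalProjection] (h : A = A') (v : H) :
    A.starProjection v = A'.starProjection v := by
  subst h
  rfl

namespace Sys
variable {X Y E : Type} (S : Sys X Y E)

/-- the component of the basis vector orthogonal to the rows outside `J` -/
noncomputable def qd (J : Finset Y) (z : E → ℂ) (x : X) : L2 X :=
  del x - (S.W J z).starProjection (del x)

lemma b_eq_sum (J : Finset Y) (z : E → ℂ) (i : Y) (s : Finset X) (hs : (S.row i).toFinset ⊆ s) :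
    S.b J z i = ∑ x ∈ s, MvPolynomial.eval z (S.a i x) • S.qd J z x := by
  have h1 : S.vec z i = ∑ x ∈ s, MvPolynomial.eval z (S.a i x) • del x := by
    unfold vec
    apply Finset.sum_subset hs
    intro x _ hx
    have : S.a i x = 0 := by
      by_contra h
      exact hx ((S.row i).mem_toFinset.2 h)
    rw [this, map_zero, zero_smul]
  unfold b qd
  rw [h1, map_sum, ← Finset.sum_sub_distrib]
  refine Finset.sum_congr rfl fun x _ => ?_
  rw [map_smul, smul_sub]

lemma del_orth {J : Finset Y} {x : X} (hx : (S.col x).toFinset ⊆ J) (z : E → ℂ) {v : L2 X}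
    (hv : v ∈ S.W J z) : inner ℂ (del x) v = 0 := by
  have h1 : S.W J z ≤ (Submodule.span ℂ {(del x : L2 X)})ᗮ := by
    apply Submodule.topologicalClosure_minimal
    · rw [Submodule.span_le]
      rintro _ ⟨i, hi, rfl⟩
      rw [SetLike.mem_coe, Submodule.mem_orthogonal_singleton_iff_inner_right]
      unfold vec
      rw [inner_sum]
      apply Finset.sum_eq_zero
      intro y hy
      rw [inner_smul_right, inner_del, del_apply]
      have hxy : x ≠ y := by
        rintro rfl
        rw [Set.Finite.mem_toFinset] at hy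
        exact hi (hx ((S.col x).mem_toFinset.2 hy))
      simp [hxy]
    · exact Submodule.isClosed_orthogonal _
  exact Submodule.mem_orthogonal_singleton_iff_inner_right.1 (h1 hv)

lemma proj_del {J : Finset Y} {x : X} (hx : (S.col x).toFinset ⊆ J) (z : E → ℂ) :
    (S.W J z).starProjection (del x) = 0 := by
  apply Submodule.eq_starProjection_of_mem_orthogonal (Submodule.zero_mem _)
  rw [sub_zero, Submodule.mem_orthogonal]
  intro v hv
  rw [← inner_conj_symm, S.del_orth hx z hv, map_zero]

lemma nu_eq {J : Finset Y} {x : X} (hx : (S.col x).toFinset ⊆ J) (z : E → ℂ) (V : Submodule ℂ (L2 X))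
    [V.HasOrthogonalProjection] (hV : Submodule.span ℂ (S.b J z '' (J : Set Y)) = V) :
    S.nu z x = (inner ℂ (del x) (V.starProjection (del x)) : ℂ).re := by
  have hfd : FiniteDimensional ℂ (Submodule.span ℂ (S.b J z '' (J : Set Y))) :=
    FiniteDimensional.span_of_finite ℂ (J.finite_toSet.image _)
  have h1 := S.N_eq_sup J z
  have : CompleteSpace (S.W J z ⊔ Submodule.span ℂ (S.b J z '' (J : Set Y)) : Submodule ℂ (L2 X)) := by
    rw [← h1]
    infer_instance
  unfold nu
  rw [proj_congr h1 (del x), starProjection_sup (fun a ha b hb => S.inner_span_b ha hb),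
    S.proj_del hx z, zero_add, proj_congr hV (del x), inner_del]

end Sys

/-- PRES -/
theorem pres (hCB : StmtCB) (hP : StmtProj) : StmtPres := by
  classical
  intro X Y E S w o F ω' hG hF
  obtain ⟨o', ho'⟩ := hG
  obtain ⟨J, hJ⟩ : ∃ J, J = S.JJ F o := ⟨_, rfl⟩
  obtain ⟨z0, hz0⟩ : ∃ z0 : E → ℂ, z0 = ph ω' := ⟨_, rfl⟩
  rw [← hJ, ← hz0]
  have hBJ : ∀ e ∈ F, S.B e ⊆ J := by
    intro e he
    rw [hJ]
    intro i hi
    exact Finset.mem_union_left _ (Finset.mem_biUnion.2 ⟨e, he, hi⟩)
  have hcJ : ∀ x ∈ o.support, (S.col x).toFinset ⊆ J := by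
    intro x hx
    rw [hJ]
    intro i hi
    exact Finset.mem_union_right _ (Finset.mem_biUnion.2 ⟨x, hx, hi⟩)
  have hW : ∀ z : E → ℂ, (∀ e ∉ F, z e = z0 e) → S.W J z = S.W J z0 := by
    intro z hz
    apply S.W_congr
    intro e he
    by_cases h : e ∈ F
    · exact hBJ e h
    · exact absurd (hz e h) he
  have hq : ∀ z : E → ℂ, (∀ e ∉ F, z e = z0 e) → ∀ x, S.qd J z x = S.qd J z0 x := by
    intro z hz x
    unfold Sys.qd
    rw [proj_congr (hW z hz)]
  -- the columns
  obtain ⟨X0, hX0⟩ : ∃ X0 : Finset X, X0 = J.biUnion fun i => (S.row i).toFinset := ⟨_, rfl⟩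
  obtain ⟨X1, hX1⟩ : ∃ X1 : Finset X, X1 = X0 \ o.support := ⟨_, rfl⟩
  have hrow : ∀ i ∈ J, (S.row i).toFinset ⊆ o.support ∪ X1 := by
    intro i hi x hx
    rw [Finset.mem_union, hX1, Finset.mem_sdiff, hX0, Finset.mem_biUnion]
    by_cases hxo : x ∈ o.support
    · exact Or.inl hxo
    · exact Or.inr ⟨⟨i, hi, hx⟩, hxo⟩
  have hdisj : Disjoint o.support X1 := by
    rw [hX1]
    exact Finset.disjoint_sdiff
  obtain ⟨V, hV⟩ : ∃ V : Submodule ℂ (L2 X), V = Submodule.span ℂ (S.qd J z0 '' (X1 : Set X)) := ⟨_, rfl⟩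
  have hfd : FiniteDimensional ℂ V := by
    rw [hV]
    exact FiniteDimensional.span_of_finite ℂ (X1.finite_toSet.image _)
  have hqV : ∀ x ∈ X1, S.qd J z0 x ∈ V := by
    intro x hx
    rw [hV]
    exact Submodule.subset_span ⟨x, by exact_mod_cast hx, rfl⟩
  have hdV : ∀ x ∈ o.support, ∀ v ∈ V, inner ℂ (del x) v = 0 := by
    intro x hx v hv
    have h1 : V ≤ (Submodule.span ℂ {(del x : L2 X)})ᗮ := by
      rw [hV, Submodule.span_le]
      rintro _ ⟨y, hy, rfl⟩
      rw [SetLike.mem_coe, Submodule.mem_orthogonal_singleton_iff_inner_right]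
      unfold Sys.qd
      have hxy : x ≠ y := by
        rintro rfl
        exact Finset.disjoint_left.1 hdisj hx (by exact_mod_cast hy)
      rw [inner_sub_right, S.del_orth (hcJ x hx) z0 (Submodule.starProjection_apply_mem _ _), inner_del,
        del_apply, sub_zero]
      simp [hxy]
    exact Submodule.mem_orthogonal_singleton_iff_inner_right.1 (h1 hv)
  -- the basis
  let bV := stdOrthonormalBasis ℂ V
  let κ := o.support ⊕ Fin (Module.finrank ℂ V)
  let u : κ → L2 X := Sum.elim (fun x => del (x : X)) (fun k => ((bV k : V) : L2 X))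
  have hu : Orthonormal ℂ u := by
    rw [orthonormal_iff_ite]
    rintro (i | i) (j | j)
    · have h1 := orthonormal_iff_ite.1 (del_orthonormal o.support) i j
      change inner ℂ (del (i : X)) (del (j : X)) = _
      rw [h1]
      by_cases h : i = j
      · rw [if_pos h, if_pos (congrArg _ h)]
      · rw [if_neg h, if_neg fun h' => h (Sum.inl_injective h')]
    · have := hdV i i.2 _ (bV j).2
      simpa [u] using this
    · have := hdV j j.2 _ (bV i).2
      have h2 : inner ℂ ((bV i : V) : L2 X) (del (j : X)) = 0 := by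
        rw [← inner_conj_symm, this, map_zero]
      simpa [u] using h2
    · have h1 := orthonormal_iff_ite.1 bV.orthonormal i j
      change inner ℂ (bV i) (bV j) = _
      rw [h1]
      by_cases h : i = j
      · rw [if_pos h, if_pos (congrArg _ h)]
      · rw [if_neg h, if_neg fun h' => h (Sum.inr_injective h')]
  let T : Matrix J κ (MvPolynomial E ℂ) := fun i => Sum.elim (fun x => sub F z0 (S.a i x))
    (fun k => ∑ x ∈ X1, MvPolynomial.C (inner ℂ ((bV k : V) : L2 X) (S.qd J z0 x)) * sub F z0 (S.a i x))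
  let oo : κ → ℤ := Sum.elim (fun x => o x) (fun _ => 0)
  -- the vectors `b`
  have hb : ∀ z : E → ℂ, (∀ e ∉ F, z e = z0 e) → ∀ i : J,
      S.b J z i = ∑ k, MvPolynomial.eval z (T i k) • u k := by
    intro z hz i
    rw [S.b_eq_sum J z i _ (hrow i i.2), Finset.sum_union hdisj, Fintype.sum_sum_type]
    congr 1
    · rw [← Finset.sum_coe_sort o.support]
      refine Finset.sum_congr rfl fun x _ => ?_
      have h1 : S.qd J z x = del (x : X) := by
        unfold Sys.qd
        rw [S.proj_del (hcJ x x.2), sub_zero]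
      rw [h1]
      change _ = MvPolynomial.eval z (sub F z0 (S.a i x)) • del (x : X)
      rw [eval_sub F z0 z hz]
    · have h2 : ∀ k, MvPolynomial.eval z (T i (Sum.inr k)) • u (Sum.inr k) =
          ∑ x ∈ X1, (MvPolynomial.eval z (S.a i x) * inner ℂ ((bV k : V) : L2 X) (S.qd J z0 x)) •
            ((bV k : V) : L2 X) := by
        intro k
        change MvPolynomial.eval z (∑ x ∈ X1, MvPolynomial.C (inner ℂ ((bV k : V) : L2 X) (S.qd J z0 x)) *
          sub F z0 (S.a i x)) • ((bV k : V) : L2 X) = _
        rw [map_sum, Finset.sum_smul]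
        refine Finset.sum_congr rfl fun x _ => ?_
        rw [map_mul, MvPolynomial.eval_C, eval_sub F z0 z hz, mul_comm]
      simp only [h2]
      rw [Finset.sum_comm]
      refine Finset.sum_congr rfl fun x hx => ?_
      have h3 := bV.sum_repr' (⟨S.qd J z0 x, hqV x hx⟩ : V)
      have h4 : ∑ k, inner ℂ ((bV k : V) : L2 X) (S.qd J z0 x) • ((bV k : V) : L2 X) = S.qd J z0 x := by
        have := congrArg (fun v : V => (v : L2 X)) h3
        simpa using this
      rw [hq z hz]
      conv_lhs => rw [← h4]
      rw [Finset.smul_sum]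
      refine Finset.sum_congr rfl fun k _ => ?_
      rw [mul_smul]
  refine ⟨κ, inferInstance, T, fun i => o' i, oo, ?_, ?_, ?_, ?_, ?_⟩
  · -- weights
    have hw0 : ∀ e ∉ F, w e = 0 := by
      intro e he
      by_contra h
      exact he (hF (Finsupp.mem_support_iff.2 h))
    rintro i (x | k)
    · exact sub_homog F z0 w hw0 _ _ (ho' i x)
    · change (∑ x ∈ X1, _ : MvPolynomial E ℂ).IsWeightedHomogeneous w (o' i - 0)
      apply MvPolynomial.IsWeightedHomogeneous.sum
      intro x hx
      apply MvPolynomial.IsWeightedHomogeneous.C_mul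
      have h1 : o x = 0 := by
        by_contra h
        exact Finset.disjoint_left.1 hdisj (Finsupp.mem_support_iff.2 h) hx
      have h2 := ho' i x
      rw [h1] at h2
      exact sub_homog F z0 w hw0 _ _ h2
  · -- variables
    rintro i (x | k)
    · exact sub_vars F z0 _
    · refine (MvPolynomial.vars_sum_subset _ _).trans ?_
      rw [Finset.biUnion_subset]
      intro x _
      refine (MvPolynomial.vars_mul _ _).trans ?_
      rw [MvPolynomial.vars_C, Finset.empty_union]
      exact sub_vars F z0 _
  · -- degrees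
    rintro e N i (x | k) hN
    · exact (sub_degreeOf F z0 e _).trans (hN x)
    · refine (MvPolynomial.degreeOf_sum_le _ _ _).trans ?_
      apply Finset.sup_le
      intro x _
      exact (MvPolynomial.degreeOf_C_mul_le _ _ _).trans ((sub_degreeOf F z0 e _).trans (hN x))
  · -- inner products
    intro z z' hz hz' i i'
    rw [hb z hz i, hb z' hz' i', hu.inner_sum]
    refine Finset.sum_congr rfl fun k _ => ?_
    rw [mul_comm]
  · -- the formula for `nu`
    intro z hz ρ I hI hI'
    obtain ⟨A, hA⟩ : ∃ A : Matrix (Fin ρ) κ ℂ, A = fun i k => MvPolynomial.eval z (T (I i) k) := ⟨_, rfl⟩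
    have hdet : ∀ f : Fin ρ → κ, MvPolynomial.eval z (T.submatrix I f).det = (A.submatrix id f).det := by
      intro f
      rw [RingHom.map_det, hA]
      rfl
    have hIA : ∃ f : Fin ρ → κ, (A.submatrix id f).det ≠ 0 := by
      obtain ⟨f, hf⟩ := hI
      exact ⟨f, by rwa [← hdet f]⟩
    have hAb : ∀ i, ∑ k, A i k • u k = S.b J z (I i) := by
      intro i
      rw [hb z hz, hA]
    have hli := (li_iff_minor hCB hu ρ A).2 hIA
    obtain ⟨Vz, hVz⟩ : ∃ Vz : Submodule ℂ (L2 X),
      Vz = Submodule.span ℂ (Set.range fun i => ∑ k, A i k • u k) := ⟨_, rfl⟩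
    have hfdz : FiniteDimensional ℂ Vz := by
      rw [hVz]
      exact FiniteDimensional.span_of_finite ℂ (Set.finite_range _)
    have hspan : Submodule.span ℂ (S.b J z '' (J : Set Y)) = Vz := by
      apply le_antisymm
      · rw [Submodule.span_le]
        rintro _ ⟨i, hi, rfl⟩
        by_contra hn
        have hi' : i ∈ J := by exact_mod_cast hi
        obtain ⟨I', hI'e⟩ : ∃ I' : Fin (ρ + 1) → J, I' = Fin.cons ⟨i, hi'⟩ I := ⟨_, rfl⟩
        obtain ⟨A', hA'⟩ : ∃ A' : Matrix (Fin (ρ + 1)) κ ℂ,
          A' = fun i k => MvPolynomial.eval z (T (I' i) k) := ⟨_, rfl⟩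
        have h1 : (fun j => ∑ k, A' j k • u k) =
            (Fin.cons (S.b J z i) (fun j => ∑ k, A j k • u k) : Fin (ρ + 1) → L2 X) := by
          funext j
          have h2 : ∑ k, A' j k • u k = S.b J z (I' j) := by
            rw [hb z hz, hA']
          rw [h2, hI'e]
          refine Fin.cases ?_ (fun j => ?_) j
          · rfl
          · rw [Fin.cons_succ, Fin.cons_succ, hAb]
        have h3 : LinearIndependent ℂ (fun j => ∑ k, A' j k • u k) := by
          rw [h1, linearIndependent_finCons]
          refine ⟨hli, ?_⟩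
          rw [← hVz]
          exact hn
        obtain ⟨f', hf'⟩ := (li_iff_minor hCB hu _ A').1 h3
        apply hf'
        have h4 := hI' I' f'
        rw [RingHom.map_det] at h4
        rw [hA']
        exact h4
      · rw [hVz, Submodule.span_le]
        rintro _ ⟨i, rfl⟩
        change (∑ k, A i k • u k) ∈ _
        rw [hAb]
        exact Submodule.subset_span ⟨I i, by exact_mod_cast (I i).2, rfl⟩
    have hPr := hP (L2 X) κ u ρ A oo Vz hu hVz hIA
    simp only [hdet]
    rw [← hPr, Fintype.sum_sum_type]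
    have h5 : ∀ k, ((oo (Sum.inr k) : ℤ) : ℝ) *
        (inner ℂ (u (Sum.inr k)) (Vz.starProjection (u (Sum.inr k))) : ℂ).re = 0 := by
      intro k
      change (((0 : ℤ) : ℤ) : ℝ) * _ = 0
      rw [Int.cast_zero, zero_mul]
    rw [Finset.sum_eq_zero (s := Finset.univ) (f := fun k => ((oo (Sum.inr k) : ℤ) : ℝ) *
        (inner ℂ (u (Sum.inr k)) (Vz.starProjection (u (Sum.inr k))) : ℂ).re) fun k _ => h5 k, add_zero]
    rw [Finsupp.sum, ← Finset.sum_coe_sort o.support]
    refine Finset.sum_congr rfl fun x _ => ?_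
    rw [S.nu_eq (hcJ x x.2) z Vz hspan]
    rfl

end Pool.GA
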