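import Pool.Agent.GA.Stmts

/-!
# MP_585e9a_al, project FRR: row PROB (Helper25)

Resampling and permutation of independent uniform angles, and the `0`-`1` law in the `L¹` form.
-/

set_option autoImplicit false

open MeasureTheory Filter
open scoped ENNReal Topology

namespace Pool.GA

instance isProbabilityMeasure_mu0 : IsProbabilityMeasure mu0 := by
  constructor
  rw [mu0, Measure.smul_apply, Measure.restrict_apply MeasurableSet.univ, Set.univ_inter,
    Real.volume_Ioc, sub_zero, smul_eq_mul]
  apply ENNReal.inv_mul_cancel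
  · rw [Ne, ENNReal.ofReal_eq_zero, not_le]
    positivity
  · exact ENNReal.ofReal_ne_top

instance isProbabilityMeasure_mu (E : Type) : IsProbabilityMeasure (mu E) := by
  unfold mu
  infer_instance

theorem measurable_pw {E : Type} (F : Finset E) :
    Measurable (fun p : (E → ℝ) × (E → ℝ) => open Classical in F.piecewise p.1 p.2) := by
  classical
  rw [measurable_pi_iff]
  intro e
  by_cases he : e ∈ F
  · simp only [Finset.piecewise_eq_of_mem _ _ _ he]
    exact (measurable_pi_apply e).comp measurable_fst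
  · simp only [Finset.piecewise_eq_of_notMem _ _ _ he]
    exact (measurable_pi_apply e).comp measurable_snd

theorem rsf : StmtRSF := by
  classical
  intro E F
  refine Measure.eq_infinitePi _ fun s t ht => ?_
  rw [Measure.map_apply]
  rotate_left
  · convert measurable_pw F
  · exact MeasurableSet.pi s.countable_toSet fun i _ => ht i
  have hpre : (fun p : (E → ℝ) × (E → ℝ) => F.piecewise p.1 p.2) ⁻¹' (Set.pi (s : Set E) t) =
      (Set.pi ((s.filter (· ∈ F) : Finset E) : Set E) t) ×ˢ
        (Set.pi ((s.filter (· ∉ F) : Finset E) : Set E) t) := by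
    ext p
    simp only [Set.mem_preimage, Set.mem_pi, Set.mem_prod, Finset.coe_filter, Set.mem_ofPred_eq,
      Finset.mem_coe]
    constructor
    · intro h
      refine ⟨fun i hi => ?_, fun i hi => ?_⟩
      · have := h i hi.1
        rwa [Finset.piecewise_eq_of_mem _ _ _ hi.2] at this
      · have := h i hi.1
        rwa [Finset.piecewise_eq_of_notMem _ _ _ hi.2] at this
    · rintro ⟨h1, h2⟩ i hi
      by_cases hF : i ∈ F
      · rw [Finset.piecewise_eq_of_mem _ _ _ hF]
        exact h1 i ⟨hi, hF⟩
      · rw [Finset.piecewise_eq_of_notMem _ _ _ hF]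
        exact h2 i ⟨hi, hF⟩
  have hpre' : (fun p : (E → ℝ) × (E → ℝ) => open Classical in F.piecewise p.1 p.2) ⁻¹'
      (Set.pi (s : Set E) t) = (Set.pi ((s.filter (· ∈ F) : Finset E) : Set E) t) ×ˢ
        (Set.pi ((s.filter (· ∉ F) : Finset E) : Set E) t) := by
    convert hpre
  rw [hpre', Measure.prod_prod, mu, Measure.infinitePi_pi _ fun i _ => ht i,
    Measure.infinitePi_pi _ fun i _ => ht i, Finset.prod_filter_mul_prod_filter_not]

theorem rs1 : StmtRS1 := by
  classical
  intro E e
  refine Measure.eq_infinitePi _ fun s t ht => ?_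
  have hm : Measurable (fun p : ℝ × (E → ℝ) => open Classical in Function.update p.2 e p.1) := by
    rw [measurable_pi_iff]
    intro i
    by_cases hi : i = e
    · subst hi
      simp only [Function.update_self]
      exact measurable_fst
    · simp only [Function.update_of_ne hi]
      exact (measurable_pi_apply i).comp measurable_snd
  rw [Measure.map_apply hm (MeasurableSet.pi s.countable_toSet fun i _ => ht i)]
  by_cases he : e ∈ s
  · have hpre : (fun p : ℝ × (E → ℝ) => open Classical in Function.update p.2 e p.1) ⁻¹'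
        (Set.pi (s : Set E) t) = (t e) ×ˢ (Set.pi ((s.erase e : Finset E) : Set E) t) := by
      ext p
      simp only [Set.mem_preimage, Set.mem_pi, Set.mem_prod, Finset.mem_coe]
      constructor
      · intro h
        refine ⟨?_, fun i hi => ?_⟩
        · have := h e he
          rwa [Function.update_self] at this
        · rw [Finset.mem_erase] at hi
          have := h i hi.2
          rwa [Function.update_of_ne hi.1] at this
      · rintro ⟨h1, h2⟩ i hi
        by_cases hie : i = e
        · subst hie
          rwa [Function.update_self]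
        · rw [Function.update_of_ne hie]
          exact h2 i (Finset.mem_erase.2 ⟨hie, hi⟩)
    rw [hpre, Measure.prod_prod, mu, Measure.infinitePi_pi _ fun i _ => ht i,
      Finset.mul_prod_erase s (fun i => mu0 (t i)) he]
  · have hpre : (fun p : ℝ × (E → ℝ) => open Classical in Function.update p.2 e p.1) ⁻¹'
        (Set.pi (s : Set E) t) = Set.univ ×ˢ (Set.pi (s : Set E) t) := by
      ext p
      simp only [Set.mem_preimage, Set.mem_pi, Set.mem_prod, Finset.mem_coe, Set.mem_univ,
        true_and]
      refine forall_congr' fun i => forall_congr' fun hi => ?_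
      have hie : i ≠ e := fun h => he (h ▸ hi)
      rw [Function.update_of_ne hie]
    rw [hpre, Measure.prod_prod, measure_univ, one_mul, mu,
      Measure.infinitePi_pi _ fun i _ => ht i]

theorem perm : StmtPerm := by
  classical
  intro E g
  refine Measure.eq_infinitePi _ fun s t ht => ?_
  have hm : Measurable (fun (ω : E → ℝ) e => ω (g e)) :=
    measurable_pi_iff.2 fun e => measurable_pi_apply (g e)
  rw [Measure.map_apply hm (MeasurableSet.pi s.countable_toSet fun i _ => ht i)]
  have hpre : (fun (ω : E → ℝ) e => ω (g e)) ⁻¹' (Set.pi (s : Set E) t) =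
      Set.pi ((s.map g.toEmbedding : Finset E) : Set E) (fun i => t (g.symm i)) := by
    ext ω
    simp only [Set.mem_preimage, Set.mem_pi, Finset.mem_coe, Finset.mem_map,
      Equiv.coe_toEmbedding]
    constructor
    · rintro h _ ⟨i, hi, rfl⟩
      rw [Equiv.symm_apply_apply]
      exact h i hi
    · intro h i hi
      have := h (g i) ⟨i, hi, rfl⟩
      rwa [Equiv.symm_apply_apply] at this
  rw [hpre, mu, Measure.infinitePi_pi _ fun i _ => ht (g.symm i), Finset.prod_map]
  refine Finset.prod_congr rfl fun i _ => ?_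
  rw [Equiv.coe_toEmbedding, Equiv.symm_apply_apply]

/-- the increasing sequence of finite sets of variables -/
noncomputable def Fex {E : Type} (φ : E → ℕ) (hφ : Function.Injective φ) (F₀ : Finset E) (n : ℕ) :
    Finset E :=
  open Classical in F₀ ∪ ((Set.finite_Iio n).preimage hφ.injOn).toFinset

theorem Fex_mono {E : Type} (φ : E → ℕ) (hφ : Function.Injective φ) (F₀ : Finset E) :
    Monotone (Fex φ hφ F₀) := by
  classical
  intro m n hmn
  refine Finset.union_subset_union_right fun e he => ?_
  rw [Set.Finite.mem_toFinset] at he ⊢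
  exact lt_of_lt_of_le he hmn

theorem mem_Fex {E : Type} (φ : E → ℕ) (hφ : Function.Injective φ) (F₀ : Finset E) (e : E) :
    e ∈ Fex φ hφ F₀ (φ e + 1) := by
  classical
  refine Finset.mem_union_right _ ?_
  rw [Set.Finite.mem_toFinset]
  exact Nat.lt_succ_self _

theorem glob : StmtGlob := by
  classical
  intro E _ f C F₀ hf hC hint
  obtain ⟨φ, hφ⟩ := exists_injective_nat E
  let F := Fex φ hφ F₀
  have hF₀ : ∀ n, F₀ ⊆ F n := fun n => Finset.subset_union_left
  -- the filtration
  let ℱ : Filtration ℕ (MeasurableSpace.pi : MeasurableSpace (E → ℝ)) :=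
    { seq := fun n => Filtration.piFinset (X := fun _ : E => ℝ) (F n)
      mono' := fun m n hmn => (Filtration.piFinset (X := fun _ : E => ℝ)).mono (Fex_mono φ hφ F₀ hmn)
      le' := fun n => (Filtration.piFinset (X := fun _ : E => ℝ)).le (F n) }
  have hsup : (⨆ n, ℱ n) = (MeasurableSpace.pi : MeasurableSpace (E → ℝ)) := by
    apply le_antisymm (iSup_le fun n => ℱ.le n)
    change (⨆ a : E, MeasurableSpace.comap (fun b : E → ℝ => b a) _) ≤ _
    refine iSup_le fun e => ?_
    refine le_trans ?_ (le_iSup _ (φ e + 1))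
    change MeasurableSpace.comap _ _ ≤ Filtration.piFinset (X := fun _ : E => ℝ) (F (φ e + 1))
    rw [Filtration.piFinset_eq_comap_restrict]
    have h1 : (fun b : E → ℝ => b e) =
        (fun b : (F (φ e + 1) : Set E) → ℝ => b ⟨e, mem_Fex φ hφ F₀ e⟩) ∘
          ((F (φ e + 1) : Set E).domRestrict) := rfl
    rw [h1, ← MeasurableSpace.comap_comp]
    apply MeasurableSpace.comap_mono
    exact (measurable_pi_apply _).comap_le
  have hfi : Integrable f (mu E) := by
    refine Integrable.of_bound hf.aestronglyMeasurable C (Eventually.of_forall fun ω => ?_)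
    rw [Real.norm_eq_abs]
    exact hC ω
  have hlim := tendsto_eLpNorm_condExp (μ := mu E) (ℱ := ℱ) f
  rw [hsup, condExp_of_stronglyMeasurable le_rfl hf.stronglyMeasurable hfi] at hlim
  set c : ℝ := ∫ ω, f ω ∂(mu E) with hc
  -- for every `ε` there is an integer close to `c`
  have hclose : ∀ ε : ℝ, 0 < ε → ∃ m : ℤ, |(m : ℝ) - c| ≤ 2 * ε := by
    intro ε hε
    have hev := (ENNReal.tendsto_nhds_zero.1 hlim) (ENNReal.ofReal ε)
      (ENNReal.ofReal_pos.2 hε)
    obtain ⟨n, hn⟩ := hev.exists
    set g : (E → ℝ) → ℝ := (mu E)[f | ℱ n] with hg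
    have hgm : StronglyMeasurable[ℱ n] g := stronglyMeasurable_condExp
    have hgi : Integrable g (mu E) := integrable_condExp
    have hdep : DependsOn g (F n : Set E) := hgm.dependsOn_of_piFinset
    have hL1 : ∫ ω, |g ω - f ω| ∂(mu E) ≤ ε := by
      rw [eLpNorm_one_eq_lintegral_enorm] at hn
      have h1 : Integrable (g - f) (mu E) := hgi.sub hfi
      have h2 : ∫ ω, |g ω - f ω| ∂(mu E) = ∫ ω, ‖(g - f) ω‖ ∂(mu E) := rfl
      rw [h2, integral_norm_eq_lintegral_enorm h1.aestronglyMeasurable]
      exact ENNReal.toReal_le_of_le_ofReal hε.le hn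
    -- resampling
    have hrs := rsf E (F n)
    let R : (E → ℝ) × (E → ℝ) → (E → ℝ) := fun p => open Classical in (F n).piecewise p.1 p.2
    have hR : Measurable R := measurable_pw (F n)
    have hRm : ((mu E).prod (mu E)).map R = mu E := hrs
    have habs : Integrable (fun ω => |g ω - f ω|) (mu E) := (hgi.sub hfi).abs
    have habs' : Integrable (fun p => |g (R p) - f (R p)|) ((mu E).prod (mu E)) := by
      rw [← hRm] at habs
      exact habs.comp_measurable hR
    have hswap : ∫ ω', ∫ ζ, |g (R (ζ, ω')) - f (R (ζ, ω'))| ∂(mu E) ∂(mu E)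
        = ∫ ω, |g ω - f ω| ∂(mu E) := by
      have h1 : ∫ p, |g (R p) - f (R p)| ∂((mu E).prod (mu E)) = ∫ ω, |g ω - f ω| ∂(mu E) := by
        conv_rhs => rw [← hRm]
        rw [integral_map hR.aemeasurable]
        rw [hRm]
        exact habs.aestronglyMeasurable
      rw [← h1, integral_prod_symm _ habs']
    -- choose `ω'`
    have hint2 : Integrable (fun ω' => ∫ ζ, |g (R (ζ, ω')) - f (R (ζ, ω'))| ∂(mu E)) (mu E) :=
      habs'.integral_prod_right
    obtain ⟨ω', hω'⟩ : ∃ ω', ∫ ζ, |g (R (ζ, ω')) - f (R (ζ, ω'))| ∂(mu E) ≤ ε ∧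
        Integrable (fun ζ => |g (R (ζ, ω')) - f (R (ζ, ω'))|) (mu E) := by
      -- a first moment argument
      have hae : ∀ᵐ ω' ∂(mu E),
          Integrable (fun ζ => |g (R (ζ, ω')) - f (R (ζ, ω'))|) (mu E) := habs'.prod_left_ae
      obtain ⟨ω', h1, h2⟩ := exists_notMem_null_le_integral hint2 (ae_iff.1 hae)
      refine ⟨ω', (h2.trans hswap.le).trans hL1, ?_⟩
      simpa using h1
    obtain ⟨m, hm⟩ := hint (F n) (hF₀ n) ω'
    refine ⟨m, ?_⟩
    have hgR : ∀ ζ, g (R (ζ, ω')) = g ζ := by
      intro ζ
      apply hdep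
      intro e he
      exact Finset.piecewise_eq_of_mem _ _ _ he
    have h5 : |(m : ℝ) - ∫ ζ, g ζ ∂(mu E)| ≤ ε := by
      have hRω : Measurable (fun ζ => R (ζ, ω')) := hR.comp measurable_prodMk_right
      have hfR : Integrable (fun ζ => f (R (ζ, ω'))) (mu E) := by
        refine Integrable.of_bound (hf.comp hRω).aestronglyMeasurable C
          (Eventually.of_forall fun ω => ?_)
        rw [Real.norm_eq_abs]
        exact hC _
      have hm' : ∫ ζ, f (R (ζ, ω')) ∂(mu E) = m := hm
      rw [← hm', ← integral_sub hfR hgi]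
      refine abs_integral_le_integral_abs.trans (le_trans (le_of_eq ?_) hω'.1)
      refine integral_congr_ae (Eventually.of_forall fun ζ => ?_)
      change |f (R (ζ, ω')) - g ζ| = |g (R (ζ, ω')) - f (R (ζ, ω'))|
      rw [hgR ζ, abs_sub_comm]
    have h6 : |∫ ζ, g ζ ∂(mu E) - c| ≤ ε := by
      rw [hc, ← integral_sub hgi hfi]
      exact (abs_integral_le_integral_abs).trans hL1
    calc |(m : ℝ) - c| = |((m : ℝ) - ∫ ζ, g ζ ∂(mu E)) + (∫ ζ, g ζ ∂(mu E) - c)| := by ring_nf
      _ ≤ |(m : ℝ) - ∫ ζ, g ζ ∂(mu E)| + |∫ ζ, g ζ ∂(mu E) - c| := abs_add_le _ _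
      _ ≤ 2 * ε := by linarith
  -- conclusion
  refine ⟨round c, ?_⟩
  by_contra hne
  have hpos : 0 < |c - round c| := abs_pos.2 (sub_ne_zero.2 hne)
  obtain ⟨m, hm⟩ := hclose (|c - round c| / 4) (by positivity)
  have h7 : |c - round c| ≤ |c - m| := round_le c m
  rw [abs_sub_comm] at hm
  linarith

end Pool.GA
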