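import Pool.Agent.GA.Stmts

/-!
# MP_585e9a_al, project GAUGE, row SLI: nonvanishing of polynomials at random phases
-/

set_option autoImplicit false

open MeasureTheory Complex Filter
open scoped ENNReal Topology

namespace Pool.GA
namespace Sli

theorem prob0 : IsProbabilityMeasure mu0 := by
  refine ⟨?_⟩
  rw [mu0, Measure.smul_apply, Measure.restrict_apply MeasurableSet.univ, Set.univ_inter,
    Real.volume_Ioc, sub_zero, smul_eq_mul]
  refine ENNReal.inv_mul_cancel ?_ ENNReal.ofReal_ne_top
  have : (0 : ℝ) < 2 * Real.pi := by positivity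
  simpa using this

attribute [local instance] prob0

open Classical in
/-- resampling of one coordinate -/
theorem rs1 (E : Type) (e : E) :
    (mu0.prod (mu E)).map (fun p : ℝ × (E → ℝ) => Function.update p.2 e p.1) = mu E := by
  have : IsProbabilityMeasure (mu E) := by unfold mu; infer_instance
  have hm : Measurable (fun p : ℝ × (E → ℝ) => Function.update p.2 e p.1) := by
    refine measurable_pi_iff.2 fun e' => ?_
    by_cases h : e' = e
    · subst h
      simpa using measurable_fst
    · simp only [Function.update_of_ne h]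
      exact (measurable_pi_apply e').comp measurable_snd
  refine Measure.eq_infinitePi (μ := fun _ : E => mu0) fun s t ht => ?_
  rw [Measure.map_apply hm (MeasurableSet.pi s.countable_toSet fun i _ => ht i)]
  by_cases he : e ∈ s
  · have h1 : (fun p : ℝ × (E → ℝ) => Function.update p.2 e p.1) ⁻¹' (Set.pi (s : Set E) t) =
        t e ×ˢ (Set.pi ((s.erase e : Finset E) : Set E) t) := by
      ext ⟨θ, ω⟩
      simp only [Set.mem_preimage, Set.mem_pi, Finset.mem_coe, Set.mem_prod, Finset.mem_erase]
      constructor
      · intro h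
        refine ⟨by simpa using h e he, fun i hi => ?_⟩
        simpa [Function.update_of_ne hi.1] using h i hi.2
      · rintro ⟨h1, h2⟩ i hi
        by_cases hie : i = e
        · subst hie; simpa using h1
        · simpa [Function.update_of_ne hie] using h2 i ⟨hie, hi⟩
    rw [h1, Measure.prod_prod, mu, Measure.infinitePi_pi _ fun i _ => ht i, ← Finset.mul_prod_erase s _ he]
  · have h1 : (fun p : ℝ × (E → ℝ) => Function.update p.2 e p.1) ⁻¹' (Set.pi (s : Set E) t) =
        Set.univ ×ˢ (Set.pi (s : Set E) t) := by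
      ext ⟨θ, ω⟩
      simp only [Set.mem_preimage, Set.mem_pi, Finset.mem_coe, Set.mem_prod, Set.mem_univ, true_and]
      refine forall₂_congr fun i hi => ?_
      have : i ≠ e := fun h => he (h ▸ hi)
      rw [Function.update_of_ne this]
    rw [h1, Measure.prod_prod, mu, Measure.infinitePi_pi _ fun i _ => ht i, measure_univ, one_mul]

/-- the fibres of the exponential are countable -/
theorem countable_fibre (z : ℂ) : {θ : ℝ | Complex.exp (θ * I) = z}.Countable := by
  by_cases h : ∃ θ₀ : ℝ, Complex.exp (θ₀ * I) = z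
  · obtain ⟨θ₀, h₀⟩ := h
    refine (Set.countable_range fun n : ℤ => θ₀ + n * (2 * Real.pi)).mono ?_
    intro θ hθ
    have h1 : Complex.exp (θ * I) = Complex.exp (θ₀ * I) := by
      rw [h₀]; exact hθ
    obtain ⟨n, hn⟩ := Complex.exp_eq_exp_iff_exists_int.1 h1
    refine ⟨n, ?_⟩
    have h2 : ((θ : ℝ) : ℂ) = ((θ₀ + n * (2 * Real.pi) : ℝ) : ℂ) := by
      have h3 : ((θ : ℂ) - (θ₀ + n * (2 * Real.pi))) * I = 0 := by linear_combination hn
      have h4 := (mul_eq_zero.1 h3).resolve_right Complex.I_ne_zero
      push_cast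
      linear_combination h4
    exact (Complex.ofReal_injective h2).symm
  · have : {θ : ℝ | Complex.exp (θ * I) = z} = ∅ := by
      ext θ
      simp only [Set.mem_ofPred_eq, Set.mem_empty_iff_false, iff_false]
      exact fun h' => h ⟨θ, h'⟩
    rw [this]
    exact Set.countable_empty

theorem ae_circle (r : Polynomial ℂ) (hr : r ≠ 0) : ∀ᵐ θ : ℝ ∂mu0, r.eval (Complex.exp (θ * I)) ≠ 0 := by
  have hc : {θ : ℝ | r.eval (Complex.exp (θ * I)) = 0}.Countable := by
    have h1 : {θ : ℝ | r.eval (Complex.exp (θ * I)) = 0} ⊆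
        ⋃ z ∈ (r.roots.toFinset : Set ℂ), {θ : ℝ | Complex.exp (θ * I) = z} := by
      intro θ hθ
      simp only [Set.mem_iUnion, Set.mem_ofPred_eq]
      refine ⟨_, ?_, rfl⟩
      simpa [hr] using hθ
    exact ((r.roots.toFinset.countable_toSet).biUnion fun z _ => countable_fibre z).mono h1
  have h2 : ∀ᵐ θ : ℝ ∂(volume : Measure ℝ), r.eval (Complex.exp (θ * I)) ≠ 0 :=
    (hc.ae_notMem volume)
  unfold mu0
  exact Measure.ae_smul_measure (ae_restrict_of_ae h2) _

theorem meas_ph (E : Type) (e : E) : Measurable fun ω : E → ℝ => ph ω e := by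
  unfold ph
  have := measurable_pi_apply (X := fun _ : E => ℝ) e
  fun_prop

theorem meas_eval {Ω σ : Type} [MeasurableSpace Ω] (p : MvPolynomial σ ℂ) (z : Ω → σ → ℂ)
    (hz : ∀ i, Measurable fun ω => z ω i) : Measurable fun ω => MvPolynomial.eval (z ω) p := by
  simp only [MvPolynomial.eval_eq]
  refine Finset.measurable_sum _ fun d _ => ?_
  refine Measurable.const_mul ?_ _
  exact Finset.measurable_prod _ fun i _ => (hz i).pow_const _

theorem nv_fin (E : Type) (n : ℕ) : ∀ (g : Fin n → E), Function.Injective g →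
    ∀ q : MvPolynomial (Fin n) ℂ, q ≠ 0 → ∀ᵐ ω ∂(mu E), MvPolynomial.eval (fun i => ph ω (g i)) q ≠ 0 := by
  classical
  induction n with
  | zero =>
    intro g _ q hq
    refine Filter.Eventually.of_forall fun ω h => hq ?_
    obtain ⟨c, rfl⟩ := MvPolynomial.C_surjective (Fin 0) q
    rw [MvPolynomial.eval_C] at h
    rw [h, map_zero]
  | succ n ih =>
    intro g hg q hq
    have : IsProbabilityMeasure (mu E) := by unfold mu; infer_instance
    have hm : Measurable fun ω : E → ℝ => MvPolynomial.eval (fun i => ph ω (g i)) q :=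
      meas_eval q _ fun i => meas_ph E (g i)
    have hu : Measurable (fun p : ℝ × (E → ℝ) => Function.update p.2 (g 0) p.1) := by
      refine measurable_pi_iff.2 fun e' => ?_
      by_cases h : e' = g 0
      · subst h
        simpa using measurable_fst
      · simp only [Function.update_of_ne h]
        exact (measurable_pi_apply e').comp measurable_snd
    rw [← rs1 E (g 0)]
    have hset : MeasurableSet {ω : E → ℝ | MvPolynomial.eval (fun i => ph ω (g i)) q ≠ 0} :=
      (measurableSet_eq_fun hm measurable_const).compl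
    rw [ae_map_iff hu.aemeasurable hset]
    have hset2 : MeasurableSet {p : ℝ × (E → ℝ) |
        MvPolynomial.eval (fun i => ph (Function.update p.2 (g 0) p.1) (g i)) q ≠ 0} := hu hset
    rw [Measure.ae_prod_iff_ae_ae hset2, Measure.ae_ae_comm hset2]
    set Q := MvPolynomial.finSuccEquiv ℂ n q with hQ
    have hQ0 : Q ≠ 0 := by
      rw [hQ]; simpa using hq
    have hlead := ih (fun i => g i.succ) (fun a b h => Fin.succ_injective n (hg h)) Q.leadingCoeff
      (Polynomial.leadingCoeff_ne_zero.2 hQ0)
    filter_upwards [hlead] with ω hω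
    have hmap : Polynomial.map (MvPolynomial.eval fun i => ph ω (g i.succ)) Q ≠ 0 := by
      intro h0
      apply hω
      have := congrArg (fun r => Polynomial.coeff r Q.natDegree) h0
      simpa [Polynomial.coeff_map] using this
    filter_upwards [ae_circle _ hmap] with θ hθ
    have h1 : (fun i => ph (Function.update ω (g 0) θ) (g i)) =
        (Fin.cons (Complex.exp (θ * I)) fun i => ph ω (g i.succ) : Fin (n + 1) → ℂ) := by
      ext i
      refine Fin.cases ?_ (fun i => ?_) i
      · simp [ph]
      · have : g i.succ ≠ g 0 := fun h => Fin.succ_ne_zero i (hg h)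
        simp [ph, Function.update_of_ne this]
    rw [h1, MvPolynomial.eval_eq_eval_mv_eval']
    exact hθ

theorem nv (E : Type) (p : MvPolynomial E ℂ) (hp : p ≠ 0) :
    ∀ᵐ ω ∂(mu E), MvPolynomial.eval (ph ω) p ≠ 0 := by
  obtain ⟨n, g, hg, q, rfl⟩ := MvPolynomial.exists_fin_rename p
  have hq : q ≠ 0 := fun h => hp (by rw [h, map_zero])
  filter_upwards [nv_fin E n g hg q hq] with ω hω
  rw [MvPolynomial.eval_rename]
  exact hω

/-- Bezout relation of a primitive vector over the fraction field -/
theorem prim_relation {R κ : Type} [CommRing R] [IsDomain R] [UniqueFactorizationMonoid R] [Fintype κ]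
    (s : κ → Polynomial R) (h : ∀ d, (∀ f, d ∣ s f) → IsUnit d) :
    ∃ q : R, q ≠ 0 ∧ ∃ g : κ → Polynomial R, ∑ f, g f * s f = Polynomial.C q := by
  classical
  obtain ⟨hn⟩ : Nonempty (NormalizedGCDMonoid R) := inferInstance
  let := hn
  let K := FractionRing R
  have hinj : Function.Injective (algebraMap R K) := IsFractionRing.injective R K
  let φ : Polynomial R →+* Polynomial K := Polynomial.mapRingHom (algebraMap R K)
  have hφ : ∀ p, φ p = p.map (algebraMap R K) := fun p => rfl
  let J : Ideal (Polynomial K) := Ideal.span (Set.range fun f => φ (s f))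
  obtain ⟨d, hd⟩ := (IsPrincipalIdealRing.principal J).principal
  have hds : ∀ f, d ∣ φ (s f) := fun f => by
    have : φ (s f) ∈ J := Ideal.subset_span ⟨f, rfl⟩
    rw [hd] at this
    exact Ideal.mem_span_singleton.1 this
  have hd0 : d ≠ 0 := by
    intro h0
    have : ∀ f, s f = 0 := by
      intro f
      have h1 := hds f
      rw [h0, zero_dvd_iff, hφ, Polynomial.map_eq_zero_iff hinj] at h1
      exact h1
    have h2 : IsUnit (0 : Polynomial R) := h 0 fun f => by rw [this f]
    exact not_isUnit_zero h2
  obtain ⟨b, hb, hbd⟩ := IsLocalization.integerNormalization_spec (nonZeroDivisors R) d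
  set D := IsLocalization.integerNormalization (nonZeroDivisors R) d with hD
  have hb0 : b ≠ 0 := nonZeroDivisors.ne_zero hb
  have hbK : algebraMap R K b ≠ 0 := by
    rw [Ne, map_eq_zero_iff _ hinj]; exact hb0
  have hbd' : φ D = Polynomial.C (algebraMap R K b) * d := by
    rw [hφ, hbd, Algebra.smul_def]
    rfl
  have hD0 : D ≠ 0 := by
    intro h0
    rw [h0, map_zero] at hbd'
    exact (mul_ne_zero (by simpa using hbK) hd0) hbd'.symm
  set P := D.primPart with hP
  have hPprim : P.IsPrimitive := Polynomial.isPrimitive_primPart D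
  have hDP : D = Polynomial.C D.content * P := Polynomial.eq_C_content_mul_primPart D
  have hPd : φ P ∣ d := by
    have hu : IsUnit (Polynomial.C (algebraMap R K b)) := Polynomial.isUnit_C.2 (isUnit_iff_ne_zero.2 hbK)
    have h1 : φ P ∣ φ D := by
      rw [hDP, map_mul]
      exact Dvd.intro_left _ rfl
    rw [hbd'] at h1
    exact (hu.dvd_mul_left).1 h1
  have hPs : ∀ f, P ∣ s f := by
    intro f
    by_cases hf : s f = 0
    · rw [hf]; exact dvd_zero _
    have h1 : φ P ∣ φ (s f) := hPd.trans (hds f)
    have h2 : s f = Polynomial.C (s f).content * (s f).primPart :=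
      Polynomial.eq_C_content_mul_primPart (s f)
    have hc : algebraMap R K (s f).content ≠ 0 := by
      rw [Ne, map_eq_zero_iff _ hinj, Polynomial.content_eq_zero_iff]
      exact hf
    have hu : IsUnit (Polynomial.C (algebraMap R K (s f).content)) :=
      Polynomial.isUnit_C.2 (isUnit_iff_ne_zero.2 hc)
    rw [h2, map_mul, show φ (Polynomial.C (s f).content) =
      Polynomial.C (algebraMap R K (s f).content) from Polynomial.map_C _] at h1
    have h3 : φ P ∣ φ (s f).primPart := (hu.dvd_mul_left).1 h1
    have h4 : P ∣ (s f).primPart := hPprim.dvd_of_fraction_map_dvd_fraction_map (K := K) h3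
    exact h4.trans (Polynomial.primPart_dvd _)
  have hPu : IsUnit P := h P hPs
  have hdu : IsUnit d := by
    have hu : IsUnit (φ D) := by
      rw [hDP, map_mul]
      refine IsUnit.mul ?_ (hPu.map φ)
      rw [show φ (Polynomial.C D.content) = Polynomial.C (algebraMap R K D.content) from
        Polynomial.map_C _]
      refine Polynomial.isUnit_C.2 (isUnit_iff_ne_zero.2 ?_)
      rw [Ne, map_eq_zero_iff _ hinj, Polynomial.content_eq_zero_iff]
      exact hD0
    rw [hbd'] at hu
    exact isUnit_of_mul_isUnit_right hu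
  have h1 : (1 : Polynomial K) ∈ J := by
    rw [hd]
    exact Ideal.mem_span_singleton.2 hdu.dvd
  obtain ⟨a, ha⟩ := Ideal.mem_span_range_iff_exists_fun.1 h1
  choose B hB hBa using fun f => IsLocalization.integerNormalization_spec (nonZeroDivisors R) (a f)
  refine ⟨∏ f, B f, Finset.prod_ne_zero_iff.2 fun f _ => nonZeroDivisors.ne_zero (hB f),
    fun f => Polynomial.C (∏ f' ∈ Finset.univ.erase f, B f') *
      IsLocalization.integerNormalization (nonZeroDivisors R) (a f), ?_⟩
  have hφinj : Function.Injective φ := Polynomial.map_injective _ hinj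
  apply hφinj
  rw [map_sum]
  have h2 : ∀ f, φ ((Polynomial.C (∏ f' ∈ Finset.univ.erase f, B f') *
      IsLocalization.integerNormalization (nonZeroDivisors R) (a f)) * s f) =
      φ (Polynomial.C (∏ f, B f)) * (a f * φ (s f)) := by
    intro f
    rw [map_mul, map_mul, hφ (IsLocalization.integerNormalization _ _), hBa f, Algebra.smul_def,
      ← Finset.mul_prod_erase Finset.univ B (Finset.mem_univ f), map_mul Polynomial.C, map_mul φ,
      show (algebraMap R (Polynomial K)) (B f) = φ (Polynomial.C (B f)) from (Polynomial.map_C _).symm]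
    ring
  rw [Finset.sum_congr rfl fun f _ => h2 f, ← Finset.mul_sum, ha, mul_one]

open Classical in
theorem slice (E κ : Type) [Fintype κ] (s : κ → MvPolynomial E ℂ) (e : E)
    (h : ∀ d, (∀ f, d ∣ s f) → IsUnit d) :
    ∀ᵐ ω ∂(mu E), ∀ u : ℂ, ∃ f, MvPolynomial.eval (Function.update (ph ω) e u) (s f) ≠ 0 := by
  let σ := {e' // e' ≠ e}
  let Φ : MvPolynomial E ℂ ≃ₐ[ℂ] Polynomial (MvPolynomial σ ℂ) :=
    (MvPolynomial.renameEquiv ℂ (Equiv.optionSubtypeNe e).symm).trans
      (MvPolynomial.optionEquivLeft ℂ σ)
  obtain ⟨q, hq, g, hg⟩ := prim_relation (fun f => Φ (s f)) (by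
    intro d hd
    have h1 : IsUnit (Φ.symm d) := h _ fun f => by
      have := map_dvd Φ.symm (hd f)
      simpa using this
    simpa using h1.map Φ)
  have hrel : ∑ f, Φ.symm (g f) * s f = MvPolynomial.rename (Subtype.val : σ → E) q := by
    apply Φ.injective
    rw [map_sum]
    have h1 : ∀ f, Φ (Φ.symm (g f) * s f) = g f * Φ (s f) := by
      intro f; rw [map_mul]; simp
    rw [Finset.sum_congr rfl fun f _ => h1 f, hg]
    have h2 : (Φ.toAlgHom.comp (MvPolynomial.rename (Subtype.val : σ → E))) =
        (Algebra.ofId (MvPolynomial σ ℂ) (Polynomial (MvPolynomial σ ℂ))).restrictScalars ℂ := by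
      refine MvPolynomial.algHom_ext fun i => ?_
      simp [Φ, i.2]
      rfl
    exact (DFunLike.congr_fun h2 q).symm
  have hQ : MvPolynomial.rename (Subtype.val : σ → E) q ≠ 0 := by
    intro h0
    apply hq
    exact MvPolynomial.rename_injective _ Subtype.val_injective (by rw [h0, map_zero])
  filter_upwards [nv E _ hQ] with ω hω u
  by_contra hcon
  push Not at hcon
  have h1 := congrArg (MvPolynomial.eval (Function.update (ph ω) e u)) hrel
  rw [map_sum, Finset.sum_eq_zero fun f _ => by rw [map_mul, hcon f, mul_zero],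
    MvPolynomial.eval_rename] at h1
  rw [MvPolynomial.eval_rename] at hω
  apply hω
  rw [h1]
  congr 2
  ext i
  simp [Function.update_of_ne i.2]

end Sli

theorem stmtNV : StmtNV := fun E p hp => Sli.nv E p hp

theorem stmtSlice : StmtSlice := by
  intro E κ _ s e h
  exact Sli.slice E κ s e h

end Pool.GA
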