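import Pool.Agent.GA.Alg
import Pool.Agent.GA.Ang
import Pool.Agent.GA.Pres
import Pool.Agent.GA.CB
import Pool.Agent.GA.Slice
import Pool.Agent.GA.Prob
import Pool.Agent.GA.Equi
import Pool.Agent.GA.Grp
import Pool.Agent.GA.Mag
import Pool.Agent.GA.Core
import Pool.Agent.GA.Main
import Pool.Agent.Helper58.GA.OneD
import Pool.Agent.Helper58.GA.Meas

/-!
# MP_585e9a_FRR: assembly of the rows
-/

namespace Pool.GA

theorem presAll : StmtPres := pres stmtCB stmtProj

theorem bd : StmtBd := bd_of presAll stmtAlg stmtCB ang angGen one1 one3 one4 one6 stmtNV stmtSlice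

theorem localAll : StmtLocal := local_of presAll stmtAlg stmtCB ang angGen one1 one2 one3 one4 one5 one6
  stmtNV stmtSlice stmtEul rs1 stmtMNu stmtMGam bd

theorem core : StmtCore := core_of localAll glob stmtMNu stmtMGam bd

theorem equi : StmtEqui := stmtEqui perm

/-- everything except RANK -/
theorem mainAll (hRk : StmtRank) : StmtMain := main_of core equi stmtGsys stmtGG stmtGeq hRk magnus

end Pool.GA
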