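import Pool.Agent.GA.Stmts

/-!
# MP_585e9a_al, project GAUGE: general facts on Gram determinants and on the row spaces
-/

set_option autoImplicit false

open MeasureTheory Complex Filter
open scoped ENNReal Topology InnerProductSpace ComplexOrder

namespace Pool.GA

section Abs
variable {H : Type*} [NormedAddCommGroup H] [InnerProductSpace ℂ H]

/-- mixed Gram matrix -/
noncomputable def gm {ι κ : Type*} (u : ι → H) (v : κ → H) : Matrix ι κ ℂ :=
  Matrix.of fun i j => inner ℂ (v j) (u i)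

/-- mixed Gram determinant -/
noncomputable def gd {ι : Type*} [Fintype ι] [DecidableEq ι] (u v : ι → H) : ℂ := (gm u v).det

/-- squared cosine -/
noncomputable def an {ι : Type*} [Fintype ι] [DecidableEq ι] (u v : ι → H) : ℝ :=
  ‖gd u v‖ ^ 2 / ((gd u u).re * (gd v v).re)

variable {ι κ : Type*} [Fintype ι] [DecidableEq ι] [Fintype κ] [DecidableEq κ]

lemma gd_self_ne (u : ι → H) : gd u u ≠ 0 ↔ LinearIndependent ℂ u := by
  rw [← Matrix.det_gram_ne_zero_iff_linearIndependent (𝕜 := ℂ), ← Matrix.det_transpose]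
  rfl

lemma gd_self_nonneg (u : ι → H) : 0 ≤ (gd u u).re ∧ (gd u u).im = 0 := by
  have h : (0 : ℂ) ≤ (Matrix.gram ℂ u).det := (Matrix.posSemidef_gram ℂ u).det_nonneg
  have h2 : gd u u = (Matrix.gram ℂ u).det := by
    rw [← Matrix.det_transpose]
    rfl
  rw [h2]
  rw [Complex.le_def] at h
  exact ⟨by simpa using h.1, by simpa using h.2.symm⟩

omit [Fintype ι] [DecidableEq ι] [DecidableEq κ] in
lemma gm_mul (M N : Matrix ι κ ℂ) (u v : κ → H) :
    gm (fun i => ∑ k, M i k • u k) (fun i => ∑ k, N i k • v k) = M * gm u v * N.conjTranspose := by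
  ext i j
  simp only [gm, Matrix.of_apply, sum_inner, inner_sum, inner_smul_left, inner_smul_right,
    Matrix.mul_apply, Matrix.conjTranspose_apply, Finset.sum_mul, Finset.mul_sum]
  rw [Finset.sum_comm]
  refine Finset.sum_congr rfl fun k _ => Finset.sum_congr rfl fun l _ => ?_
  simp only [RCLike.star_def]
  ring

lemma gd_mul (M N : Matrix ι ι ℂ) (u v : ι → H) :
    gd (fun i => ∑ k, M i k • u k) (fun i => ∑ k, N i k • v k) =
      M.det * gd u v * (starRingEnd ℂ) N.det := by
  unfold gd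
  rw [gm_mul, Matrix.det_mul, Matrix.det_mul, Matrix.det_conjTranspose]
  rfl

lemma an_mul (M N : Matrix ι ι ℂ) (hM : M.det ≠ 0) (hN : N.det ≠ 0) (u v : ι → H) :
    an (fun i => ∑ k, M i k • u k) (fun i => ∑ k, N i k • v k) = an u v := by
  unfold an
  rw [gd_mul, gd_mul, gd_mul]
  have h1 : ∀ (c x : ℂ), (c * x * (starRingEnd ℂ) c).re = ‖c‖ ^ 2 * x.re := by
    intro c x
    have : c * x * (starRingEnd ℂ) c = ((‖c‖ ^ 2 : ℝ) : ℂ) * x := by
      rw [mul_right_comm, Complex.mul_conj, Complex.normSq_eq_norm_sq]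
    rw [this, Complex.re_ofReal_mul]
  rw [h1, h1, norm_mul, norm_mul, RCLike.norm_conj]
  have hM' : ‖M.det‖ ≠ 0 := norm_ne_zero_iff.2 hM
  have hN' : ‖N.det‖ ≠ 0 := norm_ne_zero_iff.2 hN
  rw [show (‖M.det‖ * ‖gd u v‖ * ‖N.det‖) ^ 2 = (‖M.det‖ ^ 2 * ‖N.det‖ ^ 2) * ‖gd u v‖ ^ 2 by ring,
    show ‖M.det‖ ^ 2 * (gd u u).re * (‖N.det‖ ^ 2 * (gd v v).re) =
      (‖M.det‖ ^ 2 * ‖N.det‖ ^ 2) * ((gd u u).re * (gd v v).re) by ring]
  rw [mul_div_mul_left]
  positivity

lemma exists_mat (u u' : ι → H) (hu' : LinearIndependent ℂ u')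
    (hs : Submodule.span ℂ (Set.range u') ≤ Submodule.span ℂ (Set.range u)) :
    ∃ M : Matrix ι ι ℂ, M.det ≠ 0 ∧ u' = fun i => ∑ k, M i k • u k := by
  have h1 : ∀ i, ∃ c : ι → ℂ, ∑ k, c k • u k = u' i := by
    intro i
    exact (Submodule.mem_span_range_iff_exists_fun ℂ).1 (hs (Submodule.subset_span ⟨i, rfl⟩))
  choose M hM using h1
  have h2 : u' = fun i => ∑ k, (Matrix.of M) i k • u k := by
    funext i
    exact (hM i).symm
  refine ⟨Matrix.of M, ?_, h2⟩
  intro h0
  have h3 := (gd_self_ne u').2 hu'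
  apply h3
  rw [h2, gd_mul, h0, zero_mul, zero_mul]

lemma gd_reindex (e : ι ≃ κ) (u v : κ → H) : gd (u ∘ e) (v ∘ e) = gd u v := by
  unfold gd
  rw [← Matrix.det_submatrix_equiv_self e (gm u v)]
  rfl

lemma an_reindex (e : ι ≃ κ) (u v : κ → H) : an (u ∘ e) (v ∘ e) = an u v := by
  unfold an
  rw [gd_reindex, gd_reindex, gd_reindex]

omit [DecidableEq ι] [DecidableEq κ] in
lemma card_eq_of_span_eq (u : ι → H) (u' : κ → H) (hu : LinearIndependent ℂ u)
    (hu' : LinearIndependent ℂ u') (h : Submodule.span ℂ (Set.range u) = Submodule.span ℂ (Set.range u')) :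
    Fintype.card ι = Fintype.card κ := by
  rw [← finrank_span_eq_card hu, ← finrank_span_eq_card hu', h]

/-- the angle depends only on the spans -/
lemma an_span (u v : ι → H) (u' v' : κ → H) (hu : LinearIndependent ℂ u)
    (hv : LinearIndependent ℂ v) (hu' : LinearIndependent ℂ u') (hv' : LinearIndependent ℂ v')
    (h1 : Submodule.span ℂ (Set.range u) = Submodule.span ℂ (Set.range u'))
    (h2 : Submodule.span ℂ (Set.range v) = Submodule.span ℂ (Set.range v')) : an u v = an u' v' := by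
  have e : ι ≃ κ := Fintype.equivOfCardEq (card_eq_of_span_eq u u' hu hu' h1)
  rw [← an_reindex e u' v']
  obtain ⟨M, hM, hM'⟩ := exists_mat (u' ∘ e) u hu
    (by rw [h1, Set.range_comp, e.range_eq_univ, Set.image_univ])
  obtain ⟨N, hN, hN'⟩ := exists_mat (v' ∘ e) v hv
    (by rw [h2, Set.range_comp, e.range_eq_univ, Set.image_univ])
  rw [hM', hN']
  exact an_mul M N hM hN _ _

/-- adding a common orthogonal family -/
lemma gd_sumElim (c : κ → H) (u v : ι → H) (hu : ∀ k i, inner ℂ (c k) (u i) = 0)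
    (hv : ∀ k i, inner ℂ (v i) (c k) = 0) :
    gd (Sum.elim c u) (Sum.elim c v) = gd c c * gd u v := by
  unfold gd
  have : gm (Sum.elim c u) (Sum.elim c v) = Matrix.fromBlocks (gm c c) 0 0 (gm u v) := by
    ext i j
    rcases i with i | i <;> rcases j with j | j
    · rfl
    · exact hv i j
    · exact hu j i
    · rfl
  rw [this, Matrix.det_fromBlocks_zero₂₁]

lemma an_sumElim (c : κ → H) (hc : LinearIndependent ℂ c) (u v : ι → H)
    (hu : ∀ k i, inner ℂ (c k) (u i) = 0) (hv : ∀ k i, inner ℂ (c k) (v i) = 0) :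
    an (Sum.elim c u) (Sum.elim c v) = an u v := by
  have hu' : ∀ k i, inner ℂ (u i) (c k) = 0 := fun k i => by
    rw [← inner_conj_symm, hu, map_zero]
  have hv' : ∀ k i, inner ℂ (v i) (c k) = 0 := fun k i => by
    rw [← inner_conj_symm, hv, map_zero]
  unfold an
  rw [gd_sumElim c u v hu hv', gd_sumElim c u u hu hu', gd_sumElim c v v hv hv']
  have h0 := (gd_self_ne c).2 hc
  have h1 := gd_self_nonneg c
  have h2 : gd c c = (((gd c c).re : ℝ) : ℂ) := by
    apply Complex.ext
    · simp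
    · simp [h1.2]
  have h3 : (gd c c).re ≠ 0 := by
    intro h
    rw [h] at h2
    exact h0 (by simpa using h2)
  rw [norm_mul]
  have h4 : ‖gd c c‖ = (gd c c).re := by
    conv_lhs => rw [h2]
    rw [Complex.norm_real, Real.norm_eq_abs, abs_of_nonneg h1.1]
  have h5 : ∀ x : ℂ, (gd c c * x).re = (gd c c).re * x.re := by
    intro x
    conv_lhs => rw [h2]
    rw [Complex.re_ofReal_mul]
  rw [h4, h5, h5]
  rw [show ((gd c c).re * ‖gd u v‖) ^ 2 = (gd c c).re ^ 2 * ‖gd u v‖ ^ 2 by ring,
    show (gd c c).re * (gd u u).re * ((gd c c).re * (gd v v).re) =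
      (gd c c).re ^ 2 * ((gd u u).re * (gd v v).re) by ring]
  rw [mul_div_mul_left]
  positivity

end Abs

section Max
variable {H : Type*} [NormedAddCommGroup H] [InnerProductSpace ℂ H] {Y : Type*}

/-- a maximal independent set spans -/
lemma span_of_max (J K : Finset Y) (v : Y → H) (hK : K ⊆ J)
    (h1 : LinearIndependent ℂ fun k : K => v k)
    (h2 : ∀ K' ⊆ J, K.card < K'.card → ¬ LinearIndependent ℂ fun k : K' => v k) :
    Submodule.span ℂ (Set.range fun k : K => v k) = Submodule.span ℂ (v '' (J : Set Y)) := by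
  classical
  have h3 : (Set.range fun k : K => v k) = v '' (K : Set Y) := by
    ext y
    constructor
    · rintro ⟨k, rfl⟩
      exact ⟨k, k.2, rfl⟩
    · rintro ⟨k, hk, rfl⟩
      exact ⟨⟨k, hk⟩, rfl⟩
  rw [h3]
  apply le_antisymm
  · exact Submodule.span_mono (Set.image_mono (by exact_mod_cast hK))
  · rw [Submodule.span_le]
    rintro _ ⟨i, hi, rfl⟩
    by_contra hn
    have hi' : i ∈ J := by exact_mod_cast hi
    have hiK : i ∉ K := by
      intro hiK
      exact hn (Submodule.subset_span ⟨i, by exact_mod_cast hiK, rfl⟩)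
    have h4 : LinearIndepOn ℂ v (insert i (K : Set Y)) := LinearIndepOn.insert h1 hn
    have h5 : ¬ LinearIndependent ℂ fun k : (insert i K : Finset Y) => v k :=
      h2 (insert i K) (Finset.insert_subset hi' hK) (by rw [Finset.card_insert_of_notMem hiK]; omega)
    apply h5
    have h6 : LinearIndepOn ℂ v ((insert i K : Finset Y) : Set Y) := by
      rw [Finset.coe_insert]
      exact h4
    exact h6

end Max

section Proj
variable {H : Type*} [NormedAddCommGroup H] [InnerProductSpace ℂ H]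

lemma eq_of_sup_eq {A B C : Submodule ℂ H} (hB : ∀ a ∈ A, ∀ b ∈ B, inner ℂ a b = 0)
    (hC : ∀ a ∈ A, ∀ c ∈ C, inner ℂ a c = 0) (h : A ⊔ B = A ⊔ C) : B = C := by
  have key : ∀ B C : Submodule ℂ H, (∀ a ∈ A, ∀ b ∈ B, inner ℂ a b = 0) →
      (∀ a ∈ A, ∀ c ∈ C, inner ℂ a c = 0) → A ⊔ B = A ⊔ C → B ≤ C := by
    intro B C hB hC h x hx
    have h1 : x ∈ A ⊔ C := by
      rw [← h]
      exact Submodule.mem_sup_right hx
    obtain ⟨a, ha, c, hc, hac⟩ := Submodule.mem_sup.1 h1
    have h2 : a = x - c := by rw [← hac]; abel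
    have h3 : inner ℂ a a = 0 := by
      conv_lhs => rw [h2, inner_sub_right, ← h2]
      rw [hB a ha x hx, hC a ha c hc, sub_zero]
    have h4 : a = 0 := inner_self_eq_zero.1 h3
    rw [← hac, h4, zero_add]
    exact hc
  exact le_antisymm (key B C hB hC h) (key C B hC hB h.symm)

lemma starProjection_sup {A B : Submodule ℂ H} [A.HasOrthogonalProjection] [B.HasOrthogonalProjection]
    [(A ⊔ B).HasOrthogonalProjection] (hAB : ∀ a ∈ A, ∀ b ∈ B, inner ℂ a b = 0) (v : H) :
    (A ⊔ B).starProjection v = A.starProjection v + B.starProjection v := by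
  apply Submodule.eq_starProjection_of_mem_orthogonal
  · exact Submodule.add_mem_sup (Submodule.starProjection_apply_mem _ _)
      (Submodule.starProjection_apply_mem _ _)
  · rw [Submodule.mem_orthogonal]
    intro u hu
    obtain ⟨a, ha, b, hb, rfl⟩ := Submodule.mem_sup.1 hu
    have h1 : inner ℂ a (v - A.starProjection v) = 0 := by
      have := (Submodule.sub_starProjection_mem_orthogonal (K := A) v)
      exact (Submodule.mem_orthogonal _ _).1 this a ha
    have h2 : inner ℂ b (v - B.starProjection v) = 0 := by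
      have := (Submodule.sub_starProjection_mem_orthogonal (K := B) v)
      exact (Submodule.mem_orthogonal _ _).1 this b hb
    have h3 : inner ℂ a (B.starProjection v) = 0 := hAB a ha _ (Submodule.starProjection_apply_mem _ _)
    have h4 : inner ℂ b (A.starProjection v) = 0 := by
      rw [← inner_conj_symm, hAB _ (Submodule.starProjection_apply_mem _ _) b hb, map_zero]
    rw [inner_add_left]
    have e1 : inner ℂ a (v - (A.starProjection v + B.starProjection v)) = 0 := by
      rw [show v - (A.starProjection v + B.starProjection v) =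
        (v - A.starProjection v) - B.starProjection v by abel, inner_sub_right, h1, h3, sub_zero]
    have e2 : inner ℂ b (v - (A.starProjection v + B.starProjection v)) = 0 := by
      rw [show v - (A.starProjection v + B.starProjection v) =
        (v - B.starProjection v) - A.starProjection v by abel, inner_sub_right, h2, h4, sub_zero]
    rw [e1, e2, add_zero]

end Proj

namespace Sys
variable {X Y E : Type} (S : Sys X Y E)

lemma eval_congr (p : MvPolynomial E ℂ) (z z' : E → ℂ) (h : ∀ e ∈ p.vars, z e = z' e) :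
    MvPolynomial.eval z p = MvPolynomial.eval z' p := by
  apply MvPolynomial.eval₂Hom_congr' rfl _ rfl
  intro i hi _
  exact h i hi

lemma vec_congr {z z' : E → ℂ} {i : Y} (h : ∀ x, ∀ e ∈ (S.a i x).vars, z e = z' e) :
    S.vec z i = S.vec z' i := by
  unfold vec
  refine Finset.sum_congr rfl fun x _ => ?_
  rw [eval_congr _ z z' (h x)]

lemma mem_B {e : E} {i : Y} : i ∈ S.B e ↔ ∃ x, e ∈ (S.a i x).vars := by
  simp [B]

lemma vec_congr' {J : Finset Y} {z z' : E → ℂ} (h : ∀ e, z e ≠ z' e → S.B e ⊆ J) {i : Y} (hi : i ∉ J) :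
    S.vec z i = S.vec z' i := by
  apply S.vec_congr
  intro x e he
  by_contra hne
  exact hi (h e hne (S.mem_B.2 ⟨x, he⟩))

lemma W_congr {J : Finset Y} {z z' : E → ℂ} (h : ∀ e, z e ≠ z' e → S.B e ⊆ J) :
    S.W J z = S.W J z' := by
  unfold W
  congr 2
  ext v
  constructor
  · rintro ⟨i, hi, rfl⟩
    exact ⟨i, hi, (S.vec_congr' h hi).symm⟩
  · rintro ⟨i, hi, rfl⟩
    exact ⟨i, hi, S.vec_congr' h hi⟩

lemma vec_mem_W {J : Finset Y} {z : E → ℂ} {i : Y} (hi : i ∉ J) : S.vec z i ∈ S.W J z :=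
  Submodule.le_topologicalClosure _ (Submodule.subset_span ⟨i, hi, rfl⟩)

lemma vec_mem_N {z : E → ℂ} {i : Y} : S.vec z i ∈ S.N z :=
  Submodule.le_topologicalClosure _ (Submodule.subset_span ⟨i, rfl⟩)

lemma b_eq_zero {J : Finset Y} {z : E → ℂ} {i : Y} (hi : i ∉ J) : S.b J z i = 0 := by
  unfold b
  rw [Submodule.starProjection_eq_self_iff.2 (S.vec_mem_W hi), sub_self]

lemma inner_b {J : Finset Y} {z : E → ℂ} {i : Y} {v : L2 X} (hv : v ∈ S.W J z) :
    inner ℂ v (S.b J z i) = 0 :=
  (Submodule.mem_orthogonal _ _).1 (Submodule.sub_starProjection_mem_orthogonal (K := S.W J z) _) v hv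

lemma W_anti {J J' : Finset Y} (h : J ⊆ J') (z : E → ℂ) : S.W J' z ≤ S.W J z := by
  apply Submodule.topologicalClosure_mono
  apply Submodule.span_mono
  apply Set.image_mono
  intro i hi hJ
  exact hi (h hJ)

lemma N_eq_W (z : E → ℂ) : S.N z = S.W ∅ z := by
  unfold N W
  congr 2
  ext v
  simp

/-- the rows in `J'`, but not in `J` -/
lemma W_eq_sup {J J' : Finset Y} (h : J ⊆ J') (z : E → ℂ) :
    S.W J z = S.W J' z ⊔ Submodule.span ℂ (S.b J' z '' {i | i ∈ J' ∧ i ∉ J}) := by
  have hfin : (S.b J' z '' {i | i ∈ J' ∧ i ∉ J}).Finite :=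
    (J'.finite_toSet.subset fun i hi => hi.1).image _
  have hfd : FiniteDimensional ℂ (Submodule.span ℂ (S.b J' z '' {i | i ∈ J' ∧ i ∉ J})) :=
    FiniteDimensional.span_of_finite ℂ hfin
  apply le_antisymm
  · have hcl : IsClosed ((S.W J' z ⊔ Submodule.span ℂ (S.b J' z '' {i | i ∈ J' ∧ i ∉ J}) :
        Submodule ℂ (L2 X)) : Set (L2 X)) :=
      Submodule.isClosed_sup_finiteDimensional _ _ (Submodule.isClosed_topologicalClosure _)
    refine Submodule.topologicalClosure_minimal _ ?_ hcl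
    rw [Submodule.span_le]
    rintro _ ⟨i, hi, rfl⟩
    by_cases hi' : i ∈ J'
    · have h1 : S.vec z i = (S.W J' z).starProjection (S.vec z i) + S.b J' z i := by
        unfold b
        abel
      rw [h1]
      exact Submodule.add_mem_sup (Submodule.starProjection_apply_mem _ _)
        (Submodule.subset_span ⟨i, ⟨hi', hi⟩, rfl⟩)
    · exact Submodule.mem_sup_left (S.vec_mem_W hi')
  · apply sup_le (S.W_anti h z)
    rw [Submodule.span_le]
    rintro _ ⟨i, hi, rfl⟩
    exact Submodule.sub_mem _ (S.vec_mem_W hi.2)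
      (S.W_anti h z (Submodule.starProjection_apply_mem _ _))

lemma N_eq_sup (J : Finset Y) (z : E → ℂ) :
    S.N z = S.W J z ⊔ Submodule.span ℂ (S.b J z '' (J : Set Y)) := by
  rw [N_eq_W, S.W_eq_sup (Finset.empty_subset J) z]
  congr 3
  ext i
  simp

lemma inner_span_b {J : Finset Y} {z : E → ℂ} {s : Set Y} {v w : L2 X} (hv : v ∈ S.W J z)
    (hw : w ∈ Submodule.span ℂ (S.b J z '' s)) : inner ℂ v w = 0 := by
  have h1 : Submodule.span ℂ (S.b J z '' s) ≤ (S.W J z)ᗮ := by
    rw [Submodule.span_le]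
    rintro _ ⟨i, _, rfl⟩
    exact Submodule.sub_starProjection_mem_orthogonal (K := S.W J z) _
  exact (Submodule.mem_orthogonal _ _).1 (h1 hw) v hv

lemma gram_eq [DecidableEq Y] (J K : Finset Y) (z z' : E → ℂ) :
    S.gram J K z z' = gd (fun k : K => S.b J z k) (fun k : K => S.b J z' k) := by
  unfold gram gd gm
  congr

lemma gram_ne [DecidableEq Y] (J K : Finset Y) (z : E → ℂ) :
    S.gram J K z z ≠ 0 ↔ LinearIndependent ℂ fun k : K => S.b J z k := by
  rw [gram_eq, gd_self_ne]

lemma ang_eq [DecidableEq Y] (J K : Finset Y) (z z' : E → ℂ) :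
    S.ang J K z z' = an (fun k : K => S.b J z k) (fun k : K => S.b J z' k) := by
  unfold ang an
  rw [gram_eq, gram_eq, gram_eq]

end Sys

end Pool.GA
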