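import Pool.Agent.GA.GrDefs

/-!
# Chains in a tree: existence and uniqueness of the chain between two vertices
-/

set_option autoImplicit false

namespace Pool.GA
namespace Ch

variable {V : Type} {T : SimpleGraph V} {o : Set T.Dart}

/-- the boundary of a chain -/
noncomputable def bdy (c : o →₀ ℤ) : V →₀ ℤ :=
  c.mapDomain (fun d => d.1.snd) - c.mapDomain (fun d => d.1.fst)

lemma bdy_add (c c' : o →₀ ℤ) : bdy (c + c') = bdy c + bdy c' := by
  unfold bdy
  rw [Finsupp.mapDomain_add, Finsupp.mapDomain_add]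
  abel

lemma bdy_single (d : o) (z : ℤ) : bdy (Finsupp.single d z) = Finsupp.single d.1.snd z - Finsupp.single d.1.fst z := by
  unfold bdy
  rw [Finsupp.mapDomain_single, Finsupp.mapDomain_single]

/-- existence of chains -/
theorem exists_chain (ho : ∀ d, d ∈ o ↔ d.symm ∉ o) {u v : V} (p : T.Walk u v) :
    ∃ c : o →₀ ℤ, bdy c = Finsupp.single v 1 - Finsupp.single u 1 := by
  induction p with
  | nil => exact ⟨0, by simp [bdy]⟩
  | @cons u w v h p ih =>
    obtain ⟨c, hc⟩ := ih
    have h1 : ∃ c' : o →₀ ℤ, bdy c' = Finsupp.single w 1 - Finsupp.single u 1 := by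
      let d : T.Dart := ⟨(u, w), h⟩
      by_cases hd : d ∈ o
      · exact ⟨Finsupp.single ⟨d, hd⟩ 1, by rw [bdy_single]⟩
      · have hd' : d.symm ∈ o := by
          by_contra h2
          exact hd ((ho d).2 h2)
        refine ⟨Finsupp.single ⟨d.symm, hd'⟩ (-1), ?_⟩
        rw [bdy_single]
        show Finsupp.single u (-1) - Finsupp.single w (-1) = _
        rw [Finsupp.single_neg, Finsupp.single_neg]
        abel
    obtain ⟨c', hc'⟩ := h1
    refine ⟨c' + c, ?_⟩
    rw [bdy_add, hc, hc']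
    abel

/-- uniqueness of chains: there are no cycles -/
theorem eq_zero_of_bdy (hT : T.IsTree) (ho : ∀ d, d ∈ o ↔ d.symm ∉ o) (c : o →₀ ℤ) (hc : bdy c = 0) : c = 0 := by
  classical
  ext d
  obtain ⟨⟨⟨a, b⟩, hab⟩, hd⟩ := d
  have hbr := (SimpleGraph.isAcyclic_iff_forall_adj_isBridge.1 hT.isAcyclic) hab
  rw [SimpleGraph.isBridge_iff] at hbr
  let T' : SimpleGraph V := T.deleteEdges {s(a, b)}
  let φ : V → ℤ := fun x => if T'.Reachable x b then 1 else 0
  have hφ : ∀ d' : o, φ d'.1.snd - φ d'.1.fst = if d' = ⟨⟨(a, b), hab⟩, hd⟩ then 1 else 0 := by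
    rintro ⟨⟨⟨x, y⟩, hxy⟩, hd'⟩
    split_ifs with h
    · have h1 : x = a ∧ y = b := by
        have := congrArg (fun z : o => z.1.toProd) h
        exact Prod.ext_iff.1 this
      obtain ⟨rfl, rfl⟩ := h1
      show (if T'.Reachable y y then (1 : ℤ) else 0) - (if T'.Reachable x y then 1 else 0) = 1
      rw [if_pos (SimpleGraph.Reachable.refl y), if_neg hbr, sub_zero]
    · have h1 : T'.Adj x y := by
        refine SimpleGraph.deleteEdges_adj.2 ⟨hxy, ?_⟩
        intro h2
        rw [Set.mem_singleton_iff, Sym2.eq_iff] at h2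
        rcases h2 with ⟨rfl, rfl⟩ | ⟨rfl, rfl⟩
        · exact h rfl
        · exact (ho _).1 hd hd'
      have h2 : T'.Reachable y b ↔ T'.Reachable x b :=
        ⟨fun h3 => h1.reachable.trans h3, fun h3 => h1.reachable.symm.trans h3⟩
      show (if T'.Reachable y b then (1 : ℤ) else 0) - (if T'.Reachable x b then 1 else 0) = 0
      rw [if_congr h2 rfl rfl, sub_self]
  have h1 : Finsupp.linearCombination ℤ φ (bdy c) = c ⟨⟨(a, b), hab⟩, hd⟩ := by
    unfold bdy
    rw [map_sub, Finsupp.linearCombination_mapDomain, Finsupp.linearCombination_mapDomain,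
      Finsupp.linearCombination_apply, Finsupp.linearCombination_apply, ← Finsupp.sum_sub]
    have h2 : ∀ (d' : o) (z : ℤ), z • (φ ∘ fun d : o => d.1.snd) d' - z • (φ ∘ fun d : o => d.1.fst) d' =
        if d' = ⟨⟨(a, b), hab⟩, hd⟩ then z else 0 := by
      intro d' z
      show z • φ d'.1.snd - z • φ d'.1.fst = _
      rw [← smul_sub, hφ]
      split_ifs <;> simp
    have h4 : (c.sum fun d' z => z • (φ ∘ fun d : o => d.1.snd) d' - z • (φ ∘ fun d : o => d.1.fst) d') =
        c.sum fun d' z => if d' = ⟨⟨(a, b), hab⟩, hd⟩ then z else 0 := Finsupp.sum_congr fun d' _ => h2 d' _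
    rw [h4, Finsupp.sum_ite_eq']
    split_ifs with h3
    · rfl
    · exact (Finsupp.notMem_support_iff.1 h3).symm
  rw [hc, map_zero] at h1
  exact h1.symm

end Ch

theorem stmtCh : StmtCh := by
  intro V T hT o ho u v
  obtain ⟨p⟩ := hT.connected.preconnected u v
  obtain ⟨c, hc⟩ := Ch.exists_chain ho p
  refine ⟨c, hc, ?_⟩
  intro c' hc'
  have h1 : Ch.bdy (c' - c) = 0 := by
    have h2 : Ch.bdy (c' - c) + Ch.bdy c = Ch.bdy c' := by
      rw [← Ch.bdy_add, sub_add_cancel]
    have h3 : Ch.bdy c' = Ch.bdy c := hc'.trans hc.symm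
    rw [h3] at h2
    exact add_eq_right.1 h2
  exact sub_eq_zero.1 (Ch.eq_zero_of_bdy hT ho _ h1)

end Pool.GA
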