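import Mathlib

/-!
# MP_585e9a_al, project GAUGE: definitions

`Sys X Y E`: a matrix with rows `i : Y`, columns `x : X` and polynomial entries in the variables `e : E`
(each row and each column is finite, each variable occurs in finitely many rows). `vec z i`: row `i` at the
point `z : E → ℂ` as a vector of `ℓ²(X)`; `N z`: closed span of the rows; `nu z x`: diagonal entry of the
projection onto `N z`. `Gauge w o`: entry `(i, x)` is weighted homogeneous of weight `o' i - o x`.
`gam e ω`: the intrinsic edge term, mean over the unit disc of the curvature `kap` of the family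
`u ↦ N (ω with the variable e replaced by u)`.
-/

set_option autoImplicit false

open MeasureTheory Complex Filter
open scoped ENNReal Topology

namespace Pool.GA

/-- the uniform probability measure on the angles `(0, 2 π]` -/
noncomputable def mu0 : Measure ℝ :=
  (ENNReal.ofReal (2 * Real.pi))⁻¹ • (volume.restrict (Set.Ioc 0 (2 * Real.pi)))

/-- independent uniform angles -/
noncomputable def mu (E : Type) : Measure (E → ℝ) := Measure.infinitePi (fun _ : E => mu0)

/-- the phases -/
noncomputable def ph {E : Type} (ω : E → ℝ) (e : E) : ℂ := Complex.exp (ω e * I)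

/-- polar coordinates in the unit disc -/
noncomputable def pol (r θ : ℝ) : ℂ := (r : ℂ) * Complex.exp (θ * I)

/-- `ℓ²(X)` -/
abbrev L2 (X : Type) : Type := lp (fun _ : X => ℂ) 2

open Classical in
/-- basis vector -/
noncomputable def del {X : Type} (x : X) : L2 X := lp.single 2 x (1 : ℂ)

/-- a matrix with polynomial entries, finite rows and columns, each variable in finitely many rows -/
structure Sys (X Y E : Type) where
  a : Y → X → MvPolynomial E ℂ
  row : ∀ i, {x | a i x ≠ 0}.Finite
  col : ∀ x, {i | a i x ≠ 0}.Finite
  loc : ∀ e, {i | ∃ x, e ∈ (a i x).vars}.Finite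

variable {X Y E : Type}

namespace Sys

variable (S : Sys X Y E)

/-- row `i` at the point `z` -/
noncomputable def vec (z : E → ℂ) (i : Y) : L2 X :=
  ∑ x ∈ (S.row i).toFinset, MvPolynomial.eval z (S.a i x) • del x

/-- the closed span of the rows outside of `J` -/
noncomputable def W (J : Finset Y) (z : E → ℂ) : Submodule ℂ (L2 X) :=
  (Submodule.span ℂ (S.vec z '' {i | i ∉ J})).topologicalClosure

instance (J : Finset Y) (z : E → ℂ) : CompleteSpace (S.W J z) :=
  (Submodule.isClosed_topologicalClosure _).completeSpace_coe

/-- the closed span of all rows -/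
noncomputable def N (z : E → ℂ) : Submodule ℂ (L2 X) :=
  (Submodule.span ℂ (Set.range (S.vec z))).topologicalClosure

instance (z : E → ℂ) : CompleteSpace (S.N z) :=
  (Submodule.isClosed_topologicalClosure _).completeSpace_coe

/-- diagonal entry of the projection onto the closed row space -/
noncomputable def nu (z : E → ℂ) (x : X) : ℝ := ((S.N z).starProjection (del x) x).re

/-- the rows in which the variable `e` occurs -/
noncomputable def B (e : E) : Finset Y := (S.loc e).toFinset

/-- row `i` minus its projection to the closed span of the rows outside of `J` -/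
noncomputable def b (J : Finset Y) (z : E → ℂ) (i : Y) : L2 X :=
  S.vec z i - (S.W J z).starProjection (S.vec z i)

open Classical in
/-- Gram determinant of the `b z i` and the `b z' i`, `i ∈ K` -/
noncomputable def gram (J K : Finset Y) (z z' : E → ℂ) : ℂ :=
  (Matrix.of fun i j : K => inner ℂ (S.b J z' j) (S.b J z i)).det

/-- squared cosine (product of the principal ones) between the spans of the `b z i` and of the `b z' i` -/
noncomputable def ang (J K : Finset Y) (z z' : E → ℂ) : ℝ :=
  ‖S.gram J K z z'‖ ^ 2 / ((S.gram J K z z).re * (S.gram J K z' z').re)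

open Classical in
/-- curvature in the variable `e` at the point `z`, computed from the rows in `K` -/
noncomputable def kapK (K : Finset Y) (e : E) (z : E → ℂ) : ℝ≥0∞ :=
  liminf (fun n : ℕ => ENNReal.ofReal (((n : ℝ) + 1) ^ 2 *
    (1 - S.ang (S.B e) K z (Function.update z e (z e + 1 / ((n : ℂ) + 1)))))) atTop

open Classical in
/-- `K` is a basis for the rows of `B e` modulo the others -/
def IsBas (e : E) (K : Finset Y) (z : E → ℂ) : Prop :=
  S.gram (S.B e) K z z ≠ 0 ∧ ∀ K' ∈ (S.B e).powerset, K.card < K'.card → S.gram (S.B e) K' z z = 0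

open Classical in
/-- curvature in the variable `e` at the point `z` -/
noncomputable def kap (e : E) (z : E → ℂ) : ℝ≥0∞ :=
  (S.B e).powerset.sup fun K => if S.IsBas e K z then S.kapK K e z else 0

open Classical in
/-- mean curvature in the unit disc of the variable `e`, the other variables being the phases of `ω` -/
noncomputable def gamE (e : E) (ω : E → ℝ) : ℝ≥0∞ :=
  ∫⁻ r in Set.Ioo (0 : ℝ) 1, ∫⁻ θ in Set.Ioc (0 : ℝ) (2 * Real.pi),
    ENNReal.ofReal (r / Real.pi) * S.kap e (Function.update (ph ω) e (pol r θ))

noncomputable def gam (e : E) (ω : E → ℝ) : ℝ := (S.gamE e ω).toReal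

/-- gauge covariance -/
def Gauge (w : E →₀ ℤ) (o : X →₀ ℤ) : Prop :=
  ∃ o' : Y → ℤ, ∀ i x, (S.a i x).IsWeightedHomogeneous w (o' i - o x)

/-- the integer random variable of the theorem -/
noncomputable def Phi (w : E →₀ ℤ) (o : X →₀ ℤ) (ω : E → ℝ) : ℝ :=
  (o.sum fun x k => (k : ℝ) * S.nu (ph ω) x) + w.sum fun e k => (k : ℝ) * S.gam e ω

end Sys

end Pool.GA
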