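import Pool.Agent.GA.GDefs

/-!
# MP_585e9a_al, project FRR: free products, countability, finite subgroups

* `isFreeFreeGroup`, `isFreeCoprod`: the free group on `α` and the free product of the free group on `α` with the
  groups `H i` in the sense of `IsFree`;
* `IsFree.countable`: countability;
* `card_dvd`: if all ranks over `K[G]` lie in `(1/n) ℤ` then the order of every finite subgroup of `G` divides `n`.
-/

set_option autoImplicit false

namespace Pool.GA

/-- the free group on `α` -/
noncomputable def isFreeFreeGroup (α : Type) (H : Empty → Type) [∀ i, Group (H i)] :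
    IsFree (FreeGroup α) α Empty H where
  a := FreeGroup.of
  h := fun i => i.elim
  lift := fun L _ a' h' => ⟨FreeGroup.lift a', fun s => by simp, fun i => i.elim⟩
  gen := by
    rw [Set.iUnion_of_empty, Set.union_empty]
    exact FreeGroup.closure_range_of α

/-- the free product of the free group on `α` and the groups `H i` -/
noncomputable def isFreeCoprod (α I : Type) (H : I → Type) [∀ i, Group (H i)] :
    IsFree (Monoid.Coprod (FreeGroup α) (Monoid.CoprodI H)) α I H where
  a := fun s => Monoid.Coprod.inl (FreeGroup.of s)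
  h := fun i => Monoid.Coprod.inr.comp Monoid.CoprodI.of
  lift := fun L _ a' h' => ⟨Monoid.Coprod.lift (FreeGroup.lift a') (Monoid.CoprodI.lift h'),
    fun s => by simp, fun i g => by simp⟩
  gen := by
    rw [eq_top_iff, ← Monoid.Coprod.closure_range_inl_union_inr, Subgroup.closure_le]
    rintro x (⟨y, rfl⟩ | ⟨y, rfl⟩)
    · have hy : y ∈ Subgroup.closure (Set.range (FreeGroup.of : α → FreeGroup α)) := by
        rw [FreeGroup.closure_range_of]; trivial
      induction hy using Subgroup.closure_induction with
      | mem z hz =>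
        obtain ⟨s, rfl⟩ := hz
        exact Subgroup.subset_closure (Or.inl ⟨s, rfl⟩)
      | one => simp
      | mul u v _ _ hu hv => rw [map_mul]; exact mul_mem hu hv
      | inv u _ hu => rw [map_inv]; exact inv_mem hu
    · have hy : y ∈ Submonoid.closure (⋃ i, Set.range (Monoid.CoprodI.of : H i →* Monoid.CoprodI H)) := by
        rw [Monoid.CoprodI.mclosure_iUnion_range_of]; trivial
      induction hy using Submonoid.closure_induction with
      | mem z hz =>
        obtain ⟨i, hi⟩ := Set.mem_iUnion.1 hz
        obtain ⟨g, rfl⟩ := hi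
        exact Subgroup.subset_closure (Or.inr (Set.mem_iUnion.2 ⟨i, ⟨g, rfl⟩⟩))
      | one => simp
      | mul u v _ _ hu hv => rw [map_mul]; exact mul_mem hu hv

/-- a group generated by a countable set is countable -/
theorem countable_of_closure {P S : Type} [Group P] [Countable S] (f : S → P)
    (hf : Subgroup.closure (Set.range f) = ⊤) : Countable P := by
  have h1 : Function.Surjective (FreeGroup.lift f) := by
    rw [← MonoidHom.range_eq_top, FreeGroup.range_lift_eq_closure]
    exact hf
  exact h1.countable

theorem IsFree.countable {P α I : Type} [Group P] {H : I → Type} [∀ i, Group (H i)] (F : IsFree P α I H)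
    [Countable α] [Countable I] [∀ i, Countable (H i)] : Countable P := by
  refine countable_of_closure (S := α ⊕ Σ i, H i) (Sum.elim F.a fun p => F.h p.1 p.2) ?_
  rw [Set.Sum.elim_range]
  have : Set.range (fun p : Σ i, H i => F.h p.1 p.2) = ⋃ i, Set.range (F.h i) := by
    ext x
    simp
  rw [this]
  exact F.gen

section
open WeakAtiyah
variable {K : Subfield ℂ} {G : Type} [Group G]

open Classical in
/-- the average of a finite subgroup -/
noncomputable def avg (K : Subfield ℂ) (F : Subgroup G) [Fintype F] : MonoidAlgebra K G :=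
  ∑ f : F, MonoidAlgebra.single (f : G) ((Fintype.card F : K)⁻¹)

open Classical in
theorem avg_coeff (F : Subgroup G) [Fintype F] (g : G) :
    (avg K F).coeff g = if g ∈ F then (Fintype.card F : K)⁻¹ else 0 := by
  rw [avg, MonoidAlgebra.coeff_sum, Finsupp.finsetSum_apply]
  by_cases hg : g ∈ F
  · rw [if_pos hg, Finset.sum_eq_single (⟨g, hg⟩ : F)]
    · simp
    · intro b _ hb
      have : (b : G) ≠ g := fun h => hb (Subtype.ext h)
      simp [this]
    · simp
  · rw [if_neg hg]
    refine Finset.sum_eq_zero fun b _ => ?_
    have : (b : G) ≠ g := fun h => hg (h ▸ b.2)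
    simp [this]

open Classical in
theorem avg_conv (F : Subgroup G) [Fintype F] (φ : G → ℂ) :
    ∑ h ∈ (avg K F).coeff.support, ((avg K F).coeff h : ℂ) * φ h = (Fintype.card F : ℂ)⁻¹ * ∑ f : F, φ f := by
  have h1 : (avg K F).coeff.support ⊆ Finset.univ.map (Function.Embedding.subtype fun g : G => g ∈ F) := by
    intro g hg
    rw [Finsupp.mem_support_iff, avg_coeff] at hg
    have hg' : g ∈ F := by
      by_contra h
      exact hg (if_neg h)
    exact Finset.mem_map.2 ⟨⟨g, hg'⟩, Finset.mem_univ _, rfl⟩
  rw [Finset.sum_subset h1 fun x _ hx => by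
    rw [Finsupp.notMem_support_iff] at hx
    rw [hx]; simp, Finset.sum_map, Finset.mul_sum]
  refine Finset.sum_congr rfl fun f _ => ?_
  have hf : (f : G) ∈ F := f.2
  simp only [Function.Embedding.subtype_apply, avg_coeff, if_pos hf]
  push_cast
  rfl

open Classical in
/-- the normalised indicator of a finite subgroup -/
noncomputable def avgVec (F : Subgroup G) [Fintype F] : Row G Unit :=
  ∑ f : F, lp.single 2 ((f : G), ()) ((Fintype.card F : ℂ)⁻¹)

open Classical in
theorem avgVec_apply (F : Subgroup G) [Fintype F] (g : G) :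
    avgVec F (g, ()) = (Fintype.card F : ℂ)⁻¹ * ∑ f : F, if g = f then 1 else 0 := by
  rw [avgVec, lp.coeFn_sum, Finset.sum_apply, Finset.mul_sum]
  refine Finset.sum_congr rfl fun f _ => ?_
  rw [lp.single_apply]
  by_cases h : g = f
  · subst h
    simp
  · have : (g, ()) ≠ ((f : G), ()) := fun h' => h (congrArg Prod.fst h')
    rw [Pi.single_eq_of_ne this, if_neg h, mul_zero]

theorem rank_avg (F : Subgroup G) [Fintype F] :
    rank (fun _ _ => avg K F : Matrix Unit Unit (MonoidAlgebra K G)) = 1 / Fintype.card F := by
  classical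
  set A : Matrix Unit Unit (MonoidAlgebra K G) := fun _ _ => avg K F with hA
  have hm : avgVec F ∈ image A := by
    refine Submodule.subset_span ⟨lp.single 2 ((1 : G), ()) (1 : ℂ), fun g j => ?_⟩
    rw [Fintype.sum_unique, avg_conv F fun h => (lp.single 2 ((1 : G), ()) (1 : ℂ) : Row G Unit)
      (g * h⁻¹, default)]
    obtain ⟨⟩ := j
    rw [avgVec_apply]
    congr 1
    refine Finset.sum_congr rfl fun f _ => ?_
    rw [lp.single_apply]
    by_cases h : g = f
    · subst h
      simp
    · have : (g * (f : G)⁻¹, (default : Unit)) ≠ ((1 : G), ()) := fun h' =>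
        h (mul_inv_eq_one.1 (congrArg Prod.fst h'))
      rw [Pi.single_eq_of_ne this, if_neg h]
  have hinv : ∀ w ∈ image A, ∀ g : G, ∀ f : F, w (g * f, ()) = w (g, ()) := by
    intro w hw
    induction hw using Submodule.span_induction with
    | mem w hw =>
      obtain ⟨y, hy⟩ := hw
      intro g f
      rw [hy, hy, Fintype.sum_unique, Fintype.sum_unique, avg_conv F fun h => y (g * f * h⁻¹, default),
        avg_conv F fun h => y (g * h⁻¹, default)]
      congr 1
      refine Fintype.sum_equiv (Equiv.mulRight f⁻¹) _ _ fun x => ?_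
      simp [mul_assoc]
    | zero => intro g f; simp
    | add u v _ _ hu hv =>
      intro g f
      simp only [lp.coeFn_add, Pi.add_apply, hu, hv]
    | smul c u _ hu =>
      intro g f
      simp only [lp.coeFn_smul, Pi.smul_apply, hu]
  have hperp : ∀ w ∈ image A, inner ℂ (lp.single 2 ((1 : G), ()) (1 : ℂ) - avgVec F : Row G Unit) w = 0 := by
    intro w hw
    rw [inner_sub_left, lp.inner_single_left, avgVec, sum_inner]
    have h1 : ∀ f : F, inner ℂ (lp.single 2 ((f : G), ()) ((Fintype.card F : ℂ)⁻¹) : Row G Unit) w =
        (Fintype.card F : ℂ)⁻¹ * w ((1 : G), ()) := by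
      intro f
      rw [lp.inner_single_left]
      have h2 := hinv w hw 1 f
      rw [one_mul] at h2
      rw [h2]
      simp [RCLike.inner_apply, mul_comm]
    rw [Finset.sum_congr rfl fun f _ => h1 f, Finset.sum_const, Finset.card_univ, nsmul_eq_mul, ← mul_assoc]
    have h3 : (Fintype.card F : ℂ) ≠ 0 := by
      exact_mod_cast Fintype.card_ne_zero
    rw [mul_inv_cancel₀ h3]
    simp [RCLike.inner_apply]
  have hle : (image A).topologicalClosure ≤
      (Submodule.span ℂ {(lp.single 2 ((1 : G), ()) (1 : ℂ) - avgVec F : Row G Unit)})ᗮ := by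
    refine Submodule.topologicalClosure_minimal _ ?_ (Submodule.isClosed_orthogonal _)
    intro w hw
    rw [Submodule.mem_orthogonal_singleton_iff_inner_right]
    exact hperp w hw
  have hproj : (image A).topologicalClosure.starProjection (lp.single 2 ((1 : G), ()) (1 : ℂ)) = avgVec F := by
    refine Submodule.eq_starProjection_of_mem_of_inner_eq_zero
      ((image A).le_topologicalClosure hm) fun w hw => ?_
    have := hle hw
    rw [Submodule.mem_orthogonal_singleton_iff_inner_right] at this
    exact this
  have hproj' : ∀ inst : DecidableEq (G × Unit), (image A).topologicalClosure.starProjection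
      (@lp.single (G × Unit) (fun _ => ℂ) _ inst 2 ((1 : G), ()) (1 : ℂ)) = avgVec F := by
    intro inst
    have h5 : inst = instDecidableEqProd := Subsingleton.elim _ _
    subst h5
    exact hproj
  have h4 : rank A = ((avgVec F : Row G Unit) ((1 : G), ())).re := by
    unfold rank
    rw [Fintype.sum_unique]
    exact congrArg (fun u : Row G Unit => (u ((1 : G), ())).re) (hproj' _)
  rw [h4, avgVec_apply, Finset.sum_eq_single (1 : F)]
  · simp
  · intro b _ hb
    rw [if_neg]
    intro h
    exact hb (Subtype.ext h.symm)
  · simp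

/-- if all ranks over `K[G]` lie in `(1/n) ℤ` then the orders of the finite subgroups of `G` divide `n` -/
theorem card_dvd {n : ℕ} (hn : 0 < n) (h : RanksIn K G n) (F : Subgroup G) [Finite F] : Nat.card F ∣ n := by
  have := Fintype.ofFinite F
  obtain ⟨z, hz⟩ := h Unit Unit (fun _ _ => avg K F)
  rw [rank_avg] at hz
  have h1 : (0 : ℝ) < Fintype.card F := by exact_mod_cast Fintype.card_pos
  have h2 : (0 : ℝ) < n := by exact_mod_cast hn
  rw [div_eq_div_iff h1.ne' h2.ne', one_mul] at hz
  have h3 : (n : ℤ) = z * Fintype.card F := by exact_mod_cast hz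
  rw [Nat.card_eq_fintype_card]
  exact_mod_cast Dvd.intro_left z h3.symm

end

/-- the groups `H i` embed in `P / [R, R]` -/
theorem exists_subgroup {P α I : Type} [Group P] {H : I → Type} [∀ i, Group (H i)] (F : IsFree P α I H)
    (R : Subgroup P) [R.Normal] (hR : ∀ i g, F.h i g ∈ R → g = 1) (i : I) [Finite (H i)] :
    ∃ S : Subgroup (P ⧸ ⁅R, R⁆), Finite S ∧ Nat.card S = Nat.card (H i) := by
  have hi : Function.Injective ((QuotientGroup.mk' ⁅R, R⁆).comp (F.h i)) := by
    rw [injective_iff_map_eq_one]
    intro g hg
    refine hR i g (Subgroup.commutator_le_left R R ?_)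
    exact (QuotientGroup.eq_one_iff _).1 hg
  refine ⟨((QuotientGroup.mk' ⁅R, R⁆).comp (F.h i)).range, ?_, ?_⟩
  · exact Finite.of_equiv _ (MonoidHom.ofInjective hi).toEquiv
  · exact Nat.card_congr (MonoidHom.ofInjective hi).toEquiv.symm

/-- if the ranks over `ℂ[P / [R, R]]` have the common denominator `m` whenever the orders of the `H i` divide `m`,
then the orders of the finite subgroups of `P / [R, R]` have the same common multiples as the orders of the `H i`:
their least common multiples agree -/
theorem card_dvd_iff {P α I : Type} [Group P] {H : I → Type} [∀ i, Group (H i)] [∀ i, Finite (H i)]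
    (F : IsFree P α I H) (R : Subgroup P) [R.Normal] (hR : ∀ i g, F.h i g ∈ R → g = 1) (K : Subfield ℂ) {m : ℕ}
    (hm : 0 < m) (hM : (∀ i, Nat.card (H i) ∣ m) → WeakAtiyah.RanksIn K (P ⧸ ⁅R, R⁆) m) :
    (∀ S : Subgroup (P ⧸ ⁅R, R⁆), Finite S → Nat.card S ∣ m) ↔ ∀ i, Nat.card (H i) ∣ m := by
  constructor
  · intro h i
    obtain ⟨S, hS, hc⟩ := exists_subgroup F R hR i
    rw [← hc]
    exact h S hS
  · intro h S hS
    exact card_dvd hm (hM h) S

end Pool.GA
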