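import Pool.Agent.GA.RankC

/-!
# Row RANK of MP_585e9a_al, project GAUGE: the rank over `G` is the expectation of `nu`
-/

set_option autoImplicit false
set_option linter.unusedSectionVars false

open MeasureTheory Complex Filter
open scoped ENNReal Topology InnerProductSpace ComplexConjugate

namespace Pool.GA.Rk

attribute [local instance] prob_mu0 prob_mu

section grp
variable {G Q A : Type} [Group G] [Group Q] {K : Subfield ℂ} {ι κ : Type} [Fintype ι] [Fintype κ]
  (D : GData G Q A) (M : Matrix ι κ (MonoidAlgebra K G))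

theorem pg_meas (x : Q) (g : G) : Measurable fun ω : Q × A → ℝ => pg D ω x g :=
  phz_meas _

theorem hat_meas (x : Q) (j : κ) (f : G × κ →₀ ℂ) :
    Measurable fun ω : Q × A → ℝ => hat D ω x f (x, j) := by
  classical
  simp only [hat_apply]
  refine Finset.measurable_sum _ fun q _ => ?_
  split_ifs
  · exact (pg_meas D x q.1).const_mul _
  · exact measurable_const

theorem hat_int (x : Q) (j : κ) (f : G × κ →₀ ℂ) :
    ∫ ω, hat D ω x f (x, j) ∂(mu (Q × A)) = f (1, j) := by
  classical
  simp only [hat_apply]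
  have hint : ∀ q : G × κ, Integrable (fun ω : Q × A → ℝ => f q * pg D ω x q.1) (mu (Q × A)) := by
    intro q
    refine Integrable.of_bound ((pg_meas D x q.1).const_mul _).aestronglyMeasurable ‖f q‖ ?_
    refine Filter.Eventually.of_forall fun ω => ?_
    rw [norm_mul, pg_norm, mul_one]
  rw [integral_finsetSum]
  · have h1 : ∀ q ∈ f.support, (∫ ω : Q × A → ℝ, (if (x, j) = (x * D.q q.1, q.2) then
        f q * pg D ω x q.1 else 0) ∂(mu (Q × A))) = if q = (1, j) then f q else 0 := by
      intro q _
      by_cases h : (x, j) = (x * D.q q.1, q.2)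
      · simp only [if_pos h]
        have h2 : x = x * D.q q.1 := congrArg Prod.fst h
        have h3 : D.q q.1 = 1 := left_eq_mul.1 h2
        have h4 : j = q.2 := congrArg Prod.snd h
        rw [integral_const_mul]
        by_cases hc : D.c q.1 = 0
        · have h5 : q.1 = 1 := D.inj _ h3 hc
          rw [if_pos (Prod.ext h5 h4.symm)]
          simp only [h5, pg_one]
          simp
        · have h5 : q ≠ (1, j) := by
            rintro rfl
            exact hc (c_one D)
          rw [if_neg h5]
          have h6 : ∫ ω, pg D ω x q.1 ∂(mu (Q × A)) = 0 :=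
            int_phz _ fun h0 => hc (tr_eq_zero h0)
          rw [h6, mul_zero]
      · simp only [if_neg h, integral_zero]
        rw [if_neg]
        rintro rfl
        apply h
        simp
    rw [Finset.sum_congr rfl h1, Finset.sum_ite_eq']
    split_ifs with h2
    · rfl
    · exact (Finsupp.notMem_support_iff.1 h2).symm
  · intro q _
    split_ifs
    · exact hint q
    · exact integrable_zero _ _ _

/-- the averages on the group side -/
noncomputable def av (j : κ) (n : ℕ) : ℝ :=
  (birkhoffAverage ℂ (UG M) _root_.id n (Finsupp.single ((1 : G), j) (1 : ℂ)) (1, j)).re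

theorem exists_R (S : Sys (Q × κ) (Q × ι) (Q × A)) (hS : S.a = ent D M) (ω : Q × A → ℝ) :
    ∃ R : L2 (Q × κ) →L[ℂ] L2 (Q × ι), ‖R‖ ≤ CC M ∧ ∀ x i, R x i = ⟪S.vec (ph ω) i, x⟫_ℂ :=
  exists_row _ (CC_pos M).le fun x F => row_bound D M S hS ω x F

theorem av_lim (S : Sys (Q × κ) (Q × ι) (Q × A)) (hS : S.a = ent D M) (x : Q) (j : κ) :
    Tendsto (av M j) atTop (𝓝 (1 - ∫ ω, S.nu (ph ω) (x, j) ∂(mu (Q × A)))) := by
  classical
  set f : ℕ → (G × κ →₀ ℂ) := fun n =>
    birkhoffAverage ℂ (UG M) _root_.id n (Finsupp.single ((1 : G), j) (1 : ℂ)) with hf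
  have hlim : ∀ ω : Q × A → ℝ, Tendsto (fun n => (hat D ω x (f n) (x, j)).re) atTop
      (𝓝 (1 - S.nu (ph ω) (x, j))) := by
    intro ω
    obtain ⟨R, hRC, hR⟩ := exists_R D M S hS ω
    have h1 := nu_lim S (ph ω) (CC_pos M) hRC hR (x, j)
    refine h1.congr fun n => ?_
    rw [← hat_avg hS hR, hat_one]
  have hbd : ∀ (n : ℕ) (ω : Q × A → ℝ), ‖(hat D ω x (f n) (x, j)).re‖ ≤ 1 := by
    intro n ω
    obtain ⟨R, hRC, hR⟩ := exists_R D M S hS ω
    rw [← hat_avg hS hR, hat_one]
    refine (Complex.abs_re_le_norm _).trans ((norm_apply_le _ _).trans ?_)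
    exact avg_norm (CC_pos M) hRC _ n
  have hm : ∀ n, Measurable fun ω : Q × A → ℝ => (hat D ω x (f n) (x, j)).re := fun n =>
    Complex.measurable_re.comp (hat_meas D x j (f n))
  have hint : ∀ n, ∫ ω, (hat D ω x (f n) (x, j)).re ∂(mu (Q × A)) = av M j n := by
    intro n
    have h1 : Integrable (fun ω : Q × A → ℝ => hat D ω x (f n) (x, j)) (mu (Q × A)) := by
      refine Integrable.of_bound (hat_meas D x j (f n)).aestronglyMeasurable 1 ?_
      refine Filter.Eventually.of_forall fun ω => ?_
      obtain ⟨R, hRC, hR⟩ := exists_R D M S hS ω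
      rw [← hat_avg hS hR, hat_one]
      exact (norm_apply_le _ _).trans (avg_norm (CC_pos M) hRC _ n)
    have h2 := integral_re h1
    unfold av
    rw [← hat_int D x j (f n)]
    exact h2
  have h1 := tendsto_integral_of_dominated_convergence (μ := mu (Q × A))
    (F := fun n ω => (hat D ω x (f n) (x, j)).re) (f := fun ω => 1 - S.nu (ph ω) (x, j))
    (fun _ => (1 : ℝ)) (fun n => (hm n).aestronglyMeasurable) (integrable_const _)
    (fun n => Filter.Eventually.of_forall (hbd n)) (Filter.Eventually.of_forall hlim)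
  simp only [hint] at h1
  have hm2 : Measurable fun ω : Q × A → ℝ => 1 - S.nu (ph ω) (x, j) :=
    measurable_of_tendsto_metrizable hm (tendsto_pi_nhds.2 hlim)
  have hi2 : Integrable (fun ω : Q × A → ℝ => 1 - S.nu (ph ω) (x, j)) (mu (Q × A)) := by
    refine Integrable.of_bound hm2.aestronglyMeasurable 1 (Filter.Eventually.of_forall fun ω => ?_)
    exact le_of_tendsto ((hlim ω).norm) (Filter.Eventually.of_forall fun n => hbd n ω)
  have h3 : ∫ ω, S.nu (ph ω) (x, j) ∂(mu (Q × A)) =
      1 - ∫ ω, (1 - S.nu (ph ω) (x, j)) ∂(mu (Q × A)) := by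
    have h4 : (fun ω : Q × A → ℝ => S.nu (ph ω) (x, j)) =
        fun ω => 1 - (1 - S.nu (ph ω) (x, j)) := by
      funext ω
      ring
    conv_lhs => rw [h4]
    rw [integral_sub (integrable_const _) hi2]
    simp
  rw [h3, sub_sub_cancel]
  exact h1

end grp

/-- the trivial data of a group -/
noncomputable def D1 (G : Type) [Group G] : GData G G Empty where
  q := MonoidHom.id G
  c := fun _ => 0
  mul := fun g h => by
    ext p
    exact p.2.elim
  inj := fun g h _ => h

section one
variable {G : Type} [Group G] {K : Subfield ℂ} {ι κ : Type} [Fintype ι] [Fintype κ]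
  (M : Matrix ι κ (MonoidAlgebra K G))

theorem pd_one (ω : G × Empty → ℝ) (y : G) : pd (D1 G) M ω y = 1 := by
  unfold pd
  have : (tr y (den (D1 G) M)).mapRange (fun k : ℕ => (k : ℤ)) (by simp) = 0 := by
    ext p
    exact p.2.elim
  rw [this, phz_zero]

theorem pg_D1 (ω : G × Empty → ℝ) (y g : G) : pg (D1 G) ω y g = 1 := by
  unfold pg
  have : tr y ((D1 G).c g) = 0 := tr_zero' y
  rw [this, phz_zero]

theorem single_eq {X : Type} (inst : DecidableEq X) (x : X) :
    (@lp.single X (fun _ => ℂ) _ inst 2 x (1 : ℂ) : L2 X) = del x := by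
  unfold del
  have h : inst = Classical.decEq X := Subsingleton.elim _ _
  subst h
  rfl

theorem star_congr {X : Type} {U V : Submodule ℂ (L2 X)} [U.HasOrthogonalProjection]
    [V.HasOrthogonalProjection] (h : U = V) (f : L2 X) : U.starProjection f = V.starProjection f := by
  subst h
  rfl

theorem image_eq (S : Sys (G × κ) (G × ι) (G × Empty)) (hS : S.a = ent (D1 G) M)
    (ω : G × Empty → ℝ) : S.N (ph ω) = (WeakAtiyah.image M).topologicalClosure := by
  classical
  obtain ⟨R, hRC, hR⟩ := exists_R (D1 G) M S hS ω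
  -- values of the adjoint
  have hadj : ∀ (y : L2 (G × ι)) (g : G) (j : κ), ContinuousLinearMap.adjoint R y (g, j) =
      ∑ i, ∑ h ∈ (M i j).coeff.support, ((M i j).coeff h : ℂ) * y (g * h⁻¹, i) := by
    intro y g j
    rw [← inner_del, ContinuousLinearMap.adjoint_inner_right, R_del hS hR, sum_inner]
    refine Finset.sum_congr rfl fun i _ => ?_
    rw [sum_inner]
    refine Finset.sum_congr rfl fun h _ => ?_
    rw [inner_smul_left, inner_del, Complex.conj_conj, pd_one, pg_D1, one_mul, one_mul]
    rfl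
  have himg : ∀ f, f ∈ {f : L2 (G × κ) | ∃ y : L2 (G × ι), ∀ g j,
      f (g, j) = ∑ i, ∑ h ∈ (M i j).coeff.support, ((M i j).coeff h : ℂ) * y (g * h⁻¹, i)} ↔
      ∃ y, f = ContinuousLinearMap.adjoint R y := by
    intro f
    constructor
    · rintro ⟨y, hy⟩
      exact ⟨y, L2_ext_inner fun x => by rw [hadj]; exact hy x.1 x.2⟩
    · rintro ⟨y, rfl⟩
      exact ⟨y, fun g j => hadj y g j⟩
  have hcomp : CompleteSpace (S.N (ph ω)) := inferInstance
  apply le_antisymm
  · unfold Sys.N
    refine Submodule.topologicalClosure_mono ?_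
    rw [Submodule.span_le]
    rintro _ ⟨i, rfl⟩
    unfold WeakAtiyah.image
    refine Submodule.subset_span ((himg _).2 ⟨del i, ?_⟩)
    rw [row_adj hR]
  · refine Submodule.topologicalClosure_minimal _ ?_ (Submodule.isClosed_topologicalClosure _)
    unfold WeakAtiyah.image
    rw [Submodule.span_le]
    intro f hf
    obtain ⟨y, rfl⟩ := (himg f).1 hf
    show ContinuousLinearMap.adjoint R y ∈ S.N (ph ω)
    rw [← Submodule.orthogonal_orthogonal (S.N (ph ω)), Submodule.mem_orthogonal]
    intro w hw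
    unfold Sys.N at hw
    rw [Submodule.orthogonal_closure, ← row_ker hR] at hw
    rw [ContinuousLinearMap.adjoint_inner_right, hw, inner_zero_left]

end one

end Pool.GA.Rk

namespace Pool.GA

attribute [local instance] Rk.prob_mu0 Rk.prob_mu

theorem stmtRank : StmtRank := by
  intro G Q A _ _ _ _ K ι κ _ _ D M S hS x
  obtain ⟨S1, hS1⟩ := stmtGsys G G Empty K ι κ (Rk.D1 G) M
  have h1 : ∀ j, ∫ ω, S.nu (ph ω) (x, j) ∂(mu (Q × A)) =
      ∫ ω, S1.nu (ph ω) (1, j) ∂(mu (G × Empty)) := by
    intro j
    have e1 := Rk.av_lim D M S hS x j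
    have e2 := Rk.av_lim (Rk.D1 G) M S1 hS1 1 j
    have e3 := tendsto_nhds_unique e1 e2
    linarith
  rw [Finset.sum_congr rfl fun j _ => h1 j]
  unfold WeakAtiyah.rank
  refine Finset.sum_congr rfl fun j _ => ?_
  have h2 : ∀ ω : G × Empty → ℝ, S1.nu (ph ω) (1, j) =
      (((WeakAtiyah.image M).topologicalClosure.starProjection (del ((1 : G), j)))
        ((1 : G), j)).re := by
    intro ω
    unfold Sys.nu
    rw [Rk.star_congr (Rk.image_eq M S1 hS1 ω)]
  simp only [h2]
  rw [integral_const, probReal_univ, one_smul]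
  exact (congrArg (fun f : L2 (G × κ) => (((WeakAtiyah.image M).topologicalClosure.starProjection f)
    ((1 : G), j)).re) (Rk.single_eq _ ((1 : G), j))).symm

end Pool.GA
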