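import Pool.Agent.GA.All
import Pool.Agent.GA.Rank
import Pool.Agent.GA.Free

/-!
# MP_585e9a_FRR: the main theorem, all rows put together
-/

namespace Pool.GA

theorem mainThm : StmtMain := mainAll stmtRank

end Pool.GA
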