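import Pool.Agent.GA.Stmts
import Pool.Agent.Helper49.WA.Defs

/-!
# MP_585e9a_al, project GAUGE: group part, definitions and row statements

`GData G Q A`: a group `G` with `q : G →* Q` and a crossed homomorphism `c : G → ℤ[Q × A]`, jointly injective
(so `G` is a subgroup of `ℤ^(Q × A) ⋊ Q`). `gsys D M`: the system of a matrix `M` over `K[G]`.
-/

set_option autoImplicit false

open MeasureTheory Complex Filter
open scoped ENNReal Topology

namespace Pool.GA

open Classical in
/-- left translation of a chain -/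
noncomputable def tr {Q A N : Type} [Group Q] [AddCommMonoid N] (y : Q) (c : Q × A →₀ N) : Q × A →₀ N :=
  c.mapDomain fun p => (y * p.1, p.2)

structure GData (G Q A : Type) [Group G] [Group Q] where
  q : G →* Q
  c : G → (Q × A →₀ ℤ)
  mul : ∀ g h, c (g * h) = c g + tr (q g) (c h)
  inj : ∀ g, q g = 1 → c g = 0 → g = 1

/-- pairing of chains -/
noncomputable def pair {E : Type} (w c : E →₀ ℤ) : ℤ := c.sum fun e k => w e * k

section
variable {G Q A : Type} [Group G] [Group Q] {K : Subfield ℂ} {ι κ : Type} [Fintype ι] [Fintype κ]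

/-- a common denominator -/
noncomputable def den (D : GData G Q A) (M : Matrix ι κ (MonoidAlgebra K G)) : Q × A →₀ ℕ :=
  ∑ i, ∑ j, ∑ g ∈ (M i j).coeff.support, (D.c g).mapRange (fun k => (-k).toNat) (by simp)

/-- exponent of the monomial of `g` in a row over `y` -/
noncomputable def expo (D : GData G Q A) (M : Matrix ι κ (MonoidAlgebra K G)) (y : Q) (g : G) : Q × A →₀ ℕ :=
  (tr y (D.c g) + (tr y (den D M)).mapRange (fun k : ℕ => (k : ℤ)) (by simp)).mapRange Int.toNat (by simp)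

open Classical in
/-- entries of the system of `M` -/
noncomputable def ent (D : GData G Q A) (M : Matrix ι κ (MonoidAlgebra K G)) (y : Q × ι) (x : Q × κ) :
    MvPolynomial (Q × A) ℂ :=
  ∑ g ∈ (M y.2 x.2).coeff.support with y.1 * D.q g = x.1,
    MvPolynomial.monomial (expo D M y.1 g) (((M y.2 x.2).coeff g : K) : ℂ)

end

/-- GSYS: the entries form a system -/
def StmtGsys : Prop := ∀ (G Q A : Type) [Group G] [Group Q] (K : Subfield ℂ) (ι κ : Type) [Fintype ι]
  [Fintype κ] (D : GData G Q A) (M : Matrix ι κ (MonoidAlgebra K G)),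
  ∃ S : Sys (Q × κ) (Q × ι) (Q × A), S.a = ent D M

/-- RANK: the rank over `G` is the expectation of `nu` -/
def StmtRank : Prop := ∀ (G Q A : Type) [Group G] [Group Q] [Countable Q] [Countable A] (K : Subfield ℂ)
  (ι κ : Type) [Fintype ι] [Fintype κ] (D : GData G Q A) (M : Matrix ι κ (MonoidAlgebra K G))
  (S : Sys (Q × κ) (Q × ι) (Q × A)), S.a = ent D M → ∀ x : Q,
  ∑ j, ∫ ω, S.nu (ph ω) (x, j) ∂(mu (Q × A)) = WeakAtiyah.rank M

open Classical in
/-- GAUGE: gauge weights -/
def StmtGG : Prop := ∀ (G Q A : Type) [Group G] [Group Q] (K : Subfield ℂ) (ι κ : Type) [Fintype ι]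
  [Fintype κ] (D : GData G Q A) (M : Matrix ι κ (MonoidAlgebra K G)) (S : Sys (Q × κ) (Q × ι) (Q × A)),
  S.a = ent D M →
  (∀ (w : Q × A →₀ ℤ) (x : Q), (∀ y i j, ∀ g ∈ (M i j).coeff.support,
    pair w (tr y (D.c g)) = (if y = x then 1 else 0) - (if y * D.q g = x then 1 else 0)) →
    S.Gauge w (∑ j : κ, Finsupp.single (x, j) 1)) ∧
  (∀ w : Q × A →₀ ℤ, (∀ y i j, ∀ g ∈ (M i j).coeff.support, pair w (tr y (D.c g)) = 0) → S.Gauge w 0)

/-- GEQ: equivariance under left translations -/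
def StmtGeq : Prop := ∀ (G Q A : Type) [Group G] [Group Q] (K : Subfield ℂ) (ι κ : Type) [Fintype ι]
  [Fintype κ] (D : GData G Q A) (M : Matrix ι κ (MonoidAlgebra K G)) (z y x : Q) (i : ι) (j : κ),
  ent D M (z * y, i) (z * x, j) =
    MvPolynomial.rename (fun p : Q × A => (z * p.1, p.2)) (ent D M (y, i) (x, j))

/-- `P` is the free product of the free group on `α` and the groups `H i` -/
structure IsFree (P α I : Type) [Group P] (H : I → Type) [∀ i, Group (H i)] where
  a : α → P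
  h : ∀ i, H i →* P
  lift : ∀ (L : Type) [Group L] (a' : α → L) (h' : ∀ i, H i →* L), ∃ φ : P →* L, (∀ s, φ (a s) = a' s) ∧
    ∀ i g, φ (h i g) = h' i g
  gen : Subgroup.closure (Set.range a ∪ ⋃ i, Set.range (h i)) = ⊤

open Classical in
/-- MAGNUS: the Magnus embedding of `P / [R, R]` -/
def StmtMagnus : Prop := ∀ (P α I : Type) [Group P] (H : I → Type) [∀ i, Group (H i)] [∀ i, Finite (H i)]
  (F : IsFree P α I H) (R : Subgroup P) [R.Normal],
  (∀ i g, F.h i g ∈ R → g = 1) →
  ∃ D : GData (P ⧸ ⁅R, R⁆) (P ⧸ R) (α ⊕ I),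
    (∀ p : P, D.q (QuotientGroup.mk p) = QuotientGroup.mk p) ∧
    (∀ s, D.c (QuotientGroup.mk (F.a s)) = Finsupp.single (1, Sum.inl s) 1) ∧
    (∀ i g, D.c (QuotientGroup.mk (F.h i g)) =
      Finsupp.single (1, Sum.inr i) 1 - Finsupp.single (QuotientGroup.mk (F.h i g), Sum.inr i) 1)

/-- MAIN -/
def StmtMain : Prop := ∀ (P α I : Type) [Group P] [Countable P] [Countable α] [Countable I] (H : I → Type)
  [∀ i, Group (H i)] [∀ i, Finite (H i)] (F : IsFree P α I H) (R : Subgroup P) [R.Normal] (n : ℕ),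
  (∀ i g, F.h i g ∈ R → g = 1) → 0 < n → (∀ i, Nat.card (H i) ∣ n) →
  ∀ K : Subfield ℂ, WeakAtiyah.RanksIn K (P ⧸ ⁅R, R⁆) n

end Pool.GA
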