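import Mathlib

/-!
# Groups of lifts to the maximal abelian cover of a graph

An oriented graph is given by its vertex set `V`, its edge set `E` and the maps `s t : E → V` (start and end of an
edge). The boundary of a chain `c` in `ℤ[E]` is `c.mapDomain t - c.mapDomain s` in `ℤ[V]`.
-/

set_option autoImplicit false

namespace Pool.GA

/-- `GrData G Q V E`: the group `Q` acts on the oriented graph `(V, E, s, t)` (`s`, `t` equivariant), and `G` is a
group of pairs (chain `c g` in `ℤ[E]`, element `q g` of `Q`) such that the boundary of `c g` is `q g • v - v`, `v` a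
base vertex, with the multiplication `(c, q) (c', q') = (c + q c', q q')` of `ℤ[E] ⋊ Q`. For a connected graph the
group of all such pairs is the group of the lifts of the automorphisms in `Q` to the maximal abelian cover. -/
structure GrData (G Q V E : Type) [Group G] [Group Q] [MulAction Q V] [MulAction Q E] where
  s : E → V
  t : E → V
  s_smul : ∀ (y : Q) e, s (y • e) = y • s e
  t_smul : ∀ (y : Q) e, t (y • e) = y • t e
  v : V
  q : G →* Q
  c : G → (E →₀ ℤ)
  mul : ∀ g h, c (g * h) = c g + (c h).mapDomain (q g • ·)
  inj : ∀ g, q g = 1 → c g = 0 → g = 1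
  bd : ∀ g, (c g).mapDomain t - (c g).mapDomain s = Finsupp.single (q g • v) 1 - Finsupp.single v 1

end Pool.GA
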