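import Pool.Agent.GA.GDefs
import Pool.Agent.GA.GrData

/-!
# MP_585e9a_al, project FRR: graph form and tree form, definitions and row statements
-/

set_option autoImplicit false

namespace Pool.GA

/-- GRAPH: ranks over groups of lifts to the maximal abelian cover of a graph -/
def StmtGraph : Prop := ∀ (G Q V E : Type) [Group G] [Group Q] [Countable Q] [Countable E] [MulAction Q V]
  [MulAction Q E] (_ : GrData G Q V E) (n : ℕ), 0 < n → (∀ v : V, Nat.card (MulAction.stabilizer Q v) ∣ n) →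
  ∀ K : Subfield ℂ, WeakAtiyah.RanksIn K G n

/-- the orbits of `R` -/
def Orb {P : Type} [Group P] (R : Subgroup P) (X : Type) [MulAction P X] : Type :=
  Quotient (MulAction.orbitRel R X)

/-- the orbit of `x` -/
def Orb.mk {P : Type} [Group P] (R : Subgroup P) {X : Type} [MulAction P X] (x : X) : Orb R X :=
  Quotient.mk (MulAction.orbitRel R X) x

/-- QS: `P / R` acts on the orbits of `R` -/
def StmtQS : Prop := ∀ (P X : Type) [Group P] [MulAction P X] (R : Subgroup P) [R.Normal],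
  (∀ x y : X, Orb.mk R x = Orb.mk R y ↔ ∃ r ∈ R, r • y = x) ∧
  ∃ i : MulAction (P ⧸ R) (Orb R X), (∀ (g : P) (x : X), (QuotientGroup.mk g : P ⧸ R) • Orb.mk R x = Orb.mk R (g • x)) ∧
    ∀ x : X, (∀ r ∈ R, r • x = x → r = 1) →
      Nat.card (MulAction.stabilizer (P ⧸ R) (Orb.mk R x)) = Nat.card (MulAction.stabilizer P x)

/-- CH: chains in a tree; `o` is the set of positively oriented darts -/
def StmtCh : Prop := ∀ (V : Type) (T : SimpleGraph V), T.IsTree → ∀ (o : Set T.Dart), (∀ d, d ∈ o ↔ d.symm ∉ o) →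
  ∀ u v : V, ∃! c : o →₀ ℤ, c.mapDomain (fun d => d.1.snd) - c.mapDomain (fun d => d.1.fst) =
    Finsupp.single v 1 - Finsupp.single u 1

/-- ORI: an invariant orientation -/
def StmtOri : Prop := ∀ (P V : Type) [Group P] [MulAction P V] (T : SimpleGraph V)
  (_ : ∀ (g : P) v w, T.Adj v w → T.Adj (g • v) (g • w)), (∀ (g : P) v w, T.Adj v w → g • v = w → g • w = v → False) →
  ∃ o : Set T.Dart, (∀ d, d ∈ o ↔ d.symm ∉ o) ∧
    ∀ (g : P) (d d' : T.Dart), d'.fst = g • d.fst → d'.snd = g • d.snd → d ∈ o → d' ∈ o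

/-- TREE: the data of `P / [R, R]` for a group `P` acting on a tree -/
def StmtTree : Prop := ∀ (P V : Type) [Group P] [MulAction P V] (T : SimpleGraph V), T.IsTree →
  (∀ (g : P) v w, T.Adj v w → T.Adj (g • v) (g • w)) → (∀ (g : P) v w, T.Adj v w → g • v = w → g • w = v → False) →
  ∀ (R : Subgroup P) [R.Normal], (∀ r ∈ R, ∀ v : V, r • v = v → r = 1) →
  ∃ (E' : Type) (_ : MulAction (P ⧸ R) (Orb R V)) (_ : MulAction (P ⧸ R) E')
    (_ : GrData (P ⧸ ⁅R, R⁆) (P ⧸ R) (Orb R V) E'), (Countable V → Countable E') ∧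
    ∀ v : V, Nat.card (MulAction.stabilizer (P ⧸ R) (Orb.mk R v)) = Nat.card (MulAction.stabilizer P v)

/-- final form: a group acting on a tree with finite stabilisers and a freely acting normal subgroup -/
def StmtTreeMain : Prop := ∀ (P V : Type) [Group P] [Countable P] [Countable V] [MulAction P V] (T : SimpleGraph V),
  T.IsTree → (∀ (g : P) v w, T.Adj v w → T.Adj (g • v) (g • w)) →
  (∀ (g : P) v w, T.Adj v w → g • v = w → g • w = v → False) →
  ∀ n : ℕ, 0 < n → (∀ v : V, Nat.card (MulAction.stabilizer P v) ∣ n) →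
  ∀ (R : Subgroup P) [R.Normal], (∀ r ∈ R, ∀ v : V, r • v = v → r = 1) →
  ∀ K : Subfield ℂ, WeakAtiyah.RanksIn K (P ⧸ ⁅R, R⁆) n

end Pool.GA
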