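import Pool.Agent.GA.Rel
import Pool.Agent.GA.GrDefs

/-!
# MP_585e9a_al, project FRR, row GRAPH: groups of lifts to the maximal abelian cover of a graph
-/

set_option autoImplicit false

namespace Pool.GA
namespace Gr

section Act
variable {Q X : Type} [Group Q] [MulAction Q X]

theorem fin_trans (x y : X) (h : Finite (MulAction.stabilizer Q x)) : {g : Q | g • x = y}.Finite := by
  by_cases h1 : ∃ g0 : Q, g0 • x = y
  · obtain ⟨g0, hg0⟩ := h1
    refine ((Set.toFinite ((MulAction.stabilizer Q x : Subgroup Q) : Set Q)).image (g0 * ·)).subset fun g hg => ?_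
    refine ⟨g0⁻¹ * g, ?_, by simp⟩
    show (g0⁻¹ * g) • x = x
    rw [mul_smul, show g • x = y from hg, ← hg0, inv_smul_smul]
  · refine (Set.finite_empty).subset fun g hg => h1 ⟨g, hg⟩

/-- the number of group elements moving `x` to `y` -/
theorem card_trans (x y : X) (g0 : Q) (h : g0 • x = y) :
    Nat.card {g : Q | g • x = y} = Nat.card (MulAction.stabilizer Q y) := by
  subst h
  refine Nat.card_congr ⟨fun g => ⟨g.1 * g0⁻¹, ?_⟩, fun g => ⟨g.1 * g0, ?_⟩, fun g => by simp, fun g => by simp⟩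
  · show (g.1 * g0⁻¹) • g0 • x = g0 • x
    rw [mul_smul, inv_smul_smul]
    exact g.2
  · show (g.1 * g0) • x = g0 • x
    rw [mul_smul]
    exact g.2

theorem card_trans' (x y : X) (g0 : Q) (h : g0 • x = y) :
    Nat.card {g : Q | g • x = y} = Nat.card (MulAction.stabilizer Q x) := by
  subst h
  refine Nat.card_congr ⟨fun g => ⟨g0⁻¹ * g.1, ?_⟩, fun g => ⟨g0 * g.1, ?_⟩, fun g => by simp, fun g => by simp⟩
  · show (g0⁻¹ * g.1) • x = x
    rw [mul_smul, show g.1 • x = g0 • x from g.2, inv_smul_smul]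
  · show (g0 * g.1) • x = g0 • x
    rw [mul_smul, show g.1 • x = x from g.2]

end Act

section
variable {G Q V E : Type} [Group G] [Group Q] [MulAction Q V] [MulAction Q E] (D : GrData G Q V E)
  (hfin : ∀ v : V, Finite (MulAction.stabilizer Q v))

include D hfin in
theorem fin_e (e : E) : Finite (MulAction.stabilizer Q e) := by
  have := hfin (D.s e)
  have hle : MulAction.stabilizer Q e ≤ MulAction.stabilizer Q (D.s e) := by
    intro g hg
    show g • D.s e = D.s e
    rw [← D.s_smul, show g • e = e from hg]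
  exact Finite.of_injective (Subgroup.inclusion hle) (Subgroup.inclusion_injective hle)

/-- edge orbits -/
abbrev EO (Q E : Type) [Group Q] [MulAction Q E] : Type := MulAction.orbitRel.Quotient Q E

/-- the class of an edge -/
def cl {Q E : Type} [Group Q] [MulAction Q E] (e : E) : EO Q E := Quotient.mk (MulAction.orbitRel Q E) e

/-- a representative -/
noncomputable def rep {Q E : Type} [Group Q] [MulAction Q E] (a : EO Q E) : E := Quotient.out a

theorem cl_rep (a : EO Q E) : cl (rep a) = a := Quotient.out_eq a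

theorem cl_eq {e e' : E} : (cl e : EO Q E) = cl e' ↔ ∃ x : Q, x • e' = e := by
  unfold cl
  rw [Quotient.eq]
  exact Iff.rfl

theorem cl_smul (x : Q) (e : E) : (cl (x • e) : EO Q E) = cl e := cl_eq.2 ⟨x, rfl⟩

theorem exists_sel (e : E) : ∃ x : Q, x • rep (cl e : EO Q E) = e := cl_eq.1 (cl_rep _).symm

/-- the choice of a group element moving the representative to `e` -/
noncomputable def sel (Q : Type) {E : Type} [Group Q] [MulAction Q E] (e : E) : Q := (exists_sel (Q := Q) e).choose

theorem sel_smul (e : E) : sel Q e • rep (cl e : EO Q E) = e := (exists_sel (Q := Q) e).choose_spec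

include D hfin in
/-- the pulled back chain has finite support -/
theorem fin_pull (c : E →₀ ℤ) : (Function.support fun p : Q × EO Q E => c (p.1 • rep p.2)).Finite := by
  classical
  have h1 : (⋃ e ∈ c.support, (fun x : Q => (x, (cl e : EO Q E))) '' {x : Q | x • rep (cl e : EO Q E) = e}).Finite := by
    refine Set.Finite.biUnion c.support.finite_toSet fun e _ => Set.Finite.image _ ?_
    exact fin_trans _ _ (fin_e D hfin _)
  refine h1.subset fun p hp => ?_
  have hc : (cl (p.1 • rep p.2) : EO Q E) = p.2 := by rw [cl_smul, cl_rep]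
  simp only [Set.mem_iUnion]
  refine ⟨p.1 • rep p.2, Finsupp.mem_support_iff.2 hp, p.1, ?_, ?_⟩
  · show p.1 • rep (cl (p.1 • rep p.2) : EO Q E) = p.1 • rep p.2
    rw [hc]
  · rw [hc]

/-- the data on the free set `Q × (edge orbits)` -/
noncomputable def toG : GData G Q (EO Q E) where
  q := D.q
  c g := Finsupp.ofSupportFinite (fun p => D.c g (p.1 • rep p.2)) (fin_pull D hfin (D.c g))
  mul g h := by
    ext p
    show D.c (g * h) (p.1 • rep p.2) = D.c g (p.1 • rep p.2) + _
    rw [D.mul, Finsupp.add_apply]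
    congr 1
    have h1 : D.q g • ((D.q g)⁻¹ • (p.1 • rep p.2)) = p.1 • rep p.2 := smul_inv_smul _ _
    have h2 : D.q g * ((D.q g)⁻¹ * p.1) = p.1 := mul_inv_cancel_left _ _
    conv_lhs => rw [← h1]
    rw [Finsupp.mapDomain_apply (MulAction.injective _)]
    unfold tr
    conv_rhs => rw [show p = ((D.q g) * ((D.q g)⁻¹ * p.1), p.2) from Prod.ext h2.symm rfl]
    rw [show ((D.q g) * ((D.q g)⁻¹ * p.1), p.2) = (fun r : Q × EO Q E => (D.q g * r.1, r.2)) ((D.q g)⁻¹ * p.1, p.2) from rfl,
      Finsupp.mapDomain_apply]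
    · show _ = D.c h (((D.q g)⁻¹ * p.1) • rep p.2)
      rw [mul_smul]
    · rintro ⟨x, a⟩ ⟨y, b⟩ hxy
      simp only [Prod.mk.injEq, mul_right_inj] at hxy
      exact Prod.ext hxy.1 hxy.2
  inj g h1 h2 := by
    refine D.inj g h1 ?_
    ext e
    have h3 := DFunLike.congr_fun h2 (sel Q e, cl e)
    have h4 : D.c g (sel Q e • rep (cl e : EO Q E)) = 0 := h3
    rwa [sel_smul] at h4

theorem toG_c (g : G) (p : Q × EO Q E) : (toG D hfin).c g p = D.c g (p.1 • rep p.2) := rfl

theorem tr_toG (y : Q) (g : G) (e : E) : tr y ((toG D hfin).c g) (sel Q e, cl e) = D.c g (y⁻¹ • e) := by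
  unfold tr
  have h2 : y * (y⁻¹ * sel Q e) = sel Q e := mul_inv_cancel_left _ _
  rw [show (sel Q e, (cl e : EO Q E)) = (fun r : Q × EO Q E => (y * r.1, r.2)) (y⁻¹ * sel Q e, cl e) from
    Prod.ext h2.symm rfl, Finsupp.mapDomain_apply]
  · rw [toG_c]
    show D.c g ((y⁻¹ * sel Q e) • rep (cl e : EO Q E)) = _
    rw [mul_smul, sel_smul]
  · rintro ⟨x, a⟩ ⟨y, b⟩ hxy
    simp only [Prod.mk.injEq, mul_right_inj] at hxy
    exact Prod.ext hxy.1 hxy.2


section OF
variable (f : E → V) (hf : ∀ (y : Q) e, f (y • e) = y • f e)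

open Classical in
/-- edges in the orbit `a` with end `v` -/
noncomputable def OF (v : V) (a : EO Q E) : Finset E :=
  (fin_trans (f (rep a)) v (hfin _)).toFinset.image (· • rep a)

include hf in
theorem mem_OF (v : V) (a : EO Q E) (e : E) : e ∈ OF hfin f v a ↔ (cl e : EO Q E) = a ∧ f e = v := by
  classical
  unfold OF
  rw [Finset.mem_image]
  constructor
  · rintro ⟨x, hx, rfl⟩
    rw [Set.Finite.mem_toFinset] at hx
    exact ⟨by rw [cl_smul, cl_rep], by rw [hf]; exact hx⟩
  · rintro ⟨rfl, rfl⟩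
    refine ⟨sel Q e, ?_, sel_smul e⟩
    rw [Set.Finite.mem_toFinset]
    show sel Q e • f (rep (cl e : EO Q E)) = f e
    rw [← hf, sel_smul]

include D hf in
theorem card_OF (v : V) (a : EO Q E) : (OF hfin f v a).card * Nat.card (MulAction.stabilizer Q (rep a)) =
    Nat.card {x : Q | x • f (rep a) = v} := by
  classical
  have hF := fin_trans (f (rep a)) v (hfin (f (rep a)))
  have h1 : Nat.card {x : Q | x • f (rep a) = v} = hF.toFinset.card := by
    rw [Nat.card_coe_set_eq, Set.ncard_eq_toFinset_card _ hF]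
  rw [h1, Finset.card_eq_sum_card_fiberwise (f := fun x : Q => x • rep a) (t := OF hfin f v a), Finset.sum_const_nat]
  · intro e he
    have hstab := fin_e D hfin (rep a)
    obtain ⟨hc, -⟩ := (mem_OF hfin f hf v a e).1 he
    have h2 : ∃ g0 : Q, g0 • rep a = e := by subst hc; exact ⟨sel Q e, sel_smul e⟩
    obtain ⟨g0, hg0⟩ := h2
    have hF2 := fin_trans (rep a) e hstab
    rw [← card_trans' (rep a) e g0 hg0, Nat.card_coe_set_eq, Set.ncard_eq_toFinset_card _ hF2]
    congr 1
    ext x
    rw [Finset.mem_filter, Set.Finite.mem_toFinset, Set.Finite.mem_toFinset]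
    constructor
    · rintro ⟨-, h⟩; exact h
    · intro h
      refine ⟨?_, h⟩
      show x • f (rep a) = v
      rw [← hf, show x • rep a = e from h]
      exact ((mem_OF hfin f hf v a e).1 he).2
  · intro x hx
    rw [Finset.mem_coe, Set.Finite.mem_toFinset] at hx
    rw [Finset.mem_coe, mem_OF hfin f hf]
    exact ⟨by rw [cl_smul, cl_rep], by rw [hf]; exact hx⟩

open Classical in
/-- the weight of a vertex -/
noncomputable def wf (La : Finset (EO Q E)) (v : V) : Q × EO Q E →₀ ℤ :=
  ∑ a ∈ La, ∑ e ∈ OF hfin f v a, Finsupp.single (sel Q e, cl e) 1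

open Classical in
theorem pair_sum {X Y : Type} (F : Finset Y) (h : Y → X) (c : X →₀ ℤ) :
    pair (∑ e ∈ F, Finsupp.single (h e) 1) c = ∑ e ∈ F, c (h e) := by
  set ψ : (X →₀ ℤ) →+ ℤ := Finsupp.liftAddHom fun e => AddMonoidHom.mulRight (c e) with hψ
  have h1 : ∀ w : X →₀ ℤ, pair w c = ψ w := by
    intro w
    rw [pair_eq w c w.support subset_rfl, hψ, Finsupp.liftAddHom_apply]
    rfl
  rw [h1, map_sum]
  refine Finset.sum_congr rfl fun e _ => ?_
  rw [hψ, Finsupp.liftAddHom_apply_single]
  simp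

open Classical in
theorem wf_eq (La : Finset (EO Q E)) (v : V) : wf hfin f La v =
    ∑ p ∈ La.sigma (OF hfin f v), Finsupp.single (sel Q p.2, cl p.2) 1 := by
  unfold wf
  rw [Finset.sum_sigma]

open Classical in
include hf in
theorem pair_wf (La : Finset (EO Q E)) (v : V) (y : Q) (g : G) (hg : ∀ e ∈ (D.c g).support, (cl e : EO Q E) ∈ La) :
    pair (wf hfin f La v) (tr y ((toG D hfin).c g)) = (D.c g).mapDomain f (y⁻¹ • v) := by
  rw [wf_eq, pair_sum]
  simp only [tr_toG]
  rw [Finset.sum_sigma]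
  show ∑ a ∈ La, ∑ e ∈ OF hfin f v a, (D.c g) (y⁻¹ • e) = _
  rw [← Finset.sum_biUnion]
  swap
  · intro a _ b _ hab
    refine Finset.disjoint_left.2 fun e he he' => hab ?_
    rw [← ((mem_OF hfin f hf v a e).1 he).1, ((mem_OF hfin f hf v b e).1 he').1]
  have h1 : (D.c g).mapDomain f (y⁻¹ • v) = ∑ e ∈ (D.c g).support with f e = y⁻¹ • v, D.c g e := by
    rw [Finsupp.mapDomain, Finsupp.sum_apply, Finsupp.sum, Finset.sum_filter]
    refine Finset.sum_congr rfl fun e _ => ?_
    rw [Finsupp.single_apply]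
  rw [h1]
  symm
  have h2 : ((D.c g).support.filter fun e => f e = y⁻¹ • v).image (y • ·) ⊆ La.biUnion (OF hfin f v) := by
    intro e he
    obtain ⟨e', he', rfl⟩ := Finset.mem_image.1 he
    rw [Finset.mem_filter] at he'
    rw [Finset.mem_biUnion]
    refine ⟨cl e', hg e' he'.1, ?_⟩
    rw [mem_OF hfin f hf]
    exact ⟨cl_smul _ _, by rw [hf, he'.2, smul_inv_smul]⟩
  rw [← Finset.sum_subset h2]
  · rw [Finset.sum_image]
    · refine Finset.sum_congr rfl fun e _ => ?_
      rw [inv_smul_smul]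
    · intro a _ b _ hab
      exact MulAction.injective y hab
  · intro e he he'
    by_contra hne
    apply he'
    rw [Finset.mem_image]
    refine ⟨y⁻¹ • e, ?_, smul_inv_smul _ _⟩
    rw [Finset.mem_filter, Finsupp.mem_support_iff]
    refine ⟨hne, ?_⟩
    obtain ⟨a, _, ha⟩ := Finset.mem_biUnion.1 he
    rw [hf, ((mem_OF hfin f hf v a e).1 ha).2]

end OF
end

open Classical in
/-- elements moving `u` to the representative of an orbit -/
theorem card_rep {Q V : Type} [Group Q] [MulAction Q V] (u : V) (b : EO Q V) :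
    Nat.card {x : Q | x • u = rep b} = if (cl u : EO Q V) = b then Nat.card (MulAction.stabilizer Q (rep b)) else 0 := by
  split_ifs with h
  · have h1 : ∃ g0 : Q, g0 • u = rep b := cl_eq.1 (by rw [cl_rep, h])
    obtain ⟨g0, hg0⟩ := h1
    exact card_trans u (rep b) g0 hg0
  · rw [Nat.card_eq_zero]
    left
    refine ⟨fun x => h ?_⟩
    have := x.2
    rw [← cl_smul x.1 u, show x.1 • u = rep b from x.2, cl_rep]

end Gr

open Gr Classical in
theorem graph : StmtGraph := by
  intro G Q V E _ _ _ _ _ _ D n hn hdvd K ι κ _ _ M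
  have hpos : ∀ v : V, Nat.card (MulAction.stabilizer Q v) ≠ 0 := fun v h => by
    have := hdvd v
    rw [h, zero_dvd_iff] at this
    omega
  have hfin : ∀ v : V, Finite (MulAction.stabilizer Q v) := fun v => Nat.finite_of_card_ne_zero (hpos v)
  have hEO : Countable (EO Q E) := (Quotient.mk_surjective (s := MulAction.orbitRel Q E)).countable
  obtain ⟨γ, hγ⟩ := gauge_rel K (toG D hfin) M
  set La : Finset (EO Q E) := Finset.univ.biUnion fun i : ι => Finset.univ.biUnion fun j : κ =>
    (M i j).coeff.support.biUnion fun g => (D.c g).support.image cl with hLa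
  have hlab : ∀ i j, ∀ g ∈ (M i j).coeff.support, ∀ e ∈ (D.c g).support, (cl e : EO Q E) ∈ La := by
    intro i j g hg e he
    simp only [hLa, Finset.mem_biUnion, Finset.mem_univ, true_and, Finset.mem_image]
    exact ⟨i, j, g, hg, e, he, rfl⟩
  -- the functional
  set φ : (Q × EO Q E →₀ ℤ) →+ ℝ := Finsupp.liftAddHom fun e =>
    (AddMonoidHom.mulRight (γ e.2)).comp (Int.castAddHom ℝ) with hφ
  have hφa : ∀ w, φ w = w.sum fun e k => (k : ℝ) * γ e.2 := by
    intro w
    rw [hφ, Finsupp.liftAddHom_apply]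
    rfl
  have hφw : ∀ (f : E → V) (hf : ∀ (y : Q) e, f (y • e) = y • f e) (v : V),
      φ (wf hfin f La v) = ∑ a ∈ La, ((OF hfin f v a).card : ℝ) * γ a := by
    intro f hf v
    unfold wf
    rw [map_sum]
    refine Finset.sum_congr rfl fun a _ => ?_
    rw [map_sum, ← nsmul_eq_mul, ← Finset.sum_const]
    refine Finset.sum_congr rfl fun e he => ?_
    rw [hφ, Finsupp.liftAddHom_apply_single]
    have h1 : (cl e : EO Q E) = a := ((mem_OF hfin f hf v a e).1 he).1
    simp [h1]
  have hv : ∀ v : V, ∃ m : ℤ, (Nat.card {x : Q | x • D.v = v} : ℝ) * WeakAtiyah.rank M +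
      ∑ a ∈ La, (((OF hfin D.s v a).card : ℝ) - (OF hfin D.t v a).card) * γ a = m := by
    intro v
    have hF := fin_trans D.v v (hfin _)
    have hmemB : ∀ x : Q, x ∈ hF.toFinset ↔ x • D.v = v := fun x => by
      rw [Set.Finite.mem_toFinset]; exact Iff.rfl
    obtain ⟨m, hm⟩ := hγ (wf hfin D.s La v - wf hfin D.t La v) hF.toFinset fun y i j g hg => by
      have hp : ∀ w w' c : Q × EO Q E →₀ ℤ, pair (w - w') c = pair w c - pair w' c := by
        intro w w' c
        unfold pair
        rw [Finsupp.sum, Finsupp.sum, Finsupp.sum, ← Finset.sum_sub_distrib]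
        refine Finset.sum_congr rfl fun e _ => ?_
        rw [Finsupp.sub_apply, sub_mul]
      rw [hp, pair_wf D hfin D.s D.s_smul La v y g (hlab i j g hg), pair_wf D hfin D.t D.t_smul La v y g (hlab i j g hg)]
      have h1 := DFunLike.congr_fun (D.bd g) (y⁻¹ • v)
      rw [Finsupp.sub_apply, Finsupp.sub_apply, Finsupp.single_apply, Finsupp.single_apply] at h1
      have h2 : (y ∈ hF.toFinset) ↔ D.v = y⁻¹ • v := by
        rw [hmemB]
        constructor
        · rintro rfl; rw [inv_smul_smul]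
        · intro h; rw [h, smul_inv_smul]
      have h3 : (y * (toG D hfin).q g ∈ hF.toFinset) ↔ D.q g • D.v = y⁻¹ • v := by
        rw [hmemB, mul_smul]
        show y • D.q g • D.v = v ↔ _
        constructor
        · rintro rfl; rw [inv_smul_smul]
        · intro h; rw [h, smul_inv_smul]
      simp only [h2, h3]
      linarith
    refine ⟨m, ?_⟩
    rw [← hφa, map_sub, hφw D.s D.s_smul, hφw D.t D.t_smul] at hm
    rw [← hm, Nat.card_coe_set_eq, Set.ncard_eq_toFinset_card _ hF, ← Finset.sum_sub_distrib]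
    congr 1
    refine Finset.sum_congr rfl fun a _ => ?_
    rw [sub_mul]
  choose m hm using hv
  set B0 : Finset (EO Q V) := La.image (fun a => cl (D.s (rep a))) ∪ La.image (fun a => cl (D.t (rep a))) ∪ {cl D.v}
    with hB0
  set h : EO Q V → ℝ := fun b => (Nat.card (MulAction.stabilizer Q (rep b)) : ℝ) with hh
  have hh0 : ∀ b, h b ≠ 0 := fun b => Nat.cast_ne_zero.2 (hpos _)
  set k : EO Q E → ℝ := fun a => (Nat.card (MulAction.stabilizer Q (rep a)) : ℝ) with hk
  have hk0 : ∀ a, k a ≠ 0 := fun a => by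
    have := fin_e D hfin (rep a)
    exact Nat.cast_ne_zero.2 Nat.card_pos.ne'
  have hcard : ∀ (f : E → V) (hf : ∀ (y : Q) e, f (y • e) = y • f e) (b : EO Q V) (a : EO Q E),
      ((OF hfin f (rep b) a).card : ℝ) / h b = (if (cl (f (rep a)) : EO Q V) = b then 1 else 0) * (k a)⁻¹ := by
    intro f hf b a
    have h1 := card_OF D hfin f hf (rep b) a
    rw [card_rep] at h1
    have h2 : ((OF hfin f (rep b) a).card : ℝ) * k a = if (cl (f (rep a)) : EO Q V) = b then h b else 0 := by
      rw [hk, hh]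
      simp only
      rw [← Nat.cast_mul, h1]
      split_ifs <;> simp
    rw [div_eq_iff (hh0 b), eq_comm, ← mul_right_inj' (hk0 a), ← mul_assoc, ← mul_assoc]
    rw [mul_comm (k a) (ite _ _ _), mul_assoc _ (k a), mul_inv_cancel₀ (hk0 a), mul_one, mul_comm (k a), h2]
    split_ifs <;> simp
  have key : WeakAtiyah.rank M = ∑ b ∈ B0, (m (rep b) : ℝ) / h b := by
    have h1 : ∀ b ∈ B0, (m (rep b) : ℝ) / h b = (if (cl D.v : EO Q V) = b then WeakAtiyah.rank M else 0) +
        ∑ a ∈ La, ((if (cl (D.s (rep a)) : EO Q V) = b then (k a)⁻¹ * γ a else 0) -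
          (if (cl (D.t (rep a)) : EO Q V) = b then (k a)⁻¹ * γ a else 0)) := by
      intro b _
      rw [← hm, add_div, Finset.sum_div]
      congr 1
      · rw [card_rep, mul_comm, mul_div_assoc]
        split_ifs with hb
        · rw [show ((Nat.card (MulAction.stabilizer Q (rep b)) : ℕ) : ℝ) = h b from rfl, div_self (hh0 b), mul_one]
        · simp
      · refine Finset.sum_congr rfl fun a _ => ?_
        rw [mul_comm, mul_div_assoc, sub_div, hcard D.s D.s_smul, hcard D.t D.t_smul]
        split_ifs <;> ring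
    rw [Finset.sum_congr rfl h1, Finset.sum_add_distrib, Finset.sum_ite_eq, if_pos, Finset.sum_comm]
    · have h2 : ∀ a ∈ La, ∑ b ∈ B0, ((if (cl (D.s (rep a)) : EO Q V) = b then (k a)⁻¹ * γ a else 0) -
          (if (cl (D.t (rep a)) : EO Q V) = b then (k a)⁻¹ * γ a else 0)) = 0 := by
        intro a ha
        rw [Finset.sum_sub_distrib, Finset.sum_ite_eq, Finset.sum_ite_eq, if_pos, if_pos, sub_self]
        · simp only [hB0, Finset.mem_union, Finset.mem_image, Finset.mem_singleton]
          exact Or.inl (Or.inr ⟨a, ha, rfl⟩)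
        · simp only [hB0, Finset.mem_union, Finset.mem_image, Finset.mem_singleton]
          exact Or.inl (Or.inl ⟨a, ha, rfl⟩)
      rw [Finset.sum_congr rfl h2, Finset.sum_const_zero, add_zero]
    · simp [hB0]
  have hdv : ∀ v : V, ∃ c : ℕ, n = Nat.card (MulAction.stabilizer Q v) * c := fun v => hdvd v
  choose c hc using hdv
  refine ⟨∑ b ∈ B0, m (rep b) * c (rep b), ?_⟩
  have hn' : (n : ℝ) ≠ 0 := by exact_mod_cast hn.ne'
  rw [eq_div_iff hn', key, Finset.sum_mul]
  push_cast
  refine Finset.sum_congr rfl fun b _ => ?_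
  have h1 : (n : ℝ) = h b * c (rep b) := by
    rw [hh]
    simp only
    rw [← Nat.cast_mul, ← hc]
  rw [h1]
  field_simp [hh0 b]

end Pool.GA
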