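import Pool.Agent.GA.Stmts

/-!
# MP_585e9a_FRR, row LOC, part 1: slices of polynomials
-/

set_option autoImplicit false

open MeasureTheory Complex Filter
open scoped ENNReal Topology

namespace Pool.GA

section Slice
variable {E : Type}

open Classical in
/-- the polynomial in the variable `e`, all other variables fixed -/
noncomputable def slc (z : E → ℂ) (e : E) : MvPolynomial E ℂ →ₐ[ℂ] Polynomial ℂ :=
  MvPolynomial.aeval fun e' => if e' = e then Polynomial.X else Polynomial.C (z e')

open Classical in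
theorem eval_slc (z : E → ℂ) (e : E) (u : ℂ) (s : MvPolynomial E ℂ) :
    (slc z e s).eval u = MvPolynomial.eval (Function.update z e u) s := by
  induction s using MvPolynomial.induction_on with
  | C a => simp [slc]
  | add p q hp hq => simp [hp, hq]
  | mul_X p n hp =>
    rw [map_mul, Polynomial.eval_mul, hp, map_mul]
    congr 1
    simp only [slc, MvPolynomial.aeval_X, MvPolynomial.eval_X]
    by_cases h : n = e
    · subst h; simp
    · simp [h]

theorem derivative_slc (z : E → ℂ) (e : E) (s : MvPolynomial E ℂ) :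
    Polynomial.derivative (slc z e s) = slc z e (MvPolynomial.pderiv e s) := by
  classical
  induction s using MvPolynomial.induction_on with
  | C a => simp [slc]
  | add p q hp hq => simp [hp, hq]
  | mul_X p n hp =>
    rw [map_mul, Polynomial.derivative_mul, hp, Derivation.leibniz]
    by_cases h : n = e
    · subst h
      simp [slc]
      ring
    · simp [slc, MvPolynomial.pderiv_X_of_ne h, h]
      ring

theorem natDegree_slc (z : E → ℂ) (e : E) (s : MvPolynomial E ℂ) :
    (slc z e s).natDegree ≤ s.degreeOf e := by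
  classical
  rw [s.as_sum, map_sum]
  refine Polynomial.natDegree_sum_le_of_forall_le _ _ fun d hd => ?_
  rw [← s.as_sum]
  have h1 : d e ≤ s.degreeOf e := MvPolynomial.monomial_le_degreeOf e hd
  refine le_trans ?_ h1
  rw [MvPolynomial.monomial_eq, map_mul]
  refine Polynomial.natDegree_mul_le.trans ?_
  have h2 : (slc z e (MvPolynomial.C (s.coeff d))).natDegree = 0 := by simp [slc]
  rw [h2, zero_add, Finsupp.prod, map_prod]
  refine (Polynomial.natDegree_prod_le _ _).trans ?_
  have h3 : ∀ i ∈ d.support, (slc z e (MvPolynomial.X i ^ d i)).natDegree ≤ if i = e then d e else 0 := by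
    intro i hi
    rw [map_pow]
    by_cases h : i = e
    · subst h; simp [slc]
    · refine (Polynomial.natDegree_pow_le).trans ?_
      simp [slc, h]
  refine (Finset.sum_le_sum h3).trans ?_
  simp only [Finset.sum_ite_eq']
  split_ifs <;> simp

/-- evaluation does not see variables outside of `vars` -/
theorem eval_congr {s : MvPolynomial E ℂ} {z z' : E → ℂ} (h : ∀ e ∈ s.vars, z e = z' e) :
    MvPolynomial.eval z s = MvPolynomial.eval z' s :=
  MvPolynomial.eval₂Hom_congr' rfl (fun e he _ => h e he) rfl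

theorem degreeOf_mul' {p q : MvPolynomial E ℂ} (e : E) (hp : p ≠ 0) (hq : q ≠ 0) :
    (p * q).degreeOf e = p.degreeOf e + q.degreeOf e := by
  exact MvPolynomial.degreeOf_mul_eq hp hq

theorem mem_vars_iff {p : MvPolynomial E ℂ} (e : E) : e ∈ p.vars ↔ p.degreeOf e ≠ 0 := by
  classical
  rw [MvPolynomial.vars_def, MvPolynomial.degreeOf_def, Multiset.mem_toFinset, Ne,
    Multiset.count_eq_zero, not_not]

theorem vars_left {p q : MvPolynomial E ℂ} (hp : p ≠ 0) (hq : q ≠ 0) : p.vars ⊆ (p * q).vars := by
  intro e he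
  rw [mem_vars_iff] at he ⊢
  rw [degreeOf_mul' e hp hq]; omega

theorem vars_right {p q : MvPolynomial E ℂ} (hp : p ≠ 0) (hq : q ≠ 0) : q.vars ⊆ (p * q).vars := by
  rw [mul_comm]; exact vars_left hq hp

theorem vars_det {ρ : ℕ} (T : Matrix (Fin ρ) (Fin ρ) (MvPolynomial E ℂ)) (F : Finset E)
    (h : ∀ i j, (T i j).vars ⊆ F) : T.det.vars ⊆ F := by
  classical
  rw [Matrix.det_apply]
  refine (MvPolynomial.vars_sum_subset _ _).trans ?_
  refine Finset.biUnion_subset.2 fun σ _ => ?_
  have h1 : (Equiv.Perm.sign σ • ∏ i, T (σ i) i) =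
      MvPolynomial.C (((Equiv.Perm.sign σ : ℤ) : ℂ)) * ∏ i, T (σ i) i := by
    rcases Int.units_eq_one_or (Equiv.Perm.sign σ) with h | h <;> simp [h]
  rw [h1]
  refine (MvPolynomial.vars_mul _ _).trans ?_
  refine Finset.union_subset (by rw [MvPolynomial.vars_C]; exact Finset.empty_subset _) ?_
  refine (MvPolynomial.vars_prod _).trans ?_
  exact Finset.biUnion_subset.2 fun i _ => h _ _

theorem degreeOf_det {ρ : ℕ} (T : Matrix (Fin ρ) (Fin ρ) (MvPolynomial E ℂ)) (e : E) (N : ℕ)
    (h : ∀ i j, (T i j).degreeOf e ≤ N) : T.det.degreeOf e ≤ ρ * N := by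
  classical
  rw [Matrix.det_apply]
  refine (MvPolynomial.degreeOf_sum_le _ _ _).trans ?_
  refine Finset.sup_le fun σ _ => ?_
  have h1 : (Equiv.Perm.sign σ • ∏ i, T (σ i) i) =
      MvPolynomial.C (((Equiv.Perm.sign σ : ℤ) : ℂ)) * ∏ i, T (σ i) i := by
    rcases Int.units_eq_one_or (Equiv.Perm.sign σ) with h | h <;> simp [h]
  rw [h1]
  refine (MvPolynomial.degreeOf_mul_le _ _ _).trans ?_
  rw [MvPolynomial.degreeOf_C, zero_add]
  refine (MvPolynomial.degreeOf_prod_le _ _ _).trans ?_
  refine (Finset.sum_le_sum fun i _ => h (σ i) i).trans ?_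
  simp

end Slice

end Pool.GA
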