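import Pool.Agent.GA.Loc1

/-!
# MP_585e9a_FRR, row LOC, part 2: local data and Gram determinants
-/

set_option autoImplicit false

open MeasureTheory Complex Filter
open scoped ENNReal Topology

namespace Pool.GA

/-- local data: the presentation together with its primitive minors -/
structure LD {X Y E : Type} (S : Sys X Y E) (w : E →₀ ℤ) (o : X →₀ ℤ) (F : Finset E) (ω' : E → ℝ) where
  κ : Type
  fk : Fintype κ
  T : Matrix (S.JJ F o) κ (MvPolynomial E ℂ)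
  oo : κ → ℤ
  hv : ∀ i j, (T i j).vars ⊆ F
  hd : ∀ (e : E) (N : ℕ) (i : S.JJ F o) (j : κ), (∀ x, MvPolynomial.degreeOf e (S.a i x) ≤ N) →
      MvPolynomial.degreeOf e (T i j) ≤ N
  hg : ∀ z z' : E → ℂ, (∀ e ∉ F, z e = ph ω' e) → (∀ e ∉ F, z' e = ph ω' e) →
      ∀ i i' : S.JJ F o, inner ℂ (S.b (S.JJ F o) z' i') (S.b (S.JJ F o) z i) =
        ∑ k, MvPolynomial.eval z (T i k) * (starRingEnd ℂ) (MvPolynomial.eval z' (T i' k))
  hn : ∀ z : E → ℂ, (∀ e ∉ F, z e = ph ω' e) → ∀ (ρ : ℕ) (I : Fin ρ → S.JJ F o),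
      (∃ f : Fin ρ → κ, MvPolynomial.eval z (T.submatrix I f).det ≠ 0) →
      (∀ (I' : Fin (ρ + 1) → S.JJ F o) (f' : Fin (ρ + 1) → κ),
        MvPolynomial.eval z (T.submatrix I' f').det = 0) →
      (o.sum fun x k => (k : ℝ) * S.nu z x) =
        (∑ f : Fin ρ → κ, ((∑ i, oo (f i) : ℤ) : ℝ) * ‖MvPolynomial.eval z (T.submatrix I f).det‖ ^ 2) /
          ∑ f : Fin ρ → κ, ‖MvPolynomial.eval z (T.submatrix I f).det‖ ^ 2
  ρ : ℕ
  I : Fin ρ → S.JJ F o
  m : ℤ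
  p : MvPolynomial E ℂ
  s : (Fin ρ → κ) → MvPolynomial E ℂ
  hI : Function.Injective I
  hp : p ≠ 0
  hs0 : ∃ f, s f ≠ 0
  hdet : ∀ f, (T.submatrix I f).det = p * s f
  hsw : ∀ f, (s f).IsWeightedHomogeneous w (m - ∑ i, oo (f i))
  hgcd : ∀ d, (∀ f, d ∣ s f) → IsUnit d
  hbig : ∀ (I' : Fin (ρ + 1) → S.JJ F o) (f' : Fin (ρ + 1) → κ), (T.submatrix I' f').det = 0

attribute [instance] LD.fk

section
variable {X Y E : Type} {S : Sys X Y E} {w : E →₀ ℤ} {o : X →₀ ℤ} {F : Finset E} {ω' : E → ℝ}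

theorem exists_LD (h1 : StmtPres) (h2 : StmtAlg) (hg : S.Gauge w o) (hF : w.support ⊆ F) :
    Nonempty (LD S w o F ω') := by
  obtain ⟨κ, fk, T, α, oo, a1, a2, a3, a4, a5⟩ := h1 X Y E S w o F ω' hg hF
  obtain ⟨ρ, I, m, p, s, b1, b2, b3, b4, b5, b6, b7⟩ := h2 E (S.JJ F o) κ w α oo T a1
  exact ⟨⟨κ, fk, T, oo, a2, a3, a4, a5, ρ, I, m, p, s, b1, b2, b3, b4, b5, b6, b7⟩⟩

namespace LD
variable (D : LD S w o F ω')

theorem big (k : ℕ) : ∀ (I' : Fin (D.ρ + 1 + k) → S.JJ F o) (f' : Fin (D.ρ + 1 + k) → D.κ),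
    (D.T.submatrix I' f').det = 0 := by
  induction k with
  | zero => exact D.hbig
  | succ k ih =>
    have h : ∀ (I' : Fin ((D.ρ + 1 + k) + 1) → S.JJ F o) (f' : Fin ((D.ρ + 1 + k) + 1) → D.κ),
        (D.T.submatrix I' f').det = 0 := by
      intro I' f'
      rw [Matrix.det_succ_row_zero]
      refine Finset.sum_eq_zero fun j _ => ?_
      rw [Matrix.submatrix_submatrix, ih, mul_zero]
    exact h

theorem big' {k : ℕ} (hk : D.ρ < k) (I' : Fin k → S.JJ F o) (f' : Fin k → D.κ) :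
    (D.T.submatrix I' f').det = 0 := by
  obtain ⟨t, rfl⟩ := Nat.exists_eq_add_of_le (Nat.succ_le_of_lt hk)
  exact D.big t I' f'

theorem vars_p : D.p.vars ⊆ F := by
  obtain ⟨f, hf⟩ := D.hs0
  refine (vars_left D.hp hf).trans ?_
  rw [← D.hdet f]
  exact vars_det _ F fun i j => D.hv _ _

theorem vars_s (f : Fin D.ρ → D.κ) : (D.s f).vars ⊆ F := by
  by_cases hf : D.s f = 0
  · rw [hf]; simp
  refine (vars_right D.hp hf).trans ?_
  rw [← D.hdet f]
  exact vars_det _ F fun i j => D.hv _ _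

theorem deg_s (e : E) (N : ℕ) (h : ∀ (i : S.JJ F o) x, MvPolynomial.degreeOf e (S.a i x) ≤ N)
    (f : Fin D.ρ → D.κ) : (D.s f).degreeOf e ≤ (S.JJ F o).card * N := by
  by_cases hf : D.s f = 0
  · rw [hf]; simp
  have h1 : (D.s f).degreeOf e ≤ (D.p * D.s f).degreeOf e := by
    rw [degreeOf_mul' e D.hp hf]; omega
  refine h1.trans ?_
  rw [← D.hdet f]
  refine (degreeOf_det _ e N fun i j => D.hd e N _ _ (h _)).trans ?_
  refine Nat.mul_le_mul_right _ ?_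
  have := Fintype.card_le_of_injective _ D.hI
  simpa using this

/-- the matrix at a point -/
noncomputable def Tz (z : E → ℂ) {k : ℕ} (g : Fin k → S.JJ F o) : Matrix (Fin k) D.κ ℂ :=
  Matrix.of fun i c => MvPolynomial.eval z (D.T (g i) c)

theorem det_Tz (z : E → ℂ) {k : ℕ} (g : Fin k → S.JJ F o) (f : Fin k → D.κ) :
    ((D.Tz z g).submatrix id f).det = MvPolynomial.eval z (D.T.submatrix g f).det := by
  rw [RingHom.map_det]
  congr 1

theorem gram_fin (hCB : StmtCB) {z z' : E → ℂ} (hz : ∀ e ∉ F, z e = ph ω' e)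
    (hz' : ∀ e ∉ F, z' e = ph ω' e) {k : ℕ} (g : Fin k → S.JJ F o) (L : Finset Y) (φ : Fin k ≃ L)
    (hφ : ∀ i, (φ i : Y) = g i) :
    ((k.factorial : ℕ) : ℂ) * S.gram (S.JJ F o) L z z' =
      ∑ f : Fin k → D.κ, MvPolynomial.eval z (D.T.submatrix g f).det *
        (starRingEnd ℂ) (MvPolynomial.eval z' (D.T.submatrix g f).det) := by
  classical
  have h1 := hCB D.κ k (D.Tz z g) (D.Tz z' g)
  simp only [det_Tz] at h1
  rw [h1]
  congr 1
  unfold Sys.gram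
  rw [← Matrix.det_submatrix_equiv_self φ]
  congr 1
  ext i j
  simp only [Matrix.submatrix_apply, Matrix.of_apply, Matrix.mul_apply, Matrix.conjTranspose_apply, Tz]
  rw [hφ, hφ, D.hg z z' hz hz']
  rfl

theorem gram_big (hCB : StmtCB) {z : E → ℂ} (hz : ∀ e ∉ F, z e = ph ω' e) (L : Finset Y)
    (hL : L ⊆ S.JJ F o) (hc : D.ρ < L.card) : S.gram (S.JJ F o) L z z = 0 := by
  have h := D.gram_fin hCB hz hz (fun i : Fin L.card => ⟨(L.equivFin.symm i : Y), hL (L.equivFin.symm i).2⟩)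
    L L.equivFin.symm (fun i => rfl)
  rw [Finset.sum_eq_zero] at h
  · rcases mul_eq_zero.1 h with h | h
    · exact absurd h (by exact_mod_cast Nat.factorial_ne_zero _)
    · exact h
  · intro f _
    rw [D.big' hc, map_zero, zero_mul]

open Classical in
/-- the basis as a set of rows -/
noncomputable def L : Finset Y := Finset.univ.image fun i => (D.I i : Y)

theorem L_sub : D.L ⊆ S.JJ F o := by
  intro y hy
  simp only [L, Finset.mem_image, Finset.mem_univ, true_and] at hy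
  obtain ⟨i, rfl⟩ := hy
  exact (D.I i).2

theorem L_inj : Function.Injective fun i => (D.I i : Y) := fun _ _ h => D.hI (Subtype.ext h)

theorem L_card : D.L.card = D.ρ := by
  classical
  rw [L, Finset.card_image_of_injective _ D.L_inj]; simp

noncomputable def Leq : Fin D.ρ ≃ D.L :=
  Equiv.ofBijective (fun i => ⟨(D.I i : Y), by simp [L]⟩)
    ⟨fun i j h => by
      have h' : (D.I i : Y) = (D.I j : Y) := congrArg (fun y : D.L => (y : Y)) h
      exact D.L_inj h', fun y => by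
      obtain ⟨y, hy⟩ := y
      have hy' := hy
      simp only [L, Finset.mem_image, Finset.mem_univ, true_and] at hy'
      obtain ⟨i, hi⟩ := hy'
      exact ⟨i, Subtype.ext hi⟩⟩

/-- hermitian product of the primitive vectors -/
noncomputable def ipz (z z' : E → ℂ) : ℂ :=
  ∑ f, MvPolynomial.eval z (D.s f) * (starRingEnd ℂ) (MvPolynomial.eval z' (D.s f))

/-- norm of the primitive vector -/
noncomputable def sqz (z : E → ℂ) : ℝ := ∑ f, ‖MvPolynomial.eval z (D.s f)‖ ^ 2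

theorem ipz_self (z : E → ℂ) : D.ipz z z = (D.sqz z : ℂ) := by
  unfold ipz sqz
  push_cast
  refine Finset.sum_congr rfl fun f _ => ?_
  rw [Complex.mul_conj, Complex.normSq_eq_norm_sq]
  push_cast; rfl

theorem gram_L (hCB : StmtCB) {z z' : E → ℂ} (hz : ∀ e ∉ F, z e = ph ω' e)
    (hz' : ∀ e ∉ F, z' e = ph ω' e) :
    ((D.ρ.factorial : ℕ) : ℂ) * S.gram (S.JJ F o) D.L z z' =
      MvPolynomial.eval z D.p * (starRingEnd ℂ) (MvPolynomial.eval z' D.p) * D.ipz z z' := by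
  rw [D.gram_fin hCB hz hz' D.I D.L D.Leq (fun i => rfl), ipz, Finset.mul_sum]
  refine Finset.sum_congr rfl fun f _ => ?_
  rw [D.hdet, map_mul, map_mul, map_mul]
  ring

theorem gram_L_self (hCB : StmtCB) {z : E → ℂ} (hz : ∀ e ∉ F, z e = ph ω' e) :
    S.gram (S.JJ F o) D.L z z =
      ((‖MvPolynomial.eval z D.p‖ ^ 2 * D.sqz z / D.ρ.factorial : ℝ) : ℂ) := by
  have h := D.gram_L hCB hz hz
  rw [ipz_self, Complex.mul_conj, Complex.normSq_eq_norm_sq] at h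
  have h0 : ((D.ρ.factorial : ℕ) : ℂ) ≠ 0 := by exact_mod_cast Nat.factorial_ne_zero _
  push_cast at h ⊢
  field_simp
  rw [mul_comm]
  exact h

theorem gram_L_ne (hCB : StmtCB) {z : E → ℂ} (hz : ∀ e ∉ F, z e = ph ω' e)
    (h1 : MvPolynomial.eval z D.p ≠ 0) (h2 : D.sqz z ≠ 0) : S.gram (S.JJ F o) D.L z z ≠ 0 := by
  rw [D.gram_L_self hCB hz]
  have h3 : (D.ρ.factorial : ℝ) ≠ 0 := by exact_mod_cast Nat.factorial_ne_zero _
  have h4 : ‖MvPolynomial.eval z D.p‖ ≠ 0 := norm_ne_zero_iff.2 h1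
  exact_mod_cast div_ne_zero (mul_ne_zero (pow_ne_zero _ h4) h2) h3

theorem ang_L (hCB : StmtCB) {z z' : E → ℂ} (hz : ∀ e ∉ F, z e = ph ω' e)
    (hz' : ∀ e ∉ F, z' e = ph ω' e) (h1 : MvPolynomial.eval z D.p ≠ 0)
    (h1' : MvPolynomial.eval z' D.p ≠ 0) :
    S.ang (S.JJ F o) D.L z z' = ‖D.ipz z z'‖ ^ 2 / (D.sqz z * D.sqz z') := by
  unfold Sys.ang
  have h0 : (D.ρ.factorial : ℝ) ≠ 0 := by exact_mod_cast Nat.factorial_ne_zero _
  have h4 : ‖MvPolynomial.eval z D.p‖ ≠ 0 := norm_ne_zero_iff.2 h1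
  have h4' : ‖MvPolynomial.eval z' D.p‖ ≠ 0 := norm_ne_zero_iff.2 h1'
  rw [D.gram_L_self hCB hz, D.gram_L_self hCB hz', Complex.ofReal_re, Complex.ofReal_re]
  have h5 : ‖S.gram (S.JJ F o) D.L z z'‖ =
      ‖MvPolynomial.eval z D.p‖ * ‖MvPolynomial.eval z' D.p‖ * ‖D.ipz z z'‖ / D.ρ.factorial := by
    have h := congrArg norm (D.gram_L hCB hz hz')
    rw [norm_mul, norm_mul, norm_mul, RCLike.norm_conj] at h
    rw [eq_div_iff h0, ← h]
    simp [mul_comm]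
  rw [h5]
  by_cases h6 : D.sqz z = 0
  · simp [h6]
  by_cases h7 : D.sqz z' = 0
  · simp [h7]
  field_simp

end LD

end

end Pool.GA
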