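import Pool.Agent.GA.Loc2

/-!
# MP_585e9a_FRR, row LOC, part 3: the curvature in local data
-/

set_option autoImplicit false

open MeasureTheory Complex Filter
open scoped ENNReal Topology

namespace Pool.GA

section
variable {X Y E : Type} (S : Sys X Y E)

open Classical in
theorem vec_update (z : E → ℂ) (e : E) (v : ℂ) {i : Y} (hi : i ∉ S.B e) :
    S.vec (Function.update z e v) i = S.vec z i := by
  unfold Sys.vec
  refine Finset.sum_congr rfl fun x _ => ?_
  congr 1
  refine eval_congr fun e' he' => ?_
  rcases eq_or_ne e' e with rfl | h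
  · exact absurd (by simpa [Sys.B] using ⟨x, he'⟩) hi
  · simp [h]

open Classical in
theorem W_update (z : E → ℂ) (e : E) (v : ℂ) : S.W (S.B e) (Function.update z e v) = S.W (S.B e) z := by
  unfold Sys.W
  congr 2
  ext x
  constructor
  · rintro ⟨i, hi, rfl⟩
    exact ⟨i, hi, (vec_update S z e v hi).symm⟩
  · rintro ⟨i, hi, rfl⟩
    exact ⟨i, hi, vec_update S z e v hi⟩

open Classical in
theorem cont_vec (z : E → ℂ) (e : E) (i : Y) : Continuous fun v : ℂ => S.vec (Function.update z e v) i := by
  unfold Sys.vec
  refine continuous_finsetSum _ fun x _ => ?_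
  have h : Continuous fun v : ℂ => MvPolynomial.eval (Function.update z e v) (S.a i x) := by
    simp only [← eval_slc]
    exact (slc z e (S.a i x)).continuous
  exact h.smul continuous_const

open Classical in
theorem cont_b (z : E → ℂ) (e : E) (i : Y) :
    Continuous fun v : ℂ => S.b (S.B e) (Function.update z e v) i := by
  unfold Sys.b
  have h : ∀ v : ℂ, (S.W (S.B e) (Function.update z e v)).starProjection (S.vec (Function.update z e v) i) =
      (S.W (S.B e) z).starProjection (S.vec (Function.update z e v) i) := by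
    intro v
    have := W_update S z e v
    simp only [this]
  simp only [h]
  exact (cont_vec S z e i).sub ((S.W (S.B e) z).starProjection.continuous.comp (cont_vec S z e i))

open Classical in
theorem cont_gram (z : E → ℂ) (e : E) (K : Finset Y) :
    Continuous fun v : ℂ => S.gram (S.B e) K (Function.update z e v) (Function.update z e v) := by
  unfold Sys.gram
  refine Continuous.matrix_det ?_
  refine continuous_matrix fun i j => ?_
  exact (cont_b S z e j).inner (cont_b S z e i)

end

section
variable {X Y E : Type} {S : Sys X Y E} {w : E →₀ ℤ} {o : X →₀ ℤ} {F : Finset E} {ω' : E → ℝ}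

namespace LD
variable (D : LD S w o F ω')

/-- one-variable slices of the primitive vector -/
noncomputable def sl (z : E → ℂ) (e : E) (f : Fin D.ρ → D.κ) : Polynomial ℂ := slc z e (D.s f)

open Classical in
theorem sq_sl (z : E → ℂ) (e : E) (u : ℂ) : sq (D.sl z e) u = D.sqz (Function.update z e u) := by
  unfold sq sqz sl
  simp only [eval_slc]

open Classical in
theorem ip_sl (z : E → ℂ) (e : E) (u v : ℂ) :
    ip (D.sl z e) (D.sl z e) u v = D.ipz (Function.update z e u) (Function.update z e v) := by
  unfold ip ipz sl
  simp only [eval_slc]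

open Classical in
theorem ext_update {z : E → ℂ} {e : E} (he : e ∈ F) (hz : ∀ e ∉ F, z e = ph ω' e) (u : ℂ) :
    ∀ e' ∉ F, Function.update z e u e' = ph ω' e' := by
  intro e' he'
  have : e' ≠ e := fun h => he' (h ▸ he)
  simp [this, hz e' he']

theorem tendsto_seq (u : ℂ) : Tendsto (fun n : ℕ => u + 1 / ((n : ℂ) + 1)) atTop (𝓝 u) := by
  have h : Tendsto (fun n : ℕ => (1 : ℂ) / ((n : ℂ) + 1)) atTop (𝓝 0) := by
    have := (Complex.continuous_ofReal.tendsto 0).comp (tendsto_one_div_add_atTop_nhds_zero_nat (𝕜 := ℝ))
    simpa [Function.comp_def] using this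
  simpa using h.const_add u

open Classical in
theorem kap_eq (hCB : StmtCB) (hAng : StmtAng) (hAngGen : StmtAngGen) (hOne4 : StmtOne4) {z : E → ℂ} {e : E}
    (he : e ∈ F) (hz : ∀ e ∉ F, z e = ph ω' e) (u : ℂ)
    (h1 : MvPolynomial.eval (Function.update z e u) D.p ≠ 0) (h2 : D.sqz (Function.update z e u) ≠ 0) :
    S.kap e (Function.update z e u) = ENNReal.ofReal (kk (D.sl z e) u) := by
  have hBJ : S.B e ⊆ S.JJ F o := by
    unfold Sys.JJ
    exact (Finset.subset_biUnion_of_mem S.B he).trans Finset.subset_union_left
  have hext := ext_update (ω' := ω') he hz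
  -- a basis
  obtain ⟨K0, hK0, hb0, hmax⟩ := hAngGen X Y E S e (S.JJ F o) D.L (Function.update z e u) hBJ D.L_sub
    (D.gram_L_ne hCB (hext u) h1 h2)
    (fun L' hL' hc => D.gram_big hCB (hext u) L' hL' (by rw [← D.L_card]; exact hc))
  -- the value for every basis
  have key : ∀ K ⊆ S.B e, S.IsBas e K (Function.update z e u) →
      S.kapK K e (Function.update z e u) = ENNReal.ofReal (kk (D.sl z e) u) := by
    intro K hK hb
    have hcard : K.card = K0.card := by
      apply le_antisymm
      · by_contra h
        exact hb.1 (hb0.2 K (Finset.mem_powerset.2 hK) (not_le.1 h))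
      · by_contra h
        exact hb0.1 (hb.2 K0 (Finset.mem_powerset.2 hK0) (not_le.1 h))
    have e1 : ∀ᶠ n : ℕ in atTop, S.gram (S.B e) K (Function.update z e (u + 1 / ((n : ℂ) + 1)))
        (Function.update z e (u + 1 / ((n : ℂ) + 1))) ≠ 0 :=
      ((cont_gram S z e K).tendsto u).comp (tendsto_seq u) |>.eventually_ne hb.1
    have e2 : ∀ᶠ n : ℕ in atTop, MvPolynomial.eval (Function.update z e (u + 1 / ((n : ℂ) + 1))) D.p ≠ 0 := by
      have hc : Continuous fun v : ℂ => MvPolynomial.eval (Function.update z e v) D.p := by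
        simp only [← eval_slc]; exact (slc z e D.p).continuous
      exact ((hc.tendsto u).comp (tendsto_seq u)).eventually_ne h1
    have e3 : ∀ᶠ n : ℕ in atTop, D.sqz (Function.update z e (u + 1 / ((n : ℂ) + 1))) ≠ 0 := by
      have hc : Continuous fun v : ℂ => D.sqz (Function.update z e v) := by
        unfold sqz
        simp only [← eval_slc]
        exact continuous_finsetSum _ fun f _ => ((slc z e (D.s f)).continuous.norm).pow 2
      exact ((hc.tendsto u).comp (tendsto_seq u)).eventually_ne h2
    have hlim := hOne4 _ (D.sl z e) u (by rw [D.sq_sl]; exact h2)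
    have hlim' : Tendsto (fun n : ℕ => ENNReal.ofReal (((n : ℝ) + 1) ^ 2 *
        (1 - S.ang (S.B e) K (Function.update z e u)
          (Function.update (Function.update z e u) e (Function.update z e u e + 1 / ((n : ℂ) + 1)))))) atTop
        (𝓝 (ENNReal.ofReal (kk (D.sl z e) u))) := by
      refine (ENNReal.tendsto_ofReal hlim).congr' ?_
      filter_upwards [e1, e2, e3] with n g1 g2 g3
      congr 2
      rw [Function.update_self, Function.update_idem]
      rw [hAng X Y E S e (S.JJ F o) K D.L (Function.update z e u)
        (Function.update z e (u + 1 / ((n : ℂ) + 1))) hBJ hK D.L_sub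
        (fun e' he' => by simp [he']) hb.1 g1
        (fun K' hK' hc => hb.2 K' (Finset.mem_powerset.2 hK') hc)
        (fun K' hK' hc => hmax _ (fun e' he' => by simp [he'])
          (D.gram_L_ne hCB (hext _) g2 g3)
          (fun L' hL' hc => D.gram_big hCB (hext _) L' hL' (by rw [← D.L_card]; exact hc)) K' hK'
          (hcard ▸ hc))
        (D.gram_L_ne hCB (hext _) h1 h2) (D.gram_L_ne hCB (hext _) g2 g3)
        (fun L' hL' hc => D.gram_big hCB (hext _) L' hL' (by rw [← D.L_card]; exact hc))
        (fun L' hL' hc => D.gram_big hCB (hext _) L' hL' (by rw [← D.L_card]; exact hc))]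
      rw [D.ang_L hCB (hext _) (hext _) h1 g2, D.ip_sl, D.sq_sl, D.sq_sl]
    exact hlim'.liminf_eq
  apply le_antisymm
  · refine Finset.sup_le fun K hK => ?_
    split_ifs with hb
    · exact (key K (Finset.mem_powerset.1 hK) hb).le
    · exact bot_le
  · rw [← key K0 hK0 hb0]
    refine le_trans ?_ (Finset.le_sup (Finset.mem_powerset.2 hK0))
    rw [if_pos hb0]

end LD

end

end Pool.GA
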