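import Pool.Agent.GA.Loc3

/-!
# MP_585e9a_FRR, row LOC, part 4: bound of the edge term, local integrality
-/

set_option autoImplicit false

open MeasureTheory Complex Filter
open scoped ENNReal Topology

namespace Pool.GA

theorem mu0_prob : IsProbabilityMeasure mu0 := by
  constructor
  have h : (0 : ℝ) < 2 * Real.pi := by positivity
  simp only [mu0, Measure.smul_apply, Measure.restrict_apply MeasurableSet.univ, Set.univ_inter,
    Real.volume_Ioc, sub_zero, smul_eq_mul]
  exact ENNReal.inv_mul_cancel (by simpa using Real.pi_pos) ENNReal.ofReal_ne_top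

instance : IsProbabilityMeasure mu0 := mu0_prob

instance (E : Type) : IsProbabilityMeasure (mu E) := by unfold mu; infer_instance

section Eval
variable {E : Type}

theorem norm_ph (ω : E → ℝ) (e : E) : ‖ph ω e‖ = 1 := by
  unfold ph
  exact Complex.norm_exp_ofReal_mul_I _

/-- bound of a polynomial on the torus -/
noncomputable def bnd (p : MvPolynomial E ℂ) : ℝ := ∑ d ∈ p.support, ‖p.coeff d‖

theorem bnd_nonneg (p : MvPolynomial E ℂ) : 0 ≤ bnd p := Finset.sum_nonneg fun _ _ => norm_nonneg _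

theorem norm_eval_le (p : MvPolynomial E ℂ) (z : E → ℂ) (h : ∀ e, ‖z e‖ = 1) :
    ‖MvPolynomial.eval z p‖ ≤ bnd p := by
  rw [MvPolynomial.eval_eq]
  refine (norm_sum_le _ _).trans (Finset.sum_le_sum fun d _ => ?_)
  rw [norm_mul, norm_prod, Finset.prod_eq_one, mul_one]
  intro i _
  rw [norm_pow, h i, one_pow]

theorem measurable_eval {Ω : Type} [MeasurableSpace Ω] (g : Ω → E → ℂ) (hg : ∀ e, Measurable fun ω => g ω e)
    (p : MvPolynomial E ℂ) : Measurable fun ω => MvPolynomial.eval (g ω) p := by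
  induction p using MvPolynomial.induction_on with
  | C a => simp
  | add p q hp hq =>
    have h := hp.add hq
    simp only [map_add]
    exact h
  | mul_X p n hp =>
    have h := hp.mul (hg n)
    simp only [map_mul, MvPolynomial.eval_X]
    exact h

end Eval

section
variable {X Y E : Type} {S : Sys X Y E} {w : E →₀ ℤ} {o : X →₀ ℤ} {F : Finset E} {ω' : E → ℝ}

open Classical in
/-- the point -/
noncomputable def zz (F : Finset E) (ω' ζ : E → ℝ) : E → ℂ := ph (F.piecewise ζ ω')

open Classical in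
theorem zz_ext (ζ : E → ℝ) : ∀ e ∉ F, zz F ω' ζ e = ph ω' e := by
  intro e he
  simp [zz, ph, he]

open Classical in
theorem zz_mem (ζ : E → ℝ) {e : E} (he : e ∈ F) : zz F ω' ζ e = ph ζ e := by
  simp [zz, ph, he]

theorem norm_zz (ζ : E → ℝ) (e : E) : ‖zz F ω' ζ e‖ = 1 := norm_ph _ _

open Classical in
theorem zz_update {e : E} (he : e ∈ F) (ζ : E → ℝ) (θ : ℝ) :
    zz F ω' (Function.update ζ e θ) = Function.update (zz F ω' ζ) e (Complex.exp (θ * I)) := by
  ext e'
  by_cases h : e' = e
  · subst h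
    simp [zz, ph, he]
  · by_cases h' : e' ∈ F
    · simp [zz, ph, h, h']
    · simp [zz, ph, h, h']

theorem measurable_zz (e : E) : Measurable fun ζ : E → ℝ => zz F ω' ζ e := by
  classical
  by_cases he : e ∈ F
  · have : (fun ζ : E → ℝ => zz F ω' ζ e) = fun ζ => Complex.exp ((ζ e : ℂ) * I) := by
      ext ζ; rw [zz_mem ζ he]; rfl
    rw [this]
    exact Complex.measurable_exp.comp ((Complex.measurable_ofReal.comp (measurable_pi_apply e)).mul_const _)
  · have : (fun ζ : E → ℝ => zz F ω' ζ e) = fun _ => ph ω' e := by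
      ext ζ; rw [zz_ext ζ e he]
    rw [this]; exact measurable_const

theorem measurable_pwL (F : Finset E) (ω' : E → ℝ) :
    Measurable fun ζ : E → ℝ => (open Classical in F.piecewise ζ ω') := by
  classical
  refine measurable_pi_lambda _ fun e => ?_
  by_cases he : e ∈ F
  · simpa [he] using measurable_pi_apply e
  · simp [he]

namespace LD
variable (D : LD S w o F ω')

open Classical in
theorem slc_update (z : E → ℂ) (e : E) (v : ℂ) : slc (Function.update z e v) e = slc z e := by
  unfold slc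
  congr 1
  ext e'
  by_cases h : e' = e <;> simp [h]

open Classical in
theorem sl_update (z : E → ℂ) (e : E) (v : ℂ) : D.sl (Function.update z e v) e = D.sl z e := by
  unfold sl
  rw [slc_update]

/-- numerator of the edge term -/
noncomputable def nm (e : E) (z : E → ℂ) : ℂ :=
  z e * ∑ f, MvPolynomial.eval z (MvPolynomial.pderiv e (D.s f)) * (starRingEnd ℂ) (MvPolynomial.eval z (D.s f))

theorem cc_eq (ε : ℝ) (e : E) (z : E → ℂ) :
    cc (D.sl z e) ε (z e) = (D.nm e z).re / (D.sqz z + ε) := by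
  classical
  unfold cc nm ip
  have h : ∀ s : MvPolynomial E ℂ, (slc z e s).eval (z e) = MvPolynomial.eval z s := by
    intro s; rw [eval_slc, Function.update_eq_self]
  have h2 : sq (D.sl z e) (z e) = D.sqz z := by rw [D.sq_sl, Function.update_eq_self]
  rw [h2]
  congr 3
  refine Finset.sum_congr rfl fun f _ => ?_
  simp only [sl, derivative_slc, h]

/-- bound of the numerator -/
noncomputable def bn (e : E) : ℝ := ∑ f, bnd (MvPolynomial.pderiv e (D.s f)) * bnd (D.s f)

theorem bn_nonneg (e : E) : 0 ≤ D.bn e :=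
  Finset.sum_nonneg fun _ _ => mul_nonneg (bnd_nonneg _) (bnd_nonneg _)

theorem norm_nm_le (e : E) (z : E → ℂ) (h : ∀ e, ‖z e‖ = 1) : ‖D.nm e z‖ ≤ D.bn e := by
  unfold nm bn
  rw [norm_mul, h e, one_mul]
  refine (norm_sum_le _ _).trans (Finset.sum_le_sum fun f _ => ?_)
  rw [norm_mul, RCLike.norm_conj]
  exact mul_le_mul (norm_eval_le _ z h) (norm_eval_le _ z h) (norm_nonneg _) (bnd_nonneg _)

theorem sqz_nonneg (z : E → ℂ) : 0 ≤ D.sqz z := Finset.sum_nonneg fun _ _ => by positivity

/-- the regularised edge term on the torus -/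
noncomputable def ce (ε : ℝ) (e : E) (ζ : E → ℝ) : ℝ := (D.nm e (zz F ω' ζ)).re / (D.sqz (zz F ω' ζ) + ε)

theorem measurable_nm (e : E) : Measurable fun ζ : E → ℝ => D.nm e (zz F ω' ζ) := by
  unfold nm
  refine (measurable_zz e).mul ?_
  refine Finset.measurable_sum _ fun f _ => ?_
  refine (measurable_eval _ measurable_zz _).mul ?_
  exact (Complex.continuous_conj.measurable).comp (measurable_eval _ measurable_zz _)

theorem measurable_sqz : Measurable fun ζ : E → ℝ => D.sqz (zz F ω' ζ) := by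
  unfold sqz
  exact Finset.measurable_sum _ fun f _ => ((measurable_eval _ measurable_zz _).norm.pow_const 2)

theorem measurable_ce (ε : ℝ) (e : E) : Measurable (D.ce ε e) :=
  (Complex.measurable_re.comp (D.measurable_nm e)).div (D.measurable_sqz.add_const _)

theorem abs_ce_le {ε : ℝ} (hε : 0 < ε) (e : E) (ζ : E → ℝ) : |D.ce ε e ζ| ≤ D.bn e / ε := by
  unfold ce
  rw [abs_div, abs_of_pos (a := _ + ε) (add_pos_of_nonneg_of_pos (D.sqz_nonneg _) hε)]
  refine div_le_div₀ (D.bn_nonneg e) ?_ hε (le_add_of_nonneg_left (D.sqz_nonneg _))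
  exact (Complex.abs_re_le_norm _).trans (D.norm_nm_le e _ (norm_zz ζ))

theorem integrable_ce {ε : ℝ} (hε : 0 < ε) (e : E) : Integrable (D.ce ε e) (mu E) :=
  Integrable.of_bound (D.measurable_ce ε e).aestronglyMeasurable (D.bn e / ε)
    (Eventually.of_forall fun ζ => by rw [Real.norm_eq_abs]; exact D.abs_ce_le hε e ζ)

open Classical in
theorem ce_update (ε : ℝ) {e : E} (he : e ∈ F) (ζ : E → ℝ) (θ : ℝ) :
    D.ce ε e (Function.update ζ e θ) = cc (D.sl (zz F ω' ζ) e) ε (Complex.exp (θ * Complex.I)) := by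
  unfold ce
  rw [zz_update he, ← D.cc_eq ε e, D.sl_update, Function.update_self]

open Classical in
/-- resampling the variable `e` -/
theorem integral_ce (hRS : StmtRS1) {ε : ℝ} (hε : 0 < ε) {e : E} (he : e ∈ F) :
    ∫ ζ, D.ce ε e ζ ∂(mu E) = ∫ ζ, cmean (cc (D.sl (zz F ω' ζ) e) ε) ∂(mu E) := by
  have hm : Measurable fun p : ℝ × (E → ℝ) => Function.update p.2 e p.1 := by
    refine measurable_pi_lambda _ fun e' => ?_
    by_cases h : e' = e
    · subst h; simpa using measurable_fst
    · simp only [Function.update_of_ne h]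
      exact (measurable_pi_apply e').comp measurable_snd
  have h1 : ∫ ζ, D.ce ε e ζ ∂(mu E) =
      ∫ p : ℝ × (E → ℝ), D.ce ε e (Function.update p.2 e p.1) ∂(mu0.prod (mu E)) := by
    conv_lhs => rw [← hRS E e]
    rw [integral_map hm.aemeasurable (D.measurable_ce ε e).aestronglyMeasurable]
  have hi : Integrable (fun p : ℝ × (E → ℝ) => D.ce ε e (Function.update p.2 e p.1)) (mu0.prod (mu E)) :=
    Integrable.of_bound ((D.measurable_ce ε e).comp hm).aestronglyMeasurable (D.bn e / ε)
      (Eventually.of_forall fun p => by rw [Real.norm_eq_abs]; exact D.abs_ce_le hε e _)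
  rw [h1, integral_prod_symm _ hi]
  refine integral_congr_ae (Eventually.of_forall fun ζ => ?_)
  simp only [cmean]
  refine integral_congr_ae (Eventually.of_forall fun θ => ?_)
  simp only [D.ce_update ε he]

open Classical in
theorem aesm_cmean (hRS : StmtRS1) {ε : ℝ} (hε : 0 < ε) {e : E} (he : e ∈ F) :
    AEStronglyMeasurable (fun ζ => cmean (cc (D.sl (zz F ω' ζ) e) ε)) (mu E) := by
  have hm : Measurable fun p : (E → ℝ) × ℝ => Function.update p.1 e p.2 := by
    refine measurable_pi_lambda _ fun e' => ?_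
    by_cases h : e' = e
    · subst h; simpa using measurable_snd
    · simp only [Function.update_of_ne h]
      exact (measurable_pi_apply e').comp measurable_fst
  have h := StronglyMeasurable.integral_prod_right (ν := mu0)
    (f := fun (ζ : E → ℝ) (θ : ℝ) => D.ce ε e (Function.update ζ e θ))
    ((D.measurable_ce ε e).comp hm).stronglyMeasurable
  have h2 : (fun ζ => cmean (cc (D.sl (zz F ω' ζ) e) ε)) =
      fun ζ => ∫ θ, D.ce ε e (Function.update ζ e θ) ∂mu0 := by
    ext ζ
    simp only [cmean, D.ce_update ε he]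
  rw [h2]
  exact h.aestronglyMeasurable

/-- the good points -/
def Good (ζ : E → ℝ) : Prop :=
  MvPolynomial.eval (zz F ω' ζ) D.p ≠ 0 ∧
    ∀ e ∈ F, ∀ u : ℂ, ∃ f, MvPolynomial.eval (open Classical in Function.update (zz F ω' ζ) e u) (D.s f) ≠ 0

open Classical in
theorem ae_good (hNV : StmtNV) (hSl : StmtSlice) : ∀ᵐ ζ ∂(mu E), D.Good ζ := by
  have h1 := hNV E D.p D.hp
  have h2 : ∀ᵐ ζ ∂(mu E), ∀ e ∈ F, ∀ u : ℂ, ∃ f, MvPolynomial.eval (Function.update (ph ζ) e u) (D.s f) ≠ 0 := by
    have := (Finset.eventually_all F (l := ae (mu E)) (p := fun e ζ => ∀ u : ℂ, ∃ f,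
      MvPolynomial.eval (Function.update (ph ζ) e u) (D.s f) ≠ 0)).2
      fun e _ => hSl E (Fin D.ρ → D.κ) D.s e D.hgcd
    exact this
  filter_upwards [h1, h2] with ζ g1 g2
  refine ⟨?_, fun e he u => ?_⟩
  · rwa [eval_congr (z' := ph ζ) fun e he => zz_mem ζ (D.vars_p he)]
  · obtain ⟨f, hf⟩ := g2 e he u
    refine ⟨f, ?_⟩
    rwa [eval_congr (z' := Function.update (ph ζ) e u) fun e' he' => ?_]
    by_cases h : e' = e
    · subst h; simp
    · simp [h, zz_mem ζ (D.vars_s f he')]

/-- the edge term at a good point -/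
theorem gamE_good (hCB : StmtCB) (hAng : StmtAng) (hAngGen : StmtAngGen) (h14 : StmtOne4) (h11 : StmtOne1)
    (h16 : StmtOne6) {ζ : E → ℝ} (hζ : D.Good ζ) {e : E} (he : e ∈ F) :
    S.gamE e (open Classical in F.piecewise ζ ω') = ENNReal.ofReal (cmean (cc (D.sl (zz F ω' ζ) e) 0)) := by
  classical
  have hq : slc (zz F ω' ζ) e D.p ≠ 0 := by
    intro h
    apply hζ.1
    have := eval_slc (zz F ω' ζ) e (zz F ω' ζ e) D.p
    rw [h, Function.update_eq_self] at this
    simpa using this.symm
  rw [← h11 (Fin D.ρ → D.κ) (D.sl (zz F ω' ζ) e) (fun u => by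
    obtain ⟨f, hf⟩ := hζ.2 e he u
    exact ⟨f, by rw [sl, eval_slc]; exact hf⟩)]
  unfold Sys.gamE
  refine lintegral_congr_ae ?_
  filter_upwards [h16 _ hq] with r hr
  refine lintegral_congr_ae ?_
  filter_upwards [hr] with θ hθ
  congr 1
  refine D.kap_eq hCB hAng hAngGen h14 he (zz_ext ζ) (pol r θ) ?_ ?_
  · rw [eval_slc] at hθ
    exact hθ
  · obtain ⟨f, hf⟩ := hζ.2 e he (pol r θ)
    have h0 : 0 < ‖MvPolynomial.eval (Function.update (zz F ω' ζ) e (pol r θ)) (D.s f)‖ ^ 2 := by
      have := norm_pos_iff.2 hf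
      positivity
    have h1 : ‖MvPolynomial.eval (Function.update (zz F ω' ζ) e (pol r θ)) (D.s f)‖ ^ 2 ≤
        D.sqz (Function.update (zz F ω' ζ) e (pol r θ)) :=
      Finset.single_le_sum (f := fun f => ‖MvPolynomial.eval
        (Function.update (zz F ω' ζ) e (pol r θ)) (D.s f)‖ ^ 2) (fun _ _ => by positivity) (Finset.mem_univ f)
    exact (lt_of_lt_of_le h0 h1).ne'

end LD

end

end Pool.GA
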