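import Pool.Agent.GA.Loc4

/-!
# MP_585e9a_FRR, row LOC, part 5: StmtBd, StmtLocal
-/

set_option autoImplicit false

open MeasureTheory Complex Filter
open scoped ENNReal Topology

namespace Pool.GA

section
variable {X Y E : Type} (S : Sys X Y E)

open Classical in
theorem gamE_update (e : E) (ω ω' : E → ℝ) (h : ∀ e' ≠ e, ω e' = ω' e') : S.gamE e ω = S.gamE e ω' := by
  unfold Sys.gamE
  have : ∀ v : ℂ, Function.update (ph ω) e v = Function.update (ph ω') e v := by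
    intro v; ext e'
    by_cases h' : e' = e
    · subst h'; simp
    · simp [h', ph, h e' h']
  simp only [this]

theorem abs_nu_le (z : E → ℂ) (x : X) : |S.nu z x| ≤ 1 := by
  unfold Sys.nu
  refine (Complex.abs_re_le_norm _).trans ?_
  refine (lp.norm_apply_le_norm (by norm_num) _ x).trans ?_
  refine (Submodule.norm_starProjection_apply_le _ _).trans ?_
  unfold del
  classical
  rw [lp.norm_single (by norm_num)]
  simp

end

theorem bd_of (h1 : StmtPres) (h2 : StmtAlg) (hCB : StmtCB) (hAng : StmtAng) (hAngGen : StmtAngGen)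
    (h11 : StmtOne1) (h13 : StmtOne3) (h14 : StmtOne4) (h16 : StmtOne6) (hNV : StmtNV) (hSl : StmtSlice) :
    StmtBd := by
  classical
  intro X Y E S e
  obtain ⟨N0, hN0⟩ : ∃ N0 : ℕ, ∀ (i : Y), i ∈ S.B e → ∀ x, MvPolynomial.degreeOf e (S.a i x) ≤ N0 := by
    refine ⟨∑ i ∈ S.B e, ∑ x ∈ (S.row i).toFinset, MvPolynomial.degreeOf e (S.a i x), fun i hi x => ?_⟩
    by_cases hx : S.a i x = 0
    · rw [hx]; simp
    · refine le_trans ?_ (Finset.single_le_sum (f := fun i => ∑ x ∈ (S.row i).toFinset,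
        MvPolynomial.degreeOf e (S.a i x)) (fun _ _ => Nat.zero_le _) hi)
      exact Finset.single_le_sum (f := fun x => MvPolynomial.degreeOf e (S.a i x))
        (fun _ _ => Nat.zero_le _) (by simpa using hx)
  refine ⟨(S.JJ {e} 0).card * N0, fun ω => ?_⟩
  have hg : S.Gauge 0 0 := by
    refine ⟨fun _ => 0, fun i x d hd => ?_⟩
    simp [Finsupp.weight_apply]
  obtain ⟨D⟩ := exists_LD (w := 0) (o := 0) (F := {e}) (ω' := ω) h1 h2 hg (by simp)
  obtain ⟨ζ, hζ⟩ := (D.ae_good hNV hSl).exists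
  have he : e ∈ ({e} : Finset E) := Finset.mem_singleton_self e
  rw [gamE_update S e ω (({e} : Finset E).piecewise ζ ω) (fun e' h => by simp [h]),
    D.gamE_good hCB hAng hAngGen h14 h11 h16 hζ he]
  have hJ : ∀ i : S.JJ {e} (0 : X →₀ ℤ), (i : Y) ∈ S.B e := by
    intro i
    have := i.2
    unfold Sys.JJ at this
    simpa using this
  have := (h13 (Fin D.ρ → D.κ) (D.sl (zz {e} ω ζ) e) ((S.JJ {e} 0).card * N0) (fun u => by
    obtain ⟨f, hf⟩ := hζ.2 e he u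
    exact ⟨f, by rw [LD.sl, eval_slc]; exact hf⟩)
    (fun f => (natDegree_slc _ _ _).trans (D.deg_s e N0 (fun i x => hN0 i (hJ i) x) f))).2
  refine (ENNReal.ofReal_le_ofReal this).trans ?_
  rw [ENNReal.ofReal_natCast]

section
variable {X Y E : Type} {S : Sys X Y E} {w : E →₀ ℤ} {o : X →₀ ℤ} {F : Finset E} {ω' : E → ℝ}

namespace LD
variable (D : LD S w o F ω')

theorem star_nm (hEul : StmtEul) (z : E → ℂ) :
    ∑ e ∈ w.support, (w e : ℂ) * D.nm e z =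
      ∑ f, ((D.m - ∑ i, D.oo (f i) : ℤ) : ℂ) * ((‖MvPolynomial.eval z (D.s f)‖ ^ 2 : ℝ) : ℂ) := by
  have h : ∀ f, ∑ e ∈ w.support, (w e : ℂ) * (z e * MvPolynomial.eval z (MvPolynomial.pderiv e (D.s f))) =
      ((D.m - ∑ i, D.oo (f i) : ℤ) : ℂ) * MvPolynomial.eval z (D.s f) := by
    intro f
    have := congrArg (MvPolynomial.eval z) (hEul E w _ (D.s f) (D.hsw f))
    rw [Finsupp.sum, map_sum] at this
    simpa only [map_mul, map_intCast, MvPolynomial.eval_X] using this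
  simp only [nm, Finset.mul_sum]
  rw [Finset.sum_comm]
  refine Finset.sum_congr rfl fun f _ => ?_
  have h2 : ((‖MvPolynomial.eval z (D.s f)‖ ^ 2 : ℝ) : ℂ) =
      MvPolynomial.eval z (D.s f) * (starRingEnd ℂ) (MvPolynomial.eval z (D.s f)) := by
    rw [Complex.mul_conj, Complex.normSq_eq_norm_sq]
  rw [h2, ← mul_assoc, ← h f, Finset.sum_mul]
  refine Finset.sum_congr rfl fun e _ => ?_
  ring

theorem star_re (hEul : StmtEul) (z : E → ℂ) :
    ∑ e ∈ w.support, (w e : ℝ) * (D.nm e z).re =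
      D.m * D.sqz z - ∑ f, ((∑ i, D.oo (f i) : ℤ) : ℝ) * ‖MvPolynomial.eval z (D.s f)‖ ^ 2 := by
  have h := congrArg Complex.re (D.star_nm hEul z)
  rw [Complex.re_sum, Complex.re_sum] at h
  have h1 : ∀ e, ((w e : ℂ) * D.nm e z).re = (w e : ℝ) * (D.nm e z).re := by
    intro e
    rw [← Complex.ofReal_intCast, Complex.re_ofReal_mul]
  have h2 : ∀ f : Fin D.ρ → D.κ, (((D.m - ∑ i, D.oo (f i) : ℤ) : ℂ) *
      ((‖MvPolynomial.eval z (D.s f)‖ ^ 2 : ℝ) : ℂ)).re =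
      ((D.m : ℝ) - ((∑ i, D.oo (f i) : ℤ) : ℝ)) * ‖MvPolynomial.eval z (D.s f)‖ ^ 2 := by
    intro f
    rw [← Complex.ofReal_intCast, Complex.re_ofReal_mul, Complex.ofReal_re]
    push_cast; rfl
  simp only [h1, h2] at h
  rw [h, sqz, Finset.mul_sum, ← Finset.sum_sub_distrib]
  refine Finset.sum_congr rfl fun f _ => ?_
  ring

/-- the vertex term -/
noncomputable def nuz (z : E → ℂ) : ℝ := o.sum fun x k => (k : ℝ) * S.nu z x

theorem nuz_eq {ζ : E → ℝ} (h1 : MvPolynomial.eval (zz F ω' ζ) D.p ≠ 0) (h2 : D.sqz (zz F ω' ζ) ≠ 0) :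
    nuz (S := S) (o := o) (zz F ω' ζ) * D.sqz (zz F ω' ζ) =
      ∑ f, ((∑ i, D.oo (f i) : ℤ) : ℝ) * ‖MvPolynomial.eval (zz F ω' ζ) (D.s f)‖ ^ 2 := by
  have hex : ∃ f, MvPolynomial.eval (zz F ω' ζ) (D.s f) ≠ 0 := by
    by_contra h
    push Not at h
    exact h2 (by simp [sqz, h])
  obtain ⟨f0, hf0⟩ := hex
  have h := D.hn (zz F ω' ζ) (zz_ext ζ) D.ρ D.I
    ⟨f0, by rw [D.hdet, map_mul]; exact mul_ne_zero h1 hf0⟩
    (fun I' f' => by rw [D.hbig, map_zero])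
  unfold nuz
  rw [h]
  simp only [D.hdet, map_mul, norm_mul, mul_pow]
  have e1 : ∑ f : Fin D.ρ → D.κ, ‖MvPolynomial.eval (zz F ω' ζ) D.p‖ ^ 2 *
      ‖MvPolynomial.eval (zz F ω' ζ) (D.s f)‖ ^ 2 =
      ‖MvPolynomial.eval (zz F ω' ζ) D.p‖ ^ 2 * D.sqz (zz F ω' ζ) := by
    rw [sqz, Finset.mul_sum]
  have e2 : ∑ f : Fin D.ρ → D.κ, ((∑ i, D.oo (f i) : ℤ) : ℝ) * (‖MvPolynomial.eval (zz F ω' ζ) D.p‖ ^ 2 *
      ‖MvPolynomial.eval (zz F ω' ζ) (D.s f)‖ ^ 2) =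
      ‖MvPolynomial.eval (zz F ω' ζ) D.p‖ ^ 2 * ∑ f : Fin D.ρ → D.κ, ((∑ i, D.oo (f i) : ℤ) : ℝ) *
      ‖MvPolynomial.eval (zz F ω' ζ) (D.s f)‖ ^ 2 := by
    rw [Finset.mul_sum]
    refine Finset.sum_congr rfl fun f _ => ?_
    ring
  rw [e1, e2]
  have h3 : ‖MvPolynomial.eval (zz F ω' ζ) D.p‖ ≠ 0 := norm_ne_zero_iff.2 h1
  field_simp

theorem star (hEul : StmtEul) {ζ : E → ℝ} (h1 : MvPolynomial.eval (zz F ω' ζ) D.p ≠ 0)
    (h2 : D.sqz (zz F ω' ζ) ≠ 0) (ε : ℝ) :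
    ∑ e ∈ w.support, (w e : ℝ) * D.ce ε e ζ =
      (D.m - nuz (S := S) (o := o) (zz F ω' ζ)) * (D.sqz (zz F ω' ζ) / (D.sqz (zz F ω' ζ) + ε)) := by
  unfold ce
  have h := D.star_re hEul (zz F ω' ζ)
  rw [← D.nuz_eq h1 h2] at h
  have : ∑ e ∈ w.support, (w e : ℝ) * ((D.nm e (zz F ω' ζ)).re / (D.sqz (zz F ω' ζ) + ε)) =
      (∑ e ∈ w.support, (w e : ℝ) * (D.nm e (zz F ω' ζ)).re) / (D.sqz (zz F ω' ζ) + ε) := by
    rw [Finset.sum_div]
    refine Finset.sum_congr rfl fun e _ => ?_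
    ring
  rw [this, h]
  ring

theorem ae_sqz (hNV : StmtNV) : ∀ᵐ ζ ∂(mu E), D.sqz (zz F ω' ζ) ≠ 0 := by
  obtain ⟨f, hf⟩ := D.hs0
  filter_upwards [hNV E (D.s f) hf] with ζ h
  have h' : MvPolynomial.eval (zz F ω' ζ) (D.s f) ≠ 0 := by
    rwa [eval_congr (z' := ph ζ) fun e he => zz_mem ζ (D.vars_s f he)]
  have h0 : 0 < ‖MvPolynomial.eval (zz F ω' ζ) (D.s f)‖ ^ 2 := by
    have := norm_pos_iff.2 h'
    positivity
  have h1 : ‖MvPolynomial.eval (zz F ω' ζ) (D.s f)‖ ^ 2 ≤ D.sqz (zz F ω' ζ) :=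
    Finset.single_le_sum (f := fun f => ‖MvPolynomial.eval (zz F ω' ζ) (D.s f)‖ ^ 2)
      (fun _ _ => by positivity) (Finset.mem_univ f)
  exact (lt_of_lt_of_le h0 h1).ne'

end LD

end

open Classical in
theorem local_of (h1 : StmtPres) (h2 : StmtAlg) (hCB : StmtCB) (hAng : StmtAng) (hAngGen : StmtAngGen)
    (h11 : StmtOne1) (h12 : StmtOne2) (h13 : StmtOne3) (h14 : StmtOne4) (h15 : StmtOne5) (h16 : StmtOne6)
    (hNV : StmtNV) (hSl : StmtSlice) (hEul : StmtEul) (hRS : StmtRS1) (hMn : StmtMNu) (hMg : StmtMGam)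
    (hBd : StmtBd) : StmtLocal := by
  intro X Y E _ _ _ S w o hg F hF ω'
  obtain ⟨D⟩ := exists_LD (ω' := ω') h1 h2 hg hF
  refine ⟨D.m, ?_⟩
  -- integrability
  have inu : ∀ x, Integrable (fun ζ : E → ℝ => S.nu (zz F ω' ζ) x) (mu E) := fun x =>
    Integrable.of_bound (((hMn X Y E S x).comp (measurable_pwL F ω')).aestronglyMeasurable) 1
      (Eventually.of_forall fun ζ => by rw [Real.norm_eq_abs]; exact abs_nu_le S _ x)
  have igam : ∀ e, Integrable (fun ζ : E → ℝ => S.gam e (F.piecewise ζ ω')) (mu E) := by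
    intro e
    obtain ⟨N, hN⟩ := hBd X Y E S e
    refine Integrable.of_bound ((((hMg X Y E S e).comp (measurable_pwL F ω')).ennreal_toReal).aestronglyMeasurable)
      N (Eventually.of_forall fun ζ => ?_)
    unfold Sys.gam
    rw [Real.norm_eq_abs, abs_of_nonneg ENNReal.toReal_nonneg]
    exact ENNReal.toReal_le_of_le_ofReal (Nat.cast_nonneg N) (by rw [ENNReal.ofReal_natCast]; exact hN _)
  have inuz : Integrable (fun ζ : E → ℝ => LD.nuz (S := S) (o := o) (zz F ω' ζ)) (mu E) := by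
    unfold LD.nuz Finsupp.sum
    exact integrable_finsetSum _ fun x _ => (inu x).const_mul _
  -- the limit of the edge terms
  have lim1 : ∀ e ∈ F, Tendsto (fun n : ℕ => ∫ ζ, D.ce (1 / ((n : ℝ) + 1)) e ζ ∂(mu E)) atTop
      (𝓝 (∫ ζ, S.gam e (F.piecewise ζ ω') ∂(mu E))) := by
    intro e he
    have hpos : ∀ n : ℕ, (0 : ℝ) < 1 / ((n : ℝ) + 1) := fun n => by positivity
    have e1 : ∀ n : ℕ, ∫ ζ, D.ce (1 / ((n : ℝ) + 1)) e ζ ∂(mu E) =
        ∫ ζ, cmean (cc (D.sl (zz F ω' ζ) e) (1 / ((n : ℝ) + 1))) ∂(mu E) :=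
      fun n => D.integral_ce hRS (hpos n) he
    simp only [e1]
    set N : ℕ := Finset.univ.sup fun f => (D.s f).degreeOf e with hNdef
    have hdeg : ∀ ζ f, (D.sl (zz F ω' ζ) e f).natDegree ≤ N := fun ζ f =>
      (natDegree_slc _ _ _).trans (Finset.le_sup (f := fun f => (D.s f).degreeOf e) (Finset.mem_univ f))
    refine tendsto_integral_of_dominated_convergence (fun _ => (N : ℝ)) (fun n => D.aesm_cmean hRS (hpos n) he)
      (integrable_const _) (fun n => Eventually.of_forall fun ζ => ?_) ?_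
    · have := h12 _ (D.sl (zz F ω' ζ) e) _ N (hpos n) (hdeg ζ)
      rw [Real.norm_eq_abs, abs_of_nonneg this.1]
      exact this.2
    · filter_upwards [D.ae_good hNV hSl] with ζ hζ
      have hne : ∀ u : ℂ, ∃ f, (D.sl (zz F ω' ζ) e f).eval u ≠ 0 := by
        intro u
        obtain ⟨f, hf⟩ := hζ.2 e he u
        exact ⟨f, by rw [LD.sl, eval_slc]; exact hf⟩
      have h0 := (h13 _ (D.sl (zz F ω' ζ) e) N hne (hdeg ζ)).1
      have : S.gam e (F.piecewise ζ ω') = cmean (cc (D.sl (zz F ω' ζ) e) 0) := by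
        unfold Sys.gam
        rw [D.gamE_good hCB hAng hAngGen h14 h11 h16 hζ he, ENNReal.toReal_ofReal h0]
      rw [this]
      refine h15 _ (D.sl (zz F ω' ζ) e) fun θ => ?_
      obtain ⟨f, hf⟩ := hne (Complex.exp (θ * I))
      have g0 : 0 < ‖(D.sl (zz F ω' ζ) e f).eval (Complex.exp (θ * I))‖ ^ 2 := by
        have := norm_pos_iff.2 hf
        positivity
      have g1 : ‖(D.sl (zz F ω' ζ) e f).eval (Complex.exp (θ * I))‖ ^ 2 ≤
          sq (D.sl (zz F ω' ζ) e) (Complex.exp (θ * I)) :=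
        Finset.single_le_sum (f := fun f => ‖(D.sl (zz F ω' ζ) e f).eval (Complex.exp (θ * I))‖ ^ 2)
          (fun _ _ => by positivity) (Finset.mem_univ f)
      exact (lt_of_lt_of_le g0 g1).ne'
  have lim1' : Tendsto (fun n : ℕ => ∑ e ∈ w.support, (w e : ℝ) * ∫ ζ, D.ce (1 / ((n : ℝ) + 1)) e ζ ∂(mu E))
      atTop (𝓝 (∑ e ∈ w.support, (w e : ℝ) * ∫ ζ, S.gam e (F.piecewise ζ ω') ∂(mu E))) :=
    tendsto_finsetSum _ fun e he => (lim1 e (hF he)).const_mul _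
  -- the limit of the vertex terms
  have hgood : ∀ᵐ ζ ∂(mu E), MvPolynomial.eval (zz F ω' ζ) D.p ≠ 0 ∧ D.sqz (zz F ω' ζ) ≠ 0 := by
    filter_upwards [D.ae_good hNV hSl, D.ae_sqz hNV] with ζ a b
    exact ⟨a.1, b⟩
  have eqn : ∀ n : ℕ, ∑ e ∈ w.support, (w e : ℝ) * ∫ ζ, D.ce (1 / ((n : ℝ) + 1)) e ζ ∂(mu E) =
      ∫ ζ, (D.m - LD.nuz (S := S) (o := o) (zz F ω' ζ)) *
        (D.sqz (zz F ω' ζ) / (D.sqz (zz F ω' ζ) + 1 / ((n : ℝ) + 1))) ∂(mu E) := by
    intro n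
    have hpos : (0 : ℝ) < 1 / ((n : ℝ) + 1) := by positivity
    simp only [← integral_const_mul]
    rw [← integral_finsetSum _ fun e _ => (D.integrable_ce hpos e).const_mul _]
    refine integral_congr_ae ?_
    filter_upwards [hgood] with ζ hζ
    exact D.star hEul hζ.1 hζ.2 _
  have lim2 : Tendsto (fun n : ℕ => ∫ ζ, (D.m - LD.nuz (S := S) (o := o) (zz F ω' ζ)) *
        (D.sqz (zz F ω' ζ) / (D.sqz (zz F ω' ζ) + 1 / ((n : ℝ) + 1))) ∂(mu E)) atTop
      (𝓝 (∫ ζ, (D.m - LD.nuz (S := S) (o := o) (zz F ω' ζ)) ∂(mu E))) := by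
    have hint : Integrable (fun ζ : E → ℝ => (D.m : ℝ) - LD.nuz (S := S) (o := o) (zz F ω' ζ)) (mu E) :=
      (integrable_const _).sub inuz
    refine tendsto_integral_of_dominated_convergence
      (fun ζ => |(D.m : ℝ) - LD.nuz (S := S) (o := o) (zz F ω' ζ)|) (fun n => ?_) hint.abs (fun n => ?_) ?_
    · exact hint.aestronglyMeasurable.mul
        (D.measurable_sqz.div (D.measurable_sqz.add_const _)).aestronglyMeasurable
    · refine Eventually.of_forall fun ζ => ?_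
      rw [Real.norm_eq_abs, abs_mul]
      have hpos : (0 : ℝ) < 1 / ((n : ℝ) + 1) := by positivity
      have h0 := D.sqz_nonneg (zz F ω' ζ)
      have : |D.sqz (zz F ω' ζ) / (D.sqz (zz F ω' ζ) + 1 / ((n : ℝ) + 1))| ≤ 1 := by
        rw [abs_of_nonneg (div_nonneg h0 (by positivity))]
        exact div_le_one_of_le₀ (by linarith) (by positivity)
      exact mul_le_of_le_one_right (abs_nonneg _) this
    · filter_upwards [hgood] with ζ hζ
      have h3 : Tendsto (fun n : ℕ => D.sqz (zz F ω' ζ) / (D.sqz (zz F ω' ζ) + 1 / ((n : ℝ) + 1))) atTop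
          (𝓝 (D.sqz (zz F ω' ζ) / (D.sqz (zz F ω' ζ) + 0))) :=
        tendsto_const_nhds.div (tendsto_const_nhds.add tendsto_one_div_add_atTop_nhds_zero_nat)
          (by simpa using hζ.2)
      rw [add_zero, div_self hζ.2] at h3
      simpa using h3.const_mul ((D.m : ℝ) - LD.nuz (S := S) (o := o) (zz F ω' ζ))
  have final := tendsto_nhds_unique (lim1'.congr eqn) lim2
  rw [integral_sub (integrable_const _) inuz] at final
  have hPhi : ∀ ζ, S.Phi w o (F.piecewise ζ ω') = LD.nuz (S := S) (o := o) (zz F ω' ζ) +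
      ∑ e ∈ w.support, (w e : ℝ) * S.gam e (F.piecewise ζ ω') := fun ζ => rfl
  simp only [hPhi]
  rw [integral_add inuz (integrable_finsetSum _ fun e _ => (igam e).const_mul _),
    integral_finsetSum _ fun e _ => (igam e).const_mul _]
  simp only [integral_const_mul]
  rw [final]
  simp

end Pool.GA
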