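import Pool.Agent.GA.GrDefs

/-!
# An invariant orientation of a graph with a group action without inversions
-/

set_option autoImplicit false

namespace Pool.GA

theorem stmtOri : StmtOri := by
  intro P V _ _ T hA hI
  classical
  let r : T.Dart → T.Dart → Prop := fun d d' => ∃ g : P, d'.fst = g • d.fst ∧ d'.snd = g • d.snd
  have hr : Equivalence r := by
    refine ⟨fun d => ⟨1, (one_smul P _).symm, (one_smul P _).symm⟩, ?_, ?_⟩
    · rintro d d' ⟨g, h1, h2⟩
      exact ⟨g⁻¹, by rw [h1, inv_smul_smul], by rw [h2, inv_smul_smul]⟩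
    · rintro d d' d'' ⟨g, h1, h2⟩ ⟨g', h1', h2'⟩
      exact ⟨g' * g, by rw [h1', h1, mul_smul], by rw [h2', h2, mul_smul]⟩
  let S : Setoid T.Dart := ⟨r, hr⟩
  let q : T.Dart → Quotient S := Quotient.mk S
  have hq : ∀ d d', q d = q d' ↔ r d d' := fun d d' => Quotient.eq
  have hne : ∀ d : T.Dart, q d ≠ q d.symm := by
    intro d h
    obtain ⟨g, h1, h2⟩ := (hq _ _).1 h
    exact hI g d.fst d.snd d.adj h1.symm h2.symm
  refine ⟨{d | WellOrderingRel (q d) (q d.symm)}, ?_, ?_⟩
  · intro d
    show WellOrderingRel (q d) (q d.symm) ↔ ¬ WellOrderingRel (q d.symm) (q d.symm.symm)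
    rw [SimpleGraph.Dart.symm_symm]
    constructor
    · intro h h'
      exact (asymm h h' : False)
    · intro h
      rcases trichotomous_of WellOrderingRel (q d) (q d.symm) with h1 | h1 | h1
      · exact h1
      · exact absurd h1 (hne d)
      · exact absurd h1 h
  · intro g d d' h1 h2 hd
    have e1 : q d' = q d := ((hq d d').2 ⟨g, h1, h2⟩).symm
    have e2 : q d'.symm = q d.symm := ((hq d.symm d'.symm).2 ⟨g, h2, h1⟩).symm
    show WellOrderingRel (q d') (q d'.symm)
    rw [e1, e2]
    exact hd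

end Pool.GA
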