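import Pool.Agent.GA.GrDefs

/-!
# MP_585e9a_al, project FRR, row QS: `P / R` acts on the orbits of `R`
-/

set_option autoImplicit false

namespace Pool.GA

section
variable {P X : Type} [Group P] [MulAction P X] (R : Subgroup P)

theorem Orb.mk_eq_iff (x y : X) : Orb.mk R x = Orb.mk R y ↔ ∃ r ∈ R, r • y = x := by
  constructor
  · intro h
    have h1 : x ∈ MulAction.orbit R y := MulAction.orbitRel_apply.1 (Quotient.exact h)
    obtain ⟨r, hr⟩ := MulAction.mem_orbit_iff.1 h1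
    exact ⟨r, r.2, hr⟩
  · rintro ⟨r, hr, h⟩
    exact Quotient.sound (MulAction.orbitRel_apply.2 (MulAction.mem_orbit_iff.2 ⟨⟨r, hr⟩, h⟩))

theorem Orb.exists_mk (o : Orb R X) : ∃ x, Orb.mk R x = o := Quotient.exists_rep o

variable [R.Normal]

/-- the action of `P / R` on the orbits of `R` -/
def Orb.smul (q : P ⧸ R) (o : Orb R X) : Orb R X :=
  Quotient.map₂ (sa := QuotientGroup.leftRel R) (sb := MulAction.orbitRel R X) (sc := MulAction.orbitRel R X)
    (fun (g : P) (x : X) => g • x) (by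
      intro g g' hg x x' hx
      have hg' : g⁻¹ * g' ∈ R := QuotientGroup.leftRel_apply.1 hg
      have hx' : Orb.mk R x = Orb.mk R x' := Quotient.sound hx
      obtain ⟨r, hr, h⟩ := (Orb.mk_eq_iff R x x').1 hx'
      have h1 : Orb.mk R (g • x) = Orb.mk R (g' • x') := by
        rw [Orb.mk_eq_iff]
        refine ⟨g * (r * (g⁻¹ * g')⁻¹) * g⁻¹, ?_, ?_⟩
        · exact ‹R.Normal›.conj_mem _ (mul_mem hr (inv_mem hg')) g
        · rw [smul_smul, ← h, smul_smul]
          congr 1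
          group
      exact Quotient.exact h1) q o

theorem Orb.smul_mk (g : P) (x : X) : Orb.smul R (QuotientGroup.mk g : P ⧸ R) (Orb.mk R x) = Orb.mk R (g • x) := rfl

/-- the action of `P / R` on the orbits of `R` -/
@[instance_reducible] def Orb.mulAction : MulAction (P ⧸ R) (Orb R X) where
  smul := Orb.smul R
  one_smul := fun o => by
    obtain ⟨x, rfl⟩ := Orb.exists_mk R o
    change Orb.smul R ((1 : P) : P ⧸ R) (Orb.mk R x) = _
    rw [Orb.smul_mk, one_smul]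
  mul_smul := fun q q' o => by
    obtain ⟨x, rfl⟩ := Orb.exists_mk R o
    obtain ⟨g, rfl⟩ := QuotientGroup.mk_surjective q
    obtain ⟨g', rfl⟩ := QuotientGroup.mk_surjective q'
    change Orb.smul R ((g : P ⧸ R) * (g' : P ⧸ R)) (Orb.mk R x) =
      Orb.smul R (g : P ⧸ R) (Orb.smul R (g' : P ⧸ R) (Orb.mk R x))
    rw [Orb.smul_mk, Orb.smul_mk, ← mul_smul]
    rfl

end

/-- QS -/
theorem qs : StmtQS := by
  intro P X _ _ R _
  refine ⟨Orb.mk_eq_iff R, Orb.mulAction R, fun g x => rfl, fun x hx => ?_⟩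
  let _ := Orb.mulAction (X := X) R
  have hmem : ∀ g : P, (g : P ⧸ R) ∈ MulAction.stabilizer (P ⧸ R) (Orb.mk R x) ↔ ∃ r ∈ R, r • x = g • x := by
    intro g
    rw [MulAction.mem_stabilizer_iff]
    change Orb.mk R (g • x) = Orb.mk R x ↔ _
    exact Orb.mk_eq_iff R (g • x) x
  symm
  refine Nat.card_congr (Equiv.ofBijective
    (fun g : MulAction.stabilizer P x => (⟨((g : P) : P ⧸ R), (hmem g).2 ⟨1, one_mem R, by
      rw [one_smul]; exact (MulAction.mem_stabilizer_iff.1 g.2).symm⟩⟩ :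
      MulAction.stabilizer (P ⧸ R) (Orb.mk R x))) ⟨?_, ?_⟩)
  · intro g g' h
    have h1 : ((g : P) : P ⧸ R) = ((g' : P) : P ⧸ R) := congrArg Subtype.val h
    have h2 : (g : P)⁻¹ * (g' : P) ∈ R := QuotientGroup.eq.1 h1
    have h3 : ((g : P)⁻¹ * (g' : P)) • x = x :=
      MulAction.mem_stabilizer_iff.1 (mul_mem (inv_mem g.2) g'.2)
    have h4 := hx _ h2 h3
    exact Subtype.ext (inv_mul_eq_one.1 h4)
  · rintro ⟨q, hq⟩
    obtain ⟨g, rfl⟩ := QuotientGroup.mk_surjective q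
    obtain ⟨r, hr, h⟩ := (hmem g).1 hq
    refine ⟨⟨r⁻¹ * g, ?_⟩, ?_⟩
    · rw [MulAction.mem_stabilizer_iff, mul_smul, ← h, inv_smul_smul]
    · refine Subtype.ext ?_
      change ((r⁻¹ * g : P) : P ⧸ R) = (g : P ⧸ R)
      rw [QuotientGroup.eq]
      have : (r⁻¹ * g)⁻¹ * g = g⁻¹ * r * (g⁻¹)⁻¹ := by group
      rw [this]
      exact ‹R.Normal›.conj_mem _ hr _

end Pool.GA
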