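import Pool.Agent.GA.Grp

/-!
# Row RANK, part A: row operators and the mean ergodic theorem
-/

set_option autoImplicit false

open MeasureTheory Complex Filter
open scoped ENNReal Topology InnerProductSpace

namespace Pool.GA.Rk

section del
variable {X : Type}

open Classical in
theorem del_apply (x y : X) : (del x : L2 X) y = if y = x then 1 else 0 := by
  unfold del
  rw [lp.single_apply]
  by_cases h : y = x
  · subst h
    simp
  · rw [if_neg h]
    simp [h]

theorem inner_del (x : X) (f : L2 X) : ⟪del x, f⟫_ℂ = f x := by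
  classical
  unfold del
  rw [lp.inner_single_left]
  simp

theorem norm_del (x : X) : ‖(del x : L2 X)‖ = 1 := by
  classical
  unfold del
  rw [lp.norm_single (by norm_num)]
  simp

theorem norm_apply_le (f : L2 X) (x : X) : ‖f x‖ ≤ ‖f‖ := by
  rw [← inner_del]
  refine (norm_inner_le_norm _ _).trans ?_
  rw [norm_del, one_mul]

theorem L2_ext_inner {f g : L2 X} (h : ∀ x, f x = g x) : f = g := by
  ext x
  exact h x

end del

section row
variable {X Y : Type} (v : Y → L2 X)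

/-- the operator of scalar products with the rows -/
theorem exists_row {C : ℝ} (hC : 0 ≤ C)
    (h : ∀ (x : L2 X) (F : Finset Y), ∑ i ∈ F, ‖⟪v i, x⟫_ℂ‖ ^ 2 ≤ C ^ 2 * ‖x‖ ^ 2) :
    ∃ R : L2 X →L[ℂ] L2 Y, ‖R‖ ≤ C ∧ ∀ x i, R x i = ⟪v i, x⟫_ℂ := by
  have hmem : ∀ x : L2 X, Memℓp (fun i => ⟪v i, x⟫_ℂ) 2 := fun x => by
    refine memℓp_gen' (C := C ^ 2 * ‖x‖ ^ 2) fun s => ?_
    simpa using h x s
  let L : L2 X →ₗ[ℂ] L2 Y :=
    { toFun := fun x => ⟨fun i => ⟪v i, x⟫_ℂ, hmem x⟩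
      map_add' := fun x y => by
        ext i
        exact inner_add_right _ _ _
      map_smul' := fun c x => by
        ext i
        exact inner_smul_right _ _ _ }
  refine ⟨L.mkContinuous C fun x => ?_, L.mkContinuous_norm_le hC _, fun x i => rfl⟩
  refine lp.norm_le_of_forall_sum_le (by norm_num) (by positivity) fun s => ?_
  have h1 := h x s
  have h2 : (2 : ℝ≥0∞).toReal = ((2 : ℕ) : ℝ) := by norm_num
  rw [h2]
  simp only [Real.rpow_natCast]
  rw [mul_pow]
  exact h1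

variable {v} {R : L2 X →L[ℂ] L2 Y} (hR : ∀ x i, R x i = ⟪v i, x⟫_ℂ)
include hR

theorem row_adj (i : Y) : ContinuousLinearMap.adjoint R (del i) = v i := by
  refine ext_inner_right ℂ fun x => ?_
  rw [ContinuousLinearMap.adjoint_inner_left, inner_del, hR]

theorem row_ker (x : L2 X) : R x = 0 ↔ x ∈ (Submodule.span ℂ (Set.range v))ᗮ := by
  rw [Submodule.mem_orthogonal]
  constructor
  · intro h u hu
    induction hu using Submodule.span_induction with
    | mem u hu =>
      obtain ⟨i, rfl⟩ := hu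
      rw [← hR, h]
      rfl
    | zero => exact inner_zero_left _
    | add a b _ _ ha hb => rw [inner_add_left, ha, hb, add_zero]
    | smul c a _ ha => rw [inner_smul_left, ha, mul_zero]
  · intro h
    ext i
    rw [hR]
    exact h _ (Submodule.subset_span ⟨i, rfl⟩)

end row

section erg
variable {H H' : Type*} [NormedAddCommGroup H] [InnerProductSpace ℂ H] [CompleteSpace H]
  [NormedAddCommGroup H'] [InnerProductSpace ℂ H'] [CompleteSpace H']

/-- the contraction `1 - C⁻² R* R` -/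
noncomputable def Uop (R : H →L[ℂ] H') (C : ℝ) : H →L[ℂ] H :=
  1 - ((C ^ 2)⁻¹ : ℂ) • (ContinuousLinearMap.adjoint R ∘L R)

theorem Uop_apply (R : H →L[ℂ] H') (C : ℝ) (x : H) :
    Uop R C x = x - ((C ^ 2)⁻¹ : ℂ) • ContinuousLinearMap.adjoint R (R x) := rfl

theorem Uop_norm {R : H →L[ℂ] H'} {C : ℝ} (hC : 0 < C) (hR : ‖R‖ ≤ C) : ‖Uop R C‖ ≤ 1 := by
  refine ContinuousLinearMap.opNorm_le_bound _ zero_le_one fun x => ?_
  rw [one_mul, Uop_apply]
  have h1 : ‖x - ((C ^ 2)⁻¹ : ℂ) • ContinuousLinearMap.adjoint R (R x)‖ ^ 2 ≤ ‖x‖ ^ 2 := by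
    rw [@norm_sub_sq ℂ]
    have e1 : RCLike.re (inner ℂ x (((C ^ 2)⁻¹ : ℂ) • ContinuousLinearMap.adjoint R (R x))) =
        (C ^ 2)⁻¹ * ‖R x‖ ^ 2 := by
      rw [inner_smul_right, ContinuousLinearMap.adjoint_inner_right, inner_self_eq_norm_sq_to_K]
      have : ((C ^ 2)⁻¹ : ℂ) * ((‖R x‖ : ℂ)) ^ 2 = (((C ^ 2)⁻¹ * ‖R x‖ ^ 2 : ℝ) : ℂ) := by
        push_cast
        ring
      rw [show ((‖R x‖ : ℝ) : ℂ) = (‖R x‖ : ℂ) from rfl] at *
      erw [this]
      exact Complex.ofReal_re _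
    have e2 : ‖((C ^ 2)⁻¹ : ℂ) • ContinuousLinearMap.adjoint R (R x)‖ ≤ (C ^ 2)⁻¹ * (C * ‖R x‖) := by
      rw [norm_smul]
      have : ‖((C ^ 2)⁻¹ : ℂ)‖ = (C ^ 2)⁻¹ := by
        rw [norm_inv, norm_pow, Complex.norm_real, Real.norm_of_nonneg hC.le]
      rw [this]
      refine mul_le_mul_of_nonneg_left ?_ (by positivity)
      refine (ContinuousLinearMap.le_opNorm _ _).trans ?_
      refine mul_le_mul_of_nonneg_right ?_ (norm_nonneg _)
      rw [LinearIsometryEquiv.norm_map]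
      exact hR
    have e3 : ‖((C ^ 2)⁻¹ : ℂ) • ContinuousLinearMap.adjoint R (R x)‖ ^ 2 ≤
        (C ^ 2)⁻¹ * ‖R x‖ ^ 2 := by
      refine (pow_le_pow_left₀ (norm_nonneg _) e2 2).trans (le_of_eq ?_)
      field_simp
    rw [e1]
    have e4 : 0 ≤ (C ^ 2)⁻¹ * ‖R x‖ ^ 2 := by positivity
    linarith
  exact (sq_le_sq₀ (norm_nonneg _) (norm_nonneg _)).1 h1

theorem Uop_fix {R : H →L[ℂ] H'} {C : ℝ} (hC : 0 < C) (x : H) : Uop R C x = x ↔ R x = 0 := by
  rw [Uop_apply, sub_eq_self, smul_eq_zero]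
  constructor
  · rintro (h | h)
    · exfalso
      have : (C : ℂ) ≠ 0 := by exact_mod_cast hC.ne'
      exact inv_ne_zero (pow_ne_zero 2 this) h
    · have h1 : inner ℂ x (ContinuousLinearMap.adjoint R (R x)) = 0 := by rw [h, inner_zero_right]
      rw [ContinuousLinearMap.adjoint_inner_right] at h1
      exact inner_self_eq_zero.1 h1
  · intro h
    right
    rw [h, map_zero]

end erg

section nu
variable {X Y E : Type} (S : Sys X Y E)

theorem N_orth_proj (z : E → ℂ) (x : X) (V : Submodule ℂ (L2 X)) [V.HasOrthogonalProjection]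
    (hV : V = (S.N z)ᗮ) : ((V.starProjection (del x)) x).re = 1 - S.nu z x := by
  classical
  subst hV
  unfold Sys.nu
  rw [Submodule.starProjection_orthogonal_val]
  show ((del x : L2 X) x - (S.N z).starProjection (del x) x).re = _
  rw [del_apply, if_pos rfl, Complex.sub_re, Complex.one_re]

theorem eqLocus_eq (z : E → ℂ) {R : L2 X →L[ℂ] L2 Y} {C : ℝ} (hC : 0 < C)
    (hR : ∀ x i, R x i = ⟪S.vec z i, x⟫_ℂ) :
    (Uop R C).eqLocus (1 : L2 X →L[ℂ] L2 X) = (S.N z)ᗮ := by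
  ext x
  unfold Sys.N
  rw [Submodule.orthogonal_closure, ← row_ker hR, ← Uop_fix hC x]
  rfl

theorem nu_lim (z : E → ℂ) {R : L2 X →L[ℂ] L2 Y} {C : ℝ} (hC : 0 < C) (hRC : ‖R‖ ≤ C)
    (hR : ∀ x i, R x i = ⟪S.vec z i, x⟫_ℂ) (x : X) :
    Tendsto (fun n : ℕ => (birkhoffAverage ℂ (Uop R C) _root_.id n (del x) x).re) atTop
      (𝓝 (1 - S.nu z x)) := by
  have h1 := ContinuousLinearMap.tendsto_birkhoffAverage_orthogonalProjection (Uop R C)
    (Uop_norm hC hRC) (del x)
  have h2 : Continuous fun f : L2 X => (f x).re := by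
    have : (fun f : L2 X => (f x).re) = fun f : L2 X => (⟪del x, f⟫_ℂ).re := by
      funext f
      rw [inner_del]
    rw [this]
    exact Complex.continuous_re.comp (continuous_const.inner continuous_id)
  have h3 := (h2.tendsto _).comp h1
  have h4 := N_orth_proj S z x ((Uop R C).eqLocus (1 : L2 X →L[ℂ] L2 X)) (eqLocus_eq S z hC hR)
  rw [← h4]
  exact h3

theorem avg_norm {R : L2 X →L[ℂ] L2 Y} {C : ℝ} (hC : 0 < C) (hRC : ‖R‖ ≤ C) (x : X) (n : ℕ) :
    ‖birkhoffAverage ℂ (Uop R C) _root_.id n (del x)‖ ≤ 1 := by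
  have h1 : ∀ k, ‖(Uop R C)^[k] (del x)‖ ≤ 1 := by
    intro k
    induction k with
    | zero => exact (norm_del x).le
    | succ k ih =>
      rw [Function.iterate_succ_apply']
      refine ((Uop R C).le_opNorm _).trans ?_
      have := mul_le_mul (Uop_norm hC hRC) ih (norm_nonneg _) zero_le_one
      rwa [one_mul] at this
  unfold birkhoffAverage birkhoffSum
  rw [norm_smul, norm_inv, Complex.norm_natCast]
  rcases Nat.eq_zero_or_pos n with h0 | h0
  · subst h0
    simp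
  have h2 : ‖∑ k ∈ Finset.range n, _root_.id ((Uop R C)^[k] (del x))‖ ≤ n := by
    refine (norm_sum_le _ _).trans ?_
    refine (Finset.sum_le_sum fun k _ => h1 k).trans ?_
    simp
  have h3 : (0 : ℝ) < n := by exact_mod_cast h0
  rw [inv_mul_le_iff₀ h3, mul_one]
  exact h2

end nu

end Pool.GA.Rk
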