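import Pool.Agent.GA.RankA

/-!
# Row RANK, part B: phases and the rows of the system of a matrix over `K[G]`
-/

set_option autoImplicit false

open MeasureTheory Complex Filter
open scoped ENNReal Topology InnerProductSpace ComplexConjugate

namespace Pool.GA.Rk

section phz
variable {E : Type}

/-- phase of an integral chain -/
noncomputable def phz (ω : E → ℝ) (c : E →₀ ℤ) : ℂ :=
  Complex.exp (((c.sum fun e k => (k : ℝ) * ω e : ℝ) : ℂ) * I)

theorem phz_add (ω : E → ℝ) (c d : E →₀ ℤ) : phz ω (c + d) = phz ω c * phz ω d := by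
  classical
  unfold phz
  rw [Finsupp.sum_add_index' (fun e => by simp) (fun e k l => by push_cast; ring),
    ← Complex.exp_add]
  push_cast
  ring_nf

theorem phz_zero (ω : E → ℝ) : phz ω (0 : E →₀ ℤ) = 1 := by
  unfold phz
  simp

theorem phz_norm (ω : E → ℝ) (c : E →₀ ℤ) : ‖phz ω c‖ = 1 := by
  unfold phz
  exact Complex.norm_exp_ofReal_mul_I _

theorem phz_conj (ω : E → ℝ) (c : E →₀ ℤ) : conj (phz ω c) * phz ω c = 1 := by
  rw [mul_comm, Complex.mul_conj, Complex.normSq_eq_norm_sq, phz_norm]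
  norm_num

theorem phz_prod (ω : E → ℝ) (d : E →₀ ℕ) :
    (d.prod fun e k => ph ω e ^ k) = phz ω (d.mapRange (fun k : ℕ => (k : ℤ)) (by simp)) := by
  classical
  unfold phz ph
  rw [Finsupp.sum_mapRange_index (fun e => by simp)]
  unfold Finsupp.sum Finsupp.prod
  rw [Complex.ofReal_sum, Finset.sum_mul, Complex.exp_sum]
  refine Finset.prod_congr rfl fun e _ => ?_
  show Complex.exp ((ω e : ℂ) * I) ^ d e = Complex.exp (((((d e : ℕ) : ℤ) : ℝ) * ω e : ℝ) * I)
  rw [← Complex.exp_nat_mul]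
  congr 1
  push_cast
  ring

end phz

section tr
variable {Q A : Type} [Group Q]

theorem tr_add (y : Q) (c d : Q × A →₀ ℤ) : tr y (c + d) = tr y c + tr y d := by
  ext p
  simp only [tr_apply, Finsupp.add_apply]

theorem tr_zero' (y : Q) : tr y (0 : Q × A →₀ ℤ) = 0 := by
  ext p
  simp only [tr_apply, Finsupp.zero_apply]

theorem tr_eq_zero {y : Q} {c : Q × A →₀ ℤ} (h : tr y c = 0) : c = 0 := by
  ext p
  have h1 := congrArg (fun d : Q × A →₀ ℤ => d (y * p.1, p.2)) h
  simpa [tr_apply] using h1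

end tr

section vec
variable {X Y E : Type} (S : Sys X Y E)

theorem sum_del_apply {α : Type*} {X : Type} (s : Finset α) (c : α → ℂ) (x : α → X) (y : X)
    [DecidableEq X] :
    (∑ a ∈ s, c a • del (x a) : L2 X) y = ∑ a ∈ s, if y = x a then c a else 0 := by
  classical
  rw [← inner_del, inner_sum]
  refine Finset.sum_congr rfl fun a _ => ?_
  rw [inner_smul_right, inner_del, del_apply]
  by_cases h : y = x a
  · rw [if_pos h, if_pos h, mul_one]
  · rw [if_neg h, if_neg h, mul_zero]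

theorem vec_apply (z : E → ℂ) (i : Y) (x : X) : S.vec z i x = MvPolynomial.eval z (S.a i x) := by
  classical
  unfold Sys.vec
  rw [sum_del_apply]
  rw [Finset.sum_ite_eq]
  split_ifs with h
  · rfl
  · have : S.a i x = 0 := by
      by_contra h0
      exact h ((S.row i).mem_toFinset.2 h0)
    rw [this, map_zero]

end vec

section grp
variable {G Q A : Type} [Group G] [Group Q] {K : Subfield ℂ} {ι κ : Type} [Fintype ι] [Fintype κ]
  (D : GData G Q A) (M : Matrix ι κ (MonoidAlgebra K G))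

theorem c_one : D.c 1 = 0 := by
  have h := D.mul 1 1
  rw [mul_one, map_one] at h
  have h1 : tr (1 : Q) (D.c 1) = D.c 1 := by
    ext p
    rw [tr_apply]
    simp
  rw [h1] at h
  exact left_eq_add.1 h

/-- the phase of `c g` seen from `x` -/
noncomputable def pg (ω : Q × A → ℝ) (x : Q) (g : G) : ℂ := phz ω (tr x (D.c g))

theorem pg_mul (ω : Q × A → ℝ) (x : Q) (g h : G) :
    pg D ω x (g * h) = pg D ω x g * pg D ω (x * D.q g) h := by
  unfold pg
  rw [D.mul, tr_add, phz_add, tr_tr]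

theorem pg_one (ω : Q × A → ℝ) (x : Q) : pg D ω x 1 = 1 := by
  unfold pg
  rw [c_one, tr_zero', phz_zero]

theorem pg_conj (ω : Q × A → ℝ) (x : Q) (g : G) : conj (pg D ω x g) * pg D ω x g = 1 :=
  phz_conj _ _

theorem pg_norm (ω : Q × A → ℝ) (x : Q) (g : G) : ‖pg D ω x g‖ = 1 := phz_norm _ _

/-- the phase of the denominator of the row over `y` -/
noncomputable def pd (ω : Q × A → ℝ) (y : Q) : ℂ :=
  phz ω ((tr y (den D M)).mapRange (fun k : ℕ => (k : ℤ)) (by simp))

theorem pd_conj (ω : Q × A → ℝ) (y : Q) : conj (pd D M ω y) * pd D M ω y = 1 := phz_conj _ _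

theorem pd_norm (ω : Q × A → ℝ) (y : Q) : ‖pd D M ω y‖ = 1 := phz_norm _ _

theorem expo_prod {i : ι} {j : κ} {g : G} (hg : g ∈ (M i j).coeff.support) (ω : Q × A → ℝ) (y : Q) :
    ((expo D M y g).prod fun e k => ph ω e ^ k) = pd D M ω y * pg D ω y g := by
  rw [phz_prod]
  unfold pd pg
  rw [← phz_add]
  congr 1
  ext p
  rw [Finsupp.mapRange_apply, Finsupp.add_apply, Finsupp.mapRange_apply,
    expo_cast D M hg, add_comm]

/-- the places of row `i` -/
noncomputable def pl (i : ι) : Finset (Σ _ : κ, G) :=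
  Finset.univ.sigma fun j => (M i j).coeff.support

/-- the coefficients of row `i` -/
noncomputable def cf (i : ι) (p : Σ _ : κ, G) : ℂ := ((M i p.1).coeff p.2 : ℂ)

theorem vec_eq (S : Sys (Q × κ) (Q × ι) (Q × A)) (hS : S.a = ent D M) (ω : Q × A → ℝ) (y : Q) (i : ι) :
    S.vec (ph ω) (y, i) =
      ∑ p ∈ pl M i, (pd D M ω y * pg D ω y p.2 * cf M i p) • del (y * D.q p.2, p.1) := by
  classical
  refine L2_ext_inner fun x => ?_
  rw [vec_apply, sum_del_apply, hS]
  unfold ent pl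
  rw [map_sum, Finset.sum_sigma, Finset.sum_filter, Finset.sum_eq_single x.2]
  · refine Finset.sum_congr rfl fun g hg => ?_
    by_cases h : y * D.q g = x.1
    · rw [if_pos h, if_pos (Prod.ext h.symm rfl : x = (y * D.q g, x.2)), MvPolynomial.eval_monomial,
        expo_prod D M hg]
      unfold cf
      ring
    · rw [if_neg h, if_neg]
      intro h'
      exact h (by rw [h'])
  · intro j _ hj
    refine Finset.sum_eq_zero fun g _ => ?_
    rw [if_neg]
    intro h'
    exact hj (by rw [h'])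
  · intro h
    exact absurd (Finset.mem_univ _) h

/-- the bound -/
noncomputable def CC : ℝ := 1 + ∑ i, ∑ p ∈ pl M i, ‖cf M i p‖

omit [Group G] in
theorem CC_pos : 0 < CC M := by
  unfold CC
  positivity

theorem row_bound (S : Sys (Q × κ) (Q × ι) (Q × A)) (hS : S.a = ent D M) (ω : Q × A → ℝ)
    (x : L2 (Q × κ)) (F : Finset (Q × ι)) :
    ∑ i ∈ F, ‖⟪S.vec (ph ω) i, x⟫_ℂ‖ ^ 2 ≤ CC M ^ 2 * ‖x‖ ^ 2 := by
  classical
  set L : ι → ℝ := fun i => ∑ p ∈ pl M i, ‖cf M i p‖ with hL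
  have hL0 : ∀ i, 0 ≤ L i := fun i => Finset.sum_nonneg fun p _ => norm_nonneg _
  have hLC : ∀ i, L i ≤ CC M := by
    intro i
    have h1 := Finset.single_le_sum (f := L) (fun i _ => hL0 i) (Finset.mem_univ i)
    unfold CC
    linarith
  have hLs : ∑ i, L i ≤ CC M := by
    unfold CC
    linarith
  have h1 : ∀ y i, ‖⟪S.vec (ph ω) (y, i), x⟫_ℂ‖ ^ 2 ≤
      L i * ∑ p ∈ pl M i, ‖cf M i p‖ * ‖x (y * D.q p.2, p.1)‖ ^ 2 := by
    intro y i
    have e1 : ‖⟪S.vec (ph ω) (y, i), x⟫_ℂ‖ ≤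
        ∑ p ∈ pl M i, ‖cf M i p‖ * ‖x (y * D.q p.2, p.1)‖ := by
      rw [vec_eq D M S hS, sum_inner]
      refine (norm_sum_le _ _).trans (Finset.sum_le_sum fun p _ => ?_)
      rw [inner_smul_left, inner_del, norm_mul, RCLike.norm_conj, norm_mul, norm_mul, pd_norm,
        pg_norm, one_mul, one_mul]
    refine (pow_le_pow_left₀ (norm_nonneg _) e1 2).trans ?_
    refine Finset.sum_sq_le_sum_mul_sum_of_sq_le_mul _ (fun p _ => norm_nonneg _)
      (fun p _ => by positivity) fun p _ => le_of_eq ?_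
    ring
  have h2 : ∀ (g : G) (j : κ) (F' : Finset Q), ∑ y ∈ F', ‖x (y * D.q g, j)‖ ^ 2 ≤ ‖x‖ ^ 2 := by
    intro g j F'
    have h3 := lp.sum_rpow_le_norm_rpow (p := 2) (by norm_num) x
      (F'.image fun y => (y * D.q g, j))
    rw [Finset.sum_image (fun a _ b _ h => by simpa using h)] at h3
    have h4 : (2 : ℝ≥0∞).toReal = ((2 : ℕ) : ℝ) := by norm_num
    rw [h4] at h3
    simpa only [Real.rpow_natCast] using h3
  have h5 : ∑ i ∈ F, ‖⟪S.vec (ph ω) i, x⟫_ℂ‖ ^ 2 ≤
      ∑ i : ι, ∑ y ∈ F.image Prod.fst, ‖⟪S.vec (ph ω) (y, i), x⟫_ℂ‖ ^ 2 := by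
    rw [Finset.sum_comm, ← Finset.sum_product (s := F.image Prod.fst) (t := (Finset.univ : Finset ι))
      (f := fun q => ‖⟪S.vec (ph ω) (q.1, q.2), x⟫_ℂ‖ ^ 2)]
    refine Finset.sum_le_sum_of_subset_of_nonneg (fun q hq => ?_) fun q _ _ => by positivity
    rw [Finset.mem_product]
    exact ⟨Finset.mem_image_of_mem _ hq, Finset.mem_univ _⟩
  refine h5.trans ?_
  calc ∑ i : ι, ∑ y ∈ F.image Prod.fst, ‖⟪S.vec (ph ω) (y, i), x⟫_ℂ‖ ^ 2
      ≤ ∑ i : ι, L i * (L i * ‖x‖ ^ 2) := by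
        refine Finset.sum_le_sum fun i _ => ?_
        refine (Finset.sum_le_sum fun y _ => h1 y i).trans ?_
        rw [← Finset.mul_sum, Finset.sum_comm]
        refine mul_le_mul_of_nonneg_left ?_ (hL0 i)
        rw [hL]
        simp only
        rw [Finset.sum_mul]
        refine Finset.sum_le_sum fun p _ => ?_
        rw [← Finset.mul_sum]
        exact mul_le_mul_of_nonneg_left (h2 _ _ _) (norm_nonneg _)
    _ ≤ ∑ i : ι, L i * (CC M * ‖x‖ ^ 2) := by
        refine Finset.sum_le_sum fun i _ => ?_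
        refine mul_le_mul_of_nonneg_left ?_ (hL0 i)
        exact mul_le_mul_of_nonneg_right (hLC i) (by positivity)
    _ = (∑ i : ι, L i) * (CC M * ‖x‖ ^ 2) := by rw [Finset.sum_mul]
    _ ≤ CC M * (CC M * ‖x‖ ^ 2) :=
        mul_le_mul_of_nonneg_right hLs (mul_nonneg (CC_pos M).le (by positivity))
    _ = CC M ^ 2 * ‖x‖ ^ 2 := by ring

section op
variable {D M} {S : Sys (Q × κ) (Q × ι) (Q × A)} (hS : S.a = ent D M) {ω : Q × A → ℝ}
  {R : L2 (Q × κ) →L[ℂ] L2 (Q × ι)} (hR : ∀ x i, R x i = ⟪S.vec (ph ω) i, x⟫_ℂ)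
include hS hR

theorem R_del (x : Q) (j : κ) : R (del (x, j)) = ∑ i, ∑ h ∈ (M i j).coeff.support,
    conj (pd D M ω (x * (D.q h)⁻¹) * pg D ω (x * (D.q h)⁻¹) h * ((M i j).coeff h : ℂ)) •
      del (x * (D.q h)⁻¹, i) := by
  classical
  refine L2_ext_inner fun y => ?_
  obtain ⟨y, i⟩ := y
  rw [hR, ← inner_conj_symm, inner_del, vec_eq D M S hS, sum_del_apply]
  have e1 : (∑ i, ∑ h ∈ (M i j).coeff.support,
      conj (pd D M ω (x * (D.q h)⁻¹) * pg D ω (x * (D.q h)⁻¹) h * ((M i j).coeff h : ℂ)) •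
      del (x * (D.q h)⁻¹, i) : L2 (Q × ι)) (y, i) =
      ∑ i', ∑ h ∈ (M i' j).coeff.support, if (y, i) = (x * (D.q h)⁻¹, i') then
        conj (pd D M ω (x * (D.q h)⁻¹) * pg D ω (x * (D.q h)⁻¹) h * ((M i' j).coeff h : ℂ)) else 0 := by
    rw [← inner_del, inner_sum]
    refine Finset.sum_congr rfl fun i' _ => ?_
    rw [inner_del, sum_del_apply]
  rw [e1, Finset.sum_eq_single i, map_sum]
  · unfold pl
    rw [Finset.sum_sigma, Finset.sum_eq_single j]
    · refine Finset.sum_congr rfl fun g _ => ?_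
      by_cases h : (x, j) = (y * D.q g, j)
      · have h1 : x = y * D.q g := congrArg Prod.fst h
        have h2 : y = x * (D.q g)⁻¹ := by rw [h1]; simp
        rw [if_pos h, if_pos (by rw [← h2]), ← h2]
        rfl
      · rw [if_neg h, if_neg, map_zero]
        intro h'
        have h1 : y = x * (D.q g)⁻¹ := congrArg Prod.fst h'
        exact h (by rw [h1]; simp)
    · intro j' _ hj'
      refine Finset.sum_eq_zero fun g _ => ?_
      rw [if_neg, map_zero]
      intro h'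
      exact hj' (congrArg Prod.snd h').symm
    · intro h
      exact absurd (Finset.mem_univ _) h
  · intro i' _ hi'
    refine Finset.sum_eq_zero fun g _ => ?_
    rw [if_neg]
    intro h'
    exact hi' (congrArg Prod.snd h').symm
  · intro h
    exact absurd (Finset.mem_univ _) h

theorem T_del (x : Q) (j : κ) : ContinuousLinearMap.adjoint R (R (del (x, j))) =
    ∑ i, ∑ h ∈ (M i j).coeff.support, ∑ p ∈ pl M i,
      (conj ((M i j).coeff h : ℂ) * cf M i p * pg D ω x (h⁻¹ * p.2)) •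
        del (x * D.q (h⁻¹ * p.2), p.1) := by
  classical
  rw [R_del hS hR, map_sum]
  refine Finset.sum_congr rfl fun i _ => ?_
  rw [map_sum]
  refine Finset.sum_congr rfl fun h _ => ?_
  rw [map_smul, row_adj hR, vec_eq D M S hS, Finset.smul_sum]
  refine Finset.sum_congr rfl fun p _ => ?_
  rw [smul_smul]
  have e1 : x * (D.q h)⁻¹ * D.q p.2 = x * D.q (h⁻¹ * p.2) := by
    rw [map_mul, map_inv, mul_assoc]
  have e2 : pg D ω (x * (D.q h)⁻¹) p.2 = pg D ω (x * (D.q h)⁻¹) h * pg D ω x (h⁻¹ * p.2) := by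
    have := pg_mul D ω (x * (D.q h)⁻¹) h (h⁻¹ * p.2)
    rw [mul_inv_cancel_left, inv_mul_cancel_right] at this
    exact this
  rw [e1, e2, map_mul, map_mul]
  congr 1
  have e3 := pd_conj D M ω (x * (D.q h)⁻¹)
  have e4 := pg_conj D ω (x * (D.q h)⁻¹) h
  linear_combination (conj ((M i j).coeff h : ℂ) * cf M i p * pg D ω x (h⁻¹ * p.2)) *
    (conj (pg D ω (x * (D.q h)⁻¹) h) * pg D ω (x * (D.q h)⁻¹) h * e3 + e4)

end op

end grp

end Pool.GA.Rk
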