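import Pool.Agent.GA.RankB

/-!
# Row RANK, part C: the group side and the expectation
-/

set_option autoImplicit false
set_option linter.unusedSectionVars false

open MeasureTheory Complex Filter
open scoped ENNReal Topology InnerProductSpace ComplexConjugate

namespace Pool.GA.Rk

section grp
variable {G Q A : Type} [Group G] [Group Q] {K : Subfield ℂ} {ι κ : Type} [Fintype ι] [Fintype κ]
  (D : GData G Q A) (M : Matrix ι κ (MonoidAlgebra K G))

/-- `r_{M M*}` on finitely supported functions -/
noncomputable def TG : (G × κ →₀ ℂ) →ₗ[ℂ] (G × κ →₀ ℂ) :=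
  Finsupp.linearCombination ℂ fun q : G × κ => ∑ i, ∑ h ∈ (M i q.2).coeff.support, ∑ p ∈ pl M i,
    (conj ((M i q.2).coeff h : ℂ) * cf M i p) • Finsupp.single (q.1 * (h⁻¹ * p.2), p.1) (1 : ℂ)

/-- `1 - C⁻² r_{M M*}` -/
noncomputable def UG : (G × κ →₀ ℂ) →ₗ[ℂ] (G × κ →₀ ℂ) :=
  LinearMap.id - ((CC M : ℂ) ^ 2)⁻¹ • TG M

/-- the vector over `x` of a finitely supported function on `G × κ` -/
noncomputable def hat (ω : Q × A → ℝ) (x : Q) : (G × κ →₀ ℂ) →ₗ[ℂ] L2 (Q × κ) :=
  Finsupp.linearCombination ℂ fun q : G × κ => pg D ω x q.1 • del (x * D.q q.1, q.2)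

theorem hat_single (ω : Q × A → ℝ) (x : Q) (g : G) (j : κ) (a : ℂ) :
    hat D ω x (Finsupp.single (g, j) a) = a • pg D ω x g • del (x * D.q g, j) := by
  unfold hat
  rw [Finsupp.linearCombination_single]

theorem hat_one (ω : Q × A → ℝ) (x : Q) (j : κ) :
    hat D ω x (Finsupp.single (1, j) 1) = del (x, j) := by
  rw [hat_single, pg_one, one_smul, one_smul, map_one, mul_one]

section op
variable {D M} {S : Sys (Q × κ) (Q × ι) (Q × A)} (hS : S.a = ent D M) {ω : Q × A → ℝ}
  {R : L2 (Q × κ) →L[ℂ] L2 (Q × ι)} (hR : ∀ x i, R x i = ⟪S.vec (ph ω) i, x⟫_ℂ)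
include hS hR

theorem hat_T (x : Q) (f : G × κ →₀ ℂ) :
    ContinuousLinearMap.adjoint R (R (hat D ω x f)) = hat D ω x (TG M f) := by
  classical
  induction f using Finsupp.induction_linear with
  | zero => simp
  | add f g hf hg => simp only [map_add, hf, hg]
  | single q a =>
    obtain ⟨g, j⟩ := q
    rw [hat_single, map_smul, map_smul, map_smul, map_smul, T_del hS hR]
    unfold TG
    rw [Finsupp.linearCombination_single, map_smul]
    congr 1
    simp only [map_sum, Finset.smul_sum, map_smul, hat_single, one_smul]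
    refine Finset.sum_congr rfl fun i _ => Finset.sum_congr rfl fun h _ =>
      Finset.sum_congr rfl fun p _ => ?_
    rw [smul_smul, smul_smul, pg_mul D ω x g, map_mul D.q g, mul_assoc x]
    congr 1
    ring

theorem hat_U (x : Q) (f : G × κ →₀ ℂ) :
    Uop R (CC M) (hat D ω x f) = hat D ω x (UG M f) := by
  rw [Uop_apply, hat_T hS hR]
  unfold UG
  rw [LinearMap.sub_apply, LinearMap.id_apply, map_sub, LinearMap.smul_apply, map_smul]

theorem hat_iter (x : Q) (f : G × κ →₀ ℂ) (n : ℕ) :
    (Uop R (CC M))^[n] (hat D ω x f) = hat D ω x ((UG M)^[n] f) := by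
  induction n with
  | zero => rfl
  | succ n ih => rw [Function.iterate_succ_apply', Function.iterate_succ_apply', ih, hat_U hS hR]

theorem hat_avg (x : Q) (f : G × κ →₀ ℂ) (n : ℕ) :
    birkhoffAverage ℂ (Uop R (CC M)) _root_.id n (hat D ω x f) =
      hat D ω x (birkhoffAverage ℂ (UG M) _root_.id n f) := by
  unfold birkhoffAverage birkhoffSum
  rw [map_smul, map_sum]
  congr 1
  exact Finset.sum_congr rfl fun k _ => hat_iter hS hR x f k

end op

/-- the diagonal value is a trigonometric polynomial -/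
theorem hat_apply [DecidableEq Q] [DecidableEq κ] (ω : Q × A → ℝ) (x : Q) (j : κ) (f : G × κ →₀ ℂ) :
    hat D ω x f (x, j) = ∑ q ∈ f.support, if (x, j) = (x * D.q q.1, q.2) then f q * pg D ω x q.1 else 0 := by
  classical
  unfold hat
  rw [Finsupp.linearCombination_apply, Finsupp.sum]
  simp only [smul_smul]
  rw [sum_del_apply]

end grp

section int
variable {E : Type}

theorem prob_mu0 : IsProbabilityMeasure mu0 := by
  constructor
  unfold mu0
  rw [Measure.smul_apply, Measure.restrict_apply_univ, Real.volume_Ioc, sub_zero, smul_eq_mul]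
  exact ENNReal.inv_mul_cancel (by simp [Real.pi_pos]) ENNReal.ofReal_ne_top

attribute [local instance] prob_mu0

theorem prob_mu : IsProbabilityMeasure (mu E) := by
  unfold mu
  infer_instance

attribute [local instance] prob_mu

theorem int_mu0 (k : ℤ) (hk : k ≠ 0) :
    ∫ t, Complex.exp (((k : ℝ) * t : ℝ) * I) ∂mu0 = 0 := by
  unfold mu0
  rw [integral_smul_measure, ← intervalIntegral.integral_of_le Real.two_pi_pos.le]
  have h1 : ∀ t : ℝ, Complex.exp (((k : ℝ) * t : ℝ) * I) = Complex.exp ((k * I : ℂ) * t) := by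
    intro t
    congr 1
    push_cast
    ring
  simp only [h1]
  have h2 : (k * I : ℂ) ≠ 0 := mul_ne_zero (by exact_mod_cast hk) I_ne_zero
  rw [integral_exp_mul_complex h2]
  have h3 : Complex.exp ((k * I : ℂ) * ((2 * Real.pi : ℝ) : ℂ)) = 1 := by
    rw [Complex.exp_eq_one_iff]
    exact ⟨k, by push_cast; ring⟩
  rw [h3]
  simp

theorem phz_meas (c : E →₀ ℤ) : Measurable fun ω : E → ℝ => phz ω c := by
  unfold phz Finsupp.sum
  refine Complex.measurable_exp.comp ?_
  refine Measurable.mul_const ?_ _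
  refine Complex.measurable_ofReal.comp ?_
  exact Finset.measurable_sum _ fun e _ => (measurable_pi_apply e).const_mul _

theorem int_phz (c : E →₀ ℤ) (hc : c ≠ 0) : ∫ ω, phz ω c ∂(mu E) = 0 := by
  classical
  have h1 : ∀ ω : E → ℝ, phz ω c =
      (fun y : c.support → ℝ => ∏ e : c.support, Complex.exp (((c e : ℝ) * y e : ℝ) * I))
        (c.support.restrict ω) := by
    intro ω
    unfold phz Finsupp.sum
    simp only [Finset.restrict]
    rw [Finset.prod_coe_sort c.support (fun e => Complex.exp (((c e : ℝ) * ω e : ℝ) * I)),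
      ← Complex.exp_sum, Complex.ofReal_sum, Finset.sum_mul]
  rw [integral_congr_ae (Filter.Eventually.of_forall h1)]
  unfold mu
  refine (integral_restrict_infinitePi (X := fun _ : E => ℝ) (fun _ : E => mu0) (s := c.support)
    (f := fun y : c.support → ℝ =>
    ∏ e : c.support, Complex.exp (((c e : ℝ) * y e : ℝ) * I)) ?_).trans ?_
  rotate_left
  · rw [integral_fintype_prod_eq_prod (𝕜 := ℂ)
      (f := fun (e : c.support) (t : ℝ) => Complex.exp (((c e : ℝ) * t : ℝ) * I))]
    obtain ⟨e, he⟩ := Finsupp.support_nonempty_iff.2 hc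
    refine Finset.prod_eq_zero (Finset.mem_univ (⟨e, he⟩ : c.support)) ?_
    exact int_mu0 _ (Finsupp.mem_support_iff.1 he)
  · refine Measurable.aestronglyMeasurable ?_
    refine Finset.measurable_prod _ fun e _ => ?_
    refine Complex.measurable_exp.comp ?_
    refine Measurable.mul_const ?_ _
    refine Complex.measurable_ofReal.comp ?_
    exact (measurable_pi_apply e).const_mul _

end int

end Pool.GA.Rk
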