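import Pool.Agent.GA.Final

/-!
# MP_585e9a_al, project FRR: the gauge relation for a matrix over `K[G]`
-/

set_option autoImplicit false

open MeasureTheory Complex Filter
open scoped ENNReal Topology

namespace Pool.GA

open Classical in
/-- gauge weights with several base points -/
theorem gauge_fin {G Q A : Type} [Group G] [Group Q] (K : Subfield ℂ) (ι κ : Type) [Fintype ι]
    [Fintype κ] (D : GData G Q A) (M : Matrix ι κ (MonoidAlgebra K G)) (S : Sys (Q × κ) (Q × ι) (Q × A))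
    (hS : S.a = ent D M) (w : Q × A →₀ ℤ) (B : Finset Q) (h : ∀ y i j, ∀ g ∈ (M i j).coeff.support,
    pair w (tr y (D.c g)) = (if y ∈ B then 1 else 0) - (if y * D.q g ∈ B then 1 else 0)) :
    S.Gauge w (∑ x ∈ B, ∑ j : κ, Finsupp.single (x, j) 1) := by
  refine ⟨fun y => (if y.1 ∈ B then 1 else 0) +
    pair w ((tr y.1 (den D M)).mapRange (fun k : ℕ => (k : ℤ)) (by simp)), fun y x' => ?_⟩
  rw [hS]
  refine ent_homog D M w y x' _ fun g hg he => ?_
  rw [weight_expo D M w hg, h y.1 y.2 x'.2 g hg, he]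
  have h1 : (∑ x ∈ B, ∑ j : κ, Finsupp.single (x, j) (1 : ℤ)) x' = if x'.1 ∈ B then 1 else 0 := by
    rw [Finsupp.coe_finsetSum, Finset.sum_apply]
    have h2 : ∀ x ∈ B, (∑ j : κ, Finsupp.single (x, j) (1 : ℤ)) x' = if x = x'.1 then 1 else 0 := by
      intro x _
      rw [Finsupp.coe_finsetSum, Finset.sum_apply]
      simp only [Finsupp.single_apply]
      rw [Finset.sum_eq_single x'.2]
      · by_cases h2 : x = x'.1
        · have h3 : (x, x'.2) = x' := Prod.ext h2 rfl
          rw [if_pos h2, if_pos h3]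
        · have h3 : (x, x'.2) ≠ x' := fun h4 => h2 (congrArg Prod.fst h4)
          rw [if_neg h2, if_neg h3]
      · intro j _ hj
        rw [if_neg]
        intro h3
        exact hj (congrArg Prod.snd h3)
      · intro h2
        exact absurd (Finset.mem_univ _) h2
    rw [Finset.sum_congr rfl h2, Finset.sum_ite_eq']
  rw [h1]
  ring

set_option maxHeartbeats 400000 in
open Classical in
/-- the gauge relation -/
theorem gauge_rel {G Q A : Type} [Group G] [Group Q] [Countable Q] [Countable A] (K : Subfield ℂ)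
    {ι κ : Type} [Fintype ι] [Fintype κ] (D : GData G Q A) (M : Matrix ι κ (MonoidAlgebra K G)) :
    ∃ γ : A → ℝ, ∀ (w : Q × A →₀ ℤ) (B : Finset Q), (∀ y i j, ∀ g ∈ (M i j).coeff.support,
      pair w (tr y (D.c g)) = (if y ∈ B then 1 else 0) - (if y * D.q g ∈ B then 1 else 0)) →
      ∃ m : ℤ, (B.card : ℝ) * WeakAtiyah.rank M + (w.sum fun e k => (k : ℝ) * γ e.2) = m := by
  obtain ⟨S, hS⟩ := stmtGsys _ _ _ K ι κ D M
  set γ : A → ℝ := fun a => ∫ ω, S.gam ((1 : Q), a) ω ∂(mu _) with hγ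
  have hinv : ∀ (z : Q) (a : A), ∫ ω, S.gam (z, a) ω ∂(mu _) = γ a := by
    intro z a
    have h := (equi _ _ _ S ((Equiv.mulLeft z).prodCongr (Equiv.refl κ)) ((Equiv.mulLeft z).prodCongr (Equiv.refl ι))
      ((Equiv.mulLeft z).prodCongr (Equiv.refl A)) (fun i x => by
        obtain ⟨y, i⟩ := i
        obtain ⟨x, j⟩ := x
        rw [hS]
        exact stmtGeq _ _ _ K ι κ D M z y x i j)).2 (1, a)
    simpa using h
  refine ⟨γ, fun w B h => ?_⟩
  obtain ⟨m, hm⟩ := core _ _ _ S w _ (gauge_fin K ι κ D M S hS w B h)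
  set ψ : (Q × κ →₀ ℤ) →+ ℝ := Finsupp.liftAddHom fun e =>
    (AddMonoidHom.mulRight (∫ ω, S.nu (ph ω) e ∂(mu _))).comp (Int.castAddHom ℝ) with hψ
  have hψa : ∀ w, ψ w = w.sum fun e k => (k : ℝ) * ∫ ω, S.nu (ph ω) e ∂(mu _) := by
    intro w
    rw [hψ, Finsupp.liftAddHom_apply]
    rfl
  have h3 : ∀ x ∈ B, ψ (∑ j : κ, Finsupp.single (x, j) 1) = WeakAtiyah.rank M := by
    intro x _
    rw [← stmtRank _ _ _ K ι κ D M S hS x, map_sum]
    refine Finset.sum_congr rfl fun j _ => ?_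
    rw [hψ, Finsupp.liftAddHom_apply_single]
    simp
  rw [← hψa, map_sum, Finset.sum_congr rfl h3, Finset.sum_const, nsmul_eq_mul] at hm
  have h4 : (w.sum fun e k => (k : ℝ) * ∫ ω, S.gam e ω ∂(mu _)) = w.sum fun e k => (k : ℝ) * γ e.2 := by
    refine Finset.sum_congr rfl fun e _ => ?_
    show (w e : ℝ) * _ = (w e : ℝ) * _
    rw [← hinv e.1 e.2]
  rw [h4] at hm
  exact ⟨m, hm⟩

end Pool.GA
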