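import Pool.Agent.GA.Defs

/-!
# MP_585e9a_al, project GAUGE: statements of the rows
-/

set_option autoImplicit false

open MeasureTheory Complex Filter
open scoped ENNReal Topology

namespace Pool.GA

/-! ## Row ONE: one complex variable -/

section One
variable {ι : Type} [Fintype ι]

noncomputable def sq (s : ι → Polynomial ℂ) (u : ℂ) : ℝ := ∑ f, ‖(s f).eval u‖ ^ 2

noncomputable def ip (s t : ι → Polynomial ℂ) (u v : ℂ) : ℂ :=
  ∑ f, (s f).eval u * (starRingEnd ℂ) ((t f).eval v)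

/-- the logarithmic radial derivative of `|s|`, regularised -/
noncomputable def cc (s : ι → Polynomial ℂ) (ε : ℝ) (u : ℂ) : ℝ :=
  (u * ip (fun f => Polynomial.derivative (s f)) s u u).re / (sq s u + ε)

/-- the curvature `∂ ∂bar log |s|²` -/
noncomputable def kk (s : ι → Polynomial ℂ) (u : ℂ) : ℝ :=
  (sq s u * sq (fun f => Polynomial.derivative (s f)) u -
    ‖ip (fun f => Polynomial.derivative (s f)) s u u‖ ^ 2) / sq s u ^ 2

/-- mean over the unit circle -/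
noncomputable def cmean (g : ℂ → ℝ) : ℝ := ∫ θ, g (Complex.exp (θ * I)) ∂mu0

end One

/-- ONE1: the mean of `c` over the unit circle is the integral of the curvature over the unit disc -/
def StmtOne1 : Prop := ∀ (ι : Type) [Fintype ι] (s : ι → Polynomial ℂ),
  (∀ u : ℂ, ∃ f, (s f).eval u ≠ 0) →
  (∫⁻ r in Set.Ioo (0 : ℝ) 1, ∫⁻ θ in Set.Ioc (0 : ℝ) (2 * Real.pi),
    ENNReal.ofReal (r / Real.pi) * ENNReal.ofReal (kk s (pol r θ))) = ENNReal.ofReal (cmean (cc s 0))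

/-- ONE2: bounds for the regularised mean -/
def StmtOne2 : Prop := ∀ (ι : Type) [Fintype ι] (s : ι → Polynomial ℂ) (ε : ℝ) (N : ℕ), 0 < ε →
  (∀ f, (s f).natDegree ≤ N) → 0 ≤ cmean (cc s ε) ∧ cmean (cc s ε) ≤ N

/-- ONE3: bounds for the mean -/
def StmtOne3 : Prop := ∀ (ι : Type) [Fintype ι] (s : ι → Polynomial ℂ) (N : ℕ),
  (∀ u : ℂ, ∃ f, (s f).eval u ≠ 0) → (∀ f, (s f).natDegree ≤ N) →
  0 ≤ cmean (cc s 0) ∧ cmean (cc s 0) ≤ N

/-- ONE4: the curvature as a limit of angles -/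
def StmtOne4 : Prop := ∀ (ι : Type) [Fintype ι] (s : ι → Polynomial ℂ) (u : ℂ), sq s u ≠ 0 →
  Tendsto (fun n : ℕ => ((n : ℝ) + 1) ^ 2 * (1 - ‖ip s s u (u + 1 / ((n : ℂ) + 1))‖ ^ 2 /
    (sq s u * sq s (u + 1 / ((n : ℂ) + 1))))) atTop (𝓝 (kk s u))

/-- ONE5: removal of the regularisation -/
def StmtOne5 : Prop := ∀ (ι : Type) [Fintype ι] (s : ι → Polynomial ℂ),
  (∀ θ : ℝ, sq s (Complex.exp (θ * I)) ≠ 0) →
  Tendsto (fun n : ℕ => cmean (cc s (1 / ((n : ℝ) + 1)))) atTop (𝓝 (cmean (cc s 0)))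

/-- ONE6: a nonzero polynomial vanishes almost nowhere in the disc -/
def StmtOne6 : Prop := ∀ q : Polynomial ℂ, q ≠ 0 →
  ∀ᵐ r ∂(volume.restrict (Set.Ioo (0 : ℝ) 1)), ∀ᵐ θ ∂(volume.restrict (Set.Ioc (0 : ℝ) (2 * Real.pi))),
    q.eval (pol r θ) ≠ 0

/-! ## Row ALG: rank, primitive minors, weights -/

/-- ALG -/
def StmtAlg : Prop := ∀ (E ι κ : Type) [Fintype ι] [Fintype κ] (w : E → ℤ) (α : ι → ℤ) (o : κ → ℤ)
  (T : Matrix ι κ (MvPolynomial E ℂ)), (∀ i j, (T i j).IsWeightedHomogeneous w (α i - o j)) →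
  ∃ (ρ : ℕ) (I : Fin ρ → ι) (m : ℤ) (p : MvPolynomial E ℂ) (s : (Fin ρ → κ) → MvPolynomial E ℂ),
    Function.Injective I ∧ p ≠ 0 ∧ (∃ f, s f ≠ 0) ∧
    (∀ f, (T.submatrix I f).det = p * s f) ∧
    (∀ f, (s f).IsWeightedHomogeneous w (m - ∑ i, o (f i))) ∧
    (∀ d, (∀ f, d ∣ s f) → IsUnit d) ∧
    (∀ (I' : Fin (ρ + 1) → ι) (f' : Fin (ρ + 1) → κ), (T.submatrix I' f').det = 0)

/-- EUL: Euler identity -/
def StmtEul : Prop := ∀ (E : Type) (w : E →₀ ℤ) (m : ℤ) (s : MvPolynomial E ℂ),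
  s.IsWeightedHomogeneous w m →
  (w.sum fun e k => (k : MvPolynomial E ℂ) * (MvPolynomial.X e * MvPolynomial.pderiv e s)) = (m : MvPolynomial E ℂ) * s

/-- SLICE: a primitive vector has no zero on almost every complex line -/
def StmtSlice : Prop := ∀ (E κ : Type) [Fintype κ] (s : κ → MvPolynomial E ℂ) (e : E),
  (∀ d, (∀ f, d ∣ s f) → IsUnit d) →
  ∀ᵐ ω ∂(mu E), ∀ u : ℂ, ∃ f, MvPolynomial.eval (open Classical in Function.update (ph ω) e u) (s f) ≠ 0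

/-- NV: a nonzero polynomial is almost nowhere zero -/
def StmtNV : Prop := ∀ (E : Type) (p : MvPolynomial E ℂ), p ≠ 0 →
  ∀ᵐ ω ∂(mu E), MvPolynomial.eval (ph ω) p ≠ 0

/-- CB: Cauchy-Binet over all functions -/
def StmtCB : Prop := ∀ (κ : Type) [Fintype κ] (ρ : ℕ) (A B : Matrix (Fin ρ) κ ℂ),
  ∑ f : Fin ρ → κ, (A.submatrix id f).det * (starRingEnd ℂ) ((B.submatrix id f).det) =
    (ρ.factorial : ℂ) * (A * B.conjTranspose).det

/-- PROJ: trace of the projection onto a row space -/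
def StmtProj : Prop := ∀ (H κ : Type) [NormedAddCommGroup H] [InnerProductSpace ℂ H] [CompleteSpace H]
  [Fintype κ] (u : κ → H) (ρ : ℕ) (A : Matrix (Fin ρ) κ ℂ) (o : κ → ℤ) (V : Submodule ℂ H)
  [V.HasOrthogonalProjection], Orthonormal ℂ u →
  V = Submodule.span ℂ (Set.range fun i => ∑ k, A i k • u k) →
  (∃ f : Fin ρ → κ, (A.submatrix id f).det ≠ 0) →
  ∑ j, (o j : ℝ) * (inner ℂ (u j) (V.starProjection (u j)) : ℂ).re =
    (∑ f : Fin ρ → κ, ((∑ i, o (f i) : ℤ) : ℝ) * ‖(A.submatrix id f).det‖ ^ 2) /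
      ∑ f : Fin ρ → κ, ‖(A.submatrix id f).det‖ ^ 2

/-! ## Row LOC: local structure -/

namespace Sys
variable {X Y E : Type} (S : Sys X Y E)

open Classical in
/-- rows which involve a variable of `F` or a column of the support of `o` -/
noncomputable def JJ (F : Finset E) (o : X →₀ ℤ) : Finset Y :=
  F.biUnion S.B ∪ o.support.biUnion fun x => (S.col x).toFinset

end Sys

/-- PRES: presentation by a finite matrix -/
def StmtPres : Prop := ∀ (X Y E : Type) (S : Sys X Y E) (w : E →₀ ℤ) (o : X →₀ ℤ) (F : Finset E)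
  (ω' : E → ℝ), S.Gauge w o → w.support ⊆ F →
  ∃ (κ : Type) (_ : Fintype κ) (T : Matrix (S.JJ F o) κ (MvPolynomial E ℂ)) (α : S.JJ F o → ℤ)
    (oo : κ → ℤ),
    (∀ i j, (T i j).IsWeightedHomogeneous w (α i - oo j)) ∧
    (∀ i j, (T i j).vars ⊆ F) ∧
    (∀ (e : E) (N : ℕ) (i : S.JJ F o) (j : κ), (∀ x, MvPolynomial.degreeOf e (S.a i x) ≤ N) →
      MvPolynomial.degreeOf e (T i j) ≤ N) ∧
    (∀ z z' : E → ℂ, (∀ e ∉ F, z e = ph ω' e) → (∀ e ∉ F, z' e = ph ω' e) →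
      ∀ i i' : S.JJ F o, inner ℂ (S.b (S.JJ F o) z' i') (S.b (S.JJ F o) z i) =
        ∑ k, MvPolynomial.eval z (T i k) * (starRingEnd ℂ) (MvPolynomial.eval z' (T i' k))) ∧
    (∀ z : E → ℂ, (∀ e ∉ F, z e = ph ω' e) → ∀ (ρ : ℕ) (I : Fin ρ → S.JJ F o), 
      (∃ f : Fin ρ → κ, MvPolynomial.eval z (T.submatrix I f).det ≠ 0) →
      (∀ (I' : Fin (ρ + 1) → S.JJ F o) (f' : Fin (ρ + 1) → κ),
        MvPolynomial.eval z (T.submatrix I' f').det = 0) →
      (o.sum fun x k => (k : ℝ) * S.nu z x) =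
        (∑ f : Fin ρ → κ, ((∑ i, oo (f i) : ℤ) : ℝ) * ‖MvPolynomial.eval z (T.submatrix I f).det‖ ^ 2) /
          ∑ f : Fin ρ → κ, ‖MvPolynomial.eval z (T.submatrix I f).det‖ ^ 2)

/-- ANG: the angle does not depend on the presentation -/
def StmtAng : Prop := ∀ (X Y E : Type) (S : Sys X Y E) (e : E) (J K L : Finset Y) (z z' : E → ℂ),
  S.B e ⊆ J → K ⊆ S.B e → L ⊆ J → (∀ e' ≠ e, z e' = z' e') →
  S.gram (S.B e) K z z ≠ 0 → S.gram (S.B e) K z' z' ≠ 0 →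
  (∀ K' ⊆ S.B e, K.card < K'.card → S.gram (S.B e) K' z z = 0) →
  (∀ K' ⊆ S.B e, K.card < K'.card → S.gram (S.B e) K' z' z' = 0) →
  S.gram J L z z ≠ 0 → S.gram J L z' z' ≠ 0 →
  (∀ L' ⊆ J, L.card < L'.card → S.gram J L' z z = 0) →
  (∀ L' ⊆ J, L.card < L'.card → S.gram J L' z' z' = 0) →
  S.ang (S.B e) K z z' = S.ang J L z z'

/-- ANGGEN: for one variable, the generic rank of the rows of `B e` and of `J` differ by a constant, so that a
generic basis for `J` comes with a generic basis for `B e` -/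
def StmtAngGen : Prop := ∀ (X Y E : Type) (S : Sys X Y E) (e : E) (J L : Finset Y) (z : E → ℂ),
  S.B e ⊆ J → L ⊆ J → S.gram J L z z ≠ 0 → (∀ L' ⊆ J, L.card < L'.card → S.gram J L' z z = 0) →
  ∃ K ⊆ S.B e, S.IsBas e K z ∧ ∀ z' : E → ℂ, (∀ e' ≠ e, z e' = z' e') →
    S.gram J L z' z' ≠ 0 → (∀ L' ⊆ J, L.card < L'.card → S.gram J L' z' z' = 0) →
    ∀ K' ⊆ S.B e, K.card < K'.card → S.gram (S.B e) K' z' z' = 0

/-! ## Row MEAS -/

/-- MNU -/
def StmtMNu : Prop := ∀ (X Y E : Type) [Countable X] [Countable Y] [Countable E] (S : Sys X Y E) (x : X),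
  Measurable fun ω : E → ℝ => S.nu (ph ω) x

/-- MGAM -/
def StmtMGam : Prop := ∀ (X Y E : Type) [Countable X] [Countable Y] [Countable E] (S : Sys X Y E) (e : E),
  Measurable (S.gamE e)

/-! ## Row PROB -/

/-- RS1: resampling one coordinate -/
def StmtRS1 : Prop := ∀ (E : Type) (e : E),
  (mu0.prod (mu E)).map (fun p : ℝ × (E → ℝ) => open Classical in Function.update p.2 e p.1) = mu E

/-- RSF: resampling finitely many coordinates -/
def StmtRSF : Prop := ∀ (E : Type) (F : Finset E),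
  ((mu E).prod (mu E)).map (fun p : (E → ℝ) × (E → ℝ) => open Classical in F.piecewise p.1 p.2) = mu E

/-- GLOB: the 0-1 law in the form which we need -/
def StmtGlob : Prop := ∀ (E : Type) [Countable E] (f : (E → ℝ) → ℝ) (C : ℝ) (F₀ : Finset E),
  Measurable f → (∀ ω, |f ω| ≤ C) →
  (∀ F : Finset E, F₀ ⊆ F → ∀ ω', ∃ m : ℤ, ∫ ζ, f (open Classical in F.piecewise ζ ω') ∂(mu E) = m) →
  ∃ m : ℤ, ∫ ω, f ω ∂(mu E) = m

/-- PERM: invariance under permutations of the variables -/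
def StmtPerm : Prop := ∀ (E : Type) (g : Equiv.Perm E), (mu E).map (fun ω e => ω (g e)) = mu E

/-! ## Row CORE (assembly) -/

/-- BD: uniform bound of the edge term -/
def StmtBd : Prop := ∀ (X Y E : Type) (S : Sys X Y E) (e : E), ∃ N : ℕ, ∀ ω, S.gamE e ω ≤ N

/-- LOCAL -/
def StmtLocal : Prop := ∀ (X Y E : Type) [Countable X] [Countable Y] [Countable E] (S : Sys X Y E)
  (w : E →₀ ℤ) (o : X →₀ ℤ), S.Gauge w o → ∀ F : Finset E, w.support ⊆ F → ∀ ω' : E → ℝ,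
  ∃ m : ℤ, ∫ ζ, S.Phi w o (open Classical in F.piecewise ζ ω') ∂(mu E) = m

/-- CORE -/
def StmtCore : Prop := ∀ (X Y E : Type) [Countable X] [Countable Y] [Countable E] (S : Sys X Y E)
  (w : E →₀ ℤ) (o : X →₀ ℤ), S.Gauge w o → ∃ m : ℤ,
  (o.sum fun x k => (k : ℝ) * ∫ ω, S.nu (ph ω) x ∂(mu E)) + (w.sum fun e k => (k : ℝ) * ∫ ω, S.gam e ω ∂(mu E)) = m

/-- EQUI: equivariance -/
def StmtEqui : Prop := ∀ (X Y E : Type) [Countable X] [Countable Y] [Countable E] (S : Sys X Y E)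
  (gx : Equiv.Perm X) (gy : Equiv.Perm Y) (ge : Equiv.Perm E),
  (∀ i x, S.a (gy i) (gx x) = MvPolynomial.rename ge (S.a i x)) →
  (∀ x, ∫ ω, S.nu (ph ω) (gx x) ∂(mu E) = ∫ ω, S.nu (ph ω) x ∂(mu E)) ∧
  ∀ e, ∫ ω, S.gam (ge e) ω ∂(mu E) = ∫ ω, S.gam e ω ∂(mu E)

end Pool.GA
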