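import Pool.Agent.GA.GrDefs

/-!
# MP_585e9a_al, project FRR, row TREE: the data of `P / [R, R]` for a group `P` acting on a tree
-/

set_option autoImplicit false

namespace Pool.GA

namespace TreeData

section act
variable {P V : Type} [Group P] [MulAction P V] {T : SimpleGraph V}

/-- the action on an invariant orientation -/
@[reducible] def dAct (hadj : ∀ (g : P) v w, T.Adj v w → T.Adj (g • v) (g • w)) (o : Set T.Dart)
    (ho : ∀ (g : P) (d d' : T.Dart), d'.fst = g • d.fst → d'.snd = g • d.snd → d ∈ o → d' ∈ o) :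
    MulAction P o where
  smul g d := ⟨⟨(g • d.1.fst, g • d.1.snd), hadj g _ _ d.1.adj⟩, ho g d.1 _ rfl rfl d.2⟩
  one_smul d := by
    apply Subtype.ext
    apply SimpleGraph.Dart.ext
    exact Prod.ext (one_smul _ _) (one_smul _ _)
  mul_smul g h d := by
    apply Subtype.ext
    apply SimpleGraph.Dart.ext
    exact Prod.ext (mul_smul _ _ _) (mul_smul _ _ _)

end act

section chain
variable {V : Type} {T : SimpleGraph V} {o : Set T.Dart}

/-- boundary of a chain of positively oriented darts -/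
noncomputable def bdo (o : Set T.Dart) (c : o →₀ ℤ) : V →₀ ℤ :=
  c.mapDomain (fun d => d.1.snd) - c.mapDomain (fun d => d.1.fst)

theorem bdo_add (c d : o →₀ ℤ) : bdo o (c + d) = bdo o c + bdo o d := by
  unfold bdo
  rw [Finsupp.mapDomain_add, Finsupp.mapDomain_add]
  abel

variable (hch : ∀ u v : V, ∃! c : o →₀ ℤ, bdo o c = Finsupp.single v 1 - Finsupp.single u 1)

/-- the chain between two vertices -/
noncomputable def ch (u v : V) : o →₀ ℤ := (hch u v).choose

theorem ch_bd (u v : V) : bdo o (ch hch u v) = Finsupp.single v 1 - Finsupp.single u 1 :=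
  (hch u v).choose_spec.1

theorem ch_eq {u v : V} {c : o →₀ ℤ} (h : bdo o c = Finsupp.single v 1 - Finsupp.single u 1) :
    c = ch hch u v := (hch u v).choose_spec.2 c h

theorem ch_add (u v w : V) : ch hch u w = ch hch u v + ch hch v w := by
  symm
  apply ch_eq
  rw [bdo_add, ch_bd, ch_bd]
  abel

end chain

section main
variable {P V : Type} [Group P] [MulAction P V] {T : SimpleGraph V} {o : Set T.Dart}
  [MulAction P o]

theorem bdo_smul (hs : ∀ (g : P) (d : o), (g • d).1.fst = g • d.1.fst)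
    (ht : ∀ (g : P) (d : o), (g • d).1.snd = g • d.1.snd) (g : P) (c : o →₀ ℤ) :
    bdo o (c.mapDomain (g • ·)) = (bdo o c).mapDomain (g • ·) := by
  unfold bdo
  rw [← Finsupp.mapDomain_comp, ← Finsupp.mapDomain_comp, Finsupp.mapDomain_sub,
    ← Finsupp.mapDomain_comp, ← Finsupp.mapDomain_comp]
  congr 1
  · congr 1
    funext d
    exact ht g d
  · congr 1
    funext d
    exact hs g d

theorem ch_smul (hs : ∀ (g : P) (d : o), (g • d).1.fst = g • d.1.fst)
    (ht : ∀ (g : P) (d : o), (g • d).1.snd = g • d.1.snd)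
    (hch : ∀ u v : V, ∃! c : o →₀ ℤ, bdo o c = Finsupp.single v 1 - Finsupp.single u 1) (g : P) (u v : V) :
    (ch hch u v).mapDomain (g • ·) = ch hch (g • u) (g • v) := by
  apply ch_eq
  rw [bdo_smul hs ht, ch_bd, Finsupp.mapDomain_sub, Finsupp.mapDomain_single, Finsupp.mapDomain_single]

/-- an additive function on the boundary of a chain -/
theorem sum_bdo {B : Type*} [AddCommGroup B] (f : V → B) (c : o →₀ ℤ) :
    (bdo o c).sum (fun v k => k • f v) = c.sum fun d k => k • (f d.1.snd - f d.1.fst) := by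
  have h0 : ∀ v : V, (0 : ℤ) • f v = 0 := fun v => zero_smul _ _
  have h1 : ∀ (v : V) (k l : ℤ), (k + l) • f v = k • f v + l • f v := fun v k l => add_smul _ _ _
  have h2 : (bdo o c).sum (fun v k => k • f v) =
      (c.mapDomain (fun d => d.1.snd)).sum (fun v k => k • f v) -
        (c.mapDomain (fun d => d.1.fst)).sum (fun v k => k • f v) := by
    unfold bdo
    exact Finsupp.sum_sub_index fun v k l => sub_smul _ _ _
  rw [h2, Finsupp.sum_mapDomain_index h0 h1, Finsupp.sum_mapDomain_index h0 h1, ← Finsupp.sum_sub]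
  refine Finsupp.sum_congr fun d _ => ?_
  rw [smul_sub]

end main

section R
variable {P V : Type} [Group P] [MulAction P V] (R : Subgroup P)

/-- an `R`-equivariant function to the abelianization -/
theorem exists_f (hfree : ∀ r ∈ R, ∀ v : V, r • v = v → r = 1)
    (hO : ∀ x y : V, Orb.mk R x = Orb.mk R y ↔ ∃ r ∈ R, r • y = x) :
    ∃ f : V → Additive (Abelianization R), ∀ (r : R) (v : V),
      f ((r : P) • v) = Additive.ofMul (Abelianization.of r) + f v := by
  classical
  -- representatives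
  have hrep : ∀ v : V, ∃ r : R, (r : P) • (Quotient.out (Orb.mk R v)) = v := by
    intro v
    have h1 : Orb.mk R v = Orb.mk R (Quotient.out (Orb.mk R v)) :=
      (Quotient.out_eq (Orb.mk R v)).symm
    obtain ⟨r, hr, h⟩ := (hO _ _).1 h1
    exact ⟨⟨r, hr⟩, h⟩
  choose ρ hρ using hrep
  refine ⟨fun v => Additive.ofMul (Abelianization.of (ρ v)), fun r v => ?_⟩
  have h1 : Orb.mk R ((r : P) • v) = Orb.mk R v := (hO _ _).2 ⟨r, r.2, rfl⟩
  have h2 : ρ ((r : P) • v) = r * ρ v := by
    have h3 := hρ ((r : P) • v)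
    rw [h1] at h3
    have h4 : ((r * ρ v : R) : P) • (Quotient.out (Orb.mk R v)) = (r : P) • v := by
      rw [Subgroup.coe_mul, mul_smul, hρ]
    have h5 : (((r * ρ v)⁻¹ * ρ ((r : P) • v) : R) : P) • (Quotient.out (Orb.mk R v)) =
        Quotient.out (Orb.mk R v) := by
      rw [Subgroup.coe_mul, mul_smul, h3, ← h4, Subgroup.coe_inv, inv_smul_smul]
    have h6 := hfree _ ((r * ρ v)⁻¹ * ρ ((r : P) • v) : R).2 _ h5
    have h7 : (r * ρ v)⁻¹ * ρ ((r : P) • v) = 1 := Subtype.ext h6
    exact (inv_mul_eq_one.1 h7).symm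
  show Additive.ofMul (Abelianization.of (ρ ((r : P) • v))) = _
  rw [h2, map_mul, ofMul_mul]

end R

end TreeData

open TreeData in
theorem tree_of (hQS : StmtQS) (hCh : StmtCh) (hOri : StmtOri) : StmtTree := by
  classical
  intro P V _ _ T hT hadj hinv R _ hfree
  obtain ⟨o, ho1, ho2⟩ := hOri P V T hadj hinv
  let iPo : MulAction P o := dAct hadj o ho2
  have hs : ∀ (g : P) (d : o), (g • d).1.fst = g • d.1.fst := fun g d => rfl
  have ht : ∀ (g : P) (d : o), (g • d).1.snd = g • d.1.snd := fun g d => rfl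
  have hch : ∀ u v : V, ∃! c : o →₀ ℤ, bdo o c = Finsupp.single v 1 - Finsupp.single u 1 :=
    hCh V T hT o ho1
  obtain ⟨hOV, iV, hiV, hcard⟩ := hQS P V R
  obtain ⟨hOo, iE, hiE, -⟩ := hQS P o R
  have hne : Nonempty V := hT.connected.nonempty
  obtain ⟨v0⟩ := hne
  -- source and target
  have hsw : ∀ a b : o, (MulAction.orbitRel R o).r a b → Orb.mk R a.1.fst = Orb.mk R b.1.fst := by
    intro a b h
    obtain ⟨r, hr, h'⟩ := (hOo a b).1 (Quotient.sound h)
    rw [hOV]
    exact ⟨r, hr, by rw [← h', hs]⟩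
  have htw : ∀ a b : o, (MulAction.orbitRel R o).r a b → Orb.mk R a.1.snd = Orb.mk R b.1.snd := by
    intro a b h
    obtain ⟨r, hr, h'⟩ := (hOo a b).1 (Quotient.sound h)
    rw [hOV]
    exact ⟨r, hr, by rw [← h', ht]⟩
  let sE : Orb R o → Orb R V := Quotient.lift (fun a : o => Orb.mk R a.1.fst) hsw
  let tE : Orb R o → Orb R V := Quotient.lift (fun a : o => Orb.mk R a.1.snd) htw
  have hsE : ∀ d : o, sE (Orb.mk R d) = Orb.mk R d.1.fst := fun d => rfl
  have htE : ∀ d : o, tE (Orb.mk R d) = Orb.mk R d.1.snd := fun d => rfl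
  -- the crossed homomorphism on `P`
  let cP : P → (Orb R o →₀ ℤ) := fun p => (ch hch v0 (p • v0)).mapDomain (Orb.mk R)
  have hmk : ∀ (p : P) (c : o →₀ ℤ), (c.mapDomain (p • ·)).mapDomain (Orb.mk R) =
      (c.mapDomain (Orb.mk R)).mapDomain ((QuotientGroup.mk p : P ⧸ R) • ·) := by
    intro p c
    rw [← Finsupp.mapDomain_comp, ← Finsupp.mapDomain_comp]
    congr 1
    funext d
    exact (hiE p d).symm
  have hcP : ∀ p p' : P, cP (p * p') = cP p + (cP p').mapDomain ((QuotientGroup.mk p : P ⧸ R) • ·) := by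
    intro p p'
    show (ch hch v0 ((p * p') • v0)).mapDomain (Orb.mk R) = _
    rw [ch_add hch v0 (p • v0), Finsupp.mapDomain_add, mul_smul, ← ch_smul hs ht hch p v0 (p' • v0), hmk]
  have hone : ∀ (r : P), r ∈ R → ∀ c : Orb R o →₀ ℤ,
      c.mapDomain ((QuotientGroup.mk r : P ⧸ R) • ·) = c := by
    intro r hr c
    have h1 : (QuotientGroup.mk r : P ⧸ R) = 1 := (QuotientGroup.eq_one_iff r).2 hr
    rw [h1]
    have h2 : (fun x : Orb R o => (1 : P ⧸ R) • x) = id := by
      funext x
      exact one_smul _ _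
    rw [h2, Finsupp.mapDomain_id]
  have hcR : ∀ r ∈ R, ∀ p : P, cP (r * p) = cP r + cP p := by
    intro r hr p
    rw [hcP, hone r hr]
  have hc1 : cP 1 = 0 := by
    have h := hcR 1 R.one_mem 1
    rw [mul_one] at h
    exact left_eq_add.1 h
  have hcinv : ∀ r ∈ R, cP r⁻¹ = - cP r := by
    intro r hr
    have h := hcR r hr r⁻¹
    rw [mul_inv_cancel, hc1] at h
    exact (neg_eq_of_add_eq_zero_right h.symm).symm
  -- it vanishes on the commutators
  let K0 : Subgroup P :=
    { carrier := {p | p ∈ R ∧ cP p = 0}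
      one_mem' := ⟨R.one_mem, hc1⟩
      mul_mem' := by
        rintro a b ⟨ha, ha'⟩ ⟨hb, hb'⟩
        exact ⟨R.mul_mem ha hb, by rw [hcR a ha, ha', hb', add_zero]⟩
      inv_mem' := by
        rintro a ⟨ha, ha'⟩
        exact ⟨R.inv_mem ha, by rw [hcinv a ha, ha', neg_zero]⟩ }
  have hK0 : ⁅R, R⁆ ≤ K0 := by
    rw [Subgroup.commutator_le]
    intro a ha b hb
    refine ⟨?_, ?_⟩
    · rw [commutatorElement_def]
      exact R.mul_mem (R.mul_mem (R.mul_mem ha hb) (R.inv_mem ha)) (R.inv_mem hb)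
    · rw [commutatorElement_def, hcR _ (R.mul_mem (R.mul_mem ha hb) (R.inv_mem ha)),
        hcR _ (R.mul_mem ha hb), hcR a ha, hcinv a ha, hcinv b hb]
      abel
  have hle : ⁅R, R⁆ ≤ R := fun x hx => (hK0 hx).1
  -- the homomorphism to `P / R`
  let qG : P ⧸ ⁅R, R⁆ →* P ⧸ R := QuotientGroup.map ⁅R, R⁆ R (MonoidHom.id P) hle
  have hqG : ∀ p : P, qG (QuotientGroup.mk p) = QuotientGroup.mk p := fun p => rfl
  -- the crossed homomorphism on the quotient
  have hcw : ∀ a b : P, (QuotientGroup.leftRel ⁅R, R⁆).r a b → cP a = cP b := by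
    intro a b h
    have h1 : a⁻¹ * b ∈ ⁅R, R⁆ := QuotientGroup.leftRel_apply.1 h
    have h2 := (hK0 h1).2
    have h3 : cP b = cP a + (cP (a⁻¹ * b)).mapDomain ((QuotientGroup.mk a : P ⧸ R) • ·) := by
      rw [← hcP, mul_inv_cancel_left]
    rw [h3, h2, Finsupp.mapDomain_zero, add_zero]
  let cG : P ⧸ ⁅R, R⁆ → (Orb R o →₀ ℤ) := Quotient.lift cP hcw
  have hcG : ∀ p : P, cG (QuotientGroup.mk p) = cP p := fun p => rfl
  -- injectivity
  have hinj : ∀ g, qG g = 1 → cG g = 0 → g = 1 := by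
    intro g h1 h2
    obtain ⟨p, rfl⟩ := QuotientGroup.mk_surjective g
    rw [hqG] at h1
    rw [hcG] at h2
    have hp : p ∈ R := (QuotientGroup.eq_one_iff p).1 h1
    obtain ⟨f, hf⟩ := exists_f R hfree hOV
    have hlw : ∀ a b : o, (MulAction.orbitRel R o).r a b →
        f a.1.snd - f a.1.fst = f b.1.snd - f b.1.fst := by
      intro a b h
      obtain ⟨r, hr, h'⟩ := (hOo a b).1 (Quotient.sound h)
      rw [← h', hs, ht, hf ⟨r, hr⟩, hf ⟨r, hr⟩]
      abel
    let lam : Orb R o → Additive (Abelianization R) :=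
      Quotient.lift (fun a : o => f a.1.snd - f a.1.fst) hlw
    have h3 : (cP p).sum (fun e k => k • lam e) = 0 := by
      rw [h2, Finsupp.sum_zero_index]
    have h4 : (cP p).sum (fun e k => k • lam e) =
        (ch hch v0 (p • v0)).sum (fun d k => k • (f d.1.snd - f d.1.fst)) :=
      Finsupp.sum_mapDomain_index (fun e => zero_smul _ _) fun e k l => add_smul _ _ _
    have h5 : (bdo o (ch hch v0 (p • v0))).sum (fun v k => k • f v) = f (p • v0) - f v0 := by
      have e1 : ∀ v : V, (Finsupp.single v (1 : ℤ)).sum (fun v k => k • f v) = f v := by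
        intro v
        rw [Finsupp.sum_single_index (h := fun v k => k • f v) (zero_smul _ _), one_smul]
      rw [ch_bd, Finsupp.sum_sub_index fun v k l => sub_smul _ _ _, e1, e1]
    rw [h4, ← sum_bdo, h5, hf ⟨p, hp⟩, add_sub_cancel_right] at h3
    have h6 : Abelianization.of (⟨p, hp⟩ : R) = 1 := h3
    have h7 : (⟨p, hp⟩ : R) ∈ _root_.commutator R := by
      rw [← Abelianization.ker_of, MonoidHom.mem_ker]
      exact h6
    have h8 : p ∈ ⁅R, R⁆ := by
      rw [← Subgroup.map_subtype_commutator]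
      exact ⟨_, h7, rfl⟩
    exact (QuotientGroup.eq_one_iff p).2 h8
  refine ⟨Orb R o, iV, iE,
    { s := sE
      t := tE
      s_smul := ?_
      t_smul := ?_
      v := Orb.mk R v0
      q := qG
      c := cG
      mul := ?_
      inj := hinj
      bd := ?_ }, ?_, ?_⟩
  · intro y e
    obtain ⟨p, rfl⟩ := QuotientGroup.mk_surjective y
    obtain ⟨d, rfl⟩ : ∃ d, Orb.mk R d = e := Quotient.exists_rep e
    rw [hiE, hsE, hsE, hiV, hs]
  · intro y e
    obtain ⟨p, rfl⟩ := QuotientGroup.mk_surjective y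
    obtain ⟨d, rfl⟩ : ∃ d, Orb.mk R d = e := Quotient.exists_rep e
    rw [hiE, htE, htE, hiV, ht]
  · intro g h
    obtain ⟨p, rfl⟩ := QuotientGroup.mk_surjective g
    obtain ⟨p', rfl⟩ := QuotientGroup.mk_surjective h
    rw [← QuotientGroup.mk_mul, hcG, hcG, hcG, hqG, hcP]
  · intro g
    obtain ⟨p, rfl⟩ := QuotientGroup.mk_surjective g
    rw [hcG, hqG, hiV]
    have h1 := ch_bd hch v0 (p • v0)
    have h2 := congrArg (fun c : V →₀ ℤ => c.mapDomain (Orb.mk R)) h1
    rw [Finsupp.mapDomain_sub, Finsupp.mapDomain_single, Finsupp.mapDomain_single] at h2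
    rw [← h2]
    unfold bdo
    show ((ch hch v0 (p • v0)).mapDomain (Orb.mk R)).mapDomain tE -
      ((ch hch v0 (p • v0)).mapDomain (Orb.mk R)).mapDomain sE = _
    rw [Finsupp.mapDomain_sub, ← Finsupp.mapDomain_comp, ← Finsupp.mapDomain_comp,
      ← Finsupp.mapDomain_comp, ← Finsupp.mapDomain_comp]
    rfl
  · intro hV
    have h1 : Countable T.Dart := by
      refine Function.Injective.countable (f := fun d : T.Dart => (d.fst, d.snd)) fun a b h => ?_
      exact SimpleGraph.Dart.ext _ _ h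
    have h2 : Countable o := inferInstance
    exact (Quotient.mk_surjective (s := MulAction.orbitRel R o)).countable
  · intro v
    exact hcard v fun r hr h => hfree r hr v h

end Pool.GA
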