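import Pool.Agent.GA.Graph
import Pool.Agent.GA.TreeData
import Pool.Agent.GA.QS
import Pool.Agent.GA.Ch
import Pool.Agent.GA.Ori

/-!
# MP_585e9a_al, project FRR: groups acting on trees with finite stabilisers, modulo `[R, R]`
-/

set_option autoImplicit false

namespace Pool.GA

theorem tree : StmtTree := tree_of qs stmtCh stmtOri

theorem treeMain : StmtTreeMain := by
  intro P V _ _ _ _ T hT hA hI n hn hdvd R _ hR K
  obtain ⟨E', iV, iE, D, hE, hcard⟩ := tree P V T hT hA hI R hR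
  have hE' := hE inferInstance
  have hQ : Countable (P ⧸ R) := (QuotientGroup.mk_surjective (s := R)).countable
  refine graph _ _ _ _ D n hn (fun v => ?_) K
  obtain ⟨v, rfl⟩ := Quotient.mk_surjective v
  have h := hcard v
  unfold Orb.mk at h
  rw [h]
  exact hdvd v

/-- a finite subgroup which meets `R` trivially embeds in `P / [R, R]` -/
theorem exists_image {P : Type} [Group P] (R : Subgroup P) [R.Normal] (S : Subgroup P) [Finite S]
    (hS : ∀ g ∈ S, g ∈ R → g = 1) :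
    ∃ F : Subgroup (P ⧸ ⁅R, R⁆), Finite F ∧ Nat.card F = Nat.card S := by
  have hi : Function.Injective ((QuotientGroup.mk' ⁅R, R⁆).comp S.subtype) := by
    rw [injective_iff_map_eq_one]
    intro g hg
    exact Subtype.ext (hS g g.2 (Subgroup.commutator_le_left R R ((QuotientGroup.eq_one_iff _).1 hg)))
  refine ⟨((QuotientGroup.mk' ⁅R, R⁆).comp S.subtype).range, ?_, ?_⟩
  · exact Finite.of_equiv _ (MonoidHom.ofInjective hi).toEquiv
  · exact Nat.card_congr (MonoidHom.ofInjective hi).toEquiv.symm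

/-- the strong Atiyah conjecture for `P / [R, R]` -/
theorem tree_iff {P V : Type} [Group P] [Countable P] [Countable V] [MulAction P V] (T : SimpleGraph V)
    (hT : T.IsTree) (hA : ∀ (g : P) v w, T.Adj v w → T.Adj (g • v) (g • w))
    (hI : ∀ (g : P) v w, T.Adj v w → g • v = w → g • w ≠ v)
    (hfin : ∀ v : V, Finite (MulAction.stabilizer P v)) (R : Subgroup P) [R.Normal]
    (hR : ∀ r ∈ R, ∀ v : V, r • v = v → r = 1) (K : Subfield ℂ) (m : ℕ) (hm : 0 < m) :
    (WeakAtiyah.RanksIn K (P ⧸ ⁅R, R⁆) m ↔ ∀ F : Subgroup (P ⧸ ⁅R, R⁆), Finite F → Nat.card F ∣ m) ∧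
    (WeakAtiyah.RanksIn K (P ⧸ ⁅R, R⁆) m ↔ ∀ v : V, Nat.card (MulAction.stabilizer P v) ∣ m) := by
  have h1 : WeakAtiyah.RanksIn K (P ⧸ ⁅R, R⁆) m → ∀ F : Subgroup (P ⧸ ⁅R, R⁆), Finite F → Nat.card F ∣ m :=
    fun h F hF => card_dvd hm h F
  have h2 : (∀ F : Subgroup (P ⧸ ⁅R, R⁆), Finite F → Nat.card F ∣ m) →
      ∀ v : V, Nat.card (MulAction.stabilizer P v) ∣ m := by
    intro h v
    have := hfin v
    obtain ⟨F, hF, hc⟩ := exists_image R (MulAction.stabilizer P v) fun g hg hg' => hR g hg' v hg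
    rw [← hc]
    exact h F hF
  have h3 : (∀ v : V, Nat.card (MulAction.stabilizer P v) ∣ m) → WeakAtiyah.RanksIn K (P ⧸ ⁅R, R⁆) m :=
    fun h => treeMain P V T hT hA hI m hm h R hR K
  exact ⟨⟨h1, fun h => h3 (h2 h)⟩, ⟨fun h => h2 (h1 h), h3⟩⟩

/-- free groups -/
theorem free_main (α : Type) [Countable α] (R : Subgroup (FreeGroup α)) [R.Normal] (K : Subfield ℂ) :
    WeakAtiyah.Integral K (FreeGroup α ⧸ ⁅R, R⁆) :=
  mainThm (FreeGroup α) α Empty (fun _ => Unit) (isFreeFreeGroup α _) R 1 (fun i => i.elim) Nat.one_pos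
    (fun i => i.elim) K

end Pool.GA
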